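import Pool.Agent.BEO.LookS

/-!
# BEO-CompS: specification of `comp`
-/

set_option autoImplicit false

namespace Pool.Agent.BEO

variable {X : Type} [DecidableEq X]

private theorem mrg_fst (lab : List (X × X)) (r : X × X) : (mrg lab r).map Prod.fst = lab.map Prod.fst := by
  unfold mrg
  rw [List.map_map]
  rfl

theorem comp_fst (pts : List X) (rel : List (X × X)) : (comp pts rel).map Prod.fst = pts := by
  unfold comp
  have h : ∀ lab : List (X × X), (rel.foldl mrg lab).map Prod.fst = lab.map Prod.fst := by
    induction rel with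
    | nil => intro lab; rfl
    | cons r rel ih =>
      intro lab
      rw [List.foldl_cons, ih, mrg_fst]
  rw [h, List.map_map]
  exact List.map_id pts

/-- one step on label functions -/
private def stL (lam : X → X) (r : X × X) (x : X) : X := if lam x = lam r.1 then lam r.2 else lam x

private theorem look_map (pts : List X) (lam : X → X) (x d : X) (hx : x ∈ pts) :
    look (pts.map fun x => (x, lam x)) x d = lam x := by
  refine look_eq _ _ _ _ (List.mem_map.2 ⟨x, hx, rfl⟩) ?_
  intro y' hy'
  obtain ⟨z, -, hz⟩ := List.mem_map.1 hy'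
  have h1 : z = x := congrArg Prod.fst hz
  have h2 : lam z = y' := congrArg Prod.snd hz
  rw [← h2, h1]

private theorem mrg_map (pts : List X) (lam : X → X) (r : X × X) (h1 : r.1 ∈ pts) (h2 : r.2 ∈ pts) :
    mrg (pts.map fun x => (x, lam x)) r = pts.map fun x => (x, stL lam r x) := by
  unfold mrg
  rw [look_map pts lam _ _ h1, look_map pts lam _ _ h2, List.map_map]
  refine List.map_congr_left fun x _ => ?_
  show (x, if decide (lam x = lam r.1) = true then lam r.2 else lam x) = (x, stL lam r x)
  unfold stL
  by_cases h : lam x = lam r.1 <;> simp [h]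

private theorem comp_map (pts : List X) (rel : List (X × X)) (hrel : ∀ r ∈ rel, r.1 ∈ pts ∧ r.2 ∈ pts)
    (lam : X → X) : rel.foldl mrg (pts.map fun x => (x, lam x)) = pts.map fun x => (x, rel.foldl stL lam x) := by
  induction rel generalizing lam with
  | nil => rfl
  | cons r rel ih =>
    have hr := hrel r (List.mem_cons_self)
    rw [List.foldl_cons, mrg_map pts lam r hr.1 hr.2, ih (fun r' h' => hrel r' (List.mem_cons_of_mem _ h'))]
    rfl

private theorem stL_iff (lam : X → X) (r : X × X) (E0 : X → X → Prop)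
    (h : ∀ x y, lam x = lam y ↔ Relation.EqvGen E0 x y) (x y : X) :
    stL lam r x = stL lam r y ↔ Relation.EqvGen (fun a b => E0 a b ∨ (a, b) = r) x y := by
  have hm : ∀ {a b}, Relation.EqvGen E0 a b → Relation.EqvGen (fun a b => E0 a b ∨ (a, b) = r) a b :=
    fun {a b} hab => Relation.EqvGen.mono (fun _ _ h => Or.inl h) a b hab
  have hr : Relation.EqvGen (fun a b => E0 a b ∨ (a, b) = r) r.1 r.2 := Relation.EqvGen.rel _ _ (Or.inr rfl)
  constructor
  · intro hxy
    unfold stL at hxy
    by_cases h1 : lam x = lam r.1 <;> by_cases h2 : lam y = lam r.1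
    · exact hm ((h x y).1 (h1.trans h2.symm))
    · rw [if_pos h1, if_neg h2] at hxy
      exact Relation.EqvGen.trans _ _ _ (hm ((h x r.1).1 h1))
        (Relation.EqvGen.trans _ _ _ hr (hm ((h r.2 y).1 hxy)))
    · rw [if_neg h1, if_pos h2] at hxy
      exact Relation.EqvGen.trans _ _ _ (hm ((h x r.2).1 hxy))
        (Relation.EqvGen.trans _ _ _ (Relation.EqvGen.symm _ _ hr) (hm ((h r.1 y).1 h2.symm)))
    · rw [if_neg h1, if_neg h2] at hxy
      exact hm ((h x y).1 hxy)
  · intro hxy
    induction hxy with
    | rel a b hab =>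
      rcases hab with hab | hab
      · have h1 : lam a = lam b := (h a b).2 (Relation.EqvGen.rel _ _ hab)
        unfold stL
        rw [h1]
      · subst hab
        unfold stL
        rw [if_pos rfl]
        split_ifs <;> rfl
    | refl a => rfl
    | symm a b _ ih => exact ih.symm
    | trans a b c _ _ ih1 ih2 => exact ih1.trans ih2

private theorem foldl_iff (rel : List (X × X)) (lam : X → X) (E0 : X → X → Prop)
    (h : ∀ x y, lam x = lam y ↔ Relation.EqvGen E0 x y) (x y : X) :
    rel.foldl stL lam x = rel.foldl stL lam y ↔ Relation.EqvGen (fun a b => E0 a b ∨ (a, b) ∈ rel) x y := by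
  induction rel generalizing lam E0 with
  | nil =>
    have e : (fun a b => E0 a b ∨ (a, b) ∈ ([] : List (X × X))) = E0 := by
      funext a b
      simp
    rw [e]
    exact h x y
  | cons r rel ih =>
    rw [List.foldl_cons, ih (stL lam r) _ (fun x y => stL_iff lam r E0 h x y)]
    have e : (fun a b => (E0 a b ∨ (a, b) = r) ∨ (a, b) ∈ rel) = (fun a b => E0 a b ∨ (a, b) ∈ r :: rel) := by
      funext a b
      rw [List.mem_cons, or_assoc]
    rw [e]

private theorem lab_iff (rel : List (X × X)) (x y : X) :
    rel.foldl stL id x = rel.foldl stL id y ↔ Relation.EqvGen (fun a b => (a, b) ∈ rel) x y := by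
  rw [foldl_iff rel id (fun _ _ => False) (fun x y => ?_)]
  · have e : (fun a b => False ∨ (a, b) ∈ rel) = (fun a b => (a, b) ∈ rel) := by
      funext a b
      rw [false_or]
    rw [e]
  · constructor
    · intro h
      have h' : x = y := h
      rw [h']
      exact Relation.EqvGen.refl _
    · intro h
      show x = y
      induction h with
      | rel _ _ h => exact h.elim
      | refl _ => rfl
      | symm _ _ _ ih => exact ih.symm
      | trans _ _ _ _ _ ih1 ih2 => exact ih1.trans ih2

private theorem comp_eq (pts : List X) (rel : List (X × X)) (hrel : ∀ r ∈ rel, r.1 ∈ pts ∧ r.2 ∈ pts) :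
    comp pts rel = pts.map fun x => (x, rel.foldl stL id x) := by
  unfold comp
  exact comp_map pts rel hrel id

theorem comp_look (pts : List X) (rel : List (X × X)) (hrel : ∀ r ∈ rel, r.1 ∈ pts ∧ r.2 ∈ pts) (x y : X)
    (hx : x ∈ pts) (hy : y ∈ pts) :
    look (comp pts rel) x x = look (comp pts rel) y y ↔ Relation.EqvGen (fun a b => (a, b) ∈ rel) x y := by
  rw [comp_eq pts rel hrel, look_map pts _ x x hx, look_map pts _ y y hy, lab_iff]

theorem comp_card {F : Type} (pts : List X) (rel : List (X × X)) (hrel : ∀ r ∈ rel, r.1 ∈ pts ∧ r.2 ∈ pts)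
    (φ : X → F) (hs : ∀ f, ∃ x ∈ pts, φ x = f)
    (h : ∀ x ∈ pts, ∀ y ∈ pts, (φ x = φ y ↔ Relation.EqvGen (fun a b => (a, b) ∈ rel) x y)) :
    (ddp ((comp pts rel).map Prod.snd)).length = Nat.card F := by
  have e : (comp pts rel).map Prod.snd = pts.map (rel.foldl stL id) := by
    rw [comp_eq pts rel hrel, List.map_map]
    rfl
  rw [e]
  have hS : ∀ s, s ∈ (ddp (pts.map (rel.foldl stL id))).toFinset ↔ ∃ x ∈ pts, rel.foldl stL id x = s := by
    intro s
    rw [List.mem_toFinset, mem_ddp, List.mem_map]
  rw [← List.toFinset_card_of_nodup (nodup_ddp (pts.map (rel.foldl stL id)))]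
  choose xf hxf hφ using hs
  have hb : Function.Bijective (fun f : F => (⟨rel.foldl stL id (xf f), (hS _).2 ⟨xf f, hxf f, rfl⟩⟩ :
      (ddp (pts.map (rel.foldl stL id))).toFinset)) := by
    constructor
    · intro f f' hff
      have h1 : rel.foldl stL id (xf f) = rel.foldl stL id (xf f') := congrArg Subtype.val hff
      rw [lab_iff, ← h _ (hxf f) _ (hxf f'), hφ, hφ] at h1
      exact h1
    · rintro ⟨s, hs⟩
      obtain ⟨x, hx, rfl⟩ := (hS s).1 hs
      refine ⟨φ x, Subtype.ext ?_⟩
      show rel.foldl stL id (xf (φ x)) = rel.foldl stL id x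
      rw [lab_iff, ← h _ (hxf _) _ hx, hφ]
  rw [Nat.card_congr (Equiv.ofBijective _ hb), Nat.card_eq_fintype_card, Fintype.card_coe]

end Pool.Agent.BEO
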