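import Pool.Agent.BEO.CodS
import Pool.Agent.BEO.CompS

/-!
# BEO-FacS: the faces are computed correctly

The classes of the codes of the flags are the faces of the twisted map.
-/

set_option autoImplicit false

open Finset
open scoped Classical

namespace Pool.Agent.BEO

open Pool.Agent.Helper35.OG (Flag GMap across side across_across side_side across_ne side_ne side_fst across_fst vertex_const
  all_const exists_flag face_nxt face_across face_surj nxt_inj sum_inv eqvGen_eq IsBand)

variable {n : ℕ} {G : SimpleGraph (Fin n)}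

private theorem mem_relF {S : GMap G} {l : Inp} (h : Codes S l) (c : List Ec) (a b : Pt) :
    (a, b) ∈ relF l c ↔ ∃ p : Flag G, a = cod p ∧
      (b = cod ((twist S (lamOf G c)).nxt p) ∨ b = cod (across p)) := by
  unfold relF
  rw [List.mem_flatMap]
  constructor
  · rintro ⟨x, hx, hab⟩
    obtain ⟨p, rfl⟩ := (mem_fl h x).1 hx
    rw [List.mem_cons, List.mem_singleton] at hab
    refine ⟨p, ?_⟩
    rcases hab with hab | hab
    · rw [Prod.mk.injEq, nxc_cod h] at hab
      exact ⟨hab.1, Or.inl hab.2⟩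
    · rw [Prod.mk.injEq, ac_cod] at hab
      exact ⟨hab.1, Or.inr hab.2⟩
  · rintro ⟨p, rfl, hb⟩
    refine ⟨cod p, (mem_fl h _).2 ⟨p, rfl⟩, ?_⟩
    rw [List.mem_cons, List.mem_singleton, nxc_cod h, ac_cod]
    rcases hb with hb | hb
    · exact Or.inl (by rw [hb])
    · exact Or.inr (by rw [hb])

private theorem relF_pts {S : GMap G} {l : Inp} (h : Codes S l) (c : List Ec) :
    ∀ r ∈ relF l c, r.1 ∈ fl l ∧ r.2 ∈ fl l := by
  rintro ⟨a, b⟩ hr
  obtain ⟨p, ha, hb⟩ := (mem_relF h c a b).1 hr
  refine ⟨(mem_fl h a).2 ⟨p, ha⟩, ?_⟩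
  rcases hb with hb | hb
  · exact (mem_fl h b).2 ⟨_, hb⟩
  · exact (mem_fl h b).2 ⟨_, hb⟩

private theorem key {S : GMap G} {l : Inp} (h : Codes S l) (c : List Ec) (p q : Flag G) :
    (twist S (lamOf G c)).face p = (twist S (lamOf G c)).face q ↔
      Relation.EqvGen (fun a b => (a, b) ∈ relF l c) (cod p) (cod q) := by
  constructor
  · intro hpq
    have h1 := Quot.eqvGen_exact hpq
    induction h1 with
    | rel x y hxy =>
      refine Relation.EqvGen.rel _ _ ((mem_relF h c _ _).2 ⟨x, rfl, ?_⟩)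
      rcases hxy with hxy | hxy
      · exact Or.inl (by rw [hxy])
      · exact Or.inr (by rw [hxy])
    | refl x => exact Relation.EqvGen.refl _
    | symm x y h2 ih => exact Relation.EqvGen.symm _ _ (ih (Quot.eqvGen_sound h2))
    | trans x y z h2 h3 ih1 ih2 =>
      exact Relation.EqvGen.trans _ _ _ (ih1 (Quot.eqvGen_sound h2)) (ih2 (Quot.eqvGen_sound h3))
  · intro hpq
    have h1 : ∀ p : Flag G, {f | ∃ p' : Flag G, cod p = cod p' ∧ f = (twist S (lamOf G c)).face p'} =
        {(twist S (lamOf G c)).face p} := by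
      intro p
      ext f
      constructor
      · rintro ⟨p', hp', rfl⟩
        rw [cod_inj hp']
        rfl
      · intro hf
        exact ⟨p, rfl, hf⟩
    have h2 := eqvGen_eq (fun x : Pt => {f | ∃ p' : Flag G, x = cod p' ∧
      f = (twist S (lamOf G c)).face p'}) (by
        intro x y hxy
        obtain ⟨p', rfl, hb⟩ := (mem_relF h c _ _).1 hxy
        rcases hb with rfl | rfl
        · show {f | ∃ p'' : Flag G, cod p' = cod p'' ∧ f = (twist S (lamOf G c)).face p''} =
            {f | ∃ p'' : Flag G, cod ((twist S (lamOf G c)).nxt p') = cod p'' ∧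
              f = (twist S (lamOf G c)).face p''}
          rw [h1, h1, face_nxt]
        · show {f | ∃ p'' : Flag G, cod p' = cod p'' ∧ f = (twist S (lamOf G c)).face p''} =
            {f | ∃ p'' : Flag G, cod (across p') = cod p'' ∧
              f = (twist S (lamOf G c)).face p''}
          rw [h1, h1, face_across]) hpq
    have h3 : {f | ∃ p' : Flag G, cod p = cod p' ∧ f = (twist S (lamOf G c)).face p'} =
        {f | ∃ p' : Flag G, cod q = cod p' ∧ f = (twist S (lamOf G c)).face p'} := h2
    rw [h1, h1] at h3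
    exact Set.singleton_injective h3

theorem nF_eq {S : GMap G} {l : Inp} (h : Codes S l) (hG : G.Connected) (hn : 2 ≤ n) (c : List Ec) :
    nF l c = Nat.card (twist S (lamOf G c)).Face := by
  have hnt : Nontrivial (Fin n) := Fin.nontrivial_iff_two_le.2 hn
  obtain ⟨p0, _⟩ := exists_flag hG (⟨0, by omega⟩ : Fin n)
  obtain ⟨φ, hφ⟩ : ∃ φ : Pt → (twist S (lamOf G c)).Face,
      ∀ p : Flag G, φ (cod p) = (twist S (lamOf G c)).face p := by
    refine ⟨fun x => if h : ∃ p : Flag G, x = cod p then (twist S (lamOf G c)).face h.choose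
      else (twist S (lamOf G c)).face p0, ?_⟩
    intro p
    have hex : ∃ p' : Flag G, cod p = cod p' := ⟨p, rfl⟩
    show (if h : ∃ p' : Flag G, cod p = cod p' then (twist S (lamOf G c)).face h.choose
      else (twist S (lamOf G c)).face p0) = _
    rw [dif_pos hex, ← cod_inj hex.choose_spec]
  unfold nF fcs
  refine comp_card (fl l) (relF l c) (relF_pts h c) φ ?_ ?_
  · intro f
    obtain ⟨p, hp⟩ := face_surj _ f
    exact ⟨cod p, (mem_fl h _).2 ⟨p, rfl⟩, by rw [hφ, hp]⟩
  · intro x hx y hy
    obtain ⟨p, rfl⟩ := (mem_fl h x).1 hx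
    obtain ⟨q, rfl⟩ := (mem_fl h y).1 hy
    rw [hφ, hφ, key h c p q]

theorem fcl_iff {S : GMap G} {l : Inp} (h : Codes S l) (p q : Flag G) :
    fcl l (cod p) = fcl l (cod q) ↔ S.face p = S.face q := by
  unfold fcl fcs
  rw [comp_look (fl l) (relF l []) (relF_pts h []) (cod p) (cod q) ((mem_fl h _).2 ⟨p, rfl⟩)
    ((mem_fl h _).2 ⟨q, rfl⟩), ← key h [] p q, twist_nil]

end Pool.Agent.BEO
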