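import Pool.Agent.BEO.LookS

/-!
# BEO-BfsS: specification of `bfs`

The first round in which a point becomes a key is at most the number of arcs, as every round before it has a new key.
-/

set_option autoImplicit false

namespace Pool.Agent.BEO

/-- walks along a list of labelled arcs -/
inductive AW {X I : Type} (arcs : List ((X × X) × I)) : X → X → List I → Prop
  | nil (x : X) : AW arcs x x []
  | snoc (x y z : X) (i : I) (l : List I) : AW arcs x y l → ((y, z), i) ∈ arcs → AW arcs x z (l ++ [i])

variable {X I : Type} [DecidableEq X]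

private theorem mem_stp (arcs : List ((X × X) × I)) (tab : List (X × List I)) (y : X) (l : List I) :
    (y, l) ∈ stp arcs tab ↔ (y, l) ∈ tab ∨ ∃ a ∈ arcs, a.1.1 ∈ tab.map Prod.fst ∧
      a.1.2 ∉ tab.map Prod.fst ∧ y = a.1.2 ∧ l = look tab a.1.1 [] ++ [a.2] := by
  unfold stp
  rw [List.mem_append, List.mem_flatMap]
  refine or_congr_right (exists_congr fun a => and_congr_right fun _ => ?_)
  by_cases h1 : a.1.1 ∈ tab.map Prod.fst
  · by_cases h2 : a.1.2 ∈ tab.map Prod.fst
    · have e2 := (memb_iff (tab.map Prod.fst) a.1.2).2 h2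
      rw [e2]
      simp [h2]
    · have e1 := (memb_iff (tab.map Prod.fst) a.1.1).2 h1
      have e2 : memb (tab.map Prod.fst) a.1.2 = false := by
        rw [← Bool.not_eq_true, memb_iff]
        exact h2
      rw [e1, e2]
      simp only [Bool.not_false, Bool.and_self, if_true, List.mem_singleton, Prod.mk.injEq]
      constructor
      · rintro ⟨h3, h4⟩
        exact ⟨h1, h2, h3, h4⟩
      · rintro ⟨_, _, h3, h4⟩
        exact ⟨h3, h4⟩
  · have e1 : memb (tab.map Prod.fst) a.1.1 = false := by
      rw [← Bool.not_eq_true, memb_iff]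
      exact h1
    rw [e1]
    simp [h1]

omit [DecidableEq X] in
private theorem mem_key (tab : List (X × List I)) (y : X) :
    y ∈ tab.map Prod.fst ↔ ∃ l, (y, l) ∈ tab := by
  rw [List.mem_map]
  constructor
  · rintro ⟨⟨a, l⟩, h, rfl⟩
    exact ⟨l, h⟩
  · rintro ⟨l, h⟩
    exact ⟨(y, l), h, rfl⟩

private theorem iter_sound (arcs : List ((X × X) × I)) (tab : List (X × List I)) (n : ℕ) :
    ∀ (y : X) (l : List I), (y, l) ∈ (stp arcs)^[n] tab →
      ∃ x l0 l1, (x, l0) ∈ tab ∧ AW arcs x y l1 ∧ l = l0 ++ l1 := by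
  induction n with
  | zero =>
    intro y l h
    exact ⟨y, l, [], h, AW.nil y, by simp⟩
  | succ n ih =>
    intro y l h
    rw [Function.iterate_succ_apply', mem_stp] at h
    rcases h with h | ⟨a, ha, h1, _, rfl, rfl⟩
    · exact ih y l h
    · have h3 := look_mem ((stp arcs)^[n] tab) a.1.1 [] ((mem_key _ _).1 h1)
      obtain ⟨x, l0, l1, hx, hw, he⟩ := ih _ _ h3
      refine ⟨x, l0, l1 ++ [a.2], hx, AW.snoc x a.1.1 a.1.2 a.2 l1 hw ha, ?_⟩
      rw [he, List.append_assoc]

theorem bfs_sound (arcs : List ((X × X) × I)) (tab : List (X × List I)) (y : X) (l : List I)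
    (h : (y, l) ∈ bfs arcs tab) : ∃ x l0 l1, (x, l0) ∈ tab ∧ AW arcs x y l1 ∧ l = l0 ++ l1 :=
  iter_sound arcs tab arcs.length y l h

private theorem iter_mono (arcs : List ((X × X) × I)) (tab : List (X × List I)) (n m : ℕ) (h : n ≤ m)
    (y : X) (l : List I) (hy : (y, l) ∈ (stp arcs)^[n] tab) : (y, l) ∈ (stp arcs)^[m] tab := by
  induction m, h using Nat.le_induction with
  | base => exact hy
  | succ m _ ih =>
    rw [Function.iterate_succ_apply', mem_stp]
    exact Or.inl ih

private theorem iter_len (arcs : List ((X × X) × I)) (tab : List (X × List I)) (L0 : ℕ)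
    (hL : ∀ e ∈ tab, e.2.length = L0) (n : ℕ) :
    ∀ (y : X) (l : List I), (y, l) ∈ (stp arcs)^[n] tab → l.length ≤ L0 + n := by
  induction n with
  | zero =>
    intro y l h
    have := hL (y, l) h
    simp only at this
    omega
  | succ n ih =>
    intro y l h
    rw [Function.iterate_succ_apply', mem_stp] at h
    rcases h with h | ⟨a, ha, h1, _, rfl, rfl⟩
    · have := ih y l h
      omega
    · have h3 := look_mem ((stp arcs)^[n] tab) a.1.1 [] ((mem_key _ _).1 h1)
      have h4 := ih _ _ h3
      rw [List.length_append, List.length_singleton]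
      omega

private theorem iter_reach (arcs : List ((X × X) × I)) (tab : List (X × List I)) (x y : X)
    (l0 l1 : List I) (hx : (x, l0) ∈ tab) (h : AW arcs x y l1) :
    ∃ l, (y, l) ∈ (stp arcs)^[l1.length] tab := by
  induction h with
  | nil => exact ⟨l0, hx⟩
  | snoc y z i l _ ha ih =>
    rw [List.length_append, List.length_singleton, Function.iterate_succ_apply']
    by_cases hz : z ∈ ((stp arcs)^[l.length] tab).map Prod.fst
    · obtain ⟨l', hl'⟩ := (mem_key _ _).1 hz
      exact ⟨l', (mem_stp _ _ _ _).2 (Or.inl hl')⟩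
    · exact ⟨_, (mem_stp _ _ _ _).2 (Or.inr ⟨((y, z), i), ha, (mem_key _ _).2 ih, hz, rfl, rfl⟩)⟩

private theorem stable (arcs : List ((X × X) × I)) (tab : List (X × List I))
    (h : ∀ z ∈ (stp arcs tab).map Prod.fst, z ∈ tab.map Prod.fst) : stp arcs tab = tab := by
  have h1 : (arcs.flatMap fun a =>
      if memb (tab.map Prod.fst) a.1.1 && !memb (tab.map Prod.fst) a.1.2 then
        [(a.1.2, look tab a.1.1 [] ++ [a.2])]
      else []) = [] := by
    rw [List.flatMap_eq_nil_iff]
    intro a ha
    rw [if_neg]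
    intro hc
    rw [Bool.and_eq_true, memb_iff, Bool.not_eq_true', ← Bool.not_eq_true, memb_iff] at hc
    refine hc.2 (h _ ((mem_key _ _).2 ⟨look tab a.1.1 [] ++ [a.2], ?_⟩))
    exact (mem_stp _ _ _ _).2 (Or.inr ⟨a, ha, hc.1, hc.2, rfl, rfl⟩)
  unfold stp
  rw [h1, List.append_nil]

private theorem first_le (arcs : List ((X × X) × I)) (tab : List (X × List I)) (y : X) (n : ℕ)
    (hn : y ∈ ((stp arcs)^[n] tab).map Prod.fst)
    (hj : ∀ j < n, y ∉ ((stp arcs)^[j] tab).map Prod.fst) : n ≤ arcs.length := by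
  classical
  set tg : Finset X := (arcs.map fun a => a.1.2).toFinset with htg
  have hcard : tg.card ≤ arcs.length := by
    refine (List.toFinset_card_le _).trans ?_
    rw [List.length_map]
  have hnew : ∀ j < n, ∃ z ∈ ((stp arcs)^[j + 1] tab).map Prod.fst,
      z ∉ ((stp arcs)^[j] tab).map Prod.fst := by
    intro j hjn
    by_contra hc
    push Not at hc
    rw [Function.iterate_succ_apply'] at hc
    have h1 := stable arcs _ hc
    have h2 : ∀ k, (stp arcs)^[j + k] tab = (stp arcs)^[j] tab := by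
      intro k
      induction k with
      | zero => rfl
      | succ k ih => rw [← add_assoc, Function.iterate_succ_apply', ih, h1]
    have h3 := h2 (n - j)
    rw [Nat.add_sub_cancel' hjn.le] at h3
    rw [h3] at hn
    exact hj j hjn hn
  have hc : ∀ j ≤ n, j ≤ (tg.filter fun z => z ∈ ((stp arcs)^[j] tab).map Prod.fst).card := by
    intro j
    induction j with
    | zero => intro _; exact Nat.zero_le _
    | succ j ih =>
      intro hjn
      have h1 := ih (by omega)
      refine Nat.succ_le_of_lt (h1.trans_lt (Finset.card_lt_card ?_))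
      obtain ⟨z, hz1, hz2⟩ := hnew j (by omega)
      rw [Finset.ssubset_iff_of_subset]
      · refine ⟨z, ?_, fun hc => hz2 (Finset.mem_filter.1 hc).2⟩
        rw [Finset.mem_filter]
        refine ⟨?_, hz1⟩
        obtain ⟨l, hl⟩ := (mem_key _ _).1 hz1
        rw [Function.iterate_succ_apply', mem_stp] at hl
        rcases hl with hl | ⟨a, ha, _, _, rfl, _⟩
        · exact absurd ((mem_key _ _).2 ⟨l, hl⟩) hz2
        · rw [htg, List.mem_toFinset, List.mem_map]
          exact ⟨a, ha, rfl⟩
      · intro w hw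
        rw [Finset.mem_filter] at hw ⊢
        refine ⟨hw.1, ?_⟩
        obtain ⟨l, hl⟩ := (mem_key _ _).1 hw.2
        exact (mem_key _ _).2 ⟨l, iter_mono arcs tab j (j + 1) (by omega) w l hl⟩
  exact (hc n le_rfl).trans ((Finset.card_filter_le _ _).trans hcard)

theorem bfs_complete (arcs : List ((X × X) × I)) (tab : List (X × List I)) (L0 : ℕ)
    (hL : ∀ e ∈ tab, e.2.length = L0) (x y : X) (l0 l1 : List I) (hx : (x, l0) ∈ tab) (h : AW arcs x y l1) :
    ∃ l, (y, l) ∈ bfs arcs tab ∧ l.length ≤ L0 + l1.length := by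
  classical
  have h1 : ∃ n, y ∈ ((stp arcs)^[n] tab).map Prod.fst :=
    ⟨l1.length, (mem_key _ _).2 (iter_reach arcs tab x y l0 l1 hx h)⟩
  have h2 := Nat.find_spec h1
  have h3 : Nat.find h1 ≤ l1.length :=
    Nat.find_min' h1 ((mem_key _ _).2 (iter_reach arcs tab x y l0 l1 hx h))
  have h4 : Nat.find h1 ≤ arcs.length :=
    first_le arcs tab y (Nat.find h1) h2 fun j hj => Nat.find_min h1 hj
  obtain ⟨l, hl⟩ := (mem_key _ _).1 h2
  refine ⟨l, iter_mono arcs tab _ _ h4 y l hl, ?_⟩
  have h5 := iter_len arcs tab L0 hL _ y l hl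
  omega

end Pool.Agent.BEO
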