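import Pool.Agent.BEO.Topo

/-!
# BEO-DLf: differences along the edges
-/

set_option autoImplicit false

open Finset
open scoped Classical

namespace Pool.Agent.BEO

open Pool.Agent.Helper35.OG (Flag GMap across side across_across side_side across_ne side_ne side_fst across_fst vertex_const
  all_const exists_flag face_nxt face_across face_surj nxt_inj sum_inv eqvGen_eq IsBand)

variable {V : Type} {G : SimpleGraph V}

private theorem dlf_two (a : F2) : a + a = 0 := CharTwo.add_self_eq_zero a

private theorem dlf_as (p : Flag G) : across (side p) = side (across p) := rfl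

theorem dL_eq [Fintype V] {M : GMap G} {z : G.edgeSet → F2} {L : Flag G → F2} (h : IsL M z L) (p : Flag G) :
    dL L (ed p) = L p + L (across p) := by
  have h1 : (rp (ed p)).1.edge = p.1.edge := congrArg Subtype.val (ed_rp (ed p))
  have h2 := (SimpleGraph.dart_edge_eq_iff _ _).1 h1
  have h3 : (rp (ed p)) = p ∨ rp (ed p) = side p ∨ rp (ed p) = across p ∨
      rp (ed p) = side (across p) := by
    rcases p with ⟨d, s⟩
    generalize rp (ed (d, s)) = q at h2 ⊢
    rcases q with ⟨d', s'⟩
    simp only at h2
    rcases h2 with rfl | rfl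
    · cases s <;> cases s' <;> simp [side, across]
    · cases s <;> cases s' <;> simp [side, across]
  have e1 := h.2 p
  have e2 := h.2 (across p)
  rw [ed_across] at e2
  unfold dL
  rcases h3 with h3 | h3 | h3 | h3
  · rw [h3]
  · rw [h3, dlf_as]
    linear_combination e2 - e1 + dlf_two (L (side p)) - dlf_two (L (across p))
  · rw [h3, across_across]
    ring
  · rw [h3, dlf_as, across_across]
    linear_combination e2 - e1 + dlf_two (L (side p)) - dlf_two (L (across p))

theorem isL_vert {M : GMap G} {z : G.edgeSet → F2} {L L' : Flag G → F2} (h : IsL M z L) (h' : IsL M z L')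
    {p q : Flag G} (hpq : p.1.fst = q.1.fst) : L p + L' p = L q + L' q := by
  refine vertex_const M (fun p => L p + L' p) ?_ ?_ hpq
  · intro p
    show L _ + L' _ = L p + L' p
    rw [h.1, h'.1]
  · intro p
    show L _ + L' _ = L p + L' p
    have e1 := h.2 p
    have e2 := h'.2 p
    linear_combination e1 - e2 - dlf_two (L p) + dlf_two (L' (side p))

/-- a sum over the darts is a sum over the edges -/
theorem sum_edges [Fintype V] {A : Type} [AddCommMonoid A] (g : G.Dart → A) :
    ∑ d : G.Dart, g d = ∑ e : G.edgeSet, (g (rp e).1 + g (rp e).1.symm) := by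
  rw [← Finset.sum_fiberwise univ (fun d : G.Dart => (ed (d, true) : G.edgeSet)) g]
  refine Finset.sum_congr rfl fun e _ => ?_
  have h1 : (univ.filter fun d : G.Dart => (ed (d, true) : G.edgeSet) = e) =
      {(rp e).1, (rp e).1.symm} := by
    ext d
    rw [mem_filter, mem_insert, mem_singleton, ← SimpleGraph.dart_edge_eq_iff]
    constructor
    · rintro ⟨_, h⟩
      exact (congrArg Subtype.val h).trans (congrArg Subtype.val (ed_rp e)).symm
    · intro h
      exact ⟨mem_univ _, Subtype.ext (h.trans (congrArg Subtype.val (ed_rp e)))⟩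
  rw [h1, sum_pair]
  intro h
  exact (rp e).1.symm_ne h.symm

/-- differences of vertex functions are orthogonal to the cycles -/
theorem dL_orth [Fintype V] (cv : V → F2) (z : G.edgeSet → F2) (hz : z ∈ cyc G) :
    ∑ e : G.edgeSet, dL (fun p : Flag G => cv p.1.fst) e * z e = 0 := by
  have h1 : ∑ e : G.edgeSet, dL (fun p : Flag G => cv p.1.fst) e * z e =
      ∑ d : G.Dart, cv d.fst * z (ed (d, true)) := by
    rw [sum_edges]
    refine Finset.sum_congr rfl fun e _ => ?_
    have e1 : ed ((rp e).1, true) = e := ed_rp e
    have e2 : ed ((rp e).1.symm, true) = e := (ed_across ((rp e).1, false)).trans (ed_rp e)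
    rw [e1, e2, dL, add_mul]
    rfl
  rw [h1, ← Finset.sum_fiberwise univ (fun d : G.Dart => d.fst)]
  refine Finset.sum_eq_zero fun v _ => ?_
  have h2 : ∑ d ∈ univ.filter (fun d : G.Dart => d.fst = v), z (ed (d, true)) = 0 := hz v
  have h3 : ∑ d ∈ univ.filter (fun d : G.Dart => d.fst = v), cv d.fst * z (ed (d, true)) =
      ∑ d ∈ univ.filter (fun d : G.Dart => d.fst = v), cv v * z (ed (d, true)) := by
    refine Finset.sum_congr rfl fun d hd => ?_
    rw [(mem_filter.1 hd).2]
  rw [h3, ← Finset.mul_sum, h2, mul_zero]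

theorem isL_add {M : GMap G} {z z' : G.edgeSet → F2} {L L' : Flag G → F2} (h : IsL M z L) (h' : IsL M z' L') :
    IsL M (z + z') (L + L') := by
  refine ⟨fun p => ?_, fun p => ?_⟩
  · show L _ + L' _ = L p + L' p
    rw [h.1, h'.1]
  · show L p + L' p + (L _ + L' _) = z _ + z' _
    rw [← h.2 p, ← h'.2 p]
    ring

end Pool.Agent.BEO
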