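import Pool.Agent.BEO.CodS
import Pool.Agent.BEO.BfsS
import Pool.Agent.BEO.DLf

/-!
# BEO-TreS: the closed walks through the edges span the cycle space

`pc w e` is the parity of the number of occurrences of the edge `e` in the list of codes `w`.
Boundaries of the walks found by the breadth first search; `dL_orth`.
-/

set_option autoImplicit false

open Finset
open scoped Classical

namespace Pool.Agent.BEO

open Pool.Agent.Helper35.OG (Flag GMap across side across_across side_side across_ne side_ne side_fst across_fst vertex_const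
  all_const exists_flag face_nxt face_across face_surj nxt_inj sum_inv eqvGen_eq IsBand)

variable {n : ℕ} {G : SimpleGraph (Fin n)}

/-- the parity of an edge in a list of codes -/
noncomputable def pc (w : List Ec) (e : G.edgeSet) : F2 := if par w (ec e) = true then 1 else 0

private theorem tr_count (w : List Ec) (e : G.edgeSet) :
    pc w e = (((w.filter fun y => decide (y = ec e)).length : ℕ) : F2) := by
  unfold pc par
  rcases Nat.mod_two_eq_zero_or_one (w.filter fun y => decide (y = ec e)).length with h | h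
  · have h2 : (((w.filter fun y => decide (y = ec e)).length : ℕ) : F2) = 0 := by
      rw [ZMod.natCast_eq_zero_iff_even]
      exact Nat.even_iff.mpr h
    rw [h2, if_neg]
    rw [decide_eq_true_eq]
    omega
  · have h2 : (((w.filter fun y => decide (y = ec e)).length : ℕ) : F2) = 1 := by
      rw [ZMod.natCast_eq_one_iff_odd]
      exact Nat.odd_iff.mpr h
    rw [h2, if_pos]
    rw [decide_eq_true_eq]
    exact h

theorem pc_append (w w' : List Ec) (e : G.edgeSet) : pc (w ++ w') e = pc w e + pc w' e := by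
  rw [tr_count, tr_count, tr_count, List.filter_append, List.length_append, Nat.cast_add]

private theorem tr_single (e0 e : G.edgeSet) : pc [ec e0] e = if e0 = e then 1 else 0 := by
  rw [tr_count]
  by_cases h : e0 = e
  · subst h
    simp
  · have h2 : ¬ (ec e0 = ec e) := fun h' => h (ec_inj h')
    rw [if_neg h]
    simp [h2]

private theorem tr_nil (e : G.edgeSet) : pc [] e = 0 := by
  rw [tr_count]
  simp

private theorem tr_two (x : F2) : x + x = 0 := CharTwo.add_self_eq_zero x

private theorem tr_dec {α : Type} {p : α → Prop} (i j : DecidablePred p) (s : Finset α) :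
    @Finset.filter α p i s = @Finset.filter α p j s := by
  have : i = j := Subsingleton.elim _ _
  rw [this]

private theorem tr_bd (q : Flag G) (x : Fin n) :
    ∑ d ∈ univ.filter (fun d : G.Dart => d.fst = x), (if ed q = ed (d, true) then (1 : F2) else 0) =
      (if x = q.1.fst then 1 else 0) + (if x = q.1.snd then 1 else 0) := by
  have hne : q.1 ≠ q.1.symm := fun h => q.1.symm_ne h.symm
  have h1 : ∀ d : G.Dart, (if d.fst = x then (if ed q = ed (d, true) then (1 : F2) else 0) else 0) =
      (if d = q.1 then (if d.fst = x then (1 : F2) else 0) else 0) +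
      (if d = q.1.symm then (if d.fst = x then (1 : F2) else 0) else 0) := by
    intro d
    have h2 : ed q = ed (d, true) ↔ d = q.1 ∨ d = q.1.symm := by
      rw [← SimpleGraph.dart_edge_eq_iff]
      constructor
      · intro h
        exact (congrArg Subtype.val h).symm
      · intro h
        exact Subtype.ext h.symm
    by_cases hx : d.fst = x
    · simp only [if_pos hx]
      by_cases h3 : d = q.1
      · rw [if_pos (h2.mpr (Or.inl h3)), if_pos h3, if_neg (fun h4 => hne (h3.symm.trans h4)), add_zero]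
      · by_cases h4 : d = q.1.symm
        · rw [if_pos (h2.mpr (Or.inr h4)), if_neg h3, if_pos h4, zero_add]
        · rw [if_neg (fun h5 => (h2.mp h5).elim h3 h4), if_neg h3, if_neg h4, add_zero]
    · simp only [if_neg hx, ite_self, add_zero]
  rw [Finset.sum_filter, Finset.sum_congr rfl fun d _ => h1 d, Finset.sum_add_distrib,
    Finset.sum_ite_eq', Finset.sum_ite_eq', if_pos (mem_univ _), if_pos (mem_univ _)]
  congr 1
  · by_cases h : q.1.fst = x
    · rw [if_pos h, if_pos h.symm]
    · rw [if_neg h, if_neg (Ne.symm h)]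
  · show (if q.1.snd = x then (1 : F2) else 0) = if x = q.1.snd then 1 else 0
    by_cases h : q.1.snd = x
    · rw [if_pos h, if_pos h.symm]
    · rw [if_neg h, if_neg (Ne.symm h)]

private theorem tr_walk {S : GMap G} {l : Inp} (h : Codes S l) {a b : ℕ} {L : List Ec}
    (hw : AW (arG l) a b L) : ∀ r : Fin n, a = (r : ℕ) → ∃ v : Fin n, b = (v : ℕ) ∧ ∀ x : Fin n,
      ∑ d ∈ univ.filter (fun d : G.Dart => d.fst = x), pc L (ed (d, true)) =
        (if x = r then 1 else 0) + (if x = v then 1 else 0) := by
  induction hw with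
  | nil =>
    intro r hr
    refine ⟨r, hr, ?_⟩
    intro x
    rw [tr_two]
    exact Finset.sum_eq_zero fun d _ => tr_nil _
  | snoc y z i l0 _ hmem ih =>
    intro r hr
    obtain ⟨v, hv, hsum⟩ := ih r hr
    unfold arG at hmem
    rw [List.mem_map] at hmem
    obtain ⟨p, hp, hpe⟩ := hmem
    rw [mem_fl h] at hp
    obtain ⟨q, rfl⟩ := hp
    have hy : (q.1.fst : ℕ) = y := congrArg (fun t => t.1.1) hpe
    have hz : (q.1.snd : ℕ) = z := congrArg (fun t => t.1.2) hpe
    have hi : ek (cod q) = i := congrArg (fun t => t.2) hpe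
    have hvq : v = q.1.fst := Fin.ext (by rw [← hv, hy])
    refine ⟨q.1.snd, hz.symm, ?_⟩
    intro x
    rw [← hi, ek_cod]
    have h1 : ∀ d : G.Dart, pc (l0 ++ [ec (ed q)]) (ed (d, true)) =
        pc l0 (ed (d, true)) + (if ed q = ed (d, true) then (1 : F2) else 0) := by
      intro d
      rw [pc_append, tr_single]
    rw [Finset.sum_congr rfl fun d _ => h1 d, Finset.sum_add_distrib, hsum x, tr_bd, hvq]
    have h2 := tr_two (if x = q.1.fst then (1 : F2) else 0)
    linear_combination h2

private theorem tr_ex {S : GMap G} {l : Inp} (h : Codes S l) (hG : G.Connected) (r v : Fin n) :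
    ∃ L, AW (arG l) (r : ℕ) (v : ℕ) L := by
  have h1 := (SimpleGraph.reachable_iff_reflTransGen r v).mp (hG.preconnected r v)
  induction h1 with
  | refl => exact ⟨[], AW.nil _⟩
  | @tail y z _ hyz ih =>
    obtain ⟨L, hL⟩ := ih
    refine ⟨L ++ [ek (cod ((⟨(y, z), hyz⟩ : G.Dart), true))], AW.snoc _ _ _ _ _ hL ?_⟩
    unfold arG
    rw [List.mem_map]
    exact ⟨cod ((⟨(y, z), hyz⟩ : G.Dart), true), (mem_fl h _).mpr ⟨_, rfl⟩, rfl⟩

theorem tb_bd {S : GMap G} {l : Inp} (h : Codes S l) (hG : G.Connected) (hn : 2 ≤ n) : ∃ r : Fin n, ∀ v x : Fin n,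
    ∑ d ∈ univ.filter (fun d : G.Dart => d.fst = x), pc (look (tbG l) (v : ℕ) []) (ed (d, true)) =
      (if x = r then 1 else 0) + (if x = v then 1 else 0) := by
  have : Nontrivial (Fin n) := Fin.nontrivial_iff_two_le.mpr hn
  obtain ⟨p0, _⟩ := exists_flag hG (⟨0, by omega⟩ : Fin n)
  have hp0 : cod p0 ∈ fl l := (mem_fl h _).mpr ⟨p0, rfl⟩
  obtain ⟨q, hq⟩ : ∃ q : Flag G, (fl l).headD (0, (0, false)) = cod q := by
    cases hfl : fl l with
    | nil => rw [hfl] at hp0; simp at hp0
    | cons a t =>
      have ha : a ∈ fl l := by rw [hfl]; exact List.mem_cons_self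
      obtain ⟨q, hq⟩ := (mem_fl h a).mp ha
      exact ⟨q, hq⟩
  refine ⟨q.1.fst, ?_⟩
  intro v x
  have htab : tbG l = bfs (arG l) [((q.1.fst : ℕ), [])] := by
    unfold tbG
    rw [hq]
    rfl
  obtain ⟨L, hL⟩ := tr_ex h hG q.1.fst v
  obtain ⟨l', hl', _⟩ := bfs_complete (arG l) [((q.1.fst : ℕ), [])] 0 (by
    intro e he
    rw [List.mem_singleton] at he
    rw [he]
    rfl) (q.1.fst : ℕ) (v : ℕ) [] L (List.mem_singleton.mpr rfl) hL
  rw [← htab] at hl'
  have hlook := look_mem (tbG l) (v : ℕ) [] ⟨l', hl'⟩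
  have hlook2 := hlook
  rw [htab] at hlook2
  obtain ⟨x0, l0, l1, hx0, hAW, heq⟩ := bfs_sound (arG l) [((q.1.fst : ℕ), [])] (v : ℕ) _ hlook2
  rw [List.mem_singleton, Prod.mk.injEq] at hx0
  obtain ⟨hx1, hx2⟩ := hx0
  rw [← htab, hx2, List.nil_append] at heq
  obtain ⟨v', hv', hsum⟩ := tr_walk h hAW q.1.fst hx1
  have hvv : v' = v := Fin.ext hv'.symm
  rw [heq, hsum x, hvv]

private theorem tr_zl (l : Inp) (e e' : G.edgeSet) : pc (zl l (ec e)) e' =
    (if e = e' then 1 else 0) + dL (fun p : Flag G => pc (look (tbG l) (p.1.fst : ℕ) []) e') e := by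
  have h0 : pc (zl l (ec e)) e' = pc (look (tbG l) (ec e).1 []) e' +
      ((if e = e' then 1 else 0) + pc (look (tbG l) (ec e).2 []) e') := by
    unfold zl
    rw [pc_append, ← List.singleton_append, pc_append, tr_single]
  have h1 : pc (look (tbG l) (ec e).1 []) e' + pc (look (tbG l) (ec e).2 []) e' =
      dL (fun p : Flag G => pc (look (tbG l) (p.1.fst : ℕ) []) e') e := by
    unfold dL
    show _ = pc (look (tbG l) ((rp e).1.fst : ℕ) []) e' + pc (look (tbG l) ((rp e).1.snd : ℕ) []) e'
    unfold ec ek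
    by_cases hle : (cod (rp e)).1 ≤ (cod (rp e)).2.1
    · rw [if_pos (decide_eq_true hle)]
      rfl
    · rw [if_neg (by rw [decide_eq_true_eq]; exact hle)]
      rw [add_comm]
      rfl
  rw [h0, ← h1]
  ring

theorem zc_mem {S : GMap G} {l : Inp} (h : Codes S l) (hG : G.Connected) (hn : 2 ≤ n) (e : G.edgeSet) :
    pc (zl l (ec e)) ∈ cyc G := by
  obtain ⟨r, hr⟩ := tb_bd h hG hn
  intro x
  have key : ∑ d ∈ univ.filter (fun d : G.Dart => d.fst = x), pc (zl l (ec e)) (ed (d, true)) = 0 := by
    have h1 : ∀ d : G.Dart, pc (zl l (ec e)) (ed (d, true)) =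
        (if ed (rp e) = ed (d, true) then (1 : F2) else 0) +
        (pc (look (tbG l) ((rp e).1.fst : ℕ) []) (ed (d, true)) +
          pc (look (tbG l) ((rp e).1.snd : ℕ) []) (ed (d, true))) := by
      intro d
      rw [tr_zl, ed_rp]
      rfl
    rw [Finset.sum_congr rfl fun d _ => h1 d, Finset.sum_add_distrib, Finset.sum_add_distrib, tr_bd,
      hr, hr]
    have h2 := tr_two (if x = (rp e).1.fst then (1 : F2) else 0)
    have h3 := tr_two (if x = (rp e).1.snd then (1 : F2) else 0)
    have h4 := tr_two (if x = r then (1 : F2) else 0)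
    linear_combination h2 + h3 + h4
  exact (Finset.sum_congr (tr_dec _ _ _) fun _ _ => rfl).trans key

theorem zc_span {S : GMap G} {l : Inp} (h : Codes S l) (hG : G.Connected) (hn : 2 ≤ n) (z : G.edgeSet → F2)
    (hz : z ∈ cyc G) : ∀ e', z e' = ∑ e, z e * pc (zl l (ec e)) e' := by
  intro e'
  have h1 : ∀ e, z e * pc (zl l (ec e)) e' = (if e = e' then z e else 0) +
      dL (fun p : Flag G => pc (look (tbG l) (p.1.fst : ℕ) []) e') e * z e := by
    intro e
    rw [tr_zl]
    by_cases he : e = e'
    · rw [if_pos he, if_pos he]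
      ring
    · rw [if_neg he, if_neg he]
      ring
  rw [Finset.sum_congr rfl fun e _ => h1 e, Finset.sum_add_distrib, Finset.sum_ite_eq',
    if_pos (mem_univ _), dL_orth (fun v : Fin n => pc (look (tbG l) (v : ℕ) []) e') z hz, add_zero]

end Pool.Agent.BEO
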