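import Pool.Agent.BEO.Alg

/-!
# BEO-LookS: specification of the list functions

PLAN. `List.mem_filter`, `List.any_eq_true`; `ddp`: induction on the list with an arbitrary accumulator without
repetitions. `par_iff`: `List.count_eq_length_filter` (up to the direction of the equality). `mem_tup`, `mem_cds`:
induction on `k` (for `cds`: append at the front, `List.flatten_cons`).
-/

set_option autoImplicit false

namespace Pool.Agent.BEO

variable {X Y I : Type} [DecidableEq X]

theorem memb_iff (l : List X) (x : X) : memb l x = true ↔ x ∈ l := by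
  unfold memb
  rw [List.any_eq_true]
  constructor
  · rintro ⟨y, hy, h⟩
    have h' : y = x := of_decide_eq_true h
    rwa [← h']
  · intro h
    exact ⟨x, h, decide_eq_true rfl⟩

private theorem ddp_aux (l : List X) : ∀ acc : List X, acc.Nodup →
    (l.foldl (fun acc x => if memb acc x then acc else x :: acc) acc).Nodup ∧
    ∀ x, x ∈ l.foldl (fun acc x => if memb acc x then acc else x :: acc) acc ↔ x ∈ acc ∨ x ∈ l := by
  induction l with
  | nil =>
    intro acc h
    exact ⟨h, fun x => by simp⟩
  | cons b l ih =>
    intro acc h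
    rw [List.foldl_cons]
    by_cases hb : memb acc b = true
    · rw [if_pos hb]
      have hb' := (memb_iff acc b).1 hb
      obtain ⟨h1, h2⟩ := ih acc h
      refine ⟨h1, fun x => ?_⟩
      rw [h2, List.mem_cons]
      constructor
      · rintro (h3 | h3)
        · exact Or.inl h3
        · exact Or.inr (Or.inr h3)
      · rintro (h3 | rfl | h3)
        · exact Or.inl h3
        · exact Or.inl hb'
        · exact Or.inr h3
    · rw [if_neg hb]
      have hb' : b ∉ acc := fun h3 => hb ((memb_iff acc b).2 h3)
      obtain ⟨h1, h2⟩ := ih (b :: acc) (List.nodup_cons.2 ⟨hb', h⟩)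
      refine ⟨h1, fun x => ?_⟩
      rw [h2, List.mem_cons, List.mem_cons]
      constructor
      · rintro ((h3 | h3) | h3)
        · exact Or.inr (Or.inl h3)
        · exact Or.inl h3
        · exact Or.inr (Or.inr h3)
      · rintro (h3 | h3 | h3)
        · exact Or.inl (Or.inr h3)
        · exact Or.inl (Or.inl h3)
        · exact Or.inr h3

theorem mem_ddp (l : List X) (x : X) : x ∈ ddp l ↔ x ∈ l := by
  have h := (ddp_aux l [] List.nodup_nil).2 x
  unfold ddp
  rw [h]
  simp

theorem nodup_ddp (l : List X) : (ddp l).Nodup := (ddp_aux l [] List.nodup_nil).1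

/-- the value found is stored under `x` -/
theorem look_mem (l : List (X × Y)) (x : X) (d : Y) (h : ∃ y, (x, y) ∈ l) : (x, look l x d) ∈ l := by
  obtain ⟨y, hy⟩ := h
  have h1 : (x, y) ∈ l.filter fun p => decide (p.1 = x) := List.mem_filter.2 ⟨hy, decide_eq_true rfl⟩
  unfold look
  cases hF : l.filter fun p => decide (p.1 = x) with
  | nil =>
    rw [hF] at h1
    exact absurd h1 List.not_mem_nil
  | cons q t =>
    have h2 : q ∈ l.filter fun p => decide (p.1 = x) := by
      rw [hF]
      exact List.mem_cons_self
    obtain ⟨h3, h4⟩ := List.mem_filter.1 h2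
    have h5 : q.1 = x := of_decide_eq_true h4
    have h6 : (x, ((q :: t).headD (x, d)).2) = q := by
      rw [← h5]
      rfl
    rw [h6]
    exact h3

theorem look_eq (l : List (X × Y)) (x : X) (d y : Y) (h : (x, y) ∈ l) (hu : ∀ y', (x, y') ∈ l → y' = y) :
    look l x d = y :=
  hu _ (look_mem l x d ⟨y, h⟩)

theorem look_none (l : List (X × Y)) (x : X) (d : Y) (h : ∀ y, (x, y) ∉ l) : look l x d = d := by
  unfold look
  cases hF : l.filter fun p => decide (p.1 = x) with
  | nil => rfl
  | cons q t =>
    exfalso
    have h2 : q ∈ l.filter fun p => decide (p.1 = x) := by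
      rw [hF]
      exact List.mem_cons_self
    obtain ⟨h3, h4⟩ := List.mem_filter.1 h2
    have h5 : q.1 = x := of_decide_eq_true h4
    apply h q.2
    rw [← h5]
    exact h3

theorem par_iff (l : List X) (x : X) : par l x = true ↔ l.count x % 2 = 1 := by
  unfold par
  rw [decide_eq_true_iff, List.count_eq_length_filter]
  have h : (l.filter fun y => decide (y = x)) = l.filter fun y => y == x :=
    List.filter_congr fun y _ => by
      by_cases hy : y = x
      · simp [hy]
      · simp [hy]
  rw [h]

theorem mem_tup (l : List X) (k : ℕ) (t : List X) : t ∈ tup l k ↔ t.length = k ∧ ∀ x ∈ t, x ∈ l := by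
  induction k generalizing t with
  | zero =>
    unfold tup
    rw [List.mem_singleton]
    constructor
    · rintro rfl
      exact ⟨rfl, fun x hx => absurd hx List.not_mem_nil⟩
    · rintro ⟨h, -⟩
      exact List.eq_nil_of_length_eq_zero h
  | succ k ih =>
    unfold tup
    rw [List.mem_flatMap]
    constructor
    · rintro ⟨x, hx, h⟩
      obtain ⟨t', ht', rfl⟩ := List.mem_map.1 h
      obtain ⟨h1, h2⟩ := (ih t').1 ht'
      refine ⟨by rw [List.length_cons, h1], fun z hz => ?_⟩
      rcases List.mem_cons.1 hz with rfl | hz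
      · exact hx
      · exact h2 z hz
    · rintro ⟨h1, h2⟩
      cases t with
      | nil => simp at h1
      | cons x t' =>
        refine ⟨x, h2 x List.mem_cons_self, List.mem_map.2 ⟨t', (ih t').2 ⟨?_, ?_⟩, rfl⟩⟩
        · simpa using h1
        · exact fun z hz => h2 z (List.mem_cons_of_mem _ hz)

theorem mem_cds (W : List (List X)) (k : ℕ) (c : List X) :
    c ∈ cds W k ↔ ∃ ws : List (List X), ws.length ≤ k ∧ (∀ w ∈ ws, w ∈ W) ∧ c = ws.flatten := by
  induction k generalizing c with
  | zero =>
    unfold cds
    rw [List.mem_singleton]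
    constructor
    · rintro rfl
      exact ⟨[], le_rfl, fun w hw => absurd hw List.not_mem_nil, rfl⟩
    · rintro ⟨ws, h1, -, rfl⟩
      have h2 : ws = [] := List.eq_nil_of_length_eq_zero (Nat.le_zero.1 h1)
      rw [h2]
      rfl
  | succ k ih =>
    unfold cds
    rw [List.mem_append, List.mem_flatMap]
    constructor
    · rintro (h | ⟨w, hw, h⟩)
      · obtain ⟨ws, h1, h2, h3⟩ := (ih c).1 h
        exact ⟨ws, Nat.le_succ_of_le h1, h2, h3⟩
      · obtain ⟨c', hc', rfl⟩ := List.mem_map.1 h
        obtain ⟨ws, h1, h2, rfl⟩ := (ih c').1 hc'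
        refine ⟨w :: ws, ?_, ?_, ?_⟩
        · rw [List.length_cons]
          omega
        · intro z hz
          rcases List.mem_cons.1 hz with rfl | hz
          · exact hw
          · exact h2 z hz
        · rw [List.flatten_cons]
    · rintro ⟨ws, h1, h2, rfl⟩
      cases ws with
      | nil => exact Or.inl ((ih _).2 ⟨[], Nat.zero_le _, fun w hw => absurd hw List.not_mem_nil, rfl⟩)
      | cons w ws =>
        refine Or.inr ⟨w, h2 w List.mem_cons_self, List.mem_map.2 ⟨ws.flatten, (ih _).2 ⟨ws, ?_, ?_, rfl⟩, ?_⟩⟩
        · rw [List.length_cons] at h1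
          omega
        · exact fun z hz => h2 z (List.mem_cons_of_mem _ hz)
        · rw [List.flatten_cons]

end Pool.Agent.BEO
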