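import Pool.Agent.BEO.Dat

/-!
# BEO-DWB: walks in the dual graph
-/

set_option autoImplicit false

open Finset
open scoped Classical

namespace Pool.Agent.BEO

variable {Φ E : Type} {s t : E → Φ}

theorem DW.append {F G H : Φ} {l l' : List E} (h : DW s t F G l) (h' : DW s t G H l') : DW s t F H (l ++ l') := by
  induction h with
  | nil => exact h'
  | cons F G H e l he _ ih => exact DW.cons _ _ _ e _ he (ih h')

theorem DW.single (e : E) : DW s t (s e) (t e) [e] :=
  DW.cons _ _ _ e [] (Or.inl ⟨rfl, rfl⟩) (DW.nil _)

theorem DW.reverse {F G : Φ} {l : List E} (h : DW s t F G l) : DW s t G F l.reverse := by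
  induction h with
  | nil => exact DW.nil _
  | cons F G H e l he _ ih =>
    rw [List.reverse_cons]
    exact ih.append (DW.cons _ _ _ e [] (he.symm) (DW.nil _))

theorem DW.snoc {F G H : Φ} {l : List E} {e : E} (h : DW s t F G l)
    (he : (s e = G ∧ t e = H) ∨ (s e = H ∧ t e = G)) : DW s t F H (l ++ [e]) :=
  h.append (DW.cons _ _ _ e [] he (DW.nil _))

theorem DW.bd {F G : Φ} {l : List E} (h : DW s t F G l) (X : Φ) :
    (l.map fun e => ((if s e = X then (1 : F2) else 0) + (if t e = X then 1 else 0))).sum =
      (if F = X then 1 else 0) + (if G = X then 1 else 0) := by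
  have h2 : ∀ x : F2, x + x = 0 := fun x => CharTwo.add_self_eq_zero x
  induction h with
  | nil F => simp [h2]
  | cons F G H e l he _ ih =>
    rw [List.map_cons, List.sum_cons, ih]
    have key : ∀ x y z : F2, x + y + (y + z) = x + z := by
      intro x y z
      have := h2 y
      calc x + y + (y + z) = x + z + (y + y) := by ring
        _ = x + z := by rw [this, add_zero]
    rcases he with ⟨h3, h4⟩ | ⟨h3, h4⟩
    · rw [h3, h4]
      exact key _ _ _
    · rw [h3, h4, add_comm (if G = X then (1 : F2) else 0)]
      exact key _ _ _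

end Pool.Agent.BEO
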