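import Pool.Agent.BEO.Topo

/-!
# BEO-ExL: existence of the potential of a cycle
-/

set_option autoImplicit false

open Finset
open scoped Classical

namespace Pool.Agent.BEO

open Pool.Agent.Helper35.OG (Flag GMap across side across_across side_side across_ne side_ne side_fst across_fst vertex_const
  all_const exists_flag face_nxt face_across face_surj nxt_inj sum_inv eqvGen_eq IsBand)

variable {V : Type} {G : SimpleGraph V}

private theorem exl_two (a : F2) : a + a = 0 := by
  have h : (2 : F2) = 0 := by decide
  rw [← two_mul, h, zero_mul]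

private theorem exl_swap [Fintype V] (f g : Flag G → F2) :
    ∑ p, f (side p) * g p = ∑ p, f p * g (side p) := by
  apply Finset.sum_nbij' side side
  · intro p _; exact Finset.mem_univ _
  · intro p _; exact Finset.mem_univ _
  · intro p _; exact side_side p
  · intro p _; exact side_side p
  · intro p _; rw [side_side]

private theorem exl_group [Fintype V] (z : G.edgeSet → F2) (hz : z ∈ cyc G) (y : Flag G → F2)
    (hw : ∀ p q : Flag G, p.1.fst = q.1.fst → y p + y (side p) = y q + y (side q)) :
    ∑ p : Flag G, z (ed p) * y p = 0 := by
  have h1 : ∑ p : Flag G, z (ed p) * y p =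
      ∑ d : G.Dart, z (ed (d, true)) * (y (d, true) + y (side (d, true))) := by
    rw [Fintype.sum_prod_type]
    refine Finset.sum_congr rfl fun d _ => ?_
    rw [Fintype.sum_bool, mul_add]
    rfl
  rw [h1, ← Finset.sum_fiberwise Finset.univ (fun d : G.Dart => d.fst)]
  refine Finset.sum_eq_zero fun v _ => ?_
  by_cases he : ∃ d0 : G.Dart, d0.fst = v
  · obtain ⟨d0, hd0⟩ := he
    have h2 : ∀ d ∈ Finset.univ.filter (fun d : G.Dart => d.fst = v),
        z (ed (d, true)) * (y (d, true) + y (side (d, true))) =
          z (ed (d, true)) * (y (d0, true) + y (side (d0, true))) := by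
      intro d hd
      rw [Finset.mem_filter] at hd
      rw [hw (d, true) (d0, true) (hd.2.trans hd0.symm)]
    rw [Finset.sum_congr rfl h2, ← Finset.sum_mul]
    have h3 := hz v
    rw [h3, zero_mul]
  · refine Finset.sum_eq_zero fun d hd => ?_
    rw [Finset.mem_filter] at hd
    exact absurd ⟨d, hd.2⟩ he

theorem exists_L [Fintype V] (M : GMap G) (z : G.edgeSet → F2) (hz : z ∈ cyc G) : ∃ L, IsL M z L := by
  let N : Submodule F2 (Flag G → F2) :=
    { carrier := {L | ∀ p, L (M.nxt p) = L p}
      add_mem' := by
        intro x y hx hy p
        rw [Pi.add_apply, Pi.add_apply, hx p, hy p]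
      zero_mem' := by intro p; rfl
      smul_mem' := by
        intro r x hx p
        rw [Pi.smul_apply, Pi.smul_apply, hx p] }
  let A : (Flag G → F2) →ₗ[F2] (Flag G → F2) :=
    { toFun := fun L p => L p + L (side p)
      map_add' := by
        intro x y
        funext p
        simp only [Pi.add_apply]
        ring
      map_smul' := by
        intro r x
        funext p
        simp only [Pi.smul_apply, smul_eq_mul, RingHom.id_apply]
        ring }
  by_cases hx : (fun p : Flag G => z (ed p)) ∈ N.map A
  · obtain ⟨L, hL, hLA⟩ := hx
    exact ⟨L, hL, fun p => congrFun hLA p⟩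
  · exfalso
    obtain ⟨f, hf1, hf2⟩ := Submodule.exists_dual_map_eq_bot_of_notMem hx inferInstance
    let y : Flag G → F2 := fun p => f (fun j => if p = j then 1 else 0)
    have hfy : ∀ x, f x = ∑ p, x p * y p := by
      intro x
      rw [LinearMap.pi_apply_eq_sum_univ f x]
      rfl
    let w : Flag G → F2 := fun p => y p + y (side p)
    have hAz : ∀ L, f (A L) = ∑ p, L p * w p := by
      intro L
      rw [hfy]
      show ∑ p, (L p + L (side p)) * y p = ∑ p, L p * (y p + y (side p))
      simp only [add_mul, mul_add, Finset.sum_add_distrib]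
      rw [exl_swap]
    have hvan : ∀ L : Flag G → F2, (∀ p, L (M.nxt p) = L p) → ∑ p, L p * w p = 0 := by
      intro L hL
      rw [← hAz]
      have h1 : f (A L) ∈ (N.map A).map f := Submodule.mem_map_of_mem (Submodule.mem_map_of_mem hL)
      rw [hf2] at h1
      exact (Submodule.mem_bot F2).1 h1
    have hw1 : ∀ q, w (M.nxt q) = w q := by
      intro q
      have h1 := hvan (fun p => (if p = q then 1 else 0) + (if p = M.nxt q then 1 else 0)) (by
        intro p
        have e1 : (M.nxt p = q) ↔ (p = M.nxt q) := by
          constructor
          · intro h; rw [← h, M.nxt_nxt]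
          · intro h; rw [h, M.nxt_nxt]
        have e2 : (M.nxt p = M.nxt q) ↔ (p = q) := ⟨fun h => nxt_inj M h, fun h => by rw [h]⟩
        simp only [e1, e2]
        rw [add_comm])
      simp only [add_mul, ite_mul, one_mul, zero_mul, Finset.sum_add_distrib, Finset.sum_ite_eq',
        Finset.mem_univ, if_true] at h1
      have h2 : w (M.nxt q) = w q + (w q + w (M.nxt q)) := by
        rw [← add_assoc, exl_two, zero_add]
      rw [h2, h1, add_zero]
    have hw2 : ∀ q, w (side q) = w q := by
      intro q
      show y (side q) + y (side (side q)) = y q + y (side q)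
      rw [side_side, add_comm]
    apply hf1
    rw [hfy]
    exact exl_group z hz y fun p q hpq => vertex_const M w hw1 hw2 hpq

end Pool.Agent.BEO
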