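import Pool.Agent.BEO.FpB

/-!
# BEO-FpS: breadth first search in polynomial time
-/

set_option autoImplicit false

namespace Pool.Agent.BEO

open Turing Function N487b59b3 N68a2faeb Pool.Agent.Helper22 Pool.Agent.Helper6.WB Pool.Agent.Helper47.TR Computability

section

variable {α β γ δ : Type} [N487b59b3 α] [N487b59b3 β] [N487b59b3 γ] [N487b59b3 δ]

omit [N487b59b3 β] in
private theorem bfs_look_sz [DecidableEq β] (l : List (β × List γ)) (x : β) (W : ℕ)
    (h : ∀ p ∈ l, sz p.2 ≤ W) : sz (look l x []) ≤ W := by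
  unfold look
  have h1 : ∀ p ∈ (l.filter fun p => decide (p.1 = x)), sz p.2 ≤ W := fun p hp =>
    h p (List.mem_filter.1 hp).1
  revert h1
  generalize (l.filter fun p => decide (p.1 = x)) = l'
  intro h1
  cases l' with
  | nil => simp
  | cons p l' => exact h1 p (by simp)

private theorem bfs_stp_walk [DecidableEq β] (A : List ((β × β) × γ)) (T : List (β × List γ)) (W : ℕ)
    (h : ∀ p ∈ T, sz p.2 ≤ W) : ∀ p ∈ stp A T, sz p.2 ≤ W + (2 * sz A + 1) := by
  intro p hp
  unfold stp at hp
  rcases List.mem_append.1 hp with hp | hp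
  · have := h p hp
    omega
  · obtain ⟨a, ha, hp⟩ := List.mem_flatMap.1 hp
    have h1 := sz_mem_le ha
    have h2 : sz a = 2 * sz a.1 + 1 + sz a.2 := sz_pair a.1 a.2
    split_ifs at hp with hc
    · have hp' := List.mem_singleton.1 hp
      subst hp'
      have h3 := bfs_look_sz T a.1.1 W h
      rw [sz_append, sz_cons, sz_nil]
      omega
    · simp at hp

private theorem bfs_stp_sz [DecidableEq β] (A : List ((β × β) × γ)) (T : List (β × List γ)) (W : ℕ)
    (h : ∀ p ∈ T, sz p.2 ≤ W) :
    sz (stp A T) ≤ sz T + A.length * (2 * (2 * sz A + 1 + (W + (2 * sz A + 1))) + 1) := by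
  unfold stp
  rw [sz_append]
  have h1 := sz_flatMap_le (fun a : (β × β) × γ =>
    if memb (T.map Prod.fst) a.1.1 && !memb (T.map Prod.fst) a.1.2 then
      [(a.1.2, look T a.1.1 [] ++ [a.2])]
    else []) A (2 * (2 * sz A + 1 + (W + (2 * sz A + 1))) + 1) (by
      intro a ha
      have h1 := sz_mem_le ha
      have h2 : sz a = 2 * sz a.1 + 1 + sz a.2 := sz_pair a.1 a.2
      have h3 : sz a.1 = 2 * sz a.1.1 + 1 + sz a.1.2 := sz_pair a.1.1 a.1.2
      have h4 := bfs_look_sz T a.1.1 W h
      beta_reduce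
      split_ifs with hc
      · rw [sz_cons, sz_pair, sz_append, sz_cons, sz_nil, sz_nil]
        omega
      · simp)
  omega

private theorem bfs_iter [DecidableEq β] (A : List ((β × β) × γ)) (T : List (β × List γ)) (i : ℕ) :
    (∀ p ∈ (stp A)^[i] T, sz p.2 ≤ sz T + i * (2 * sz A + 1)) ∧
      sz ((stp A)^[i] T) ≤ sz T +
        i * (A.length * (2 * (2 * sz A + 1 + (sz T + i * (2 * sz A + 1) + (2 * sz A + 1))) + 1)) := by
  induction i with
  | zero =>
    refine ⟨?_, by simp⟩
    intro p hp
    have h1 := sz_mem_le (show p ∈ T from hp)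
    have h2 : sz p = 2 * sz p.1 + 1 + sz p.2 := sz_pair p.1 p.2
    omega
  | succ i ih =>
    obtain ⟨h1, h2⟩ := ih
    rw [Function.iterate_succ_apply']
    have h3 : sz T + (i + 1) * (2 * sz A + 1) = sz T + i * (2 * sz A + 1) + (2 * sz A + 1) := by
      ring
    refine ⟨?_, ?_⟩
    · rw [h3]
      exact bfs_stp_walk A _ _ h1
    · have h4 := bfs_stp_sz A _ _ h1
      rw [h3]
      have h5 : A.length * (2 * (2 * sz A + 1 + (sz T + i * (2 * sz A + 1) + (2 * sz A + 1))) + 1) ≤
          A.length * (2 * (2 * sz A + 1 + (sz T + i * (2 * sz A + 1) + (2 * sz A + 1) +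
            (2 * sz A + 1))) + 1) := Nat.mul_le_mul_left _ (by omega)
      have h6 := Nat.mul_le_mul_left i h5
      have h7 : (i + 1) * (A.length * (2 * (2 * sz A + 1 + (sz T + i * (2 * sz A + 1) +
          (2 * sz A + 1) + (2 * sz A + 1))) + 1)) = i * (A.length * (2 * (2 * sz A + 1 + (sz T +
            i * (2 * sz A + 1) + (2 * sz A + 1) + (2 * sz A + 1))) + 1)) +
          A.length * (2 * (2 * sz A + 1 + (sz T + i * (2 * sz A + 1) + (2 * sz A + 1) +
            (2 * sz A + 1))) + 1) := by ring
      rw [h7]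
      omega

private theorem bfs_state [DecidableEq β] (A : List ((β × β) × γ)) (T : List (β × List γ)) (i : ℕ) :
    (fun s : List ((β × β) × γ) × List (β × List γ) => (s.1, stp s.1 s.2))^[i] (A, T) =
      (A, (stp A)^[i] T) := by
  induction i with
  | zero => rfl
  | succ i ih => rw [Function.iterate_succ_apply', Function.iterate_succ_apply', ih]

private theorem fp_stp [DecidableEq β] [Inhabited β] [Inhabited γ] :
    FP fun s : List ((β × β) × γ) × List (β × List γ) => (s.1, stp s.1 s.2) := by
  have hm : FP fun q : (List ((β × β) × γ) × List (β × List γ)) × ((β × β) × γ) =>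
      q.1.2.map Prod.fst := FP.map FP.fst (by fun_prop)
  have hc : FP fun q : (List ((β × β) × γ) × List (β × List γ)) × ((β × β) × γ) =>
      memb (q.1.2.map Prod.fst) q.2.1.1 && !memb (q.1.2.map Prod.fst) q.2.1.2 :=
    (fp_memb hm (by fun_prop)).and (fp_memb hm (by fun_prop)).not
  have hk : FP fun q : (List ((β × β) × γ) × List (β × List γ)) × ((β × β) × γ) =>
      look q.1.2 q.2.1.1 ([] : List γ) :=
    fp_look (by fun_prop) (by fun_prop) (FP.const [])
  have hn : FP fun q : (List ((β × β) × γ) × List (β × List γ)) × ((β × β) × γ) =>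
      [(q.2.1.2, look q.1.2 q.2.1.1 [] ++ [q.2.2])] :=
    FP.cons (FP.pair (by fun_prop) (FP.append hk (FP.cons (by fun_prop) (FP.const []))))
      (FP.const [])
  have hh := FP.ite hc hn (FP.const [])
  have hf := fp_flat hh (l := fun s : List ((β × β) × γ) × List (β × List γ) => s.1) (by fun_prop)
  exact FP.pair (by fun_prop) (FP.append (by fun_prop) hf)

theorem fp_bfs [DecidableEq β] [Inhabited β] [Inhabited γ] {arcs : α → List ((β × β) × γ)}
    {tab : α → List (β × List γ)} (ha : FP arcs) (ht : FP tab) : FP fun a => bfs (arcs a) (tab a) := by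
  have h := FP.iterate (β := (β × β) × γ) (fp_stp (β := β) (γ := γ))
    (B := fun n => 2 * n + 1 + (n + n * (n * (2 * (2 * n + 1 + (n + n * (2 * n + 1) + (2 * n + 1))) + 1))))
    (by fun_prop) (by
      rintro l ⟨A, T⟩ i hi
      rw [bfs_state]
      have h1 := (bfs_iter A T i).2
      have h2 := length_le_sz l
      have h3 := length_le_sz A
      have h4 : sz (A, T) = 2 * sz A + 1 + sz T := sz_pair A T
      rw [sz_pair]
      obtain ⟨n, hn⟩ : ∃ n, n = sz l + sz (A, T) := ⟨_, rfl⟩
      rw [← hn]
      have hiN : i ≤ n := by omega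
      have hAN : A.length ≤ n := by omega
      have hSN : sz A ≤ n := by omega
      have hTN : sz T ≤ n := by omega
      have h5 : i * (2 * sz A + 1) ≤ n * (2 * n + 1) := Nat.mul_le_mul hiN (by omega)
      have h6 : A.length * (2 * (2 * sz A + 1 + (sz T + i * (2 * sz A + 1) + (2 * sz A + 1))) + 1) ≤
          n * (2 * (2 * n + 1 + (n + n * (2 * n + 1) + (2 * n + 1))) + 1) :=
        Nat.mul_le_mul hAN (by omega)
      have h7 := Nat.mul_le_mul hiN h6
      omega)
  have h2 := (h.comp (ha.pair (ha.pair ht))).snd'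
  refine (congrArg FP (funext fun a => ?_)).mp h2
  simp only [bfs_state]
  rfl

end

end Pool.Agent.BEO
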