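import Pool.Agent.BEO.FpG
import Pool.Agent.BEO.FpS

/-!
# BEO-FpL: labels in polynomial time
-/

set_option autoImplicit false

namespace Pool.Agent.BEO

open Turing Function N487b59b3 N68a2faeb Pool.Agent.Helper22 Pool.Agent.Helper6.WB Pool.Agent.Helper47.TR Computability

section

variable {α β γ δ : Type} [N487b59b3 α] [N487b59b3 β] [N487b59b3 γ] [N487b59b3 δ]

theorem fp_fcl {f : α → Inp} {p : α → Pt} (hf : FP f) (hp : FP p) : FP fun a => fcl (f a) (p a) :=
  fp_look (fp_fcs hf (FP.const [])) hp hp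

theorem fp_tbG {f : α → Inp} (hf : FP f) : FP fun a => tbG (f a) := by
  have h1 : FP fun p : Pt => ((p.1, p.2.1), ek p) :=
    FP.pair (FP.pair FP.fst FP.snd.fst') (fp_ek FP.id)
  have h2 : FP fun a => arG (f a) := FP.map h1 (fp_fl hf)
  have h3 : FP fun a => [(((fl (f a)).headD (0, (0, false))).1, ([] : List Ec))] :=
    FP.cons (FP.pair (FP.headD (fp_fl hf) _).fst' (FP.const [])) (FP.const [])
  exact fp_bfs h2 h3

private theorem fp_zl {f : α → Inp} {e : α → Ec} (hf : FP f) (he : FP e) :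
    FP fun a => zl (f a) (e a) :=
  FP.append (fp_look (fp_tbG hf) he.fst' (FP.const []))
    (FP.cons he (fp_look (fp_tbG hf) he.snd' (FP.const [])))

theorem fp_lb {f : α → Inp} {e : α → List Ec} {x : α → Ec} (hf : FP f) (he : FP e) (hx : FP x) :
    FP fun a => lb (f a) (e a) (x a) := by
  have h : FP fun q : α × Ec => par (zl (f q.1) q.2) (x q.1) :=
    fp_par (fp_zl (hf.comp FP.fst) FP.snd) (hx.comp FP.fst)
  exact fp_mapc h he

end

end Pool.Agent.BEO
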