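import Pool.Agent.BEO.FpG

/-!
# BEO-FpO: orientability in polynomial time
-/

set_option autoImplicit false

namespace Pool.Agent.BEO

open Turing Function N487b59b3 N68a2faeb Pool.Agent.Helper22 Pool.Agent.Helper6.WB Pool.Agent.Helper47.TR Computability

section

variable {α β γ δ : Type} [N487b59b3 α] [N487b59b3 β] [N487b59b3 γ] [N487b59b3 δ]

private theorem fp_ptO {f : α → Inp} (hf : FP f) : FP fun a => ptO (f a) := by
  have h : FP fun q : α × Pt => [(q.2, false), (q.2, true)] :=
    FP.cons (FP.pair FP.snd (FP.const false)) (FP.cons (FP.pair FP.snd (FP.const true)) (FP.const []))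
  exact fp_flat h (fp_fl hf)

private theorem fp_relO {f : α → Inp} {c : α → List Ec} (hf : FP f) (hc : FP c) :
    FP fun a => relO (f a) (c a) := by
  have h2 : FP fun q : α × (Pt × Bool) => q.2 := FP.snd
  have h1 : FP fun q : α × (Pt × Bool) => q.2.1 := h2.fst'
  have h0 : FP fun q : α × (Pt × Bool) => !q.2.2 := h2.snd'.not
  have h3 : FP fun q : α × (Pt × Bool) => nxc (f q.1) (c q.1) q.2.1 :=
    fp_nxc (hf.comp FP.fst) (hc.comp FP.fst) h1
  have h : FP fun q : α × (Pt × Bool) => [(q.2, (nxc (f q.1) (c q.1) q.2.1, !q.2.2)),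
      (q.2, (sd q.2.1, !q.2.2)), (q.2, (ac q.2.1, !q.2.2))] :=
    FP.cons (FP.pair h2 (FP.pair h3 h0)) (FP.cons (FP.pair h2 (FP.pair (fp_sd h1) h0))
      (FP.cons (FP.pair h2 (FP.pair (fp_ac h1) h0)) (FP.const [])))
  exact fp_flat h (fp_ptO hf)

theorem fp_isO {f : α → Inp} {c : α → List Ec} (hf : FP f) (hc : FP c) : FP fun a => isO (f a) (c a) := by
  have hl : FP fun a => comp (ptO (f a)) (relO (f a) (c a)) := fp_comp (fp_ptO hf) (fp_relO hf hc)
  have hp : FP fun a => (fl (f a)).headD (0, (0, false)) := FP.headD (fp_fl hf) _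
  have h0 : FP fun a => ((fl (f a)).headD (0, (0, false)), false) := FP.pair hp (FP.const false)
  have h1 : FP fun a => ((fl (f a)).headD (0, (0, false)), true) := FP.pair hp (FP.const true)
  exact (fp_eq (fp_look hl h0 h0) (fp_look hl h1 h1)).not

end

end Pool.Agent.BEO
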