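import Pool.Agent.BEO.FpB

/-!
# BEO-FpH: halves, differences and maxima
-/

set_option autoImplicit false

namespace Pool.Agent.BEO

open Turing Function N487b59b3 N68a2faeb Pool.Agent.Helper22 Pool.Agent.Helper6.WB Pool.Agent.Helper47.TR Computability

section

variable {α β γ δ : Type} [N487b59b3 α] [N487b59b3 β] [N487b59b3 γ] [N487b59b3 δ]

private theorem fp_val {f : α → List Bool} (hf : FP f) : FP fun a => Helper6.WB.val (f a) := by
  have h := FP.canon (FP.reverse hf)
  refine (congrArg FP (funext fun a => ?_)).mp h
  exact hor_reverse (f a)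

private theorem val_tail (n : ℕ) : Helper6.WB.val (encodeNat n).tail = n / 2 := by
  have h := val_encodeNat n
  rcases hl : encodeNat n with _ | ⟨b, l⟩
  · rw [hl, val_nil] at h
    rw [← h]
    rfl
  · rw [hl, val_cons] at h
    rw [List.tail_cons, ← h, Nat.bit_div_two]

theorem fp_half {f : α → ℕ} (hf : FP f) : FP fun a => f a / 2 := by
  have h := fp_val (FP.tail (FP.bits hf))
  simp only [val_tail] at h
  exact h

private theorem val_not (l : List Bool) :
    Helper6.WB.val (l.map fun b => !b) + Helper6.WB.val l + 1 = 2 ^ l.length := by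
  induction l with
  | nil => rfl
  | cons b l ih =>
    rw [List.map_cons, val_cons, val_cons, List.length_cons, pow_succ, ← ih]
    cases b <;> simp [Nat.bit] <;> omega

private theorem length_enc (m : ℕ) : (encodeNat m).length = Nat.size m := sz_nat m

private theorem size_of {m n : ℕ} (h1 : 2 ^ n ≤ m) (h2 : m < 2 ^ (n + 1)) : Nat.size m = n + 1 :=
  le_antisymm (Nat.size_le.2 h2) (Nat.lt_size.2 h1)

/-- remove the leading digit -/
private theorem lead {n r : ℕ} (hr : r < 2 ^ n) :
    hor 0 (encodeNat (2 ^ n + r)).reverse.tail = r := by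
  have h1 : (encodeNat (2 ^ n + r)).length = n + 1 := by
    rw [length_enc]
    exact size_of (by omega) (by rw [pow_succ]; omega)
  have h2 : hor 0 (encodeNat (2 ^ n + r)).reverse = 2 ^ n + r := by
    rw [hor_reverse, val_encodeNat]
  rcases hl : (encodeNat (2 ^ n + r)).reverse with _ | ⟨b, t⟩
  · rw [← List.length_reverse, hl] at h1
    simp at h1
  · rw [← List.length_reverse, hl, List.length_cons] at h1
    have h3 : t.length = n := by omega
    rw [hl, hor_cons, h3] at h2
    have h4 := hor_lt t
    rw [h3] at h4
    rw [List.tail_cons]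
    cases b
    · simp at h2
      omega
    · simp at h2
      omega

/-- subtraction by complements -/
private def sb (a b : ℕ) : ℕ :=
  hor 0 (encodeNat (a + Helper6.WB.val ((encodeNat (b + 2 ^ (encodeNat a).length)).map fun c => !c)
    + 1)).reverse.tail

private theorem sb_eq {a b : ℕ} (h : b ≤ a) : sb a b = a - b := by
  unfold sb
  rw [length_enc]
  have ha : a < 2 ^ Nat.size a := Nat.lt_size_self a
  generalize Nat.size a = n at ha
  have h1 : (encodeNat (b + 2 ^ n)).length = n + 1 := by
    rw [length_enc]
    exact size_of (by omega) (by rw [pow_succ]; omega)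
  have h2 := val_not (encodeNat (b + 2 ^ n))
  rw [h1, val_encodeNat, pow_succ] at h2
  have h3 : a + Helper6.WB.val ((encodeNat (b + 2 ^ n)).map fun c => !c) + 1 = 2 ^ n + (a - b) := by
    omega
  rw [h3]
  exact lead (by omega)

theorem fp_sub {f g : α → ℕ} (hf : FP f) (hg : FP g) : FP fun a => f a - g a := by
  have h0 : FP fun b : Bool => !b := by fun_prop
  have h1 : FP fun a => g a + 2 ^ (encodeNat (f a)).length :=
    FP.natAdd hg (FP.powU (FP.const 2) (FP.bits hf))
  have h2 : FP fun a => Helper6.WB.val ((encodeNat (g a + 2 ^ (encodeNat (f a)).length)).map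
      fun c => !c) := fp_val (FP.map h0 (FP.bits h1))
  have h3 : FP fun a => sb (f a) (g a) :=
    FP.canon (FP.tail (FP.reverse (FP.bits (FP.natAdd (FP.natAdd hf h2) (FP.const 1)))))
  have h4 := FP.ite (FP.natLe hg hf) h3 (FP.const 0)
  refine (congrArg FP (funext fun a => ?_)).mp h4
  by_cases h : g a ≤ f a
  · simp only [h, decide_true, if_true]
    exact sb_eq h
  · simp only [h, decide_false]
    rw [if_neg (by simp)]
    omega

private theorem sz_foldl_max (l : List ℕ) (a : ℕ) : sz (l.foldl max a) ≤ sz l + sz a := by
  induction l generalizing a with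
  | nil => simp
  | cons b l ih =>
    rw [List.foldl_cons, sz_cons]
    have h1 := ih (max a b)
    rcases le_total a b with h | h
    · rw [max_eq_right h] at h1 ⊢
      omega
    · rw [max_eq_left h] at h1 ⊢
      omega

theorem fp_max {f : α → List ℕ} (hf : FP f) : FP fun a => (f a).foldl max 0 := by
  have h1 : FP fun p : ℕ × ℕ => max p.1 p.2 := by
    have h2 := FP.ite (FP.natLe (f := fun p : ℕ × ℕ => p.1) (g := fun p => p.2) (by fun_prop)
      (by fun_prop)) (f := fun p : ℕ × ℕ => p.2) (g := fun p => p.1) (by fun_prop) (by fun_prop)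
    refine (congrArg FP (funext fun p => ?_)).mp h2
    by_cases h : p.1 ≤ p.2
    · simp [h]
    · simp only [h, decide_false]
      rw [if_neg (by simp), max_eq_left (by omega)]
  have h3 : FP fun p : List ℕ × ℕ => p.1.foldl max p.2 :=
    FP.foldl (g := fun a b : ℕ => max a b) h1 (B := fun n => n) (by fun_prop)
      (fun l a => sz_foldl_max l a)
  exact h3.comp (hf.pair (FP.const 0))

end

end Pool.Agent.BEO
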