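import Pool.Agent.BEO.FpB

/-!
# BEO-FpT: tuples and concatenations in polynomial time
-/

set_option autoImplicit false

namespace Pool.Agent.BEO

open Turing Function N487b59b3 N68a2faeb Pool.Agent.Helper22 Pool.Agent.Helper6.WB Pool.Agent.Helper47.TR Computability

section

variable {α β γ δ : Type} [N487b59b3 α] [N487b59b3 β] [N487b59b3 γ] [N487b59b3 δ]

theorem fp_tup [Inhabited β] (k : ℕ) {l : α → List β} (hl : FP l) : FP fun a => tup (l a) k := by
  induction k with
  | zero => exact FP.const [[]]
  | succ k ih =>
    have h1 : FP fun p : α × β => (tup (l p.1) k).map fun t => p.2 :: t :=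
      fp_mapc (h := fun q : (α × β) × List β => q.1.2 :: q.2)
        (FP.cons (FP.snd.comp FP.fst) FP.snd) (ih.comp FP.fst)
    exact fp_flat (h := fun p : α × β => (tup (l p.1) k).map fun t => p.2 :: t) h1 hl

theorem fp_cds [Inhabited β] (k : ℕ) {W : α → List (List β)} (hW : FP W) : FP fun a => cds (W a) k := by
  induction k with
  | zero => exact FP.const [[]]
  | succ k ih =>
    have h1 : FP fun p : α × List β => (cds (W p.1) k).map fun c => p.2 ++ c :=
      fp_mapc (h := fun q : (α × List β) × List β => q.1.2 ++ q.2)
        (FP.append (FP.snd.comp FP.fst) FP.snd) (ih.comp FP.fst)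
    exact FP.append ih
      (fp_flat (h := fun p : α × List β => (cds (W p.1) k).map fun c => p.2 ++ c) h1 hW)

end

end Pool.Agent.BEO
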