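import Pool.Agent.BEO.FpL
import Pool.Agent.BEO.FpT

/-!
# BEO-FpW: the canonical walks in polynomial time
-/

set_option autoImplicit false

namespace Pool.Agent.BEO

open Turing Function N487b59b3 N68a2faeb Pool.Agent.Helper22 Pool.Agent.Helper6.WB Pool.Agent.Helper47.TR Computability

section

variable {α β γ δ : Type} [N487b59b3 α] [N487b59b3 β] [N487b59b3 γ] [N487b59b3 δ]

private def xst (s : List Bool × List Bool) (b : Bool) : List Bool × List Bool :=
  if s.1.isEmpty then s else (s.1.tail, s.2 ++ [!(b == s.1.headD false)])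

private theorem xst_foldl (u v acc : List Bool) : u.foldl xst (v, acc) = (v.drop u.length, acc ++ xo u v) := by
  induction u generalizing v acc with
  | nil => simp [xo]
  | cons b u ih =>
    cases v with
    | nil =>
      rw [List.foldl_cons]
      have h1 : xst ([], acc) b = ([], acc) := rfl
      rw [h1, ih]
      simp [xo]
    | cons c v =>
      rw [List.foldl_cons]
      have h1 : xst (c :: v, acc) b = (v, acc ++ [xor b c]) := by
        cases b <;> cases c <;> rfl
      rw [h1, ih]
      simp [xo]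

private theorem xo_len (u v : List Bool) : (xo u v).length ≤ u.length := by
  unfold xo
  rw [List.length_zipWith]
  exact Nat.min_le_left _ _

private theorem fp_xst : FP fun p : (List Bool × List Bool) × Bool => xst p.1 p.2 := by
  unfold xst
  refine FP.ite (FP.isEmpty (by fun_prop)) (by fun_prop) (FP.pair (FP.tail (by fun_prop)) (FP.append (by fun_prop) ?_))
  exact FP.cons (FP.not (FP.beq (by fun_prop) (FP.headD (by fun_prop) _))) (FP.const [])

theorem fp_xo {u v : α → List Bool} (hu : FP u) (hv : FP v) : FP fun a => xo (u a) (v a) := by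
  have h1 : FP fun p : List Bool × (List Bool × List Bool) => p.1.foldl xst p.2 := by
    refine FP.foldl (g := xst) fp_xst (B := fun n => 2 * n) (by fun_prop) ?_
    rintro u ⟨v, acc⟩
    rw [xst_foldl]
    have h2 := xo_len u v
    simp only [sz_pair, sz_append, sz_bits, List.length_drop]
    omega
  have h2 := h1.comp (hu.pair (hv.pair (FP.const [])))
  refine (congrArg FP (funext fun a => ?_)).mp h2.snd'
  simp only
  rw [xst_foldl]
  rfl

theorem fp_arD (k : ℕ) {f : α → Inp} {e : α → List Ec} (hf : FP f) (he : FP e) : FP fun a => arD k (f a) (e a) := by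
  have hf' : FP fun q : (α × Pt) × List Bool => f q.1.1 := hf.comp (by fun_prop)
  have he' : FP fun q : (α × Pt) × List Bool => e q.1.1 := he.comp (by fun_prop)
  have hp' : FP fun q : (α × Pt) × List Bool => q.1.2 := by fun_prop
  have hv' : FP fun q : (α × Pt) × List Bool => q.2 := by fun_prop
  have h0 : ∀ b : Bool, FP fun q : (α × Pt) × List Bool =>
      (((fcl (f q.1.1) q.1.2, (q.2, b)),
        (fcl (f q.1.1) (sd q.1.2), (xo q.2 (lb (f q.1.1) (e q.1.1) (ek q.1.2)), !b))), ek q.1.2) := by
    intro b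
    exact FP.pair (FP.pair (FP.pair (fp_fcl hf' hp') (FP.pair hv' (FP.const b)))
      (FP.pair (fp_fcl hf' (fp_sd hp')) (FP.pair (fp_xo hv' (fp_lb hf' he' (fp_ek hp'))) (FP.const (!b)))))
      (fp_ek hp')
  have h1 : FP fun q : (α × Pt) × List Bool => [false, true].map fun b =>
      (((fcl (f q.1.1) q.1.2, (q.2, b)),
        (fcl (f q.1.1) (sd q.1.2), (xo q.2 (lb (f q.1.1) (e q.1.1) (ek q.1.2)), !b))), ek q.1.2) :=
    FP.cons (h0 false) (FP.cons (h0 true) (FP.const []))
  have h2 := fp_flat h1 (l := fun _ : α × Pt => bvs k) (FP.const (bvs k))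
  exact fp_flat h2 (fp_fl hf)

theorem fp_ini {f : α → Inp} {e : α → List Ec} {p : α → Pt} (hf : FP f) (he : FP e) (hp : FP p) :
    FP fun a => ini (f a) (e a) (p a) := by
  have hf' : FP fun q : α × Pt => f q.1 := hf.comp (by fun_prop)
  have he' : FP fun q : α × Pt => e q.1 := he.comp (by fun_prop)
  have hp' : FP fun q : α × Pt => p q.1 := hp.comp (by fun_prop)
  have hq' : FP fun q : α × Pt => q.2 := by fun_prop
  have h1 : FP fun q : α × Pt => decide (fcl (f q.1) q.2 = fcl (f q.1) (p q.1)) :=
    fp_eq (fp_fcl hf' hq') (fp_fcl hf' hp')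
  have h2 : FP fun q : α × Pt => ((fcl (f q.1) (sd q.2), (lb (f q.1) (e q.1) (ek q.2), true)), [ek q.2]) :=
    FP.pair (FP.pair (fp_fcl hf' (fp_sd hq')) (FP.pair (fp_lb hf' he' (fp_ek hq')) (FP.const true)))
      (FP.cons (fp_ek hq') (FP.const []))
  exact fp_mapc h2 (fp_filt h1 (fp_fl hf))

theorem fp_wlk (k : ℕ) {f : α → Inp} {e : α → List Ec} (hf : FP f) (he : FP e) : FP fun a => wlk k (f a) (e a) := by
  have hf' : FP fun q : α × Pt => f q.1 := hf.comp (by fun_prop)
  have he' : FP fun q : α × Pt => e q.1 := he.comp (by fun_prop)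
  have hq' : FP fun q : α × Pt => q.2 := by fun_prop
  have h1 : FP fun q : α × Pt => (bfs (arD k (f q.1) (e q.1)) (ini (f q.1) (e q.1) q.2)).map Prod.snd :=
    FP.map FP.snd (fp_bfs (fp_arD k hf' he') (fp_ini hf' he' hq'))
  exact fp_flat h1 (fp_fl hf)

end

end Pool.Agent.BEO
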