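import Pool.Agent.BEO.FpO
import Pool.Agent.BEO.FpW
import Pool.Agent.BEO.FpH

/-!
# BEO-FpA: the algorithm runs in polynomial time

PLAN. Compositions of the previous modules; `isPolyTime_iff`.
-/

set_option autoImplicit false

namespace Pool.Agent.BEO

open Turing Function N487b59b3 N68a2faeb Pool.Agent.Helper22 Pool.Agent.Helper6.WB Pool.Agent.Helper47.TR Computability

section

variable {α β γ δ : Type} [N487b59b3 α] [N487b59b3 β] [N487b59b3 γ] [N487b59b3 δ]

private theorem fp_cand (k T : ℕ) : FP fun l : Inp => cand k T l := by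
  have h1 : FP fun p : Inp × List Ec => cds (wlk k p.1 p.2) T :=
    fp_cds T (fp_wlk k FP.fst FP.snd)
  have h2 : FP fun l : Inp => (fl l).map ek := FP.map (fp_ek FP.id) (fp_fl FP.id)
  exact fp_flat h1 (fp_tup k h2)

private theorem fp_best (k T : ℕ) : FP fun l : Inp => best k T l := by
  have h1 : FP fun p : Inp × List Ec => if isO p.1 p.2 then nF p.1 p.2 else 0 :=
    FP.ite (fp_isO FP.fst FP.snd) (fp_nF FP.fst FP.snd) (FP.const 0)
  exact fp_max (fp_mapc h1 (fp_cand k T))

private theorem fp_nE : FP fun l : Inp => nE l := by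
  have h1 : FP fun p : Inp × Pt => decide (p.2.1 ≤ p.2.2.1) && p.2.2.2 :=
    FP.and (FP.natLe (by fun_prop) (by fun_prop)) (by fun_prop)
  exact FP.length (fp_filt h1 (fp_fl FP.id))

private theorem fp_nV : FP fun l : Inp => nV l :=
  FP.length (fp_ddp (FP.map FP.fst (fp_fl FP.id)))

theorem fp_alg (k T : ℕ) : IsPolyTime (alg k T) := by
  rw [isPolyTime_iff]
  exact fp_half (fp_sub (FP.natAdd (FP.const 2) fp_nE) (FP.natAdd fp_nV (fp_best k T)))

end

end Pool.Agent.BEO
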