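import Pool.Agent.BEO.CodS

/-!
# BEO-CntS: the numbers of edges and vertices

PLAN. `nE`: `fl l` has no repetitions (`nodup_ddp`); the flags with `fst < snd` and side `true` correspond to the
edges. `nV`: the set of the first components of the codes of the flags is `{0, ..., n - 1}` because every vertex has a
neighbour (`G` connected, `2 ≤ n`); a list without repetitions with these elements has length `n`.
-/

set_option autoImplicit false

open Finset
open scoped Classical

namespace Pool.Agent.BEO

open Pool.Agent.Helper35.OG (Flag GMap across side across_across side_side across_ne side_ne side_fst across_fst vertex_const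
  all_const exists_flag face_nxt face_across face_surj nxt_inj sum_inv eqvGen_eq IsBand)

variable {n : ℕ} {G : SimpleGraph (Fin n)}

private theorem ek_of_le (x : Pt) (h : x.1 ≤ x.2.1) : ek x = (x.1, x.2.1) := by
  unfold ek
  rw [if_pos (by simpa using h)]

theorem nE_eq {S : GMap G} {l : Inp} (h : Codes S l) : nE l = Nat.card G.edgeSet := by
  set L : List Pt := (fl l).filter fun p => decide (p.1 ≤ p.2.1) && p.2.2 with hL
  have hmem : ∀ x : Pt, x ∈ L ↔ (x ∈ fl l ∧ x.1 ≤ x.2.1 ∧ x.2.2 = true) := by
    intro x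
    rw [hL, List.mem_filter, Bool.and_eq_true, decide_eq_true_iff]
  have hnd : L.Nodup := by
    rw [hL]
    exact List.Nodup.filter _ (by unfold fl; exact nodup_ddp _)
  have hnd2 : (L.map ek).Nodup := by
    refine List.Nodup.map_on ?_ hnd
    intro x hx y hy hxy
    obtain ⟨_, hx1, hx2⟩ := (hmem x).mp hx
    obtain ⟨_, hy1, hy2⟩ := (hmem y).mp hy
    rw [ek_of_le x hx1, ek_of_le y hy1] at hxy
    rw [Prod.mk.injEq] at hxy
    exact Prod.ext hxy.1 (Prod.ext hxy.2 (hx2.trans hy2.symm))
  have hset : (L.map ek).toFinset = (univ : Finset G.edgeSet).image ec := by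
    ext x
    rw [List.mem_toFinset, List.mem_map, Finset.mem_image]
    constructor
    · rintro ⟨y, hy, rfl⟩
      obtain ⟨hy0, _, _⟩ := (hmem y).mp hy
      obtain ⟨p, rfl⟩ := (mem_fl h y).mp hy0
      exact ⟨ed p, Finset.mem_univ _, (ek_cod p).symm⟩
    · rintro ⟨e, _, rfl⟩
      obtain ⟨q, hq1, hq2, hq3⟩ : ∃ q : Flag G, ed q = e ∧ q.1.fst < q.1.snd ∧ q.2 = true := by
        obtain ⟨p, hp⟩ := ed_surj e
        rcases lt_trichotomy p.1.fst p.1.snd with hlt | heq | hgt
        · exact ⟨(p.1, true), hp, hlt, rfl⟩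
        · exact absurd heq p.1.adj.ne
        · refine ⟨(p.1.symm, true), ?_, hgt, rfl⟩
          rw [← hp]
          apply Subtype.ext
          exact p.1.edge_symm
      refine ⟨cod q, (hmem _).mpr ⟨(mem_fl h _).mpr ⟨q, rfl⟩, (cod_le q).mpr hq2, hq3⟩, ?_⟩
      rw [ek_cod, hq1]
  have h1 : nE l = (L.map ek).length := by
    rw [List.length_map, hL]
    rfl
  rw [h1, ← List.toFinset_card_of_nodup hnd2, hset,
    Finset.card_image_of_injective _ (fun e e' he => ec_inj he), Finset.card_univ, Nat.card_eq_fintype_card]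

theorem nV_eq {S : GMap G} {l : Inp} (h : Codes S l) (hG : G.Connected) (hn : 2 ≤ n) : nV l = n := by
  have : Nontrivial (Fin n) := Fin.nontrivial_iff_two_le.mpr hn
  have hset : (ddp ((fl l).map Prod.fst)).toFinset = Finset.range n := by
    ext x
    rw [List.mem_toFinset, mem_ddp, List.mem_map, Finset.mem_range]
    constructor
    · rintro ⟨y, hy, rfl⟩
      obtain ⟨p, rfl⟩ := (mem_fl h y).mp hy
      exact p.1.fst.2
    · intro hx
      obtain ⟨p, hp⟩ := exists_flag hG (⟨x, hx⟩ : Fin n)
      refine ⟨cod p, (mem_fl h _).mpr ⟨p, rfl⟩, ?_⟩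
      change (p.1.fst : ℕ) = x
      rw [hp]
  unfold nV
  rw [← List.toFinset_card_of_nodup (nodup_ddp _), hset, Finset.card_range]

end Pool.Agent.BEO
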