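import Pool.Agent.BEO.GenA
import Pool.Agent.Helper35.OG.Parity

/-!
# BEO-GenB: the orientable genus is half of the least rank

PLAN. `even_eg` (Pool/Agent/Helper35/OG/Parity.lean): an orientable map has even Euler genus, and it is nonnegative
because it is a rank (`frm_rank`). `gen_le`: an orientable map `M` has `M.eg = 2 * g` with
`orientableGenus G ≤ g` (`Nat.sInf_le`). `gen_eq`: there is an orientable map attaining `orientableGenus G`
(`Nat.sInf_mem`, the set is nonempty: `twist S lam` is orientable by `adm_twist`); it corresponds to some `lam'` by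
`exists_lam`, so `(twist S lam).eg = rkN lam ≤ rkN lam' = 2 * orientableGenus G`; with `gen_le` equality.
-/

set_option autoImplicit false

open Finset
open scoped Classical

namespace Pool.Agent.BEO

open Pool.Agent.Helper35.OG (Flag GMap across side across_across side_side across_ne side_ne side_fst across_fst vertex_const
  all_const exists_flag face_nxt face_across face_surj nxt_inj sum_inv eqvGen_eq IsBand)

variable {V : Type} {G : SimpleGraph V}

open Pool.Agent.Helper35.OG (orientableGenus even_eg)

theorem gen_le [Fintype V] [Nontrivial V] (hG : G.Connected) (M : GMap G) (hM : M.Orientable) :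
    ∃ g : ℕ, M.eg = 2 * (g : ℤ) ∧ orientableGenus G ≤ g := by
  obtain ⟨g, hg⟩ := even_eg hG M hM
  have h0 := frm_rank hG M
  refine ⟨g.toNat, by omega, ?_⟩
  apply Nat.sInf_le
  exact ⟨M, hM, by omega⟩


theorem gen_eq [Fintype V] [LinearOrder V] [Nontrivial V] (S : GMap G) (hG : G.Connected) (k : ℕ)
    (hk : S.eg = k) (hw : Wide S) (h3 : ∀ v, (nb G v).card ≤ 3) (lam : Finset G.edgeSet)
    (hadm : (mkDat S hG k hk hw).Adm lam)
    (hmin : ∀ lam', (mkDat S hG k hk hw).Adm lam' → (mkDat S hG k hk hw).rkN lam ≤ (mkDat S hG k hk hw).rkN lam') :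
    (twist S lam).Orientable ∧ (twist S lam).eg = 2 * (orientableGenus G : ℤ) := by
  have ho := (adm_twist S hG k hk hw lam).1 hadm
  refine ⟨ho, ?_⟩
  obtain ⟨g, hg1, hg2⟩ := gen_le hG _ ho
  have hmem : orientableGenus G ∈ {g : ℕ | ∃ M : GMap G, M.Orientable ∧ M.eg = 2 * (g : ℤ)} :=
    Nat.sInf_mem ⟨g, twist S lam, ho, hg1⟩
  obtain ⟨M, hM, hMeg⟩ := hmem
  obtain ⟨lam', h1, h2⟩ := exists_lam S hG k hk hw h3 M
  have h3' := hmin lam' (h2.2 hM)
  have h4 := rkN_twist S hG k hk hw lam
  omega


end Pool.Agent.BEO
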