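import Mathlib

/-!
# BEO: the algorithm

A flag of a map of a graph on `Fin n` is coded by `(u, (v, b))`: the dart from `u` to `v` and one of its sides. The
input is a list containing, for every flag, the pair of its code and the code of the other flag of its corner.
-/

set_option autoImplicit false

namespace Pool.Agent.BEO

section generic

variable {X Y I : Type} [DecidableEq X]

/-- the first value stored under `x` in an association list, or `d` -/
def look (l : List (X × Y)) (x : X) (d : Y) : Y := ((l.filter fun p => decide (p.1 = x)).headD (x, d)).2

/-- membership -/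
def memb (l : List X) (x : X) : Bool := l.any fun y => decide (y = x)

/-- remove repetitions -/
def ddp (l : List X) : List X := l.foldl (fun acc x => if memb acc x then acc else x :: acc) []

/-- merge the classes of the two elements of `r` -/
def mrg (lab : List (X × X)) (r : X × X) : List (X × X) :=
  lab.map fun q => (q.1, if decide (q.2 = look lab r.1 r.1) then look lab r.2 r.2 else q.2)

/-- the classes of the points `pts` under the relation `rel`: every point is stored with the label of its class -/
def comp (pts : List X) (rel : List (X × X)) : List (X × X) := rel.foldl mrg (pts.map fun x => (x, x))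

/-- one round of breadth first search: `tab` stores a walk to every point reached so far -/
def stp (arcs : List ((X × X) × I)) (tab : List (X × List I)) : List (X × List I) :=
  tab ++ arcs.flatMap fun a =>
    if memb (tab.map Prod.fst) a.1.1 && !memb (tab.map Prod.fst) a.1.2 then
      [(a.1.2, look tab a.1.1 [] ++ [a.2])]
    else []

/-- breadth first search -/
def bfs (arcs : List ((X × X) × I)) (tab : List (X × List I)) : List (X × List I) := (stp arcs)^[arcs.length] tab

/-- does `x` occur an odd number of times in `l`? -/
def par (l : List X) (x : X) : Bool := decide ((l.filter fun y => decide (y = x)).length % 2 = 1)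

/-- all lists of length `k` of elements of `l` -/
def tup (l : List X) : ℕ → List (List X)
  | 0 => [[]]
  | k + 1 => l.flatMap fun x => (tup l k).map fun t => x :: t

/-- all concatenations of at most `k` of the lists in `W` -/
def cds (W : List (List X)) : ℕ → List (List X)
  | 0 => [[]]
  | k + 1 => cds W k ++ W.flatMap fun w => (cds W k).map fun c => w ++ c

end generic

/-- codes of flags -/
abbrev Pt : Type := ℕ × (ℕ × Bool)

/-- codes of edges -/
abbrev Ec : Type := ℕ × ℕ

/-- the input -/
abbrev Inp : Type := List (Pt × Pt)

/-- states: a face, a label and a parity -/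
abbrev Stt : Type := Pt × (List Bool × Bool)

/-- the other side -/
def sd (p : Pt) : Pt := (p.1, (p.2.1, !p.2.2))

/-- the other end -/
def ac (p : Pt) : Pt := (p.2.1, (p.1, !p.2.2))

/-- the edge -/
def ek (p : Pt) : Ec := if decide (p.1 ≤ p.2.1) then (p.1, p.2.1) else (p.2.1, p.1)

/-- the flags -/
def fl (l : Inp) : List Pt := ddp (l.map Prod.fst)

/-- twisting the flags at the smaller ends of the edges which occur an odd number of times in `c` -/
def phi (c : List Ec) (p : Pt) : Pt := if par c (ek p) && decide (p.1 ≤ p.2.1) then sd p else p

/-- the other flag of the corner in the twisted map -/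
def nxc (l : Inp) (c : List Ec) (p : Pt) : Pt := phi c (look l (phi c p) p)

/-- the relation whose classes are the faces of the twisted map -/
def relF (l : Inp) (c : List Ec) : List (Pt × Pt) := (fl l).flatMap fun p => [(p, nxc l c p), (p, ac p)]

/-- labels of the faces -/
def fcs (l : Inp) (c : List Ec) : List (Pt × Pt) := comp (fl l) (relF l c)

/-- the number of faces of the twisted map -/
def nF (l : Inp) (c : List Ec) : ℕ := (ddp ((fcs l c).map Prod.snd)).length

/-- coloured flags -/
def ptO (l : Inp) : List (Pt × Bool) := (fl l).flatMap fun p => [(p, false), (p, true)]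

/-- changing the colour with every step -/
def relO (l : Inp) (c : List Ec) : List ((Pt × Bool) × (Pt × Bool)) := (ptO l).flatMap fun q =>
  [(q, (nxc l c q.1, !q.2)), (q, (sd q.1, !q.2)), (q, (ac q.1, !q.2))]

/-- is the twisted map orientable? -/
def isO (l : Inp) (c : List Ec) : Bool :=
  (fun (lab : List ((Pt × Bool) × (Pt × Bool))) (p : Pt) =>
    !decide (look lab (p, false) (p, false) = look lab (p, true) (p, true)))
    (comp (ptO l) (relO l c)) ((fl l).headD (0, (0, false)))

/-- the face of a flag -/
def fcl (l : Inp) (p : Pt) : Pt := look (fcs l []) p p

/-- the arcs of the graph -/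
def arG (l : Inp) : List ((ℕ × ℕ) × Ec) := (fl l).map fun p => ((p.1, p.2.1), ek p)

/-- walks from a root to all vertices -/
def tbG (l : Inp) : List (ℕ × List Ec) := bfs (arG l) [(((fl l).headD (0, (0, false))).1, [])]

/-- a closed walk through the edge `e` -/
def zl (l : Inp) (e : Ec) : List Ec := look (tbG l) e.1 [] ++ (e :: look (tbG l) e.2 [])

/-- the label of the edge `a` with respect to the closed walks through the edges `es` -/
def lb (l : Inp) (es : List Ec) (a : Ec) : List Bool := es.map fun e => par (zl l e) a

/-- sum of labels -/
def xo (u v : List Bool) : List Bool := List.zipWith xor u v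

/-- all Boolean vectors -/
def bvs : ℕ → List (List Bool) := tup [false, true]

/-- the arcs of the graph of states -/
def arD (k : ℕ) (l : Inp) (es : List Ec) : List ((Stt × Stt) × Ec) := (fl l).flatMap fun p =>
  (bvs k).flatMap fun v => [false, true].map fun b =>
    (((fcl l p, (v, b)), (fcl l (sd p), (xo v (lb l es (ek p)), !b))), ek p)

/-- the first steps from the face of `p0` -/
def ini (l : Inp) (es : List Ec) (p0 : Pt) : List (Stt × List Ec) :=
  ((fl l).filter fun p => decide (fcl l p = fcl l p0)).map fun p => ((fcl l (sd p), (lb l es (ek p), true)), [ek p])

/-- the canonical walks -/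
def wlk (k : ℕ) (l : Inp) (es : List Ec) : List (List Ec) := (fl l).flatMap fun p0 =>
  (bfs (arD k l es) (ini l es p0)).map Prod.snd

/-- the candidates -/
def cand (k T : ℕ) (l : Inp) : List (List Ec) := (tup ((fl l).map ek) k).flatMap fun es => cds (wlk k l es) T

/-- the largest number of faces of an orientable candidate -/
def best (k T : ℕ) (l : Inp) : ℕ := ((cand k T l).map fun c => if isO l c then nF l c else 0).foldl max 0

/-- the number of edges -/
def nE (l : Inp) : ℕ := ((fl l).filter fun p => decide (p.1 ≤ p.2.1) && p.2.2).length

/-- the number of vertices -/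
def nV (l : Inp) : ℕ := (ddp ((fl l).map Prod.fst)).length

/-- the algorithm -/
def alg (k T : ℕ) (l : Inp) : ℕ := (2 + nE l - (nV l + best k T l)) / 2

end Pool.Agent.BEO
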