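import Mathlib

/-!
# BEO-LinK: a dimension count (Mathlib only)
-/

set_option autoImplicit false

open Finset

namespace Pool.Agent.BEO

theorem exists_ker {P T Q : Type} [Fintype P] [Fintype T] [AddCommGroup Q] [Module (ZMod 2) Q]
    (H : Submodule (ZMod 2) Q) (hfin : Module.Finite (ZMod 2) H) (k : ℕ) (hH : Module.finrank (ZMod 2) H ≤ k)
    (b : P → T → ZMod 2) (q : P → Q) (hcard : Fintype.card T + k < Fintype.card P)
    (hq : ∀ g : P → ZMod 2, (∀ t, ∑ p, g p * b p t = 0) → ∑ p, g p • q p ∈ H) :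
    ∃ g : P → ZMod 2, g ≠ 0 ∧ (∀ t, ∑ p, g p * b p t = 0) ∧ ∑ p, g p • q p = 0 := by
  obtain ⟨B, hB⟩ : ∃ B : (P → ZMod 2) →ₗ[ZMod 2] (T → ZMod 2), ∀ g t, B g t = ∑ p, g p * b p t :=
    ⟨{ toFun := fun g t => ∑ p, g p * b p t
       map_add' := by
        intro g g'
        funext t
        show ∑ p, (g p + g' p) * b p t = ∑ p, g p * b p t + ∑ p, g' p * b p t
        rw [← Finset.sum_add_distrib]
        exact Finset.sum_congr rfl fun p _ => add_mul _ _ _
       map_smul' := by
        intro c g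
        funext t
        show ∑ p, (c * g p) * b p t = c * ∑ p, g p * b p t
        rw [Finset.mul_sum]
        exact Finset.sum_congr rfl fun p _ => mul_assoc _ _ _ }, fun _ _ => rfl⟩
  obtain ⟨L, hL⟩ : ∃ L : (P → ZMod 2) →ₗ[ZMod 2] Q, ∀ g, L g = ∑ p, g p • q p :=
    ⟨{ toFun := fun g => ∑ p, g p • q p
       map_add' := by
        intro g g'
        show ∑ p, (g p + g' p) • q p = ∑ p, g p • q p + ∑ p, g' p • q p
        rw [← Finset.sum_add_distrib]
        exact Finset.sum_congr rfl fun p _ => add_smul _ _ _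
       map_smul' := by
        intro c g
        show ∑ p, (c * g p) • q p = c • ∑ p, g p • q p
        rw [Finset.smul_sum]
        exact Finset.sum_congr rfl fun p _ => mul_smul _ _ _ }, fun _ => rfl⟩
  have hK : ∀ g : LinearMap.ker B, ∀ t, ∑ p, (g : P → ZMod 2) p * b p t = 0 := by
    intro g t
    rw [← hB]
    exact congrFun (LinearMap.mem_ker.1 g.2) t
  obtain ⟨L', hL'⟩ : ∃ L' : LinearMap.ker B →ₗ[ZMod 2] H, ∀ g, (L' g : Q) = L g :=
    ⟨(L.domRestrict (LinearMap.ker B)).codRestrict H fun g => by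
      rw [LinearMap.domRestrict_apply, hL]
      exact hq _ (hK g), fun _ => rfl⟩
  have h1 := LinearMap.finrank_range_add_finrank_ker B
  have h2 : Module.finrank (ZMod 2) (LinearMap.range B) ≤ Fintype.card T := by
    refine (Submodule.finrank_le _).trans ?_
    rw [Module.finrank_fintype_fun_eq_card]
  rw [Module.finrank_fintype_fun_eq_card] at h1
  have h3 : Module.finrank (ZMod 2) H < Module.finrank (ZMod 2) (LinearMap.ker B) := by omega
  have h4 : LinearMap.ker L' ≠ ⊥ := LinearMap.ker_ne_bot_of_finrank_lt h3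
  obtain ⟨g, hg, hg0⟩ := Submodule.exists_mem_ne_zero_of_ne_bot h4
  refine ⟨g, fun h => hg0 (Subtype.ext h), hK g, ?_⟩
  rw [← hL, ← hL', LinearMap.mem_ker.1 hg]
  rfl

end Pool.Agent.BEO
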