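import Pool.Agent.BEO.LegA
import Pool.Agent.BEO.LinK

/-!
# BEO-LegB: a minimal leg system has at most `2 c` legs
-/

set_option autoImplicit false

open Finset
open scoped Classical

namespace Pool.Agent.BEO

variable {Φ E : Type} [Fintype Φ] {s t : E → Φ} {lam : Finset E}

private theorem f2_cases (x : F2) : x = 0 ∨ x = 1 := by
  revert x
  decide

omit [Fintype Φ] in
private theorem sum_legs {m : ℕ} (L : LegSys s t lam m) (x : Fin m → F2) (g : E → F2) :
    ∑ e ∈ lam.filter (fun e => ∃ i, x i = 1 ∧ e ∈ L.w i), g e = ∑ i, x i * ((L.w i).map g).sum := by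
  have h1 : lam.filter (fun e => ∃ i, x i = 1 ∧ e ∈ L.w i) =
      (univ.filter fun i => x i = 1).biUnion fun i => (L.w i).toFinset := by
    ext e
    simp only [mem_filter, mem_biUnion, mem_univ, true_and, List.mem_toFinset]
    constructor
    · exact fun h => h.2
    · rintro ⟨i, hi, he⟩
      exact ⟨(L.cov e).2 ⟨i, he⟩, i, hi, he⟩
  rw [h1, sum_biUnion]
  · rw [sum_filter]
    refine sum_congr rfl fun i _ => ?_
    rcases f2_cases (x i) with h | h
    · rw [h, zero_mul, if_neg (by decide)]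
    · rw [h, one_mul, if_pos rfl, List.sum_toFinset _ (L.nd i)]
  · intro i _ j _ hij
    rw [Function.onFun, Finset.disjoint_left]
    intro e he he'
    exact L.dj i j hij e (List.mem_toFinset.1 he) (List.mem_toFinset.1 he')

/-- the number of ends of a leg at a vertex -/
private noncomputable def en {m : ℕ} (L : LegSys s t lam m) (v : Φ) (i : Fin m) : ℕ :=
  (if L.src i = v then 1 else 0) + (if L.tgt i = v then 1 else 0)

omit [Fintype Φ] in
private theorem ends_eq {m : ℕ} (L : LegSys s t lam m) (v : Φ) : L.ends v = ∑ i, en L v i := rfl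

omit [Fintype Φ] in
private theorem cast_en {m : ℕ} (L : LegSys s t lam m) (v : Φ) (i : Fin m) :
    ((L.w i).map fun e => ((if s e = v then (1 : F2) else 0) + (if t e = v then 1 else 0))).sum =
      (en L v i : F2) := by
  rw [(L.dw i).bd v]
  unfold en
  push_cast
  rfl

omit [Fintype Φ] in
private theorem sum_bd {m : ℕ} (L : LegSys s t lam m) (x : Fin m → F2) (v : Φ) :
    ∑ e ∈ lam.filter (fun e => ∃ i, x i = 1 ∧ e ∈ L.w i),
      ((if s e = v then (1 : F2) else 0) + (if t e = v then 1 else 0)) = ∑ i, x i * (en L v i : F2) := by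
  rw [sum_legs]
  exact sum_congr rfl fun i _ => by rw [cast_en]

omit [Fintype Φ] in
private theorem ends_even {m : ℕ} (L : LegSys s t lam m) (hev : Ev s t lam) (v : Φ) :
    2 ∣ L.ends v := by
  rw [← ZMod.natCast_eq_zero_iff, ends_eq]
  have h1 := sum_bd L (fun _ => 1) v
  have h2 : lam.filter (fun e => ∃ i, (fun _ => (1 : F2)) i = 1 ∧ e ∈ L.w i) = lam := by
    refine filter_true_of_mem fun e he => ?_
    obtain ⟨i, hi⟩ := (L.cov e).1 he
    exact ⟨i, rfl, hi⟩
  rw [h2, hev v] at h1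
  rw [Nat.cast_sum]
  simpa using h1.symm

omit [Fintype Φ] in
private theorem no_two {m : ℕ} (L : LegSys s t lam m) (hmin : ∀ m' < m, ¬ Nonempty (LegSys s t lam m'))
    (v : Φ) (h2 : L.ends v = 2) : ∃ i, L.src i = v ∧ L.tgt i = v := by
  cases m with
  | zero => simp [LegSys.ends] at h2
  | succ m =>
    by_contra h
    exact hmin m (Nat.lt_succ_self m) (leg_merge L v h2 fun i hi => h ⟨i, hi⟩)

omit [Fintype Φ] in
private theorem en_small {m : ℕ} (L : LegSys s t lam m) (hev : Ev s t lam)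
    (hmin : ∀ m' < m, ¬ Nonempty (LegSys s t lam m')) (v : Φ) (hv : ¬ 4 ≤ L.ends v) (i : Fin m) :
    (en L v i : F2) = 0 := by
  obtain ⟨k, hk⟩ := ends_even L hev v
  have hk2 : k = 0 ∨ k = 1 := by omega
  rcases hk2 with rfl | rfl
  · rw [ends_eq, mul_zero, Finset.sum_eq_zero_iff] at hk
    rw [hk i (mem_univ i), Nat.cast_zero]
  · rw [mul_one] at hk
    obtain ⟨j, hj1, hj2⟩ := no_two L hmin v hk
    have hj : en L v j = 2 := by
      unfold en
      rw [if_pos hj1, if_pos hj2]
    by_cases hij : i = j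
    · rw [hij, hj]
      decide
    · rw [ends_eq, ← Finset.add_sum_erase _ _ (mem_univ j), hj] at hk
      have h3 : ∑ i ∈ univ.erase j, en L v i = 0 := by omega
      rw [Finset.sum_eq_zero_iff] at h3
      rw [h3 i (mem_erase.2 ⟨hij, mem_univ i⟩), Nat.cast_zero]

private theorem sum_ends {m : ℕ} (L : LegSys s t lam m) : ∑ v, L.ends v = 2 * m := by
  have h1 : ∑ v, L.ends v = ∑ i : Fin m, ∑ v, en L v i := by
    simp only [ends_eq]
    exact Finset.sum_comm
  rw [h1]
  have h2 : ∀ i : Fin m, ∑ v, en L v i = 2 := by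
    intro i
    unfold en
    rw [Finset.sum_add_distrib, Finset.sum_ite_eq, Finset.sum_ite_eq, if_pos (mem_univ _),
      if_pos (mem_univ _)]
  rw [Finset.sum_congr rfl fun i _ => h2 i, Finset.sum_const, card_univ, Fintype.card_fin,
    smul_eq_mul, mul_comm]

theorem exists_legs (hev : Ev s t lam) (c : ℕ) (hc : ((lam.powerset).filter fun ν => Ev s t ν).card ≤ 2 ^ c) :
    ∃ m, m ≤ 2 * c ∧ Nonempty (LegSys s t lam m) := by
  have hex : ∃ m, Nonempty (LegSys s t lam m) := ⟨lam.card, leg_one⟩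
  obtain ⟨m, ⟨L⟩, hmin⟩ : ∃ m, Nonempty (LegSys s t lam m) ∧ ∀ m' < m, ¬ Nonempty (LegSys s t lam m') :=
    ⟨Nat.find hex, Nat.find_spec hex, fun m' h => Nat.find_min hex h⟩
  refine ⟨m, ?_, ⟨L⟩⟩
  let V4 : Finset Φ := univ.filter fun v => 4 ≤ L.ends v
  have hV4 : 4 * V4.card ≤ 2 * m := by
    rw [← sum_ends L]
    calc 4 * V4.card = ∑ _v ∈ V4, 4 := by rw [Finset.sum_const, smul_eq_mul, mul_comm]
      _ ≤ ∑ v ∈ V4, L.ends v := Finset.sum_le_sum fun v hv => (mem_filter.1 hv).2
      _ ≤ ∑ v, L.ends v := Finset.sum_le_sum_of_subset (subset_univ _)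
  -- the linear map
  let f : (Fin m → F2) →ₗ[F2] ({v // v ∈ V4} → F2) :=
    (Matrix.of fun (v : {v // v ∈ V4}) (i : Fin m) => (en L v.1 i : F2)).mulVecLin
  have hf : ∀ x : LinearMap.ker f, ∀ v, ∑ i, x.1 i * (en L v i : F2) = 0 := by
    intro x v
    by_cases hv : v ∈ V4
    · have h1 := congrFun (LinearMap.mem_ker.1 x.2) ⟨v, hv⟩
      have h2 : f x.1 ⟨v, hv⟩ = ∑ i, (en L v i : F2) * x.1 i := rfl
      rw [h2] at h1
      exact (Finset.sum_congr rfl fun i _ => mul_comm _ _).trans h1
    · have hv' : ¬ 4 ≤ L.ends v := fun h => hv (mem_filter.2 ⟨mem_univ v, h⟩)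
      refine Finset.sum_eq_zero fun i _ => ?_
      rw [en_small L hev hmin v hv' i, mul_zero]
  let N : (LinearMap.ker f) → {ν // ν ∈ (lam.powerset).filter fun ν => Ev s t ν} := fun x =>
    ⟨lam.filter (fun e => ∃ i, x.1 i = 1 ∧ e ∈ L.w i), by
      rw [mem_filter, mem_powerset]
      refine ⟨filter_subset _ _, fun v => ?_⟩
      rw [sum_bd, hf]⟩
  have hmem : ∀ (x : Fin m → F2) (i : Fin m) (e : E), e ∈ L.w i →
      (e ∈ lam.filter (fun e => ∃ i, x i = 1 ∧ e ∈ L.w i) ↔ x i = 1) := by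
    intro x i e he
    rw [mem_filter]
    constructor
    · rintro ⟨_, j, hj, hej⟩
      by_cases hij : i = j
      · rw [hij]
        exact hj
      · exact absurd hej (L.dj i j hij e he)
    · intro h
      exact ⟨(L.cov e).2 ⟨i, he⟩, i, h, he⟩
  have hN : Function.Injective N := by
    intro x y hxy
    have h1 : lam.filter (fun e => ∃ i, x.1 i = 1 ∧ e ∈ L.w i) =
        lam.filter (fun e => ∃ i, y.1 i = 1 ∧ e ∈ L.w i) := congrArg Subtype.val hxy
    apply Subtype.ext
    funext i
    obtain ⟨e, he⟩ := List.exists_mem_of_ne_nil _ (L.ne i)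
    have h2 := hmem x.1 i e he
    have h3 := hmem y.1 i e he
    rw [h1] at h2
    have h4 : x.1 i = 1 ↔ y.1 i = 1 := h2.symm.trans h3
    rcases f2_cases (x.1 i) with h5 | h5
    · rcases f2_cases (y.1 i) with h6 | h6
      · rw [h5, h6]
      · rw [h6, h5] at h4
        exact absurd (h4.2 rfl) (by decide)
    · rw [h5]
      exact (h4.1 h5).symm
  have hcard : Nat.card (LinearMap.ker f) ≤ 2 ^ c := by
    refine (Nat.card_le_card_of_injective N hN).trans ?_
    rw [Nat.card_eq_fintype_card, Fintype.card_coe]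
    exact hc
  have hk : Nat.card (LinearMap.ker f) = 2 ^ (Module.finrank F2 (LinearMap.ker f)) := by
    rw [Module.natCard_eq_pow_finrank (K := F2), Nat.card_zmod]
  rw [hk] at hcard
  have h7 : Module.finrank F2 (LinearMap.ker f) ≤ c := (Nat.pow_le_pow_iff_right (by norm_num)).1 hcard
  have h8 := LinearMap.finrank_range_add_finrank_ker f
  have h9 : Module.finrank F2 (LinearMap.range f) ≤ V4.card := by
    refine (Submodule.finrank_le _).trans ?_
    rw [Module.finrank_fintype_fun_eq_card, Fintype.card_coe]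
  rw [Module.finrank_fintype_fun_eq_card, Fintype.card_fin] at h8
  omega

end Pool.Agent.BEO
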