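import Pool.Agent.BEO.RcA

/-!
# BEO-RcB: comparison of the ranks of two forms `J + ∑ a ⊗ a` (Mathlib and RcA only)

PLAN. For a finite family `a : I → Z → F2` let `W := Z × (I → F2)`,
`Q ((x, ν), (x', ν')) := J x x' + ∑ i, ν i * a i x' + ∑ i, ν' i * a i x + ∑ i, ν i * ν' i`. `radOn Q ⊤` is
`{(x, ν) | ν i = a i x, J x x' = ∑ i, ν i * a i x' for all x'}`, isomorphic to the kernel of `N := J + ∑ a ⊗ a` by
`x ↦ (x, a x)`: `finrank (radOn Q ⊤) = finrank Z - finrank (range N)`. Let `U := R × 0` and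
`Y := Z × K0`, `K0 := {ν | ∀ r ∈ R, ∑ i, ν i * a i r = 0}`: this is `Uo` because `J r x = 0` for `r ∈ R`. `U ≤ Y`.
`U ⊓ radOn Q ⊤ = {(r, 0) | ∀ i, a i r = 0}` has dimension `finrank R - finrank (image of R in I → F2)` and
`finrank K0 = card I - finrank (image of R)` (annihilator). So by `rad_eq`:
`finrank (radOn Q Y) = card I - finrank K0 + finrank Z - rank N`. For the second family `Y' := Z × θ(K0)`:
`rad_le` gives `finrank (radOn Q' Y') + finrank Z + finrank K0 ≤ finrank Z - rank N' + finrank Z + card I'`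
(`θ` is injective on `K0`). Finally `id × θ` is an isometry from `Y` onto `Y'` (by `hcls`, `hdot`), so the two radicals
have the same dimension: `card I + rank N' ≤ card I' + rank N`.
-/

set_option autoImplicit false

namespace Pool.Agent.BEO


private theorem z2_eq_of_add (x y : ZMod 2) (h : x + y = 0) : y = x := by
  have := ZMod.neg_eq_self_mod_two x
  calc y = -x := by linear_combination h
    _ = x := this

/-- the form on `Z × (I → F2)` -/
private def Qf {Z I : Type} [AddCommGroup Z] [Module (ZMod 2) Z] [Fintype I]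
    (J : Z →ₗ[ZMod 2] Z →ₗ[ZMod 2] ZMod 2) (a : I → Z →ₗ[ZMod 2] ZMod 2) :
    (Z × (I → ZMod 2)) →ₗ[ZMod 2] (Z × (I → ZMod 2)) →ₗ[ZMod 2] ZMod 2 :=
  LinearMap.mk₂ (ZMod 2)
    (fun v w => J v.1 w.1 + ∑ i, v.2 i * a i w.1 + ∑ i, w.2 i * a i v.1 + ∑ i, v.2 i * w.2 i)
    (by
      intro v v' w
      simp only [Prod.fst_add, Prod.snd_add, map_add, LinearMap.add_apply, Pi.add_apply, add_mul, mul_add,
        Finset.sum_add_distrib]
      ring)
    (by
      intro c v w
      simp only [Prod.smul_fst, Prod.smul_snd, map_smul, LinearMap.smul_apply, Pi.smul_apply, smul_eq_mul,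
        mul_add, Finset.mul_sum]
      congr 1
      · congr 1
        · congr 1
          exact Finset.sum_congr rfl fun i _ => by ring
        · exact Finset.sum_congr rfl fun i _ => by ring
      · exact Finset.sum_congr rfl fun i _ => by ring)
    (by
      intro v w w'
      simp only [Prod.fst_add, Prod.snd_add, map_add, Pi.add_apply, add_mul, mul_add,
        Finset.sum_add_distrib]
      ring)
    (by
      intro c v w
      simp only [Prod.smul_fst, Prod.smul_snd, map_smul, Pi.smul_apply, smul_eq_mul,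
        mul_add, Finset.mul_sum]
      congr 1
      · congr 1
        · congr 1
          exact Finset.sum_congr rfl fun i _ => by ring
        · exact Finset.sum_congr rfl fun i _ => by ring
      · exact Finset.sum_congr rfl fun i _ => by ring)

private theorem Qf_apply {Z I : Type} [AddCommGroup Z] [Module (ZMod 2) Z] [Fintype I]
    (J : Z →ₗ[ZMod 2] Z →ₗ[ZMod 2] ZMod 2) (a : I → Z →ₗ[ZMod 2] ZMod 2) (v w : Z × (I → ZMod 2)) :
    Qf J a v w = J v.1 w.1 + ∑ i, v.2 i * a i w.1 + ∑ i, w.2 i * a i v.1 + ∑ i, v.2 i * w.2 i := rfl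

private theorem Qf_symm {Z I : Type} [AddCommGroup Z] [Module (ZMod 2) Z] [Fintype I]
    (J : Z →ₗ[ZMod 2] Z →ₗ[ZMod 2] ZMod 2) (hJ : ∀ x y, J x y = J y x) (a : I → Z →ₗ[ZMod 2] ZMod 2)
    (v w : Z × (I → ZMod 2)) : Qf J a v w = Qf J a w v := by
  rw [Qf_apply, Qf_apply, hJ v.1 w.1, show ∑ i, v.2 i * w.2 i = ∑ i, w.2 i * v.2 i from
    Finset.sum_congr rfl fun i _ => mul_comm _ _]
  ring

/-- membership in the radical of the whole form -/
private theorem mem_rad_top {Z I : Type} [AddCommGroup Z] [Module (ZMod 2) Z] [Fintype I]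
    (J N : Z →ₗ[ZMod 2] Z →ₗ[ZMod 2] ZMod 2) (a : I → Z →ₗ[ZMod 2] ZMod 2)
    (hN : ∀ x y, N x y = J x y + ∑ i, a i x * a i y) (v : Z × (I → ZMod 2)) :
    v ∈ radOn (Qf J a) ⊤ ↔ N v.1 = 0 ∧ v.2 = fun i => a i v.1 := by
  classical
  constructor
  · rintro ⟨-, h⟩
    have h2 : v.2 = fun i => a i v.1 := by
      funext i
      have := h (0, Pi.single i 1) trivial
      rw [Qf_apply] at this
      simp only [map_zero, mul_zero, Finset.sum_const_zero, add_zero, zero_add, Pi.single_apply,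
        ite_mul, one_mul, zero_mul, mul_ite, mul_one, Finset.sum_ite_eq', Finset.mem_univ, if_true] at this
      exact z2_eq_of_add _ _ this
    refine ⟨?_, h2⟩
    refine LinearMap.ext fun y => ?_
    have := h (y, 0) trivial
    rw [Qf_apply] at this
    simp only [Pi.zero_apply, zero_mul, mul_zero, Finset.sum_const_zero, add_zero] at this
    rw [hN, LinearMap.zero_apply, ← this, h2]
  · rintro ⟨h1, h2⟩
    refine ⟨trivial, fun w _ => ?_⟩
    have h3 : J v.1 w.1 + ∑ i, a i v.1 * a i w.1 = 0 := by rw [← hN, h1, LinearMap.zero_apply]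
    rw [Qf_apply, h2]
    simp only
    rw [h3, zero_add, show ∑ i, a i v.1 * w.2 i = ∑ i, w.2 i * a i v.1 from
      Finset.sum_congr rfl fun i _ => mul_comm _ _]
    exact CharTwo.add_self_eq_zero _

private theorem finrank_map_inj {V W : Type} [AddCommGroup V] [Module (ZMod 2) V] [AddCommGroup W]
    [Module (ZMod 2) W] (f : V →ₗ[ZMod 2] W) (S : Submodule (ZMod 2) V) (h : ∀ x ∈ S, f x = 0 → x = 0) :
    Module.finrank (ZMod 2) (S.map f) = Module.finrank (ZMod 2) S := by
  rw [← LinearMap.range_domRestrict]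
  apply LinearMap.finrank_range_of_inj
  intro x y hxy
  have h1 : f (x.1 - y.1) = 0 := by
    rw [map_sub, sub_eq_zero]; exact hxy
  exact Subtype.ext (sub_eq_zero.mp (h _ (S.sub_mem x.2 y.2) h1))

private theorem finrank_rad_top {Z I : Type} [AddCommGroup Z] [Module (ZMod 2) Z] [Module.Finite (ZMod 2) Z]
    [Fintype I] (J N : Z →ₗ[ZMod 2] Z →ₗ[ZMod 2] ZMod 2) (a : I → Z →ₗ[ZMod 2] ZMod 2)
    (hN : ∀ x y, N x y = J x y + ∑ i, a i x * a i y) :
    Module.finrank (ZMod 2) (radOn (Qf J a) ⊤) + Module.finrank (ZMod 2) (LinearMap.range N) =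
      Module.finrank (ZMod 2) Z := by
  have h : radOn (Qf J a) ⊤ = (LinearMap.ker N).map (LinearMap.prod LinearMap.id (LinearMap.pi a)) := by
    ext v
    rw [mem_rad_top J N a hN, Submodule.mem_map]
    constructor
    · rintro ⟨h1, h2⟩
      refine ⟨v.1, h1, ?_⟩
      ext
      · rfl
      · rw [h2]; rfl
    · rintro ⟨x, hx, rfl⟩
      exact ⟨hx, rfl⟩
  rw [h, finrank_map_inj _ _ (fun x _ hx => congrArg Prod.fst hx), add_comm]
  exact LinearMap.finrank_range_add_finrank_ker N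

/-- the annihilator -/
private def Kz {Z I : Type} [AddCommGroup Z] [Module (ZMod 2) Z] [Fintype I] (R : Submodule (ZMod 2) Z)
    (a : I → Z →ₗ[ZMod 2] ZMod 2) : Submodule (ZMod 2) (I → ZMod 2) where
  carrier := {ν | ∀ r ∈ R, ∑ i, ν i * a i r = 0}
  add_mem' := by
    intro v w hv hw r hr
    simp only [Pi.add_apply, add_mul, Finset.sum_add_distrib]
    rw [hv r hr, hw r hr, add_zero]
  zero_mem' := fun r _ => by simp
  smul_mem' := by
    intro c v hv r hr
    simp only [Pi.smul_apply, smul_eq_mul, mul_assoc]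
    rw [← Finset.mul_sum, hv r hr, mul_zero]

/-- evaluation of a tuple on `R` -/
private def evR {Z I : Type} [AddCommGroup Z] [Module (ZMod 2) Z] [Fintype I] (R : Submodule (ZMod 2) Z)
    (a : I → Z →ₗ[ZMod 2] ZMod 2) : (I → ZMod 2) →ₗ[ZMod 2] Module.Dual (ZMod 2) R :=
  LinearMap.mk₂ (ZMod 2) (fun ν r => ∑ i, ν i * a i r.1)
    (by intro v v' w; simp only [Pi.add_apply, add_mul, Finset.sum_add_distrib])
    (by intro c v w; simp only [Pi.smul_apply, smul_eq_mul, mul_assoc, Finset.mul_sum])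
    (by intro v w w'; simp only [Submodule.coe_add, map_add, mul_add, Finset.sum_add_distrib])
    (by
      intro c v w
      simp only [Submodule.coe_smul, map_smul, smul_eq_mul, Finset.mul_sum]
      exact Finset.sum_congr rfl fun i _ => by ring)

private theorem finrank_Kz {Z I : Type} [AddCommGroup Z] [Module (ZMod 2) Z] [Module.Finite (ZMod 2) Z]
    [Fintype I] (R : Submodule (ZMod 2) Z) (a : I → Z →ₗ[ZMod 2] ZMod 2) :
    Module.finrank (ZMod 2) (Kz R a) + Module.finrank (ZMod 2) R =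
      Fintype.card I + Module.finrank (ZMod 2) (R ⊓ LinearMap.ker (LinearMap.pi a) : Submodule (ZMod 2) Z) := by
  classical
  have hK : Kz R a = LinearMap.ker (evR R a) := by
    ext ν
    rw [LinearMap.mem_ker]
    constructor
    · intro h
      exact LinearMap.ext fun r => h r.1 r.2
    · intro h r hr
      exact LinearMap.congr_fun h ⟨r, hr⟩
  have h1 := LinearMap.finrank_range_add_finrank_ker (evR R a)
  have h2 := LinearMap.finrank_range_add_finrank_ker (evR R a).flip
  rw [Module.finrank_fintype_fun_eq_card] at h1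
  have h3 : Module.finrank (ZMod 2) (LinearMap.range (evR R a).flip) =
      Module.finrank (ZMod 2) (LinearMap.range (evR R a)) := by
    have h5 : (evR R a).flip = (evR R a).dualMap.comp (Module.evalEquiv (ZMod 2) R).toLinearMap := by
      ext r
      rfl
    rw [← LinearMap.finrank_range_dualMap_eq_finrank_range (evR R a), h5,
      LinearMap.range_comp_of_range_eq_top _ (LinearEquiv.range _)]
  have h4 : Module.finrank (ZMod 2) (LinearMap.ker (evR R a).flip) =
      Module.finrank (ZMod 2) (R ⊓ LinearMap.ker (LinearMap.pi a) : Submodule (ZMod 2) Z) := by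
    rw [← finrank_map_inj R.subtype _ (fun x _ hx => Subtype.ext hx)]
    have h6 : (LinearMap.ker (evR R a).flip).map R.subtype = R ⊓ LinearMap.ker (LinearMap.pi a) := ?_
    · rw [h6]
    ext x
    simp only [Submodule.mem_map, LinearMap.mem_ker, Submodule.mem_inf, Submodule.subtype_apply]
    constructor
    · rintro ⟨r, hr, rfl⟩
      refine ⟨r.2, ?_⟩
      funext i
      have := LinearMap.congr_fun hr (Pi.single i 1)
      simpa [evR, Pi.single_apply] using this
    · rintro ⟨hx, h⟩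
      refine ⟨⟨x, hx⟩, LinearMap.ext fun ν => ?_, rfl⟩
      have h5 : ∀ i, a i x = 0 := fun i => congrFun h i
      simp [evR, h5]
  rw [hK]
  omega

theorem rank_cmp {Z I I' : Type} [AddCommGroup Z] [Module (ZMod 2) Z] [Module.Finite (ZMod 2) Z] [Fintype I]
    [Fintype I'] (J N N' : Z →ₗ[ZMod 2] Z →ₗ[ZMod 2] ZMod 2) (hJ : ∀ x y, J x y = J y x)
    (R : Submodule (ZMod 2) Z) (hR : ∀ r ∈ R, ∀ x, J r x = 0)
    (a : I → Z →ₗ[ZMod 2] ZMod 2) (a' : I' → Z →ₗ[ZMod 2] ZMod 2)
    (hN : ∀ x y, N x y = J x y + ∑ i, a i x * a i y) (hN' : ∀ x y, N' x y = J x y + ∑ i, a' i x * a' i y)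
    (θ : (I → ZMod 2) →ₗ[ZMod 2] (I' → ZMod 2))
    (hinj : ∀ ν, (∀ r ∈ R, ∑ i, ν i * a i r = 0) → θ ν = 0 → ν = 0)
    (hcls : ∀ ν, (∀ r ∈ R, ∑ i, ν i * a i r = 0) → ∀ x, ∑ i, θ ν i * a' i x = ∑ i, ν i * a i x)
    (hdot : ∀ ν ρ, (∀ r ∈ R, ∑ i, ν i * a i r = 0) → (∀ r ∈ R, ∑ i, ρ i * a i r = 0) →
      ∑ i, θ ν i * θ ρ i = ∑ i, ν i * ρ i) :
    Fintype.card I + Module.finrank (ZMod 2) (LinearMap.range N') ≤
      Fintype.card I' + Module.finrank (ZMod 2) (LinearMap.range N) := by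
  set Q := Qf J a with hQ
  set Q' := Qf J a' with hQ'
  have hs : ∀ v w, Q v w = Q w v := Qf_symm J hJ a
  have hs' : ∀ v w, Q' v w = Q' w v := Qf_symm J hJ a'
  set U : Submodule (ZMod 2) (Z × (I → ZMod 2)) := R.map (LinearMap.inl (ZMod 2) Z (I → ZMod 2)) with hU
  set Y : Submodule (ZMod 2) (Z × (I → ZMod 2)) := (⊤ : Submodule (ZMod 2) Z).prod (Kz R a) with hYd
  have hmemY : ∀ w, w ∈ Y ↔ w.2 ∈ Kz R a := fun w => ⟨fun h => h.2, fun h => ⟨trivial, h⟩⟩
  have hY : ∀ w, w ∈ Y ↔ ∀ u ∈ U, Q u w = 0 := by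
    intro w
    rw [hmemY]
    constructor
    · rintro h u ⟨r, hr, rfl⟩
      rw [hQ, Qf_apply]
      simp only [LinearMap.inl_apply, Pi.zero_apply, zero_mul, Finset.sum_const_zero, add_zero]
      rw [hR r hr, h r hr, zero_add]
    · intro h r hr
      have := h (r, 0) ⟨r, hr, rfl⟩
      rw [hQ, Qf_apply] at this
      simp only [Pi.zero_apply, zero_mul, Finset.sum_const_zero, add_zero] at this
      rw [hR r hr, zero_add] at this
      exact this
  have hUY : U ≤ Y := by
    rintro u ⟨r, hr, rfl⟩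
    exact (hmemY _).mpr (Kz R a).zero_mem
  have e1 := rad_eq Q hs U Y hY hUY
  have e2 := finrank_rad_top J N a hN
  have e3 := finrank_rad_top J N' a' hN'
  rw [← hQ] at e2
  rw [← hQ'] at e3
  have e4 := finrank_Kz R a
  have e5 : Module.finrank (ZMod 2) U = Module.finrank (ZMod 2) R :=
    finrank_map_inj _ _ (fun x _ hx => congrArg Prod.fst hx)
  have e6 : Module.finrank (ZMod 2) (U ⊓ radOn Q ⊤ : Submodule (ZMod 2) (Z × (I → ZMod 2))) =
      Module.finrank (ZMod 2) (R ⊓ LinearMap.ker (LinearMap.pi a) : Submodule (ZMod 2) Z) := by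
    have : (U ⊓ radOn Q ⊤ : Submodule (ZMod 2) (Z × (I → ZMod 2))) =
        (R ⊓ LinearMap.ker (LinearMap.pi a) : Submodule (ZMod 2) Z).map
          (LinearMap.inl (ZMod 2) Z (I → ZMod 2)) := by
      ext w
      rw [Submodule.mem_inf, mem_rad_top J N a hN, Submodule.mem_map]
      constructor
      · rintro ⟨⟨r, hr, rfl⟩, -, h2⟩
        exact ⟨r, ⟨hr, h2.symm⟩, rfl⟩
      · rintro ⟨r, ⟨hr, h2⟩, rfl⟩
        have h2' : ∀ i, a i r = 0 := fun i => congrFun h2 i
        refine ⟨⟨r, hr, rfl⟩, ?_, ?_⟩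
        · refine LinearMap.ext fun y => ?_
          rw [hN, LinearMap.inl_apply, hR r hr, LinearMap.zero_apply]
          simp [h2']
        · exact h2.symm
    rw [this]
    exact finrank_map_inj _ _ (fun x _ hx => congrArg Prod.fst hx)
  set T : (Z × (I → ZMod 2)) →ₗ[ZMod 2] (Z × (I' → ZMod 2)) := LinearMap.prodMap LinearMap.id θ with hT
  have hTinj : ∀ w ∈ Y, T w = 0 → w = 0 := by
    intro w hw h
    have h1 : w.1 = 0 := congrArg Prod.fst h
    have h2 : θ w.2 = 0 := congrArg Prod.snd h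
    exact Prod.ext h1 (hinj w.2 ((hmemY w).mp hw) h2)
  have hiso : ∀ v ∈ Y, ∀ w ∈ Y, Q' (T v) (T w) = Q v w := by
    intro v hv w hw
    rw [hQ, hQ', Qf_apply, Qf_apply]
    change J v.1 w.1 + ∑ i, θ v.2 i * a' i w.1 + ∑ i, θ w.2 i * a' i v.1 + ∑ i, θ v.2 i * θ w.2 i = _
    rw [hcls v.2 ((hmemY v).mp hv) w.1, hcls w.2 ((hmemY w).mp hw) v.1,
      hdot v.2 w.2 ((hmemY v).mp hv) ((hmemY w).mp hw)]
  have e7 : radOn Q' (Y.map T) = (radOn Q Y).map T := by
    ext w
    rw [Submodule.mem_map]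
    constructor
    · rintro ⟨⟨v, hv, rfl⟩, h⟩
      exact ⟨v, ⟨hv, fun y hy => by rw [← hiso v hv y hy]; exact h _ ⟨y, hy, rfl⟩⟩, rfl⟩
    · rintro ⟨v, ⟨hv, h⟩, rfl⟩
      refine ⟨⟨v, hv, rfl⟩, ?_⟩
      rintro _ ⟨y, hy, rfl⟩
      rw [hiso v hv y hy]
      exact h y hy
  have e8 := rad_le Q' hs' (Y.map T)
  have e9 : Module.finrank (ZMod 2) (Y.map T) = Module.finrank (ZMod 2) Y := finrank_map_inj T Y hTinj
  have e10 : Module.finrank (ZMod 2) (radOn Q' (Y.map T)) = Module.finrank (ZMod 2) (radOn Q Y) := by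
    rw [e7]
    exact finrank_map_inj T _ (fun x hx => hTinj x hx.1)
  have e11 : Module.finrank (ZMod 2) Y = Module.finrank (ZMod 2) Z + Module.finrank (ZMod 2) (Kz R a) := by
    have h1 : Y = LinearMap.range (LinearMap.prodMap (LinearMap.id : Z →ₗ[ZMod 2] Z) (Kz R a).subtype) := by
      rw [LinearMap.range_prodMap, LinearMap.range_id, Submodule.range_subtype]
    rw [h1, LinearMap.finrank_range_of_inj, Module.finrank_prod]
    intro x y hxy
    have hxy' : ((x.1, (x.2 : I → ZMod 2)) : Z × (I → ZMod 2)) = (y.1, (y.2 : I → ZMod 2)) := hxy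
    exact Prod.ext (Prod.mk.inj hxy').1 (Subtype.ext (Prod.mk.inj hxy').2)
  have e12 : Module.finrank (ZMod 2) (Z × (I' → ZMod 2)) = Module.finrank (ZMod 2) Z + Fintype.card I' := by
    rw [Module.finrank_prod, Module.finrank_fintype_fun_eq_card]
  omega

end Pool.Agent.BEO
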