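import Pool.Agent.BEO.EvC
import Pool.Agent.BEO.LegB
import Pool.Agent.BEO.Repl

/-!
# BEO-Opt: an optimal set is a sum of a bounded number of canonical walks

PLAN. `T := 2 * C` with `C` from `even_count k`. Take `lam, mu` from `exists_min`, legs from `exists_legs` (`ev_of_adm`),
`m ≤ 2 * C`. For every leg choose `w' i ∈ W` from `hW` (`L.dw`, `L.ne`). The list is `List.ofFn w'`; `repl_legs` gives
admissibility and `rkN (..) ≤ rkN lam ≤ rkN lam'` for every admissible `lam'` (`Min.opt`).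
-/

set_option autoImplicit false

open Finset
open scoped Classical

namespace Pool.Agent.BEO

theorem exists_opt (k : ℕ) : ∃ T : ℕ, ∀ (Φ E Z : Type) [Fintype Φ] [Fintype E] [AddCommGroup Z] [Module F2 Z]
    [Module.Finite F2 Z] (D : Dat k Φ E Z) (W : Set (List E)),
    (∀ (F G : Φ) (w : List E), DW D.s D.t F G w → w ≠ [] → ∃ w' ∈ W, w' ≠ [] ∧ w'.length ≤ w.length ∧
      (w'.length + w.length) % 2 = 0 ∧ (w'.map D.a).sum = (w.map D.a).sum) →
    ∃ l : List (List E), l.length ≤ T ∧ (∀ w ∈ l, w ∈ W) ∧ D.Adm (oddE l.flatten) ∧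
      ∀ lam, D.Adm lam → D.rkN (oddE l.flatten) ≤ D.rkN lam := by
  obtain ⟨C, hC⟩ := even_count k
  refine ⟨2 * C, ?_⟩
  intro Φ E Z _ _ _ _ _ D W hW
  obtain ⟨lam, mu, hmin⟩ := D.exists_min
  obtain ⟨m, hm, ⟨L⟩⟩ := exists_legs (D.ev_of_adm lam hmin.adm) C (hC Φ E Z D lam mu hmin)
  have h1 := fun i => hW (L.src i) (L.tgt i) (L.w i) (L.dw i) (L.ne i)
  choose w' hw1 hw2 hw3 hw4 hw5 using h1
  obtain ⟨h2, h3⟩ := D.repl_legs lam hmin.adm m L w' hw2 hw3 hw4 hw5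
  refine ⟨List.ofFn w', ?_, ?_, h2, ?_⟩
  · rw [List.length_ofFn]
    exact hm
  · intro w hw
    rw [List.mem_ofFn] at hw
    obtain ⟨i, rfl⟩ := hw
    exact hw1 i
  · intro lam' hlam'
    exact h3.trans (hmin.opt lam' hlam')

end Pool.Agent.BEO
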