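import Pool.Agent.BEO.CodS
import Pool.Agent.BEO.CompS

/-!
# BEO-OriS: orientability is computed correctly

PLAN. Let `T := twist S (lamOf G c)`; the points of `ptO l` are the `(cod p, b)`, the pairs of `relO l c` join
`(cod p, b)` to `(cod (T.nxt p), !b)`, `(cod (side p), !b)`, `(cod (across p), !b)`. Let `p0` be the first flag of
`fl l` (there is a flag: `G` connected, `2 ≤ n`). By `comp_look`, `isO l c = true` iff `(cod p0, false)` and
`(cod p0, true)` are in different classes. If `T` is orientable by `κ` (`IsBand κ` and `κ (T.nxt p) ≠ κ p`), the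
function `(cod p, b) ↦ κ p + b` is constant on the classes, so they are different. Conversely, as `G` is connected
every `(cod p, b)` is in the class of `(cod p0, false)` or of `(cod p0, true)` (the set of these `p` with both `b` is
closed under `T.nxt`, `side`, `across`: `all_const` applied to the indicator); if the classes are different put
`κ p := 0` if `(cod p, false)` is in the class of `(cod p0, false)`, else 1; the step `(q, b) → (q', !b)` shows that
`κ` changes under the three involutions.
-/

set_option autoImplicit false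

open Finset
open scoped Classical

namespace Pool.Agent.BEO

open Pool.Agent.Helper35.OG (Flag GMap across side across_across side_side across_ne side_ne side_fst across_fst vertex_const
  all_const exists_flag face_nxt face_across face_surj nxt_inj sum_inv eqvGen_eq IsBand)

variable {n : ℕ} {G : SimpleGraph (Fin n)}

private theorem mem_ptO {S : GMap G} {l : Inp} (h : Codes S l) (x : Pt) (b : Bool) :
    (x, b) ∈ ptO l ↔ ∃ p : Flag G, x = cod p := by
  rw [← mem_fl h]
  unfold ptO
  rw [List.mem_flatMap]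
  constructor
  · rintro ⟨p, hp, hx⟩
    simp only [List.mem_cons, List.not_mem_nil, or_false, Prod.mk.injEq] at hx
    rcases hx with hx | hx
    · rw [hx.1]; exact hp
    · rw [hx.1]; exact hp
  · intro hx
    refine ⟨x, hx, ?_⟩
    cases b <;> simp

private theorem mem_relO {S : GMap G} {l : Inp} (h : Codes S l) (c : List Ec) (x y : Pt × Bool) :
    (x, y) ∈ relO l c ↔ ∃ (p : Flag G) (b : Bool), x = (cod p, b) ∧
      (y = (cod ((twist S (lamOf G c)).nxt p), !b) ∨ y = (cod (side p), !b) ∨ y = (cod (across p), !b)) := by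
  unfold relO
  rw [List.mem_flatMap]
  constructor
  · rintro ⟨q, hq, hx⟩
    obtain ⟨p, hp⟩ := (mem_ptO h q.1 q.2).1 hq
    refine ⟨p, q.2, ?_⟩
    simp only [List.mem_cons, List.not_mem_nil, or_false, Prod.mk.injEq] at hx
    rw [hp, nxc_cod h, sd_cod, ac_cod] at hx
    have hq' : q = (cod p, q.2) := by rw [← hp]
    rcases hx with hx | hx | hx
    · exact ⟨hx.1.trans hq', Or.inl hx.2⟩
    · exact ⟨hx.1.trans hq', Or.inr (Or.inl hx.2)⟩
    · exact ⟨hx.1.trans hq', Or.inr (Or.inr hx.2)⟩
  · rintro ⟨p, b, hx, hy⟩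
    refine ⟨(cod p, b), (mem_ptO h _ _).2 ⟨p, rfl⟩, ?_⟩
    simp only [List.mem_cons, List.not_mem_nil, or_false, Prod.mk.injEq]
    rw [nxc_cod h, sd_cod, ac_cod]
    rcases hy with hy | hy | hy
    · exact Or.inl ⟨hx, hy⟩
    · exact Or.inr (Or.inl ⟨hx, hy⟩)
    · exact Or.inr (Or.inr ⟨hx, hy⟩)

private theorem z2_ne {a b : ZMod 2} (h : a ≠ b) : a = b + 1 := by
  revert a b; decide

private theorem bad {T : GMap G} (hG : G.Connected) (hO : ¬ T.Orientable) (A : Flag G → Bool → Prop) (p0 : Flag G)
    (h0 : A p0 false) (h1 : ∀ p b, A p b → A (T.nxt p) (!b)) (h2 : ∀ p b, A p b → A (side p) (!b))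
    (h3 : ∀ p b, A p b → A (across p) (!b)) : A p0 true := by
  by_contra hc
  apply hO
  have hex : ∀ p, ∃ b, A p b := by
    intro p
    have := all_const T hG (fun p => ∃ b, A p b) ?_ ?_ ?_ p p0
    · rw [this]
      exact ⟨false, h0⟩
    · intro p
      apply propext
      constructor
      · rintro ⟨b, hb⟩
        have := h1 _ _ hb
        rw [T.nxt_nxt] at this
        exact ⟨_, this⟩
      · rintro ⟨b, hb⟩
        exact ⟨_, h1 _ _ hb⟩
    · intro p
      apply propext
      constructor
      · rintro ⟨b, hb⟩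
        have := h2 _ _ hb
        rw [side_side] at this
        exact ⟨_, this⟩
      · rintro ⟨b, hb⟩
        exact ⟨_, h2 _ _ hb⟩
    · intro p
      apply propext
      constructor
      · rintro ⟨b, hb⟩
        have := h3 _ _ hb
        rw [across_across] at this
        exact ⟨_, this⟩
      · rintro ⟨b, hb⟩
        exact ⟨_, h3 _ _ hb⟩
  have hnb : ∀ p, ¬ (A p false ∧ A p true) := by
    intro p hp
    have := all_const T hG (fun p => A p false ∧ A p true) ?_ ?_ ?_ p p0
    · rw [this] at hp
      exact hc hp.2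
    · intro p
      apply propext
      constructor
      · rintro ⟨hb, hb'⟩
        have e1 := h1 _ _ hb
        have e2 := h1 _ _ hb'
        rw [T.nxt_nxt] at e1 e2
        exact ⟨e2, e1⟩
      · rintro ⟨hb, hb'⟩
        exact ⟨h1 _ _ hb', h1 _ _ hb⟩
    · intro p
      apply propext
      constructor
      · rintro ⟨hb, hb'⟩
        have e1 := h2 _ _ hb
        have e2 := h2 _ _ hb'
        rw [side_side] at e1 e2
        exact ⟨e2, e1⟩
      · rintro ⟨hb, hb'⟩
        exact ⟨h2 _ _ hb', h2 _ _ hb⟩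
    · intro p
      apply propext
      constructor
      · rintro ⟨hb, hb'⟩
        have e1 := h3 _ _ hb
        have e2 := h3 _ _ hb'
        rw [across_across] at e1 e2
        exact ⟨e2, e1⟩
      · rintro ⟨hb, hb'⟩
        exact ⟨h3 _ _ hb', h3 _ _ hb⟩
  have key : ∀ p q, (∀ b, A p b → A q (!b)) →
      (if A q false then (0 : ZMod 2) else 1) ≠ if A p false then (0 : ZMod 2) else 1 := by
    intro p q hpq
    by_cases hp : A p false
    · have hq : A q true := hpq _ hp
      have hq' : ¬ A q false := fun h => hnb q ⟨h, hq⟩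
      rw [if_pos hp, if_neg hq']
      decide
    · have hp' : A p true := by
        obtain ⟨b, hb⟩ := hex p
        cases b
        · exact absurd hb hp
        · exact hb
      have hq : A q false := hpq _ hp'
      rw [if_neg hp, if_pos hq]
      decide
  refine ⟨fun p => if A p false then 0 else 1, ?_, ?_⟩
  · intro p
    exact ⟨key _ _ (fun b => h3 p b), key _ _ (fun b => h2 p b)⟩
  · intro p
    exact key _ _ (fun b => h1 p b)

theorem isO_iff {S : GMap G} {l : Inp} (h : Codes S l) (hG : G.Connected) (hn : 2 ≤ n) (c : List Ec) :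
    isO l c = true ↔ (twist S (lamOf G c)).Orientable := by
  have : Nontrivial (Fin n) := Fin.nontrivial_iff_two_le.2 hn
  have hfl : ∃ p0 : Flag G, (fl l).headD (0, (0, false)) = cod p0 := by
    obtain ⟨p, -⟩ := exists_flag hG (⟨0, by omega⟩ : Fin n)
    have hp : cod p ∈ fl l := (mem_fl h _).2 ⟨p, rfl⟩
    cases hl : fl l with
    | nil => rw [hl] at hp; simp at hp
    | cons a t =>
      have : a ∈ fl l := by rw [hl]; simp
      obtain ⟨p0, hp0⟩ := (mem_fl h _).1 this
      exact ⟨p0, by simp [hp0]⟩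
  obtain ⟨p0, hp0⟩ := hfl
  have hrel : ∀ r ∈ relO l c, r.1 ∈ ptO l ∧ r.2 ∈ ptO l := by
    rintro ⟨x, y⟩ hr
    obtain ⟨p, b, hx, hy⟩ := (mem_relO h c x y).1 hr
    refine ⟨?_, ?_⟩
    · simp only; rw [hx]; exact (mem_ptO h _ _).2 ⟨p, rfl⟩
    · rcases hy with hy | hy | hy
      · simp only; rw [hy]; exact (mem_ptO h _ _).2 ⟨_, rfl⟩
      · simp only; rw [hy]; exact (mem_ptO h _ _).2 ⟨_, rfl⟩
      · simp only; rw [hy]; exact (mem_ptO h _ _).2 ⟨_, rfl⟩
  have hlook := comp_look (ptO l) (relO l c) hrel (cod p0, false) (cod p0, true)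
    ((mem_ptO h _ _).2 ⟨p0, rfl⟩) ((mem_ptO h _ _).2 ⟨p0, rfl⟩)
  have hiso : isO l c = true ↔ ¬ Relation.EqvGen (fun a b => (a, b) ∈ relO l c) (cod p0, false) (cod p0, true) := by
    rw [← hlook]
    unfold isO
    simp only [hp0, Bool.not_eq_true', decide_eq_false_iff_not]
  rw [hiso]
  constructor
  · intro hne
    by_contra hO
    apply hne
    exact bad hG hO (fun p b => Relation.EqvGen (fun a b => (a, b) ∈ relO l c) (cod p0, false) (cod p, b)) p0
      (Relation.EqvGen.refl _)
      (fun p b hb => hb.trans _ _ _ (Relation.EqvGen.rel _ _ ((mem_relO h c _ _).2 ⟨p, b, rfl, Or.inl rfl⟩)))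
      (fun p b hb => hb.trans _ _ _ (Relation.EqvGen.rel _ _ ((mem_relO h c _ _).2 ⟨p, b, rfl, Or.inr (Or.inl rfl)⟩)))
      (fun p b hb => hb.trans _ _ _ (Relation.EqvGen.rel _ _ ((mem_relO h c _ _).2 ⟨p, b, rfl, Or.inr (Or.inr rfl)⟩)))
  · rintro ⟨κ, hκ, hκT⟩ hR
    have hW : ∃ W : Pt × Bool → ZMod 2, ∀ (p : Flag G) (b : Bool), W (cod p, b) = κ p + if b then 1 else 0 := by
      refine ⟨fun x => if hx : ∃ p : Flag G, x.1 = cod p then κ hx.choose + (if x.2 then 1 else 0) else 0, ?_⟩
      intro p b
      have hx : ∃ q : Flag G, ((cod p, b) : Pt × Bool).1 = cod q := ⟨p, rfl⟩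
      have e : hx.choose = p := (cod_inj hx.choose_spec).symm
      show (if hx : ∃ p_1 : Flag G, ((cod p, b) : Pt × Bool).1 = cod p_1 then
        κ hx.choose + (if ((cod p, b) : Pt × Bool).2 then 1 else 0) else 0) = _
      rw [dif_pos hx, e]
    obtain ⟨W, hW⟩ := hW
    have hstep : ∀ (p q : Flag G) (b : Bool), κ q ≠ κ p → W (cod p, b) = W (cod q, !b) := by
      intro p q b hpq
      rw [hW, hW, z2_ne hpq]
      have h2 : (1 : ZMod 2) + 1 = 0 := by decide
      cases b
      · simp [add_assoc, h2]
      · simp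
    have := eqvGen_eq W (r := fun a b => (a, b) ∈ relO l c) ?_ hR
    · rw [hW, hW] at this
      simp at this
    · intro x y hxy
      obtain ⟨p, b, hx, hy⟩ := (mem_relO h c x y).1 hxy
      rcases hy with hy | hy | hy
      · rw [hx, hy]; exact hstep _ _ _ (hκT p)
      · rw [hx, hy]; exact hstep _ _ _ (hκ p).2
      · rw [hx, hy]; exact hstep _ _ _ (hκ p).1

end Pool.Agent.BEO
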