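import Pool.Agent.BEO.ClsS
import Pool.Agent.BEO.OriS
import Pool.Agent.BEO.CntS
import Pool.Agent.BEO.GenB
import Pool.Agent.BEO.Opt

/-!
# BEO-AlgS: the algorithm is correct

PLAN. `T` from `exists_opt k`. Let `D := mkDat ..`, `γ := orientableGenus G`. (1) For every `c ∈ cand k T l`, if
`isO l c` then the map `twist S (lamOf G c)` is orientable (`isO_iff`), so by `gen_le` its Euler genus
`2 - n + E - nF l c` is `2 * g`, `γ ≤ g` (`nF_eq`; `eg` unfolded), so `nF l c ≤ 2 - n + E - 2 γ`; otherwise the value in
`best` is 0 (and `0 ≤ 2 - n + E - 2 γ` by (2)). (2) `exists_tuple` gives `es`; `exists_opt` with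
`W := {w' | w'.map ec ∈ wlk k l es}` gives a list `ls` of at most `T` walks; `c := (ls.map (List.map ec)).flatten` is in
`cand k T l` (`mem_cds`) and `lamOf G c = oddE ls.flatten` (`lamOf_map`), so by `gen_eq` (admissible of least rank) the
twist is orientable of Euler genus `2 γ`: `nF l c = 2 - n + E - 2 γ`. So `best k T l + n + 2 γ = 2 + E` and
`alg k T l = (2 + E - (n + best)) / 2 = γ` (`nE_eq`, `nV_eq`). The maximum of a list by `foldl max 0`: attained and an
upper bound (`List.foldl_max`-type lemmas or induction).
-/

set_option autoImplicit false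

open Finset
open scoped Classical

namespace Pool.Agent.BEO

open Pool.Agent.Helper35.OG (Flag GMap across side across_across side_side across_ne side_ne side_fst across_fst vertex_const
  all_const exists_flag face_nxt face_across face_surj nxt_inj sum_inv eqvGen_eq IsBand)

variable {n : ℕ} {G : SimpleGraph (Fin n)}

open Pool.Agent.Helper35.OG (orientableGenus)

private theorem foldl_max_le (L : List ℕ) (a B : ℕ) (ha : a ≤ B) (h : ∀ x ∈ L, x ≤ B) : L.foldl max a ≤ B := by
  induction L generalizing a with
  | nil => exact ha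
  | cons x L ih =>
    rw [List.foldl_cons]
    refine ih _ ?_ ?_
    · exact max_le ha (h x (List.mem_cons_self))
    · intro y hy
      exact h y (List.mem_cons_of_mem _ hy)

private theorem le_foldl_max_init (L : List ℕ) (a : ℕ) : a ≤ L.foldl max a := by
  induction L generalizing a with
  | nil => exact le_rfl
  | cons x L ih =>
    rw [List.foldl_cons]
    exact (le_max_left a x).trans (ih _)

private theorem le_foldl_max (L : List ℕ) (a x : ℕ) (h : x ∈ L) : x ≤ L.foldl max a := by
  induction L generalizing a with
  | nil => simp at h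
  | cons y L ih =>
    rw [List.foldl_cons]
    rcases List.mem_cons.1 h with rfl | h
    · exact (le_max_right a x).trans (le_foldl_max_init L _)
    · exact ih _ h

theorem alg_correct (k : ℕ) : ∃ T : ℕ, ∀ (n : ℕ) (G : SimpleGraph (Fin n)), G.Connected → 2 ≤ n →
    (∀ v, (nb G v).card ≤ 3) → ∀ S : GMap G, S.eg = k → Wide S → ∀ l : Inp, Codes S l →
      alg k T l = orientableGenus G := by
  obtain ⟨T, hT⟩ := exists_opt k
  refine ⟨T, ?_⟩
  intro n G hG hn h3 S hk hw l hl
  have hnt : Nontrivial (Fin n) := Fin.nontrivial_iff_two_le.2 hn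
  obtain ⟨es, hes1, hes2⟩ := exists_tuple hl hG hn k hk hw
  obtain ⟨ls, hls1, hls2, hadm, hmin⟩ := hT S.Face G.edgeSet (cyc G) (mkDat S hG k hk hw)
    {w' | w'.map ec ∈ wlk k l es} (by
      intro F F' w hw hne
      obtain ⟨w', h1, h2, h4, h5, h6⟩ := hes2 F F' w hw hne
      exact ⟨w', h1, h2, h4, h5, h6⟩)
  obtain ⟨ho, he⟩ := gen_eq S hG k hk hw h3 (oddE ls.flatten) hadm hmin
  set c : List Ec := (ls.map (List.map ec)).flatten with hcdef
  have hc1 : c = ls.flatten.map ec := by
    rw [hcdef, List.map_flatten]
  have hlam : lamOf G c = oddE ls.flatten := by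
    rw [hc1, lamOf_map]
  have hc : c ∈ cand k T l := by
    unfold cand
    rw [List.mem_flatMap]
    refine ⟨es, hes1, ?_⟩
    rw [mem_cds]
    refine ⟨ls.map (List.map ec), ?_, ?_, rfl⟩
    · rw [List.length_map]
      exact hls1
    · intro w hw'
      obtain ⟨w', hw1, rfl⟩ := List.mem_map.1 hw'
      exact hls2 w' hw1
  have hcard : Nat.card (Fin n) = n := by simp
  -- the Euler genus of a twist
  have heg : ∀ c' : List Ec, (twist S (lamOf G c')).eg = 2 - (n : ℤ) + (nE l : ℤ) - (nF l c' : ℤ) := by
    intro c'
    rw [nE_eq hl, nF_eq hl hG hn c']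
    unfold Pool.Agent.Helper35.OG.GMap.eg
    rw [hcard]
  have hle : ∀ c' : List Ec, isO l c' = true → nF l c' + n + 2 * orientableGenus G ≤ 2 + nE l := by
    intro c' hc'
    obtain ⟨g, hg1, hg2⟩ := gen_le hG _ ((isO_iff hl hG hn c').1 hc')
    rw [heg c'] at hg1
    omega
  have hopt : isO l c = true := by
    rw [isO_iff hl hG hn c, hlam]
    exact ho
  have heq : nF l c + n + 2 * orientableGenus G = 2 + nE l := by
    have h1 := heg c
    rw [hlam, he] at h1
    omega
  have hbest : best k T l + n + 2 * orientableGenus G = 2 + nE l := by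
    apply le_antisymm
    · have h1 : best k T l ≤ 2 + nE l - (n + 2 * orientableGenus G) := by
        unfold best
        apply foldl_max_le
        · exact Nat.zero_le _
        · intro x hx
          obtain ⟨c', hc', rfl⟩ := List.mem_map.1 hx
          by_cases h4 : isO l c' = true
          · rw [if_pos h4]
            have := hle c' h4
            omega
          · rw [if_neg h4]
            exact Nat.zero_le _
      omega
    · have h1 : nF l c ≤ best k T l := by
        unfold best
        apply le_foldl_max
        rw [List.mem_map]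
        refine ⟨c, hc, ?_⟩
        rw [if_pos hopt]
      omega
  unfold alg
  rw [nV_eq hl hG hn]
  omega

end Pool.Agent.BEO
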