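import Mathlib

/-!
# BEO: definitions for the combinatorial core

`V` is the set of faces of the embedding, `L` the graph of a smallest blocking set (a set of edges of the dual graph),
`M` its subgraph of smallest size with the same class, `a` the homology class of an edge.
-/

set_option autoImplicit false

open Finset
open scoped Classical

namespace Pool.Agent.BEO

/-- the field with two elements -/
abbrev F2 : Type := ZMod 2

section graphs

variable {V : Type} [Fintype V]

/-- the neighbours of `v` -/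
noncomputable def nb (L : SimpleGraph V) (v : V) : Finset V := univ.filter fun u => L.Adj v u

/-- the edges -/
noncomputable def es (L : SimpleGraph V) : Finset (Sym2 V) := univ.filter fun e => e ∈ L.edgeSet

/-- the vertices with a neighbour -/
noncomputable def vs (L : SimpleGraph V) : Finset V := univ.filter fun v => ∃ u, L.Adj v u

/-- the number of edges of `χ` at `v` -/
noncomputable def dg (χ : Finset (Sym2 V)) (v : V) : ℕ := (χ.filter fun e => v ∈ e).card

/-- a walk of length at most `r` -/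
def Near (M : SimpleGraph V) (r : ℕ) (u v : V) : Prop := ∃ w : M.Walk u v, w.length ≤ r

/-- the rows of the adjacency matrix over `F2` -/
noncomputable def row (L : SimpleGraph V) (v u : V) : F2 := if L.Adj v u then 1 else 0

/-- the row space -/
noncomputable def rowSp (L : SimpleGraph V) : Submodule F2 (V → F2) := Submodule.span F2 (Set.range (row L))

end graphs

/-- The configuration attached to a smallest blocking set. -/
structure Cfg (k : ℕ) (V Q : Type) [Fintype V] [AddCommGroup Q] [Module F2 Q] where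
  /-- the graph of the blocking set -/
  L : SimpleGraph V
  /-- its smallest subset with the same class -/
  M : SimpleGraph V
  le : M ≤ L
  /-- the class of an edge -/
  a : Sym2 V → Q
  /-- the image of the form -/
  W : Submodule F2 Q
  /-- the classes of cycles -/
  H : Submodule F2 Q
  evL : ∀ v, Even (nb L v).card
  evM : ∀ v, Even (nb M v).card
  null : ∀ (v : V) (w : L.Walk v v), w.length ≤ 6 → (w.edges.map a).sum = 0
  rho : ∀ v, ∑ u ∈ nb L v, a s(v, u) ∈ W
  tw : ∀ u v, u ≠ v → ∀ U : Finset V, (∀ x ∈ U, L.Adj u x ∧ L.Adj v x) → U.Nonempty → Even U.card →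
    ∑ x ∈ U, a s(u, x) ∉ W
  cls : ∀ χ : Finset (Sym2 V), (∀ e ∈ χ, e ∈ L.edgeSet) → (∀ v, Even (dg χ v)) → ∑ e ∈ χ, a e ∈ H
  finH : Module.Finite F2 H
  dimH : Module.finrank F2 H ≤ k
  mn : ∀ χ : Finset (Sym2 V), (∀ e ∈ χ, e ∈ L.edgeSet) → (∀ v, Even (dg χ v)) → ∑ e ∈ χ, a e = 0 →
    (χ.filter fun e => e ∈ M.edgeSet).card ≤ (χ.filter fun e => e ∉ M.edgeSet).card
  rk : Module.finrank F2 (rowSp L) ≤ k + (es M).card

/-- The decomposition of `M` into a bounded set `B` and `m` paths `x j 0, ..., x j (n j + 1)` whose ends are in `B` and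
whose inner vertices have degree two in `M`; short walks outside `M` between inner vertices do not jump. -/
structure Frame {k : ℕ} {V Q : Type} [Fintype V] [AddCommGroup Q] [Module F2 Q] (C : ℕ) (c : Cfg k V Q) where
  /-- the number of segments -/
  m : ℕ
  /-- the number of inner vertices -/
  n : Fin m → ℕ
  /-- the vertices of the segments -/
  x : Fin m → ℕ → V
  /-- the exceptional vertices -/
  B : Finset V
  hm : m ≤ C
  hB : B.card ≤ C
  e0 : ∀ j, x j 0 ∈ B
  e1 : ∀ j, x j (n j + 1) ∈ B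
  notB : ∀ j l, 1 ≤ l → l ≤ n j → x j l ∉ B
  inj : ∀ j l j' l', 1 ≤ l → l ≤ n j → 1 ≤ l' → l' ≤ n j' → x j l = x j' l' → j = j' ∧ l = l'
  cov : ∀ v, v ∈ vs c.M → v ∈ B ∨ ∃ j l, 1 ≤ l ∧ l ≤ n j ∧ v = x j l
  adj : ∀ j l, 1 ≤ l → l ≤ n j → ∀ w, c.M.Adj (x j l) w ↔ (w = x j (l - 1) ∨ w = x j (l + 1))
  ne : ∀ j l, 1 ≤ l → l ≤ n j → x j (l - 1) ≠ x j (l + 1)
  far : ∀ j l j' l', 1 ≤ l → l ≤ n j → 1 ≤ l' → l' ≤ n j' → ∀ w : (c.L \ c.M).Walk (x j l) (x j' l'),
    w.length ≤ 4 → Near c.M w.length (x j l) (x j' l')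

namespace Frame

variable {k C : ℕ} {V Q : Type} [Fintype V] [AddCommGroup Q] [Module F2 Q] {c : Cfg k V Q} (f : Frame C c)

/-- the inner vertices of the segments -/
def X0 : Set V := {v | ∃ j l, 1 ≤ l ∧ l ≤ f.n j ∧ v = f.x j l}

/-- the vectors of the row space which vanish on all inner vertices except the first ones -/
noncomputable def K : Submodule F2 (V → F2) where
  carrier := {r | r ∈ rowSp c.L ∧ ∀ j l, 2 ≤ l → l ≤ f.n j → r (f.x j l) = 0}
  add_mem' := by
    rintro r s ⟨h1, h2⟩ ⟨h3, h4⟩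
    refine ⟨Submodule.add_mem _ h1 h3, ?_⟩
    intro j l hl hl'
    rw [Pi.add_apply, h2 j l hl hl', h4 j l hl hl', add_zero]
  zero_mem' := ⟨Submodule.zero_mem _, fun _ _ _ _ => rfl⟩
  smul_mem' := by
    rintro t r ⟨h1, h2⟩
    refine ⟨Submodule.smul_mem _ t h1, ?_⟩
    intro j l hl hl'
    rw [Pi.smul_apply, h2 j l hl hl', smul_zero]

/-- The four types of a trace: `{i}`, `{i, i + 1}`, `{i - 1, i + 1}`, `{i - 1, i, i + 1}`. -/
def Ty (τ : Fin 4) (i l : ℕ) : Prop :=
  (τ = 0 ∧ l = i) ∨ (τ = 1 ∧ (l = i ∨ l = i + 1)) ∨ (τ = 2 ∧ (l + 1 = i ∨ l = i + 1)) ∨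
    (τ = 3 ∧ (l + 1 = i ∨ l = i ∨ l = i + 1))

/-- `y` is outside `M` and its neighbours among the inner vertices are those of type `τ` at position `i` of the
segment `j`, deep inside the segment. -/
def Tr (τ : Fin 4) (j : Fin f.m) (i : ℕ) (y : V) : Prop :=
  y ∉ vs c.M ∧ 18 ≤ i ∧ i + 18 ≤ f.n j ∧
    ∀ j' l, 1 ≤ l → l ≤ f.n j' → (c.L.Adj y (f.x j' l) ↔ (j' = j ∧ Ty τ i l))

/-- the sum of the rows of `x j (i - 1)`, `x j (i - 3)`, ... -/
noncomputable def alt (j : Fin f.m) (i : ℕ) (u : V) : F2 :=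
  ∑ l ∈ (range i).filter (fun l => 1 ≤ l ∧ (l + i) % 2 = 1), row c.L (f.x j l) u

/-- The vector of `K` attached to `y`. -/
noncomputable def rv (τ : Fin 4) (j : Fin f.m) (i : ℕ) (y : V) (u : V) : F2 :=
  row c.L y u + (if τ = 0 ∨ τ = 3 then f.alt j i u else 0) +
    (if τ = 1 then ∑ l ∈ Icc 1 i, row c.L (f.x j l) u else 0) +
    (if τ = 2 ∨ τ = 3 then row c.L (f.x j i) u else 0)

end Frame

end Pool.Agent.BEO
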