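import Pool.Agent.BEO.BdF

/-!
# BEO-BdDim: the dimension of the space spanned by the boundaries of the faces
-/

set_option autoImplicit false

open Finset
open scoped Classical

namespace Pool.Agent.BEO

open Pool.Agent.Helper35.OG (Flag GMap across side across_across side_side across_ne side_ne side_fst across_fst vertex_const
  all_const exists_flag face_nxt face_across face_surj nxt_inj sum_inv eqvGen_eq IsBand)

variable {V : Type} {G : SimpleGraph V}

private theorem bd_val [Fintype V] (M : GMap G) (φ : M.Face → F2) (p : Flag G) :
    (Fintype.linearCombination F2 (bdF M) φ).1 (ed p) = φ (M.face p) + φ (M.face (side p)) := by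
  have h1 : (Fintype.linearCombination F2 (bdF M) φ).1 (ed p) =
      ∑ F, φ F * ((if M.face p = F then 1 else 0) + (if M.face (side p) = F then 1 else 0)) := by
    rw [Fintype.linearCombination_apply]
    have h2 : ((∑ F, φ F • bdF M F : cyc G) : G.edgeSet → F2) = ∑ F, φ F • (bdF M F).1 := by
      rw [Submodule.coe_sum]
      rfl
    rw [h2, Finset.sum_apply]
    refine sum_congr rfl fun F _ => ?_
    rw [Pi.smul_apply, smul_eq_mul, bdF_eq]
  rw [h1]
  simp only [mul_add, mul_ite, mul_one, mul_zero, sum_add_distrib]
  rw [Finset.sum_ite_eq, Finset.sum_ite_eq, if_pos (mem_univ _), if_pos (mem_univ _)]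

theorem finrank_bd [Fintype V] [Nontrivial V] (hG : G.Connected) (M : GMap G) :
    Module.finrank F2 (Submodule.span F2 (Set.range (bdF M))) + 1 = Nat.card M.Face := by
  have hker : LinearMap.ker (Fintype.linearCombination F2 (bdF M)) =
      Submodule.span F2 {(fun _ => 1 : M.Face → F2)} := by
    ext φ
    rw [LinearMap.mem_ker, Submodule.mem_span_singleton]
    constructor
    · intro h
      have h1 : ∀ p : Flag G, φ (M.face (side p)) = φ (M.face p) := fun p => by
        have h2 := bd_val M φ p
        rw [h] at h2
        have h3 : φ (M.face p) + φ (M.face (side p)) = 0 := h2.symm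
        have h4 := eq_neg_of_add_eq_zero_left h3
        rw [h4, ZMod.neg_eq_self_mod_two]
      have hc := all_const M hG (fun p => φ (M.face p)) (fun p => by rw [face_nxt]) h1
        (fun p => by rw [face_across])
      obtain ⟨p₀, _⟩ := exists_flag hG (Classical.arbitrary V)
      refine ⟨φ (M.face p₀), funext fun F => ?_⟩
      obtain ⟨q, rfl⟩ := face_surj M F
      rw [Pi.smul_apply, smul_eq_mul, mul_one]
      exact hc p₀ q
    · rintro ⟨c, rfl⟩
      apply Subtype.ext
      funext e
      obtain ⟨p, rfl⟩ := ed_surj e
      rw [bd_val]
      show c • (1 : F2) + c • (1 : F2) = 0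
      exact CharTwo.add_self_eq_zero _
  have hne : (fun _ => 1 : M.Face → F2) ≠ 0 := by
    obtain ⟨p₀, _⟩ := exists_flag hG (Classical.arbitrary V)
    intro h
    exact one_ne_zero (congrFun h (M.face p₀))
  have h1 := LinearMap.finrank_range_add_finrank_ker (Fintype.linearCombination F2 (bdF M))
  rw [hker, finrank_span_singleton hne, Fintype.range_linearCombination,
    Module.finrank_fintype_fun_eq_card, ← Nat.card_eq_fintype_card] at h1
  exact h1

end Pool.Agent.BEO
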