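import Pool.Agent.BEO.Topo

/-!
# BEO-BdF: the boundary of a face
-/

set_option autoImplicit false

open Finset
open scoped Classical

namespace Pool.Agent.BEO

open Pool.Agent.Helper35.OG (Flag GMap across side across_across side_side across_ne side_ne side_fst across_fst vertex_const
  all_const exists_flag face_nxt face_across face_surj nxt_inj sum_inv eqvGen_eq IsBand)

variable {V : Type} {G : SimpleGraph V}

/-- the two faces at a flag -/
private noncomputable def phi (M : GMap G) (F : M.Face) (p : Flag G) : F2 :=
  (if M.face p = F then 1 else 0) + (if M.face (side p) = F then 1 else 0)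

private theorem phi_side (M : GMap G) (F : M.Face) (p : Flag G) : phi M F (side p) = phi M F p := by
  unfold phi
  rw [side_side, add_comm]

private theorem phi_across (M : GMap G) (F : M.Face) (p : Flag G) :
    phi M F (across p) = phi M F p := by
  have h : side (across p) = across (side p) := rfl
  unfold phi
  rw [h, face_across, face_across]

private theorem phi_ed (M : GMap G) (F : M.Face) {p q : Flag G} (h : ed p = ed q) :
    phi M F p = phi M F q := by
  have h1 : p.1.edge = q.1.edge := congrArg Subtype.val h
  obtain ⟨d, s⟩ := p
  obtain ⟨d', s'⟩ := q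
  rcases SimpleGraph.dart_edge_eq_iff d d' |>.1 h1 with h2 | h2
  · subst h2
    by_cases hs : s = s'
    · rw [hs]
    · have h3 : (d, s) = side (d, s') := by
        cases s <;> cases s' <;> simp_all [side]
      rw [h3, phi_side]
  · subst h2
    by_cases hs : s = s'
    · have h3 : (d'.symm, s) = side (across (d', s')) := by
        cases s <;> cases s' <;> simp_all [side, across]
      rw [h3, phi_side, phi_across]
    · have h3 : (d'.symm, s) = across (d', s') := by
        cases s <;> cases s' <;> simp_all [across]
      rw [h3, phi_across]

theorem bd_exists [Fintype V] (M : GMap G) (F : M.Face) : ∃ b : cyc G, ∀ p : Flag G,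
    b.1 (ed p) = (if M.face p = F then 1 else 0) + (if M.face (side p) = F then 1 else 0) := by
  have hmem : (fun e => phi M F (rp e)) ∈ cyc G := by
    intro v
    have h1 : ∀ d : G.Dart, phi M F (rp (ed (d, true))) =
        (if M.face (d, true) = F then 1 else 0) + (if M.face (d, false) = F then 1 else 0) := by
      intro d
      exact phi_ed M F (ed_rp (ed (d, true)))
    have h2 := sum_inv (fun p : Flag G => M.nxt p) M.nxt_nxt M.nxt_ne
      (fun p : Flag G => if p.1.fst = v then (if M.face p = F then (1 : F2) else 0) else 0)
      (fun p => by rw [M.nxt_fst, face_nxt])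
    rw [Finset.sum_congr rfl fun d _ => h1 d, Finset.sum_filter]
    refine Eq.trans ?_ h2
    rw [Fintype.sum_prod_type]
    refine Finset.sum_congr rfl fun d _ => ?_
    rw [Fintype.sum_bool]
    split_ifs <;> simp
  exact ⟨⟨_, hmem⟩, fun p => phi_ed M F (ed_rp (ed p))⟩

/-- the boundary of a face -/
noncomputable def bdF [Fintype V] (M : GMap G) (F : M.Face) : cyc G := Classical.choose (bd_exists M F)

theorem bdF_eq [Fintype V] (M : GMap G) (F : M.Face) (p : Flag G) :
    (bdF M F).1 (ed p) = (if M.face p = F then 1 else 0) + (if M.face (side p) = F then 1 else 0) :=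
  Classical.choose_spec (bd_exists M F) p

end Pool.Agent.BEO
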