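import Mathlib

/-!
# BEO-ChiEx: two involutions without fixed points have a common two-colouring (Mathlib only)
-/

set_option autoImplicit false

namespace Pool.Agent.BEO


private theorem conj_inv {X : Type} (s t : Equiv.Perm X) (hs : s * s = 1) (ht : t * t = 1) :
    s * (s * t) * s⁻¹ = (s * t)⁻¹ := by
  have h1 : s⁻¹ = s := inv_eq_of_mul_eq_one_left hs
  have h2 : t⁻¹ = t := inv_eq_of_mul_eq_one_left ht
  rw [mul_inv_rev, h1, h2, ← mul_assoc, hs, one_mul]

private theorem s_pow {X : Type} (s t : Equiv.Perm X) (hs : s * s = 1) (ht : t * t = 1) (m : ℤ)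
    (x : X) : s (((s * t) ^ m) x) = ((s * t) ^ (-m)) (s x) := by
  have h1 : s * (s * t) ^ m * s⁻¹ = (s * t) ^ (-m) := by
    rw [← conj_zpow, conj_inv s t hs ht, inv_zpow']
  have h2 : s * (s * t) ^ m = (s * t) ^ (-m) * s := by
    rw [← h1, inv_mul_cancel_right]
  rw [← Equiv.Perm.mul_apply, h2, Equiv.Perm.mul_apply]

private theorem not_same {X : Type} (s t : Equiv.Perm X) (hs : s * s = 1) (ht : t * t = 1)
    (hs' : ∀ x, s x ≠ x) (ht' : ∀ x, t x ≠ x) (x : X) : ¬ (s * t).SameCycle x (s x) := by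
  rintro ⟨i, hi⟩
  rcases Int.even_or_odd' i with ⟨m, rfl | rfl⟩
  · apply hs' (((s * t) ^ m) x)
    rw [s_pow s t hs ht, ← hi, ← Equiv.Perm.mul_apply, ← zpow_add]
    congr 2
    ring
  · apply ht' (((s * t) ^ m) x)
    have h1 : s (((s * t) ^ m) x) = (s * t) (((s * t) ^ m) x) := by
      rw [s_pow s t hs ht, ← hi, ← Equiv.Perm.mul_apply, ← zpow_add, ← Equiv.Perm.mul_apply,
        ← zpow_one_add]
      congr 2
      ring
    rw [Equiv.Perm.mul_apply] at h1
    exact (s.injective h1).symm

private theorem same_s {X : Type} (s t : Equiv.Perm X) (hs : s * s = 1) (ht : t * t = 1)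
    {x y : X} (h : (s * t).SameCycle x y) : (s * t).SameCycle (s x) (s y) := by
  obtain ⟨i, hi⟩ := h
  refine ⟨-i, ?_⟩
  rw [← s_pow s t hs ht, hi]

theorem exists_chi {X : Type} [Finite X] (σ τ : X → X) (hσ : ∀ x, σ (σ x) = x) (hσ' : ∀ x, σ x ≠ x)
    (hτ : ∀ x, τ (τ x) = x) (hτ' : ∀ x, τ x ≠ x) : ∃ χ : X → ZMod 2, ∀ x, χ (σ x) ≠ χ x ∧ χ (τ x) ≠ χ x := by
  classical
  obtain ⟨s, hs⟩ : ∃ s : Equiv.Perm X, ∀ x, s x = σ x :=
    ⟨Function.Involutive.toPerm σ hσ, fun _ => rfl⟩
  obtain ⟨t, ht⟩ : ∃ t : Equiv.Perm X, ∀ x, t x = τ x :=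
    ⟨Function.Involutive.toPerm τ hτ, fun _ => rfl⟩
  have hss : s * s = 1 := by
    ext x
    rw [Equiv.Perm.mul_apply, hs, hs, hσ, Equiv.Perm.one_apply]
  have htt : t * t = 1 := by
    ext x
    rw [Equiv.Perm.mul_apply, ht, ht, hτ, Equiv.Perm.one_apply]
  have hs' : ∀ x, s x ≠ x := fun x => by rw [hs]; exact hσ' x
  have ht' : ∀ x, t x ≠ x := fun x => by rw [ht]; exact hτ' x
  have hs2 : ∀ x, s (s x) = x := fun x => by rw [hs, hs, hσ]
  have hns := not_same s t hss htt hs' ht'
  have hsm : ∀ {x y : X}, (s * t).SameCycle x y → (s * t).SameCycle (s x) (s y) :=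
    fun h => same_s s t hss htt h
  let R : Setoid X :=
    { r := fun x y => (s * t).SameCycle x y ∨ (s * t).SameCycle (s x) y
      iseqv := by
        refine ⟨fun x => Or.inl (Equiv.Perm.SameCycle.refl _ x), ?_, ?_⟩
        · rintro x y (h | h)
          · exact Or.inl h.symm
          · have h1 := hsm h
            rw [hs2] at h1
            exact Or.inr h1.symm
        · rintro x y z (h | h) (h' | h')
          · exact Or.inl (h.trans h')
          · exact Or.inr ((hsm h).trans h')
          · exact Or.inr (h.trans h')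
          · have h1 := hsm h
            rw [hs2] at h1
            exact Or.inl (h1.trans h') }
  have hrep : ∀ x, R.r (Quotient.mk R x).out x := fun x => Quotient.exact (Quotient.out_eq _)
  have hout : ∀ x y, R.r x y → (Quotient.mk R x).out = (Quotient.mk R y).out :=
    fun x y h => congrArg Quotient.out (Quotient.sound h)
  refine ⟨fun x => if (s * t).SameCycle (Quotient.mk R x).out x then 0 else 1, ?_⟩
  have h1 : ∀ x, (if (s * t).SameCycle (Quotient.mk R (s x)).out (s x) then (0 : ZMod 2) else 1) ≠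
      if (s * t).SameCycle (Quotient.mk R x).out x then 0 else 1 := by
    intro x
    have e1 : (Quotient.mk R (s x)).out = (Quotient.mk R x).out :=
      hout _ _ (Or.inr (by rw [hs2]))
    rw [e1]
    by_cases h : (s * t).SameCycle (Quotient.mk R x).out x
    · rw [if_pos h, if_neg (fun h2 => hns x (h.symm.trans h2))]
      decide
    · have h3 : (s * t).SameCycle (s (Quotient.mk R x).out) x := (hrep x).resolve_left h
      have h4 := hsm h3
      rw [hs2] at h4
      rw [if_neg h, if_pos h4]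
      decide
  intro x
  refine ⟨?_, ?_⟩
  · have h2 := h1 x
    rw [hs] at h2
    exact h2
  · have h2 := h1 ((s * t) x)
    have e2 : s ((s * t) x) = τ x := by
      rw [Equiv.Perm.mul_apply, hs2, ht]
    have hx : (s * t).SameCycle x ((s * t) x) := ⟨1, by rw [zpow_one]⟩
    have e3 : (Quotient.mk R ((s * t) x)).out = (Quotient.mk R x).out :=
      (hout _ _ (Or.inl hx)).symm
    rw [e2, e3] at h2
    have e4 : (s * t).SameCycle (Quotient.mk R x).out ((s * t) x) ↔
        (s * t).SameCycle (Quotient.mk R x).out x :=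
      ⟨fun h => h.trans hx.symm, fun h => h.trans hx⟩
    rw [if_congr e4 rfl rfl] at h2
    exact h2

end Pool.Agent.BEO
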