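import Mathlib

/-!
# BEO-CubLoc: at a vertex of degree at most three all local maps are equivalent under side swaps (Mathlib only)

PLAN. `D` has 0, 1, 2 or 3 elements (transport along `Fintype.equivFinOfCardEq`, or argue directly). No flag is
matched by `m` with its other side unless `D` has one element: if `m p = (p.1, !p.2)` then `{p, side p}` is closed
under `m` and `side`, so `hc` gives `D = {p.1}`, and then `m = m' = side`. For two elements `d, e`: `m (d, b) =
(e, xor b s)` and `m' (d, b) = (e, xor b s')`: swap `d` if `s ≠ s'`. For three elements `d, e, g`: the two flags of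
`d` are matched with one flag of `e` and one flag of `g` (not both with `e`, otherwise `{d, e}` is closed), so
`m` is: `(d, x) ~ (e, y)`, `(d, !x) ~ (g, w)`, `(e, !y) ~ (g, !w)` for some Booleans `x, y, w`, i.e. `m` is obtained
from the standard matching `(d, true) ~ (e, true)`, `(d, false) ~ (g, true)`, `(e, false) ~ (g, false)` by the swap
`σ` with `σ d = !x`, `σ e = !y`, `σ g = !w`. The same for `m'`; compose the two swaps.
-/

set_option autoImplicit false

namespace Pool.Agent.BEO

private theorem cl_inv {D : Type} {m : D × Bool → D × Bool}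
    (hc : ∀ p q, Relation.EqvGen (fun x y => y = m x ∨ y = (x.1, !x.2)) p q)
    (P : D → Prop) (hP : ∀ x, P x.1 ↔ P (m x).1) (d e : D) (hd : P d) : P e := by
  have h : ∀ p q, Relation.EqvGen (fun x y => y = m x ∨ y = (x.1, !x.2)) p q → (P p.1 ↔ P q.1) := by
    intro p q h
    induction h with
    | rel x y h =>
      rcases h with h | h
      · rw [h]; exact hP x
      · rw [h]
    | refl x => exact Iff.rfl
    | symm x y _ ih => exact ih.symm
    | trans x y z _ _ ih1 ih2 => exact ih1.trans ih2
  exact (h (d, true) (e, true) (hc _ _)).1 hd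

private theorem cl_ne {D : Type} {m : D × Bool → D × Bool} (h1 : ∀ p, m (m p) = p)
    (h2 : ∀ p, m p ≠ p)
    (hc : ∀ p q, Relation.EqvGen (fun x y => y = m x ∨ y = (x.1, !x.2)) p q)
    {d e : D} (hde : d ≠ e) (b : Bool) : (m (d, b)).1 ≠ d := by
  intro h
  have h3 : m (d, b) = (d, !b) := by
    refine Prod.ext h ?_
    have h4 := h2 (d, b)
    by_contra h5
    apply h4
    refine Prod.ext h ?_
    revert h5
    cases (m (d, b)).2 <;> cases b <;> simp
  have h6 : m (d, !b) = (d, b) := by rw [← h3, h1]
  have h7 : ∀ c, m (d, c) = (d, !c) := by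
    intro c
    cases b <;> cases c <;> simp_all
  have h8 := cl_inv hc (fun x => x = d) (by
    rintro ⟨x, c⟩
    constructor
    · intro hx
      have hx' : x = d := hx
      subst hx'
      rw [h7]
    · intro hx
      have h9 : m (m (x, c)) = (x, c) := h1 _
      have h10 : m (x, c) = (d, (m (x, c)).2) := Prod.ext hx rfl
      rw [h10, h7] at h9
      exact (congrArg Prod.fst h9).symm) d e rfl
  exact hde h8.symm

private theorem cl_three {D : Type} {m : D × Bool → D × Bool} (h1 : ∀ p, m (m p) = p)
    (h2 : ∀ p, m p ≠ p)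
    (hc : ∀ p q, Relation.EqvGen (fun x y => y = m x ∨ y = (x.1, !x.2)) p q)
    {d e g : D} (hde : d ≠ e) (hdg : d ≠ g) (heg : e ≠ g) (hall : ∀ x, x = d ∨ x = e ∨ x = g) :
    ∃ x a b, m (d, x) = (e, a) ∧ m (d, !x) = (g, b) ∧ m (e, a) = (d, x) ∧ m (g, b) = (d, !x) ∧
      m (e, !a) = (g, !b) ∧ m (g, !b) = (e, !a) := by
  have hd : ∀ b, (m (d, b)).1 = e ∨ (m (d, b)).1 = g := by
    intro b
    exact (hall _).resolve_left (cl_ne h1 h2 hc hde b)
  have hinj : ∀ p q, m p = m q → p = q := by
    intro p q h
    rw [← h1 p, h, h1]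
  -- not both over the same element
  have hnb : ∀ f : D, f ≠ d → (∃ k, k ≠ d ∧ k ≠ f) → ¬ ((m (d, true)).1 = f ∧ (m (d, false)).1 = f) := by
    rintro f hf ⟨k, hk1, hk2⟩ ⟨ht, hff⟩
    have h3 : (m (d, true)).2 ≠ (m (d, false)).2 := by
      intro h4
      have h5 := hinj (d, true) (d, false) (Prod.ext (ht.trans hff.symm) h4)
      exact absurd (congrArg Prod.snd h5) (by simp)
    have h6 : ∀ c, (m (f, c)).1 = d := by
      intro c
      have h7 : (m (d, true)).2 = c ∨ (m (d, false)).2 = c := by
        revert h3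
        cases (m (d, true)).2 <;> cases (m (d, false)).2 <;> cases c <;> simp
      rcases h7 with h7 | h7
      · have h8 : m (d, true) = (f, c) := Prod.ext ht h7
        rw [← h8, h1]
      · have h8 : m (d, false) = (f, c) := Prod.ext hff h7
        rw [← h8, h1]
    have h9 : ∀ c, (m (d, c)).1 = f := by
      intro c
      cases c
      · exact hff
      · exact ht
    have h10 := cl_inv hc (fun x => x = d ∨ x = f) (by
      rintro ⟨x, c⟩
      constructor
      · rintro (hx | hx)
        · have hx' : x = d := hx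
          subst hx'
          right
          exact h9 c
        · have hx' : x = f := hx
          subst hx'
          left
          exact h6 c
      · intro hx
        have h11 : m (m (x, c)) = (x, c) := h1 _
        rcases hx with hx | hx
        · have h12 : m (x, c) = (d, (m (x, c)).2) := Prod.ext hx rfl
          rw [h12] at h11
          right
          have h13 := h9 (m (x, c)).2
          rw [h11] at h13
          exact h13
        · have h12 : m (x, c) = (f, (m (x, c)).2) := Prod.ext hx rfl
          rw [h12] at h11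
          left
          have h13 := h6 (m (x, c)).2
          rw [h11] at h13
          exact h13) d k (Or.inl rfl)
    rcases h10 with h10 | h10
    · exact hk1 h10
    · exact hk2 h10
  have hx : ∃ x, (m (d, x)).1 = e ∧ (m (d, !x)).1 = g := by
    rcases hd true with h3 | h3
    · rcases hd false with h4 | h4
      · exact absurd ⟨h3, h4⟩ (hnb e hde.symm ⟨g, hdg.symm, heg.symm⟩)
      · exact ⟨true, h3, h4⟩
    · rcases hd false with h4 | h4
      · exact ⟨false, h4, h3⟩
      · exact absurd ⟨h3, h4⟩ (hnb g hdg.symm ⟨e, hde.symm, heg⟩)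
  obtain ⟨x, hx1, hx2⟩ := hx
  obtain ⟨a, ha⟩ : ∃ a, a = (m (d, x)).2 := ⟨_, rfl⟩
  obtain ⟨b, hb⟩ : ∃ b, b = (m (d, !x)).2 := ⟨_, rfl⟩
  have e1 : m (d, x) = (e, a) := Prod.ext hx1 ha.symm
  have e2 : m (d, !x) = (g, b) := Prod.ext hx2 hb.symm
  have e3 : m (e, a) = (d, x) := by rw [← e1, h1]
  have e4 : m (g, b) = (d, !x) := by rw [← e2, h1]
  have e5 : m (e, !a) = (g, !b) := by
    rcases hall (m (e, !a)).1 with h3 | h3 | h3
    · exfalso
      have h4 : m (e, !a) = (d, (m (e, !a)).2) := Prod.ext h3 rfl
      have h5 : (m (e, !a)).2 = x ∨ (m (e, !a)).2 = !x := by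
        cases (m (e, !a)).2 <;> cases x <;> simp
      rcases h5 with h5 | h5
      · rw [h5, ← e3] at h4
        have h6 := congrArg Prod.snd (hinj _ _ h4)
        revert h6
        cases a <;> simp
      · rw [h5, ← e4] at h4
        have h6 := congrArg Prod.fst (hinj _ _ h4)
        exact heg h6
    · exact absurd h3 (cl_ne h1 h2 hc hde.symm _)
    · refine Prod.ext h3 ?_
      show (m (e, !a)).2 = !b
      by_contra h4
      have h5 : (m (e, !a)).2 = b := by
        revert h4
        cases (m (e, !a)).2 <;> cases b <;> simp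
      have h6 : m (e, !a) = (g, b) := Prod.ext h3 h5
      rw [← e2] at h6
      have h7 := congrArg Prod.fst (hinj _ _ h6)
      exact hde h7.symm
  have e6 : m (g, !b) = (e, !a) := by rw [← e5, h1]
  exact ⟨x, a, b, e1, e2, e3, e4, e5, e6⟩

private theorem cl_two {D : Type} {m : D × Bool → D × Bool} (h1 : ∀ p, m (m p) = p)
    (h2 : ∀ p, m p ≠ p)
    (hc : ∀ p q, Relation.EqvGen (fun x y => y = m x ∨ y = (x.1, !x.2)) p q)
    {d e : D} (hde : d ≠ e) (hall : ∀ x, x = d ∨ x = e) :
    ∃ a, m (d, true) = (e, a) ∧ m (d, false) = (e, !a) ∧ m (e, a) = (d, true) ∧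
      m (e, !a) = (d, false) := by
  have hd : ∀ b, (m (d, b)).1 = e := by
    intro b
    exact (hall _).resolve_left (cl_ne h1 h2 hc hde b)
  have hinj : ∀ p q, m p = m q → p = q := by
    intro p q h
    rw [← h1 p, h, h1]
  obtain ⟨a, ha⟩ : ∃ a, a = (m (d, true)).2 := ⟨_, rfl⟩
  have e1 : m (d, true) = (e, a) := Prod.ext (hd true) ha.symm
  have e2 : m (d, false) = (e, !a) := by
    refine Prod.ext (hd false) ?_
    show (m (d, false)).2 = !a
    by_contra h4
    have h5 : (m (d, false)).2 = a := by
      revert h4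
      cases (m (d, false)).2 <;> cases a <;> simp
    have h6 : m (d, false) = (e, a) := Prod.ext (hd false) h5
    rw [← e1] at h6
    have h7 := congrArg Prod.snd (hinj _ _ h6)
    exact absurd h7 (by simp)
  exact ⟨a, e1, e2, by rw [← e1, h1], by rw [← e2, h1]⟩

theorem cub_loc {D : Type} [Fintype D] (hD : Fintype.card D ≤ 3) (m m' : D × Bool → D × Bool)
    (h1 : ∀ p, m (m p) = p) (h2 : ∀ p, m p ≠ p) (h1' : ∀ p, m' (m' p) = p) (h2' : ∀ p, m' p ≠ p)
    (hc : ∀ p q, Relation.EqvGen (fun x y => y = m x ∨ y = (x.1, !x.2)) p q)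
    (hc' : ∀ p q, Relation.EqvGen (fun x y => y = m' x ∨ y = (x.1, !x.2)) p q) :
    ∃ σ : D → Bool, ∀ p, m' p = ((m (p.1, xor p.2 (σ p.1))).1,
      xor (m (p.1, xor p.2 (σ p.1))).2 (σ (m (p.1, xor p.2 (σ p.1))).1)) := by
  classical
  have hcase : Fintype.card D = 0 ∨ Fintype.card D = 1 ∨ Fintype.card D = 2 ∨ Fintype.card D = 3 := by
    omega
  rcases hcase with h | h | h | h
  · refine ⟨fun _ => false, fun p => ?_⟩
    exact ((Fintype.card_eq_zero_iff.1 h).false p.1).elim
  · obtain ⟨d, hd⟩ := Fintype.card_eq_one_iff.1 h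
    have hf : ∀ (n : D × Bool → D × Bool), (∀ p, n p ≠ p) → ∀ p, n p = (p.1, !p.2) := by
      intro n hn p
      refine Prod.ext ((hd _).trans (hd _).symm) ?_
      show (n p).2 = !p.2
      by_contra h4
      apply hn p
      refine Prod.ext ((hd _).trans (hd _).symm) ?_
      revert h4
      cases (n p).2 <;> cases p.2 <;> simp
    refine ⟨fun _ => false, fun p => ?_⟩
    rw [hf m' h2' p, hf m h2]
    simp
  · have h3 := h
    rw [← Finset.card_univ, Finset.card_eq_two] at h3
    obtain ⟨d, e, hde, hu⟩ := h3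
    have hall : ∀ x, x = d ∨ x = e := by
      intro x
      have h4 : x ∈ (Finset.univ : Finset D) := Finset.mem_univ x
      rw [hu, Finset.mem_insert, Finset.mem_singleton] at h4
      exact h4
    obtain ⟨a, e1, e2, e3, e4⟩ := cl_two h1 h2 hc hde hall
    obtain ⟨a', f1, f2, f3, f4⟩ := cl_two h1' h2' hc' hde hall
    refine ⟨fun x => if x = e then xor a a' else false, ?_⟩
    rintro ⟨q, c⟩
    rcases hall q with rfl | rfl
    · cases a <;> cases a' <;> cases c <;> simp_all
    · cases a <;> cases a' <;> cases c <;> simp_all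
  · have h3 := h
    rw [← Finset.card_univ, Finset.card_eq_three] at h3
    obtain ⟨d, e, g, hde, hdg, heg, hu⟩ := h3
    have hall : ∀ x, x = d ∨ x = e ∨ x = g := by
      intro x
      have h4 : x ∈ (Finset.univ : Finset D) := Finset.mem_univ x
      rw [hu, Finset.mem_insert, Finset.mem_insert, Finset.mem_singleton] at h4
      exact h4
    obtain ⟨x, a, b, e1, e2, e3, e4, e5, e6⟩ := cl_three h1 h2 hc hde hdg heg hall
    obtain ⟨x', a', b', f1, f2, f3, f4, f5, f6⟩ := cl_three h1' h2' hc' hde hdg heg hall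
    obtain ⟨σ, hσd, hσe, hσg⟩ : ∃ σ : D → Bool, σ d = xor x x' ∧ σ e = xor a a' ∧ σ g = xor b b' := by
      refine ⟨fun y => if y = d then xor x x' else if y = e then xor a a' else xor b b', ?_, ?_, ?_⟩
      · exact if_pos rfl
      · exact (if_neg hde.symm).trans (if_pos rfl)
      · exact (if_neg hdg.symm).trans (if_neg heg.symm)
    have hb1 : ∀ y z : Bool, xor y (xor z y) = z := by decide
    have hb2 : ∀ y z : Bool, xor z (xor z y) = y := by decide
    have hb3 : ∀ y z : Bool, xor (!y) (xor z y) = !z := by decide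
    have hb4 : ∀ y z : Bool, xor (!z) (xor z y) = !y := by decide
    have hcc : ∀ c y : Bool, c = y ∨ c = !y := by decide
    refine ⟨σ, ?_⟩
    rintro ⟨q, c⟩
    rcases hall q with rfl | rfl | rfl
    · rcases hcc c x' with rfl | rfl
      · simp only [hσd, hb1, e1, hσe, hb2, f1]
      · simp only [hσd, hb3, e2, hσg, hb2, f2]
    · rcases hcc c a' with rfl | rfl
      · simp only [hσe, hb1, e3, hσd, hb2, f3]
      · simp only [hσe, hb3, e5, hσg, hb4, f5]
    · rcases hcc c b' with rfl | rfl
      · simp only [hσg, hb1, e4, hσd, hb4, f4]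
      · simp only [hσg, hb3, e6, hσe, hb4, f6]

end Pool.Agent.BEO
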