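import Pool.Agent.BEO.Frm
import Pool.Agent.BEO.CubLoc

/-!
# BEO-Cub: for a subcubic graph every map is a twist, on the level of forms

PLAN. For every vertex `v` apply `cub_loc` to `D := {d : G.Dart // d.fst = v}` (at most 3 elements: `d ↦ d.snd` is
injective into `nb G v`) and the restrictions of `S.nxt`, `M.nxt` (`nxt_fst`); the connectedness hypotheses come
from `conn` (an `EqvGen` chain between flags at `v` stays at `v`: `nxt` and `side` preserve the vertex). This gives
`σ : G.Dart → Bool` and `φ p := (p.1, xor p.2 (σ p.1))` with `M.nxt p = φ (S.nxt (φ p))`. If `L` is a potential of `z`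
for `S` then `L ∘ φ` is one for `M` (`φ` commutes with `side`, is an involution, preserves `ed`), and
`dL (L ∘ φ) e = dL L e + [σ d ≠ σ d.symm] * z e` for the darts `d, d.symm` of `e`. So
`lam := {e | σ d ≠ σ d.symm}`, `d = (rp e).1`; `frm_eq` twice.
-/

set_option autoImplicit false

open Finset
open scoped Classical

namespace Pool.Agent.BEO

open Pool.Agent.Helper35.OG (Flag GMap across side across_across side_side across_ne side_ne side_fst across_fst vertex_const
  all_const exists_flag face_nxt face_across face_surj nxt_inj sum_inv eqvGen_eq IsBand)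

variable {V : Type} {G : SimpleGraph V}

private def loc (S : GMap G) (v : V) (p : {d : G.Dart // d.fst = v} × Bool) :
    {d : G.Dart // d.fst = v} × Bool :=
  (⟨(S.nxt (p.1.1, p.2)).1, (S.nxt_fst (p.1.1, p.2)).trans p.1.2⟩, (S.nxt (p.1.1, p.2)).2)

private theorem loc_loc (S : GMap G) (v : V) (p : {d : G.Dart // d.fst = v} × Bool) :
    loc S v (loc S v p) = p := by
  have h := S.nxt_nxt (p.1.1, p.2)
  have h1 : (S.nxt (S.nxt (p.1.1, p.2))).1 = p.1.1 := congrArg Prod.fst h
  have h2 : (S.nxt (S.nxt (p.1.1, p.2))).2 = p.2 := congrArg Prod.snd h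
  exact Prod.ext (Subtype.ext h1) h2

private theorem loc_ne (S : GMap G) (v : V) (p : {d : G.Dart // d.fst = v} × Bool) :
    loc S v p ≠ p := by
  intro h
  apply S.nxt_ne (p.1.1, p.2)
  have h1 : (S.nxt (p.1.1, p.2)).1 = p.1.1 :=
    congrArg (fun q : {d : G.Dart // d.fst = v} × Bool => q.1.1) h
  have h2 : (S.nxt (p.1.1, p.2)).2 = p.2 := congrArg Prod.snd h
  exact Prod.ext h1 h2

private theorem loc_conn (S : GMap G) (v : V) (p q : {d : G.Dart // d.fst = v} × Bool) :
    Relation.EqvGen (fun x y => y = loc S v x ∨ y = (x.1, !x.2)) p q := by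
  have h : ∀ x y : Flag G, Relation.EqvGen (fun x y => y = S.nxt x ∨ y = side x) x y →
      ∀ (hx : x.1.fst = v) (hy : y.1.fst = v),
      Relation.EqvGen (fun x y : {d : G.Dart // d.fst = v} × Bool => y = loc S v x ∨ y = (x.1, !x.2))
        (⟨x.1, hx⟩, x.2) (⟨y.1, hy⟩, y.2) := by
    intro x y hxy
    induction hxy with
    | rel x y h =>
      intro hx hy
      apply Relation.EqvGen.rel
      rcases h with h | h
      · subst h
        exact Or.inl rfl
      · subst h
        exact Or.inr rfl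
    | refl x =>
      intro hx hy
      exact Relation.EqvGen.refl _
    | symm x y _ ih =>
      intro hx hy
      exact (ih hy hx).symm
    | trans x y z hxy _ ih1 ih2 =>
      intro hx hz
      have hy : y.1.fst = v := by
        rw [← hx]
        refine (eqvGen_eq (fun p : Flag G => p.1.fst) ?_ hxy).symm
        rintro a b (h | h)
        · rw [h, S.nxt_fst]
        · rw [h, side_fst]
      exact (ih1 hx hy).trans _ _ _ (ih2 hy hz)
  exact h (p.1.1, p.2) (q.1.1, q.2) (S.conn _ _ (p.1.2.trans q.1.2.symm)) p.1.2 q.1.2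

private theorem phi_exists [Fintype V] (h3 : ∀ v, (nb G v).card ≤ 3) (S M : GMap G) :
    ∃ σ : G.Dart → Bool, ∀ p : Flag G, M.nxt p =
      ((S.nxt (p.1, xor p.2 (σ p.1))).1,
        xor (S.nxt (p.1, xor p.2 (σ p.1))).2 (σ (S.nxt (p.1, xor p.2 (σ p.1))).1)) := by
  have h1 : ∀ v, ∃ σ : {d : G.Dart // d.fst = v} → Bool, ∀ p, loc M v p =
      ((loc S v (p.1, xor p.2 (σ p.1))).1,
        xor (loc S v (p.1, xor p.2 (σ p.1))).2 (σ (loc S v (p.1, xor p.2 (σ p.1))).1)) := by
    intro v
    refine cub_loc ?_ (loc S v) (loc M v) (loc_loc S v) (loc_ne S v) (loc_loc M v) (loc_ne M v)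
      (loc_conn S v) (loc_conn M v)
    refine le_trans ?_ (h3 v)
    rw [← Finset.card_univ]
    refine Finset.card_le_card_of_injOn (fun d => d.1.snd) ?_ ?_
    · intro d _
      apply Finset.mem_coe.2
      unfold nb
      rw [Finset.mem_filter]
      refine ⟨Finset.mem_univ _, ?_⟩
      have := d.1.adj
      rw [d.2] at this
      exact this
    · intro d _ d' _ h
      apply Subtype.ext
      apply SimpleGraph.Dart.ext
      exact Prod.ext (d.2.trans d'.2.symm) h
  choose σ hσ using h1
  have h2 : ∀ v (d : {d : G.Dart // d.fst = v}), σ v d = σ d.1.fst ⟨d.1, rfl⟩ := by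
    rintro v ⟨d, rfl⟩
    rfl
  refine ⟨fun d => σ d.fst ⟨d, rfl⟩, fun p => ?_⟩
  have h4 := hσ p.1.fst (⟨p.1, rfl⟩, p.2)
  have h5 := congrArg (fun q : {d : G.Dart // d.fst = p.1.fst} × Bool => q.1.1) h4
  have h6 := congrArg Prod.snd h4
  refine Prod.ext h5 ?_
  refine Eq.trans h6 ?_
  show xor _ _ = xor _ _
  rw [h2 p.1.fst (loc S p.1.fst (⟨p.1, rfl⟩, xor p.2 (σ p.1.fst ⟨p.1, rfl⟩))).1]
  rfl

theorem all_twist [Fintype V] (h3 : ∀ v, (nb G v).card ≤ 3) (S M : GMap G) :
    ∃ lam : Finset G.edgeSet, ∀ z z' : cyc G, frm M z z' = frm S z z' + ∑ e ∈ lam, z.1 e * z'.1 e := by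
  obtain ⟨σ, hσ⟩ := phi_exists h3 S M
  refine ⟨univ.filter (fun e => σ (rp e).1 ≠ σ (rp e).1.symm), fun z z' => ?_⟩
  obtain ⟨L, hL⟩ := exists_L S z.1 z.2
  have hx1 : ∀ b c : Bool, xor (xor b c) c = b := by decide
  have hx2 : ∀ b c : Bool, xor (!b) c = !(xor b c) := by decide
  have hL' : IsL M z.1 (fun p => L (p.1, xor p.2 (σ p.1))) := by
    constructor
    · intro p
      show L ((M.nxt p).1, xor (M.nxt p).2 (σ (M.nxt p).1)) = L (p.1, xor p.2 (σ p.1))
      rw [hσ p]
      show L ((S.nxt (p.1, xor p.2 (σ p.1))).1, xor (xor (S.nxt (p.1, xor p.2 (σ p.1))).2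
        (σ (S.nxt (p.1, xor p.2 (σ p.1))).1)) (σ (S.nxt (p.1, xor p.2 (σ p.1))).1)) = _
      rw [hx1]
      exact hL.1 _
    · intro p
      show L (p.1, xor p.2 (σ p.1)) + L (p.1, xor (!p.2) (σ p.1)) = _
      rw [hx2]
      exact hL.2 (p.1, xor p.2 (σ p.1))
  rw [frm_eq M z z' hL', frm_eq S z z' hL, Finset.sum_filter, ← Finset.sum_add_distrib]
  refine Finset.sum_congr rfl fun e _ => ?_
  have hφ : ∀ p : Flag G, L (p.1, xor p.2 (σ p.1)) = L p + (if σ p.1 then z.1 (ed p) else 0) := by
    intro p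
    cases h : σ p.1
    · simp
    · have h5 := hL.2 p
      have h6 : (p.1, xor p.2 true) = side p := by
        refine Prod.ext rfl ?_
        show xor p.2 true = !p.2
        cases p.2 <;> rfl
      rw [h6, if_pos rfl, ← h5]
      have h7 : ∀ a b : F2, b = a + (a + b) := by decide
      exact h7 _ _
  have he1 : ed (rp e) = e := ed_rp e
  have he2 : ed (across (rp e)) = e := by rw [ed_across, ed_rp]
  have h7 := hφ (rp e)
  have h8 := hφ (across (rp e))
  rw [he1] at h7
  rw [he2] at h8
  have h9 : dL (fun p : Flag G => L (p.1, xor p.2 (σ p.1))) e =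
      dL L e + (if σ (rp e).1 ≠ σ (rp e).1.symm then z.1 e else 0) := by
    unfold dL
    show L ((rp e).1, xor (rp e).2 (σ (rp e).1)) +
      L ((across (rp e)).1, xor (across (rp e)).2 (σ (across (rp e)).1)) = _
    rw [h7, h8]
    have h10 : (across (rp e)).1 = (rp e).1.symm := rfl
    rw [h10]
    have h11 : ∀ x : F2, x + x = 0 := by decide
    cases h12 : σ (rp e).1 <;> cases h13 : σ (rp e).1.symm
    · simp
    · simp [add_assoc]
    · simp only [if_true, Bool.false_eq_true, if_false, ne_eq, Bool.true_eq_false, not_false_eq_true]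
      abel
    · simp only [if_true, ne_eq, not_true_eq_false, if_false]
      have h14 : L (rp e) + z.1 e + (L (across (rp e)) + z.1 e) =
          L (rp e) + L (across (rp e)) + (z.1 e + z.1 e) := by abel
      rw [h14, h11]
  rw [h9, add_mul]
  congr 1
  split_ifs
  · rfl
  · rw [zero_mul]

end Pool.Agent.BEO
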