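import Pool.Agent.BEO.Dat

/-!
# BEO-DatB: elementary facts about the linear data
-/

set_option autoImplicit false

open Finset
open scoped Classical

namespace Pool.Agent.BEO

namespace Dat

variable {k : ℕ} {Φ E Z : Type} [Fintype Φ] [Fintype E] [AddCommGroup Z] [Module F2 Z] (D : Dat k Φ E Z)

theorem N_apply (lam : Finset E) (x y : Z) : D.N lam x y = D.J x y + ∑ e ∈ lam, D.a e x * D.a e y := by
  unfold N
  rw [LinearMap.add_apply, LinearMap.add_apply, LinearMap.sum_apply, LinearMap.sum_apply]
  rfl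

theorem N_symm (lam : Finset E) (x y : Z) : D.N lam x y = D.N lam y x := by
  rw [N_apply, N_apply, D.symm]
  congr 1
  exact sum_congr rfl fun e _ => mul_comm _ _

theorem J_z (x : Z) (F : Φ) : D.J x (D.z F) = 0 := by
  rw [D.symm]
  exact (D.rad (D.z F)).2 (Submodule.subset_span ⟨F, rfl⟩) x

private theorem f2_mul (y : F2) : y * y = y := by
  revert y
  decide

private theorem f2_add (y : F2) : y + y = 0 := by
  revert y
  decide

private theorem f2_add_eq (x y : F2) : x + y = 0 ↔ x = y := by
  revert x y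
  decide

private theorem adm_char (lam : Finset E) : D.Adm lam ↔ ∀ x, D.J x x = (∑ e ∈ lam, D.a e) x := by
  unfold Adm
  refine forall_congr' fun x => ?_
  rw [N_apply, LinearMap.sum_apply, sum_congr rfl fun e _ => f2_mul (D.a e x), f2_add_eq]

/-- two sets with the same class are admissible at the same time -/
theorem adm_iff (lam lam' : Finset E) (h : ∑ e ∈ lam, D.a e = ∑ e ∈ lam', D.a e) : D.Adm lam ↔ D.Adm lam' := by
  rw [adm_char, adm_char, h]

theorem cls_of_adm (lam lam' : Finset E) (h : D.Adm lam) (h' : D.Adm lam') :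
    ∑ e ∈ lam, D.a e = ∑ e ∈ lam', D.a e := by
  rw [adm_char] at h h'
  exact LinearMap.ext fun x => (h x).symm.trans (h' x)

theorem ev_iff (ν : Finset E) : Ev D.s D.t ν ↔ ∀ F, ∑ e ∈ ν, D.a e (D.z F) = 0 := by
  unfold Ev
  simp only [D.inc]

theorem ev_of_adm (lam : Finset E) (h : D.Adm lam) : Ev D.s D.t lam := by
  rw [ev_iff]
  intro F
  have h1 := (D.adm_char lam).1 h (D.z F)
  rw [J_z, LinearMap.sum_apply] at h1
  exact h1.symm

theorem sum_cls (l : List E) : (l.map D.a).sum = ∑ e ∈ oddE l, D.a e := by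
  have hsm : ∀ (n : ℕ) (φ : Z →ₗ[F2] F2), n • φ = if n % 2 = 1 then φ else 0 := by
    intro n φ
    have h2 : (2 : ℕ) • φ = 0 := by
      rw [two_nsmul]
      exact LinearMap.ext fun y => f2_add (φ y)
    rcases Nat.mod_two_eq_zero_or_one n with h | h
    · rw [if_neg (by omega)]
      conv_lhs => rw [← Nat.div_add_mod n 2, h, add_zero, mul_comm, mul_nsmul', h2, nsmul_zero]
    · rw [if_pos h]
      conv_lhs => rw [← Nat.div_add_mod n 2, h, add_nsmul, mul_comm, mul_nsmul', h2, nsmul_zero, zero_add,
        one_nsmul]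
  rw [sum_list_map_count]
  unfold oddE
  rw [sum_filter]
  rw [sum_subset (subset_univ l.toFinset) (fun e _ he => by
    rw [List.count_eq_zero.2 (fun h => he (List.mem_toFinset.2 h)), zero_nsmul])]
  exact sum_congr rfl fun e _ => hsm _ _

/-- the classes of cycles -/
def H : Submodule F2 (Z →ₗ[F2] F2) where
  carrier := {φ | ∀ F, φ (D.z F) = 0}
  add_mem' := by
    intro φ ψ h h' F
    rw [LinearMap.add_apply, h F, h' F, add_zero]
  zero_mem' := fun _ => rfl
  smul_mem' := by
    intro r φ h F
    rw [LinearMap.smul_apply, h F, smul_zero]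

private theorem span_top [Module.Finite F2 Z] : Submodule.span F2 (Set.range D.a) = ⊤ := by
  have h1 : (Submodule.span F2 (Set.range D.a) : Submodule F2 (Module.Dual F2 Z)).dualCoannihilator = ⊥ := by
    rw [eq_bot_iff]
    intro x hx
    rw [Submodule.mem_dualCoannihilator] at hx
    exact (Submodule.mem_bot F2).2 (D.sep x fun e => hx _ (Submodule.subset_span ⟨e, rfl⟩))
  have h2 := Subspace.dualCoannihilator_dualAnnihilator_eq
    (W := (Submodule.span F2 (Set.range D.a) : Submodule F2 (Module.Dual F2 Z)))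
  rw [h1, Submodule.dualAnnihilator_bot] at h2
  exact h2.symm

theorem exists_adm [Module.Finite F2 Z] : ∃ lam, D.Adm lam := by
  let ψ : Z →ₗ[F2] F2 :=
    { toFun := fun x => D.J x x
      map_add' := fun x y => by
        rw [D.J.map_add, LinearMap.add_apply, map_add, map_add, D.symm y x]
        have h := f2_add (D.J x y)
        linear_combination h
      map_smul' := fun c x => by
        rw [D.J.map_smul, LinearMap.smul_apply, map_smul, smul_eq_mul, smul_eq_mul, ← mul_assoc, f2_mul]
        rfl }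
  have hψ : ψ ∈ Submodule.span F2 (Set.range D.a) := by
    rw [span_top]
    trivial
  obtain ⟨g, hg⟩ := (Submodule.mem_span_range_iff_exists_fun F2).1 hψ
  refine ⟨univ.filter (fun e => g e = 1), (D.adm_char _).2 fun x => ?_⟩
  have h1 : ∑ e, g e • D.a e = ∑ e ∈ univ.filter (fun e => g e = 1), D.a e := by
    rw [sum_filter]
    refine sum_congr rfl fun e _ => ?_
    have hc : ∀ y : F2, y = 0 ∨ y = 1 := by decide
    rcases hc (g e) with h | h
    · rw [h, zero_smul, if_neg (by decide)]
    · rw [h, one_smul, if_pos rfl]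
  rw [← h1, hg]
  rfl

theorem finrank_H [Module.Finite F2 Z] : Module.finrank F2 D.H = k := by
  have h1 : D.H = (Submodule.span F2 (Set.range D.z)).dualAnnihilator := by
    ext φ
    rw [Submodule.mem_dualAnnihilator]
    constructor
    · intro h w hw
      refine Submodule.span_induction (p := fun w _ => φ w = 0) ?_ (map_zero φ) ?_ ?_ hw
      · rintro _ ⟨F, rfl⟩
        exact h F
      · intro x y _ _ hx hy
        rw [map_add, hx, hy, add_zero]
      · intro c x _ hx
        rw [map_smul, hx, smul_zero]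
    · intro h F
      exact h _ (Submodule.subset_span ⟨F, rfl⟩)
  have h2 : Submodule.span F2 (Set.range D.z) = LinearMap.ker D.J := by
    ext x
    rw [← D.rad, LinearMap.mem_ker]
    constructor
    · intro h
      exact LinearMap.ext h
    · intro h y
      rw [h]
      rfl
  have h3 := Subspace.finrank_add_finrank_dualAnnihilator_eq (Submodule.span F2 (Set.range D.z))
  have h4 := LinearMap.finrank_range_add_finrank_ker D.J
  rw [← h1, h2] at h3
  rw [D.rk] at h4
  have h5 : Module.finrank F2 D.H + Module.finrank F2 (LinearMap.ker D.J) = Module.finrank F2 Z := by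
    rw [add_comm]; exact h3
  omega

/-- there are optimal sets -/
theorem exists_min [Module.Finite F2 Z] : ∃ lam mu, D.Min lam mu := by
  obtain ⟨lam₁, h₁⟩ := D.exists_adm
  obtain ⟨lam₀, h₀, hmin₀⟩ := exists_min_image ((univ : Finset (Finset E)).filter fun lam => D.Adm lam) D.rkN
    ⟨lam₁, mem_filter.2 ⟨mem_univ _, h₁⟩⟩
  obtain ⟨lam, hl, hminl⟩ := exists_min_image
    ((univ : Finset (Finset E)).filter fun lam => D.Adm lam ∧ D.rkN lam ≤ D.rkN lam₀) Finset.card
    ⟨lam₀, mem_filter.2 ⟨mem_univ _, (mem_filter.1 h₀).2, le_rfl⟩⟩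
  obtain ⟨mu, hm, hminm⟩ := exists_min_image (lam.powerset.filter fun lam => D.Adm lam) Finset.card
    ⟨lam, mem_filter.2 ⟨mem_powerset_self _, (mem_filter.1 hl).2.1⟩⟩
  refine ⟨lam, mu, (mem_filter.1 hl).2.1, ?_, ?_, mem_powerset.1 (mem_filter.1 hm).1, (mem_filter.1 hm).2, ?_⟩
  · intro lam' h'
    exact (mem_filter.1 hl).2.2.trans (hmin₀ lam' (mem_filter.2 ⟨mem_univ _, h'⟩))
  · intro lam' h' hr
    exact hminl lam' (mem_filter.2 ⟨mem_univ _, h', hr.trans (mem_filter.1 hl).2.2⟩)
  · intro mu' hs h'
    exact hminm mu' (mem_filter.2 ⟨mem_powerset.2 hs, h'⟩)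

end Dat

end Pool.Agent.BEO
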