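import Pool.Agent.BEO.DLf

/-!
# BEO-CutEx: a function on the edges orthogonal to all cycles is a cut

Duality of finite-dimensional spaces.
-/

set_option autoImplicit false

open Finset
open scoped Classical

namespace Pool.Agent.BEO

open Pool.Agent.Helper35.OG (Flag GMap across side across_across side_side across_ne side_ne side_fst across_fst vertex_const
  all_const exists_flag face_nxt face_across face_surj nxt_inj sum_inv eqvGen_eq IsBand)

variable {V : Type} {G : SimpleGraph V}

/-- the coboundary -/
private noncomputable def cutB [Fintype V] (G : SimpleGraph V) : (V → F2) →ₗ[F2] (G.edgeSet → F2) where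
  toFun cv e := cv (rp e).1.fst + cv (rp e).1.snd
  map_add' a b := by
    ext e
    simp only [Pi.add_apply]
    ring
  map_smul' r a := by
    ext e
    simp only [Pi.smul_apply, smul_eq_mul, RingHom.id_apply]
    ring

private theorem cutB_apply [Fintype V] (cv : V → F2) (e : G.edgeSet) :
    cutB G cv e = cv (rp e).1.fst + cv (rp e).1.snd := rfl

theorem cut_exists [Fintype V] (h : G.edgeSet → F2) (horth : ∀ z ∈ cyc G, ∑ e, h e * z e = 0) :
    ∃ cv : V → F2, ∀ p : Flag G, h (ed p) = cv p.1.fst + cv p.1.snd := by
  by_cases hr : h ∈ LinearMap.range (cutB G)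
  · obtain ⟨cv, hcv⟩ := hr
    refine ⟨cv, fun p => ?_⟩
    rw [← hcv, cutB_apply]
    have h1 : (rp (ed p)).1.edge = p.1.edge := congrArg Subtype.val (ed_rp (ed p))
    rcases (SimpleGraph.dart_edge_eq_iff _ _).1 h1 with h2 | h2
    · rw [h2]
    · rw [h2]
      exact add_comm _ _
  · exfalso
    obtain ⟨f, hf1, hf2⟩ := Submodule.exists_le_ker_of_notMem hr
    obtain ⟨y, hy⟩ : ∃ y : G.edgeSet → F2, y = fun e => f fun j => if e = j then 1 else 0 := ⟨_, rfl⟩
    have hf : ∀ g : G.edgeSet → F2, f g = ∑ e, g e * y e := by
      intro g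
      rw [LinearMap.pi_apply_eq_sum_univ f g, hy]
      rfl
    have hyc : y ∈ cyc G := by
      intro v
      have h1 : f (cutB G (fun u => if u = v then 1 else 0)) = 0 :=
        hf2 (LinearMap.mem_range_self _ _)
      rw [hf] at h1
      have h2 := sum_edges (fun d : G.Dart => if d.fst = v then y (ed (d, true)) else 0)
      rw [sum_filter, h2]
      refine Eq.trans (sum_congr rfl fun e _ => ?_) h1
      rw [cutB_apply]
      have h3 : ed ((rp e).1, true) = e := ed_rp e
      have h4 : ed ((rp e).1.symm, true) = e := by
        apply Subtype.ext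
        exact ((rp e).1.edge_symm).trans (congrArg Subtype.val (ed_rp e))
      rw [h3, h4]
      show (if (rp e).1.fst = v then y e else 0) + (if (rp e).1.snd = v then y e else 0) =
        ((if (rp e).1.fst = v then 1 else 0) + (if (rp e).1.snd = v then 1 else 0)) * y e
      rw [add_mul, ite_mul, ite_mul, one_mul, zero_mul]
    apply hf1
    rw [hf]
    exact horth y hyc

end Pool.Agent.BEO
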