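import Pool.Agent.BEO.Frm
import Pool.Agent.BEO.CutEx
import Pool.Agent.BEO.ChiEx

/-!
# BEO-FrmOri: a map is orientable iff its form is alternating

PLAN. Let `χ` be a colouring of the flags changed by `nxt` and by `side` (`exists_chi`), and
`ε (e) := χ q + χ (across q) + 1`, `q = rp e`; for every flag `p` over `e` the value `χ p + χ (across p) + 1` is the
same (`side` changes both). (1) `frm M z z = ∑ e, ε e * z e`: let `L` be a potential of `z`. Over all flags
`∑ p, (-1)^(χ p) * (L p as 0 or 1) = 0` in `ℤ` (`nxt` changes `χ` and preserves `L`). For a dart `d` the two flags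
contribute 0 if `z (ed d) = 0`, and if `z (ed d) = 1`: `+1` if `cd d = 1`, `-1` if `cd d = 0`, where
`cd d := L (d, true) + χ (d, true) = L (d, false) + χ (d, false)`. So the darts with `z = 1`, `cd = 1` are as many as
those with `z = 1`, `cd = 0`: each is the number of edges with `z = 1` (half of the darts with `z = 1`). Hence in
`F2`: `∑ e with z e = 1, (cd d + cd d.symm) = ∑ e with z e = 1, 1`, and
`cd d + cd d.symm = dL L e + ε e + 1` (for `d = (rp e).1`; the flags `p` and `across p`), so
`∑ e, (dL L e + ε e) * z e = 0`. Compare `Pool/Agent/Helper35/OG/Orient.lean` (`wt`).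
(2) If the form is alternating then `ε` is orthogonal to `cyc G`, so `ε (ed p) = cv p.1.fst + cv p.1.snd`
(`cut_exists`); `κ p := χ p + cv p.1.fst` is changed by `nxt`, `side` and `across`: orientable.
(3) If `κ` is an orientation, use `χ := κ` in (1) (the formula holds for every such `χ`): `ε = 0`, so
`frm M z z = 0`.
-/

set_option autoImplicit false

open Finset
open scoped Classical

namespace Pool.Agent.BEO

open Pool.Agent.Helper35.OG (Flag GMap across side across_across side_side across_ne side_ne side_fst across_fst vertex_const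
  all_const exists_flag face_nxt face_across face_surj nxt_inj sum_inv eqvGen_eq IsBand)

variable {V : Type} {G : SimpleGraph V}

private theorem fo_ne {a b : F2} (h : a ≠ b) : a = b + 1 := by
  revert a b
  decide

private def fi (x : F2) : ℤ := if x = 1 then 1 else 0

private def fs (x : F2) : ℤ := if x = 0 then 1 else -1

private theorem fo_key (c l z : F2) :
    fs c * fi l + fs (c + 1) * fi (l + z) = 2 * fi (z * (l + c)) - fi z := by
  revert c l z
  decide

private theorem fo_neg (c l : F2) : fs (c + 1) * fi l = -(fs c * fi l) := by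
  revert c l
  decide

private theorem fo_cast (x : F2) : ((fi x : ℤ) : F2) = x := by
  revert x
  decide

/-- the value of the form on the diagonal -/
private theorem fo_diag [Fintype V] (M : GMap G) (χ : Flag G → F2) (h1 : ∀ p, χ (M.nxt p) = χ p + 1)
    (h2 : ∀ p, χ (side p) = χ p + 1) (z : cyc G) :
    frm M z z = ∑ e, (χ (rp e) + χ (across (rp e)) + 1) * z.1 e := by
  obtain ⟨L, hL⟩ := exists_L M z.1 z.2
  rw [frm_eq M z z hL]
  have hL2 : ∀ p, L (side p) = L p + z.1 (ed p) := by
    intro p
    have h3 := hL.2 p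
    have h4 : ∀ a b c : F2, a + b = c → b = a + c := by decide
    exact h4 _ _ _ h3
  -- sum over the flags
  have hsum : ∑ p : Flag G, fs (χ p) * fi (L p) = 0 := by
    have h3 : ∑ p : Flag G, fs (χ (M.nxt p)) * fi (L (M.nxt p)) = ∑ p : Flag G, fs (χ p) * fi (L p) :=
      Equiv.sum_comp (Function.Involutive.toPerm M.nxt M.nxt_nxt) (fun p => fs (χ p) * fi (L p))
    have h4 : ∑ p : Flag G, fs (χ (M.nxt p)) * fi (L (M.nxt p)) = - ∑ p : Flag G, fs (χ p) * fi (L p) := by
      rw [← Finset.sum_neg_distrib]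
      refine Finset.sum_congr rfl fun p _ => ?_
      rw [h1, hL.1, fo_neg]
    omega
  obtain ⟨cd, hcd⟩ : ∃ cd : G.Dart → F2, ∀ d, cd d = L (d, true) + χ (d, true) := ⟨_, fun _ => rfl⟩
  have hz : ∀ p : Flag G, z.1 (ed p) * cd p.1 = z.1 (ed p) * (L p + χ p) := by
    rintro ⟨d, b⟩
    cases b
    · have h3 := h2 (d, true)
      have h4 := hL2 (d, true)
      have h5 : side ((d, true) : Flag G) = (d, false) := rfl
      have h6 : ed ((d, false) : Flag G) = ed (d, true) := rfl
      rw [h5] at h3 h4
      rw [h6, h3, h4, hcd]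
      have h7 : ∀ z l c : F2, z * (l + c) = z * (l + z + (c + 1)) := by decide
      exact h7 _ _ _
    · rw [hcd]
  have hd : ∑ d : G.Dart, (2 * fi (z.1 (ed (d, true)) * cd d) - fi (z.1 (ed (d, true)))) = 0 := by
    rw [← hsum, Fintype.sum_prod_type]
    refine Finset.sum_congr rfl fun d _ => ?_
    rw [Fintype.sum_bool]
    have h3 := h2 (d, true)
    have h4 := hL2 (d, true)
    have h5 : side ((d, true) : Flag G) = (d, false) := rfl
    rw [h5] at h3 h4
    rw [h3, h4, fo_key, hcd]
  have hsy : ∀ d : G.Dart, ed ((d.symm, true) : Flag G) = ed (d, true) := by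
    intro d
    apply Subtype.ext
    exact d.edge_symm
  have hrp : ∀ e : G.edgeSet, ed (((rp e).1, true) : Flag G) = e := fun e => ed_rp e
  have he : ∑ d : G.Dart, fi (z.1 (ed (d, true))) = 2 * ∑ e : G.edgeSet, fi (z.1 e) := by
    rw [sum_edges, Finset.mul_sum]
    refine Finset.sum_congr rfl fun e _ => ?_
    rw [hsy, hrp]
    ring
  have hA : ∑ d : G.Dart, fi (z.1 (ed (d, true)) * cd d) = ∑ e : G.edgeSet, fi (z.1 e) := by
    rw [Finset.sum_sub_distrib, ← Finset.mul_sum, he] at hd
    omega
  have hB : ∑ d : G.Dart, z.1 (ed (d, true)) * cd d = ∑ e : G.edgeSet, z.1 e := by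
    have h3 := congrArg (fun n : ℤ => (n : F2)) hA
    simp only [Int.cast_sum, fo_cast] at h3
    exact h3
  rw [sum_edges] at hB
  have hC : ∀ e : G.edgeSet, z.1 (ed ((rp e).1, true)) * cd (rp e).1 +
      z.1 (ed ((rp e).1.symm, true)) * cd (rp e).1.symm =
      z.1 e * (dL L e + (χ (rp e) + χ (across (rp e)) + 1) + 1) := by
    intro e
    rw [hsy, hrp]
    have h3 := hz (rp e)
    have h4 := hz (across (rp e))
    rw [ed_rp] at h3
    rw [ed_across, ed_rp] at h4
    have h5 : (across (rp e)).1 = (rp e).1.symm := rfl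
    rw [h5] at h4
    rw [h3, h4]
    unfold dL
    have h6 : ∀ z a b c d : F2, z * (a + b) + z * (c + d) = z * (a + c + (b + d + 1) + 1) := by decide
    exact h6 _ _ _ _ _
  rw [Finset.sum_congr rfl fun e _ => hC e] at hB
  have hD : ∀ e : G.edgeSet, dL L e * z.1 e = (χ (rp e) + χ (across (rp e)) + 1) * z.1 e +
      (z.1 e * (dL L e + (χ (rp e) + χ (across (rp e)) + 1) + 1) + z.1 e) := by
    intro e
    have h6 : ∀ a b z : F2, a * z = b * z + (z * (a + b + 1) + z) := by decide
    exact h6 _ _ _
  rw [Finset.sum_congr rfl fun e _ => hD e, Finset.sum_add_distrib, Finset.sum_add_distrib, hB]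
  have h7 : ∀ x y : F2, x + (y + y) = x := by decide
  exact h7 _ _

private theorem fo_eps (χ : Flag G → F2) (h2 : ∀ p, χ (side p) = χ p + 1) (p : Flag G) :
    χ (rp (ed p)) + χ (across (rp (ed p))) + 1 = χ p + χ (across p) + 1 := by
  have h := ed_rp (ed p)
  obtain ⟨q, hq⟩ : ∃ q, q = rp (ed p) := ⟨_, rfl⟩
  rw [← hq] at h ⊢
  have h3 : q.1.edge = p.1.edge := congrArg Subtype.val h
  have hA : ∀ q p : Flag G, q.1 = p.1 → χ q + χ (across q) + 1 = χ p + χ (across p) + 1 := by
    rintro ⟨d, b⟩ ⟨d', b'⟩ hd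
    have hd' : d = d' := hd
    subst hd'
    have e1 : ∀ c, χ (d, !c) = χ (d, c) + 1 := fun c => h2 (d, c)
    have e2 : ∀ c, χ (d.symm, !c) = χ (d.symm, c) + 1 := fun c => h2 (d.symm, c)
    show χ (d, b) + χ (d.symm, !b) + 1 = χ (d, b') + χ (d.symm, !b') + 1
    rw [e2, e2]
    have e3 := e1 true
    have e4 := e2 true
    have e5 : ∀ x y : F2, x + (y + 1) + 1 = x + 1 + (y + 1 + 1) + 1 := by decide
    have e6 : ∀ x y : F2, x + 1 + (y + 1 + 1) + 1 = x + (y + 1) + 1 := by decide
    cases b <;> cases b'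
    · rfl
    · rw [show false = !true from rfl, e3, e4]
      exact e6 _ _
    · rw [show false = !true from rfl, e3, e4]
      exact e5 _ _
    · rfl
  rcases SimpleGraph.dart_edge_eq_iff q.1 p.1 |>.1 h3 with h4 | h4
  · exact hA q p h4
  · have h5 := hA q (across p) h4
    rw [h5, across_across]
    ring

theorem frm_alt [Fintype V] (M : GMap G) : M.Orientable ↔ ∀ z, frm M z z = 0 := by
  constructor
  · rintro ⟨κ, hb, hn⟩ z
    have h1 : ∀ p, κ (M.nxt p) = κ p + 1 := fun p => fo_ne (hn p)
    have h2 : ∀ p, κ (side p) = κ p + 1 := fun p => fo_ne (hb p).2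
    rw [fo_diag M κ h1 h2 z]
    refine Finset.sum_eq_zero fun e _ => ?_
    rw [fo_ne (hb (rp e)).1]
    have h3 : ∀ x y : F2, (x + (x + 1) + 1) * y = 0 := by decide
    exact h3 _ _
  · intro h
    obtain ⟨χ, hχ⟩ := exists_chi (X := Flag G) M.nxt side M.nxt_nxt M.nxt_ne side_side side_ne
    have h1 : ∀ p, χ (M.nxt p) = χ p + 1 := fun p => fo_ne (hχ p).1
    have h2 : ∀ p, χ (side p) = χ p + 1 := fun p => fo_ne (hχ p).2
    obtain ⟨cv, hcv⟩ := cut_exists (G := G) (fun e => χ (rp e) + χ (across (rp e)) + 1) (by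
      intro z hz
      rw [← fo_diag M χ h1 h2 ⟨z, hz⟩]
      exact h _)
    have h5 : ∀ a b : F2, a + b = 1 → b ≠ a := by decide
    have h6 : ∀ a b c : F2, a + b + (a + 1 + b) = 1 := by decide
    refine ⟨fun p => χ p + cv p.1.fst, ?_, ?_⟩
    · intro p
      constructor
      · apply h5
        have h7 := hcv p
        have h8 := fo_eps χ h2 p
        rw [h8] at h7
        show χ p + cv p.1.fst + (χ (across p) + cv p.1.snd) = 1
        have h9 : ∀ a b c d : F2, a + b + 1 = c + d → a + c + (b + d) = 1 := by decide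
        exact h9 _ _ _ _ h7
      · apply h5
        show χ p + cv p.1.fst + (χ (side p) + cv p.1.fst) = 1
        rw [h2]
        exact h6 _ _ 0
    · intro p
      apply h5
      show χ p + cv p.1.fst + (χ (M.nxt p) + cv (M.nxt p).1.fst) = 1
      rw [h1, M.nxt_fst]
      exact h6 _ _ 0

end Pool.Agent.BEO
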