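import Pool.Agent.BEO.Frm

/-!
# BEO-Twist: twisting a set of edges

The twist is the conjugate of `S` by the involution `tph lam`; `L ∘ tph lam` is a potential for it.
-/

set_option autoImplicit false

open Finset
open scoped Classical

namespace Pool.Agent.BEO

open Pool.Agent.Helper35.OG (Flag GMap across side across_across side_side across_ne side_ne side_fst across_fst vertex_const
  all_const exists_flag face_nxt face_across face_surj nxt_inj sum_inv eqvGen_eq IsBand)

variable {V : Type} {G : SimpleGraph V}

/-- the flags at the smaller end of the edges of `lam` are exchanged with the flags on the other side -/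
noncomputable def tph [LinearOrder V] (lam : Finset G.edgeSet) (p : Flag G) : Flag G :=
  if ed p ∈ lam ∧ p.1.fst < p.1.snd then side p else p

private theorem tph_pos [LinearOrder V] (lam : Finset G.edgeSet) {p : Flag G}
    (h : ed p ∈ lam ∧ p.1.fst < p.1.snd) : tph lam p = side p := by
  unfold tph
  rw [if_pos h]

private theorem tph_neg [LinearOrder V] (lam : Finset G.edgeSet) {p : Flag G}
    (h : ¬ (ed p ∈ lam ∧ p.1.fst < p.1.snd)) : tph lam p = p := by
  unfold tph
  rw [if_neg h]

private theorem tph_dart [LinearOrder V] (lam : Finset G.edgeSet) (p : Flag G) :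
    (tph lam p).1 = p.1 := by
  by_cases h : ed p ∈ lam ∧ p.1.fst < p.1.snd
  · rw [tph_pos lam h]; rfl
  · rw [tph_neg lam h]

private theorem ed_tph [LinearOrder V] (lam : Finset G.edgeSet) (p : Flag G) :
    ed (tph lam p) = ed p := by
  by_cases h : ed p ∈ lam ∧ p.1.fst < p.1.snd
  · rw [tph_pos lam h]; rfl
  · rw [tph_neg lam h]

private theorem tph_side [LinearOrder V] (lam : Finset G.edgeSet) (p : Flag G) :
    tph lam (side p) = side (tph lam p) := by
  by_cases h : ed p ∈ lam ∧ p.1.fst < p.1.snd
  · have h' : ed (side p) ∈ lam ∧ (side p).1.fst < (side p).1.snd := h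
    rw [tph_pos lam h, tph_pos lam h']
  · have h' : ¬ (ed (side p) ∈ lam ∧ (side p).1.fst < (side p).1.snd) := h
    rw [tph_neg lam h, tph_neg lam h']

private theorem tph_tph [LinearOrder V] (lam : Finset G.edgeSet) (p : Flag G) :
    tph lam (tph lam p) = p := by
  by_cases h : ed p ∈ lam ∧ p.1.fst < p.1.snd
  · rw [tph_pos lam h, tph_side, tph_pos lam h, side_side]
  · rw [tph_neg lam h, tph_neg lam h]

theorem twist_exists [LinearOrder V] (S : GMap G) (lam : Finset G.edgeSet) :
    ∃ T : GMap G, ∀ p, T.nxt p = tph lam (S.nxt (tph lam p)) := by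
  have key : ∀ x y : Flag G, Relation.EqvGen (fun x y => y = S.nxt x ∨ y = side x) x y →
      Relation.EqvGen (fun x y => y = tph lam (S.nxt (tph lam x)) ∨ y = side x)
        (tph lam x) (tph lam y) := by
    intro x y h
    induction h with
    | rel x y hxy =>
      refine Relation.EqvGen.rel _ _ ?_
      rcases hxy with hxy | hxy
      · left; rw [tph_tph, hxy]
      · right; rw [hxy, tph_side]
    | refl x => exact Relation.EqvGen.refl _
    | symm x y _ ih => exact Relation.EqvGen.symm _ _ ih
    | trans x y z _ _ ih1 ih2 => exact Relation.EqvGen.trans _ _ _ ih1 ih2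
  refine ⟨⟨fun p => tph lam (S.nxt (tph lam p)), ?_, ?_, ?_, ?_⟩, fun p => rfl⟩
  · intro p
    show tph lam (S.nxt (tph lam (tph lam (S.nxt (tph lam p))))) = p
    rw [tph_tph, S.nxt_nxt, tph_tph]
  · intro p h
    have h' : tph lam (S.nxt (tph lam p)) = p := h
    refine S.nxt_ne (tph lam p) ?_
    have := congrArg (tph lam) h'
    rw [tph_tph] at this
    exact this
  · intro p
    show (tph lam (S.nxt (tph lam p))).1.fst = p.1.fst
    rw [tph_dart, S.nxt_fst, tph_dart]
  · intro p q h
    have h1 : (tph lam p).1.fst = (tph lam q).1.fst := by rw [tph_dart, tph_dart, h]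
    have h2 := key _ _ (S.conn _ _ h1)
    rw [tph_tph, tph_tph] at h2
    exact h2

/-- the twist of a map along a set of edges -/
noncomputable def twist [LinearOrder V] (S : GMap G) (lam : Finset G.edgeSet) : GMap G :=
  Classical.choose (twist_exists S lam)

theorem twist_nxt [LinearOrder V] (S : GMap G) (lam : Finset G.edgeSet) (p : Flag G) :
    (twist S lam).nxt p = tph lam (S.nxt (tph lam p)) := Classical.choose_spec (twist_exists S lam) p

private theorem twist_isL [LinearOrder V] (S : GMap G) (lam : Finset G.edgeSet)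
    {z : G.edgeSet → F2} {L : Flag G → F2} (h : IsL S z L) :
    IsL (twist S lam) z (fun p => L (tph lam p)) := by
  refine ⟨fun p => ?_, fun p => ?_⟩
  · show L (tph lam ((twist S lam).nxt p)) = L (tph lam p)
    rw [twist_nxt, tph_tph, h.1]
  · show L (tph lam p) + L (tph lam (side p)) = z (ed p)
    rw [tph_side, h.2, ed_tph]

private theorem twist_dL [LinearOrder V] (S : GMap G) (lam : Finset G.edgeSet)
    {z : G.edgeSet → F2} {L : Flag G → F2} (h : IsL S z L) (e : G.edgeSet) :
    dL (fun p => L (tph lam p)) e = dL L e + if e ∈ lam then z e else 0 := by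
  have hS : ∀ p, L (side p) = L p + z (ed p) := by
    intro p
    rw [← h.2 p, ← add_assoc, CharTwo.add_self_eq_zero, zero_add]
  have e1 : ed (rp e) = e := ed_rp e
  have e2 : ed (across (rp e)) = e := by rw [ed_across, e1]
  show L (tph lam (rp e)) + L (tph lam (across (rp e))) = L (rp e) + L (across (rp e)) + _
  by_cases he : e ∈ lam
  · rw [if_pos he]
    rcases lt_or_gt_of_ne (rp e).1.adj.ne with hlt | hlt
    · have h1 : tph lam (rp e) = side (rp e) := tph_pos lam ⟨by rw [e1]; exact he, hlt⟩
      have h2 : tph lam (across (rp e)) = across (rp e) := by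
        refine tph_neg lam (fun hh => ?_)
        have hh2 : (rp e).1.snd < (rp e).1.fst := hh.2
        exact lt_asymm hlt hh2
      rw [h1, h2, hS, e1]
      ring
    · have h1 : tph lam (rp e) = rp e := by
        refine tph_neg lam (fun hh => ?_)
        exact lt_asymm hlt hh.2
      have h2 : tph lam (across (rp e)) = side (across (rp e)) := by
        refine tph_pos lam ⟨by rw [e2]; exact he, ?_⟩
        show (rp e).1.snd < (rp e).1.fst
        exact hlt
      rw [h1, h2, hS, e2]
      ring
  · rw [if_neg he, add_zero]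
    have h1 : tph lam (rp e) = rp e := tph_neg lam (fun hh => he (by rw [← e1]; exact hh.1))
    have h2 : tph lam (across (rp e)) = across (rp e) :=
      tph_neg lam (fun hh => he (by rw [← e2]; exact hh.1))
    rw [h1, h2]

theorem twist_frm [Fintype V] [LinearOrder V] (S : GMap G) (lam : Finset G.edgeSet) (z z' : cyc G) :
    frm (twist S lam) z z' = frm S z z' + ∑ e ∈ lam, z.1 e * z'.1 e := by
  obtain ⟨L, hL⟩ := exists_L S z.1 z.2
  rw [frm_eq S z z' hL, frm_eq (twist S lam) z z' (twist_isL S lam hL)]
  have h1 : ∀ e : G.edgeSet, dL (fun p => L (tph lam p)) e * z'.1 e =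
      dL L e * z'.1 e + if e ∈ lam then z.1 e * z'.1 e else 0 := by
    intro e
    rw [twist_dL S lam hL e, add_mul, ite_mul, zero_mul]
  rw [sum_congr rfl (fun e _ => h1 e), sum_add_distrib]
  congr 1
  rw [sum_ite_mem, univ_inter]

end Pool.Agent.BEO
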