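import Pool.Agent.BEO.Topo

/-!
# BEO-WideDW: closed walks of the dual graph as lists of flags

PLAN. From `DW s t F G l` (`s e = face (rp e)`, `t e = face (side (rp e))`) build a list `q` of flags with
`q.map ed = l`, whose faces form a walk: the `i`-th flag `p` has `face p =` the current face, `face (side p) =` the
next face (choose `p = rp e` or `p = side (rp e)`), by induction on `DW`: for `l ≠ []`: `face (q.head) = F`,
consecutive `face (side q[i]) = face q[i + 1]`, `face (side (q.last)) = G`. If `G = F` the list satisfies the
hypothesis of `Wide` (with the cyclic index). Then `(q.map (fun p => z (ed p))).sum = (l.map fun e => z e).sum` is 0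
for every `z ∈ cyc G`, i.e. `(l.map ev).sum = 0` (`LinearMap.ext`). The case `l = []` is trivial.
-/

set_option autoImplicit false

open Finset
open scoped Classical

namespace Pool.Agent.BEO

open Pool.Agent.Helper35.OG (Flag GMap across side across_across side_side across_ne side_ne side_fst across_fst vertex_const
  all_const exists_flag face_nxt face_across face_surj nxt_inj sum_inv eqvGen_eq IsBand)

variable {V : Type} {G : SimpleGraph V}

/-- a walk of the dual graph as a list of flags -/
private theorem dw_flags (S : GMap G) {F H : S.Face} {l : List G.edgeSet}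
    (h : DW (fun e => S.face (rp e)) (fun e => S.face (side (rp e))) F H l) :
    ∃ q : List (Flag G), q.map ed = l ∧ (∀ (h0 : 0 < q.length), S.face (q[0]'h0) = F) ∧
      (∀ i (hi : i + 1 < q.length), S.face (side (q[i]'(Nat.lt_of_succ_lt hi))) = S.face (q[i + 1]'hi)) ∧
      (∀ (h0 : 0 < q.length), S.face (side (q[q.length - 1]'(Nat.sub_lt h0 Nat.one_pos))) = H) ∧
      (q = [] → F = H) := by
  induction h with
  | nil F =>
    refine ⟨[], rfl, ?_, ?_, ?_, fun _ => rfl⟩
    · intro h0
      exact absurd h0 (Nat.lt_irrefl _)
    · intro i hi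
      exact absurd hi (Nat.not_lt_zero _)
    · intro h0
      exact absurd h0 (Nat.lt_irrefl _)
  | cons F K H e l he _ ih =>
    obtain ⟨q, hq1, hq2, hq3, hq4, hq5⟩ := ih
    have hp : ∃ p : Flag G, ed p = e ∧ S.face p = F ∧ S.face (side p) = K := by
      rcases he with ⟨h1, h2⟩ | ⟨h1, h2⟩
      · exact ⟨rp e, ed_rp e, h1, h2⟩
      · refine ⟨side (rp e), ?_, h2, ?_⟩
        · rw [ed_side, ed_rp]
        · rw [side_side]
          exact h1
    obtain ⟨p, hp1, hp2, hp3⟩ := hp
    refine ⟨p :: q, ?_, ?_, ?_, ?_, ?_⟩
    · rw [List.map_cons, hp1, hq1]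
    · intro _
      exact hp2
    · intro i hi
      rcases i with _ | i
      · show S.face (side p) = S.face (q[0]'(by simpa using hi))
        rw [hp3, hq2]
      · show S.face (side (q[i]'_)) = S.face (q[i + 1]'_)
        exact hq3 i (by simpa using hi)
    · intro _
      rcases Nat.eq_zero_or_pos q.length with h0 | h0
      · have h1 : q = [] := List.length_eq_zero_iff.1 h0
        subst h1
        show S.face (side p) = H
        rw [hp3]
        exact hq5 rfl
      · have h2 : (p :: q)[(p :: q).length - 1]'(by simp) = q[q.length - 1]'(Nat.sub_lt h0 Nat.one_pos) := by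
          simp only [List.length_cons, Nat.add_sub_cancel]
          rw [List.getElem_cons, dif_neg (by omega)]
        rw [h2]
        exact hq4 h0
    · intro h
      exact absurd h (List.cons_ne_nil _ _)

theorem wide_dw [Fintype V] (S : GMap G) (hw : Wide S) (F : S.Face) (l : List G.edgeSet)
    (h : DW (fun e => S.face (rp e)) (fun e => S.face (side (rp e))) F F l) (hl : l.length ≤ 6) :
    (l.map (ev (G := G))).sum = 0 := by
  obtain ⟨q, hq1, hq2, hq3, hq4, -⟩ := dw_flags S h
  have hlen : q.length = l.length := by
    rw [← hq1, List.length_map]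
  have h1 := hw q (by rw [hlen]; exact hl) (by
    intro i hi
    by_cases h2 : i + 1 < q.length
    · have h3 : (i + 1) % q.length = i + 1 := Nat.mod_eq_of_lt h2
      simp only [h3]
      exact hq3 i h2
    · have h3 : i = q.length - 1 := by omega
      have h4 : (i + 1) % q.length = 0 := by
        rw [h3, Nat.sub_add_cancel (by omega), Nat.mod_self]
      simp only [h4]
      subst h3
      rw [hq4 (by omega), hq2 (by omega)])
  apply LinearMap.ext
  intro z
  have h5 := h1 z.1 z.2
  rw [LinearMap.zero_apply, ← h5, ← hq1]
  clear h5 h1 hq1 hq2 hq3 hq4 hlen h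
  induction q with
  | nil => rfl
  | cons p q ih =>
    simp only [List.map_cons, List.sum_cons, LinearMap.add_apply]
    rw [ih]
    rfl

end Pool.Agent.BEO
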