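import Pool.Agent.BEO.FrmRank
import Pool.Agent.BEO.FrmOri
import Pool.Agent.BEO.Twist
import Pool.Agent.BEO.Cub
import Pool.Agent.BEO.WideDW
import Pool.Agent.BEO.DatB

/-!
# BEO: the linear data of a map
-/

set_option autoImplicit false

open Finset
open scoped Classical

namespace Pool.Agent.BEO

open Pool.Agent.Helper35.OG (Flag GMap across side across_across side_side across_ne side_ne side_fst across_fst vertex_const
  all_const exists_flag face_nxt face_across face_surj nxt_inj sum_inv eqvGen_eq IsBand)

variable {V : Type} {G : SimpleGraph V}

/-- the linear data of a map -/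
noncomputable def mkDat [Fintype V] [Nontrivial V] (S : GMap G) (hG : G.Connected) (k : ℕ) (hk : S.eg = k)
    (hw : Wide S) : Dat k S.Face G.edgeSet (cyc G) where
  s e := S.face (rp e)
  t e := S.face (side (rp e))
  z := bdF S
  a := ev
  J := frm S
  symm := frm_symm S
  inc e F := by
    have h := bdF_eq S F (rp e)
    rw [ed_rp] at h
    exact h
  rad := frm_rad S
  sep z h := by
    apply Subtype.ext
    funext e
    exact h e
  rk := by
    have h := frm_rank hG S
    rw [hk] at h
    exact_mod_cast h
  wide F l h hl := wide_dw S hw F l h hl

end Pool.Agent.BEO
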