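import Mathlib

/-!
# BEO-TupL: finitely many coordinates detect a space of functionals (Mathlib only)
-/

set_option autoImplicit false

namespace Pool.Agent.BEO

theorem exists_coords {Z E : Type} [AddCommGroup Z] [Module (ZMod 2) Z] [Module.Finite (ZMod 2) Z] (zc : E → Z)
    (hspan : ∀ φ : Z →ₗ[ZMod 2] ZMod 2, (∀ e, φ (zc e) = 0) → φ = 0) (k : ℕ)
    (H : Submodule (ZMod 2) (Z →ₗ[ZMod 2] ZMod 2)) (hH : Module.finrank (ZMod 2) H = k) :
    ∃ es : List E, es.length = k ∧ ∀ φ ∈ H, (∀ e ∈ es, φ (zc e) = 0) → φ = 0 := by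
  induction k generalizing H with
  | zero =>
    rw [Submodule.finrank_eq_zero] at hH
    refine ⟨[], rfl, fun φ hφ _ => ?_⟩
    rw [hH] at hφ
    exact (Submodule.mem_bot _).mp hφ
  | succ k ih =>
    have hne : H ≠ ⊥ := by
      intro h
      rw [h, finrank_bot] at hH
      omega
    obtain ⟨φ, hφ, hφ0⟩ := Submodule.exists_mem_ne_zero_of_ne_bot hne
    obtain ⟨e, he⟩ : ∃ e, φ (zc e) ≠ 0 := by
      by_contra hcon
      apply hφ0
      apply hspan
      intro e
      by_contra h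
      exact hcon ⟨e, h⟩
    set f : H →ₗ[ZMod 2] ZMod 2 := (LinearMap.applyₗ (zc e)).comp H.subtype with hf
    have hfe : ∀ ψ : H, f ψ = (ψ : Z →ₗ[ZMod 2] ZMod 2) (zc e) := fun ψ => rfl
    have hf0 : f ≠ 0 := by
      intro h
      apply he
      have h1 := hfe ⟨φ, hφ⟩
      rw [h] at h1
      exact h1.symm
    have hk := Module.Dual.finrank_ker_add_one_of_ne_zero (f := f) hf0
    rw [hH] at hk
    obtain ⟨es, hes, hes2⟩ := ih ((LinearMap.ker f).map H.subtype) (by
      rw [Submodule.finrank_map_subtype_eq]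
      omega)
    refine ⟨e :: es, by rw [List.length_cons, hes], ?_⟩
    intro ψ hψ hψe
    apply hes2 ψ
    · refine ⟨⟨ψ, hψ⟩, ?_, rfl⟩
      rw [SetLike.mem_coe, LinearMap.mem_ker, hfe]
      exact hψe e List.mem_cons_self
    · intro e' he'
      exact hψe e' (List.mem_cons_of_mem _ he')

end Pool.Agent.BEO
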