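import Pool.Agent.BEO.WlkS
import Pool.Agent.BEO.TreS
import Pool.Agent.BEO.TupL
import Pool.Agent.BEO.MkD

/-!
# BEO-ClsS: for a suitable tuple the canonical walks have the right classes

PLAN. `exists_coords` with `Z := cyc G`, `zc e := ⟨pc (zl l (ec e)), zc_mem ..⟩` (spanning by `zc_span`), `H := D.H`,
`finrank_H`, gives edges `e1, ..., ek`; `es := [ec e1, ..., ec ek]`, whose elements are in `(fl l).map ek`
(`mem_fl`, `ek_cod`, `ed_rp`). For `w` and `w'` from `wlk_complete` the functional
`φ := (w'.map D.a).sum - (w.map D.a).sum` is in `D.H`: on the boundary of a face `F` it is the boundary of `w'` minus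
that of `w` at `F`, equal because the ends agree (`DW.bd`, `D.inc`); and `φ (zc e_i) = 0`:
`(w.map D.a).sum (zc e_i) = ∑ over a in w of pc (zl l (ec e_i)) a`, whose value in `F2` is the `i`-th component of
`lbs l es (w.map ec)`. So `φ = 0`.
-/

set_option autoImplicit false

open Finset
open scoped Classical

namespace Pool.Agent.BEO

open Pool.Agent.Helper35.OG (Flag GMap across side across_across side_side across_ne side_ne side_fst across_fst vertex_const
  all_const exists_flag face_nxt face_across face_surj nxt_inj sum_inv eqvGen_eq IsBand)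

variable {n : ℕ} {G : SimpleGraph (Fin n)}

private theorem fold_sum (L : List Bool) : ∀ a : Bool, (if L.foldl xor a = true then (1 : F2) else 0) =
    (if a = true then 1 else 0) + (L.map fun b : Bool => if b = true then (1 : F2) else 0).sum := by
  induction L with
  | nil => intro a; simp
  | cons b L ih =>
    intro a
    rw [List.foldl_cons, ih, List.map_cons, List.sum_cons, ← add_assoc]
    congr 1
    revert a b
    decide

private theorem sum_app {E Z : Type} [AddCommGroup Z] [Module F2 Z] (a : E → Z →ₗ[F2] F2) (w : List E) (x : Z) :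
    (w.map a).sum x = (w.map fun e => a e x).sum := by
  induction w with
  | nil => rfl
  | cons e w ih =>
    rw [List.map_cons, List.sum_cons, List.map_cons, List.sum_cons, LinearMap.add_apply, ih]

private theorem lbs_pc (l : Inp) (es : List G.edgeSet) (w w' : List G.edgeSet)
    (h : lbs l (es.map ec) (w'.map ec) = lbs l (es.map ec) (w.map ec)) (e : G.edgeSet) (he : e ∈ es) :
    (w'.map fun a => pc (zl l (ec e)) a).sum = (w.map fun a => pc (zl l (ec e)) a).sum := by
  have key : ∀ v : List G.edgeSet, (v.map fun a => pc (zl l (ec e)) a).sum =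
      if ((v.map ec).map fun a => par (zl l (ec e)) a).foldl xor false = true then (1 : F2) else 0 := by
    intro v
    rw [fold_sum]
    simp only [List.map_map, Bool.false_eq_true, if_false, zero_add]
    rfl
  have h1 : ∀ x ∈ es.map ec, ((w'.map ec).map fun a => par (zl l x) a).foldl xor false =
      ((w.map ec).map fun a => par (zl l x) a).foldl xor false := by
    unfold lbs at h
    exact List.map_inj_left.1 h
  rw [key, key, h1 (ec e) (List.mem_map.2 ⟨e, he, rfl⟩)]

theorem exists_tuple [Nontrivial (Fin n)] {S : GMap G} {l : Inp} (h : Codes S l) (hG : G.Connected) (hn : 2 ≤ n) (k : ℕ)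
    (hk : S.eg = k) (hw : Wide S) : ∃ es : List Ec, es ∈ tup ((fl l).map ek) k ∧
      ∀ (F F' : S.Face) (w : List G.edgeSet), DW (mkDat S hG k hk hw).s (mkDat S hG k hk hw).t F F' w → w ≠ [] →
        ∃ w' : List G.edgeSet, w'.map ec ∈ wlk k l es ∧ w' ≠ [] ∧ w'.length ≤ w.length ∧
          (w'.length + w.length) % 2 = 0 ∧
          (w'.map (mkDat S hG k hk hw).a).sum = (w.map (mkDat S hG k hk hw).a).sum := by
  set D := mkDat S hG k hk hw with hD
  let zc : G.edgeSet → cyc G := fun e => ⟨pc (zl l (ec e)), zc_mem h hG hn e⟩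
  have hspan : ∀ φ : cyc G →ₗ[ZMod 2] ZMod 2, (∀ e, φ (zc e) = 0) → φ = 0 := by
    intro φ hφ
    apply LinearMap.ext
    intro z
    have hz : z = ∑ e, z.1 e • zc e := by
      apply Subtype.ext
      funext e'
      rw [zc_span h hG hn z.1 z.2 e', Submodule.coe_sum, Finset.sum_apply]
      rfl
    rw [hz, map_sum]
    simp only [map_smul, hφ, smul_zero, Finset.sum_const_zero]
    rfl
  obtain ⟨es0, hlen, hes0⟩ := exists_coords zc hspan k D.H D.finrank_H
  refine ⟨es0.map ec, ?_, ?_⟩
  · rw [mem_tup]
    refine ⟨by rw [List.length_map, hlen], ?_⟩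
    intro x hx
    obtain ⟨e, -, rfl⟩ := List.mem_map.1 hx
    exact List.mem_map.2 ⟨cod (rp e), (mem_fl h _).2 ⟨_, rfl⟩, rfl⟩
  · intro F F' w hw' hne
    obtain ⟨w', h1, h2, h3, h4, h5, h6⟩ := wlk_complete h k (es0.map ec) (by rw [List.length_map, hlen]) F F' w hw' hne
    refine ⟨w', h1, h2, h3, h4, ?_⟩
    rw [← sub_eq_zero]
    apply hes0
    · intro X
      have e1 : ∀ v : List G.edgeSet, DW D.s D.t F F' v → (v.map D.a).sum (D.z X) =
          (if F = X then 1 else 0) + (if F' = X then 1 else 0) := by
        intro v hv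
        rw [sum_app, ← hv.bd X]
        congr 1
        apply List.map_congr_left
        intro e _
        exact D.inc e X
      rw [LinearMap.sub_apply, e1 w' h5, e1 w hw', sub_self]
    · intro e he
      rw [LinearMap.sub_apply, sum_app, sum_app, sub_eq_zero]
      exact lbs_pc l es0 w w' h6 e he

end Pool.Agent.BEO
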