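import Mathlib

/-!
# BEO-CntG: counting by keys and positions (Mathlib only)

The positions of the elements with a fixed key are in an interval of length 40.
-/

set_option autoImplicit false

open Finset
open scoped Classical

namespace Pool.Agent.BEO

theorem count_windows {Y A : Type} [Fintype A] (S : Finset Y) (key : Y → A) (ctr : Y → ℕ) (m : ℕ)
    (h1 : ∀ y ∈ S, ∀ y' ∈ S, key y = key y' → ctr y + 40 ≤ ctr y' → False)
    (h2 : ∀ i, (S.filter fun y => ctr y = i).card ≤ m) : S.card ≤ Fintype.card A * (40 * m) := by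
  have hkey : ∀ κ ∈ S.image key, (S.filter fun y => key y = κ).card ≤ 40 * m := by
    intro κ hκ
    have hne : (S.filter fun y => key y = κ).Nonempty := by
      obtain ⟨y, hy, hy'⟩ := mem_image.1 hκ
      exact ⟨y, mem_filter.2 ⟨hy, hy'⟩⟩
    obtain ⟨y₀, hy₀, hmin⟩ := exists_min_image _ ctr hne
    rw [mem_filter] at hy₀
    have hsub : (S.filter fun y => key y = κ) ⊆
        (Finset.Ico (ctr y₀) (ctr y₀ + 40)).biUnion fun i => S.filter fun y => ctr y = i := by
      intro y hy
      have h3 := hmin y hy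
      rw [mem_filter] at hy
      rw [mem_biUnion]
      refine ⟨ctr y, ?_, mem_filter.2 ⟨hy.1, rfl⟩⟩
      rw [mem_Ico]
      refine ⟨h3, ?_⟩
      by_contra h4
      exact h1 y₀ hy₀.1 y hy.1 (hy₀.2.trans hy.2.symm) (not_lt.1 h4)
    refine (card_le_card hsub).trans ?_
    refine (card_biUnion_le_card_mul _ _ m fun i _ => h2 i).trans ?_
    rw [Nat.card_Ico, Nat.add_sub_cancel_left]
  refine (card_le_mul_card_image S (40 * m) hkey).trans ?_
  rw [mul_comm]
  exact Nat.mul_le_mul_right _ (card_le_univ _)

end Pool.Agent.BEO
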