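import Pool.Agent.BEO.Base

/-!
# BEO-Twin: no twins
-/

set_option autoImplicit false

open Finset
open scoped Classical

namespace Pool.Agent.BEO

variable {k : ℕ} {V Q : Type} [Fintype V] [AddCommGroup Q] [Module F2 Q] (c : Cfg k V Q)

theorem twin_free {y z : V} (hy : ∃ u, c.L.Adj y u) (h : ∀ u, c.L.Adj y u ↔ c.L.Adj z u) : y = z := by
  by_contra hne
  obtain ⟨u, hu⟩ := hy
  have hmem : ∀ x, x ∈ nb c.L y ↔ c.L.Adj y x := by
    intro x
    unfold nb
    rw [mem_filter]
    exact ⟨fun h => h.2, fun h => ⟨mem_univ _, h⟩⟩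
  refine c.tw y z hne (nb c.L y) (fun x hx => ?_) ⟨u, (hmem u).2 hu⟩ (c.evL y) (c.rho y)
  have h1 := (hmem x).1 hx
  exact ⟨h1, (h x).1 h1⟩

/-- the same with the rows of the adjacency matrix -/
theorem row_inj {y z : V} (hy : ∃ u, c.L.Adj y u) (h : ∀ u, row c.L y u = row c.L z u) : y = z := by
  refine twin_free c hy fun u => ?_
  have h1 := h u
  unfold row at h1
  by_cases ha : c.L.Adj y u
  · rw [if_pos ha] at h1
    by_cases hb : c.L.Adj z u
    · exact ⟨fun _ => hb, fun _ => ha⟩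
    · rw [if_neg hb] at h1
      exact absurd h1 one_ne_zero
  · rw [if_neg ha] at h1
    by_cases hb : c.L.Adj z u
    · rw [if_pos hb] at h1
      exact absurd h1.symm one_ne_zero
    · exact ⟨fun h => absurd h ha, fun h => absurd h hb⟩

end Pool.Agent.BEO
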