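import Pool.Agent.BEO.Nbr
import Pool.Agent.BEO.Twin

/-!
# BEO-T02: type 2 (trace `{i - 1, i + 1}`)

PLAN. Suppose the two vectors are equal: for every `u`,
`row y u + row (x j i) u = row y' u + row (x j i') u`. Claim: `row y u = row (x j i) u` for all `u`; then `y = x j i` by
`row_inj` (`y` has the neighbour `x j (i + 1)`), contradiction with `y ∉ vs M`, `x_mem`. Proof of the claim: otherwise
exactly one of `y`, `x j i` is adjacent to `u`, hence exactly one of `y'`, `x j i'` is adjacent to `u`. Four cases: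
`u ~ y`, `u ~ y'`: `nbr_far` for `x j (i + 1)`, `y`, `u`, `y'`, `x j (i' + 1)` contradicts `i + 40 ≤ i'`;
`u ~ y`, `u ~ x j i'`: `nbr_mid` for `x j (i + 1) ~ y ~ u ~ x j i'`; `u ~ x j i`, `u ~ y'`: `nbr_mid` starting from
`x j (i' + 1) ~ y' ~ u ~ x j i`; `u ~ x j i`, `u ~ x j i'`: `nbr_two`. All contradict `i + 40 ≤ i'`.
(`f.Tr` gives the bounds `18 ≤ i`, `i' + 18 ≤ n j`.)
-/

set_option autoImplicit false

open Finset
open scoped Classical

namespace Pool.Agent.BEO

variable {k C : ℕ} {V Q : Type} [Fintype V] [AddCommGroup Q] [Module F2 Q] {c : Cfg k V Q} (f : Frame C c)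

theorem ne_type2 (j : Fin f.m) (i i' : ℕ) (y y' : V) (h : f.Tr 2 j i y) (h' : f.Tr 2 j i' y') (hi : i + 40 ≤ i') :
    f.rv 2 j i y ≠ f.rv 2 j i' y' := by
  intro he
  obtain ⟨hy, hi1, hi2, ht⟩ := h
  obtain ⟨hy', hi1', hi2', ht'⟩ := h'
  have a1 : c.L.Adj y (f.x j (i + 1)) :=
    (ht j (i + 1) (by omega) (by omega)).mpr ⟨rfl, Or.inr (Or.inr (Or.inl ⟨rfl, Or.inr rfl⟩))⟩
  have a1' : c.L.Adj y' (f.x j (i' + 1)) :=
    (ht' j (i' + 1) (by omega) (by omega)).mpr ⟨rfl, Or.inr (Or.inr (Or.inl ⟨rfl, Or.inr rfl⟩))⟩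
  have e2 : ∀ (i : ℕ) (y u : V), f.rv 2 j i y u = row c.L y u + row c.L (f.x j i) u := by
    intro i y u
    unfold Frame.rv
    rw [if_neg (by decide), if_neg (by decide), if_pos (by decide)]
    ring
  have key : ∀ u, row c.L y u = row c.L (f.x j i) u := by
    intro u
    have hu : row c.L y u + row c.L (f.x j i) u = row c.L y' u + row c.L (f.x j i') u := by
      rw [← e2, ← e2, he]
    by_contra hne
    have h1 : (c.L.Adj y u ∨ c.L.Adj (f.x j i) u) ∧ (c.L.Adj y' u ∨ c.L.Adj (f.x j i') u) := by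
      unfold row at hu hne
      by_cases b1 : c.L.Adj y u <;> by_cases b2 : c.L.Adj (f.x j i) u <;>
        by_cases b3 : c.L.Adj y' u <;> by_cases b4 : c.L.Adj (f.x j i') u <;>
        simp [b1, b2, b3, b4] at hu hne ⊢
    obtain ⟨h2, h3⟩ := h1
    rcases h2 with h2 | h2 <;> rcases h3 with h3 | h3
    · have := nbr_far f y y' u hy hy' j j (i + 1) (i' + 1) (by omega) (by omega) (by omega) (by omega) a1 h2
        h3.symm a1'
      omega
    · have := nbr_mid f y u hy j j (i + 1) i' (by omega) (by omega) (by omega) (by omega) a1 h2 h3.symm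
      omega
    · have := nbr_mid f y' u hy' j j (i' + 1) i (by omega) (by omega) (by omega) (by omega) a1' h3 h2.symm
      omega
    · have := nbr_two f u j j i i' (by omega) (by omega) (by omega) (by omega) h2.symm h3.symm
      omega
  have := row_inj c ⟨_, a1⟩ key
  exact hy (this ▸ x_mem f j i (by omega) (by omega))

end Pool.Agent.BEO
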