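import Pool.Agent.BEO.Grp1

/-!
# BEO-Grp2: the class of the last group is in `W`

PLAN. `∑ a ∈ range (m + 1), ∑ u ∈ nb c.L (p a), c.a s(p a, u) ∈ c.W` by `c.rho`. Exchange the sums: it is
`∑ u, T u`, `T u = ∑ a ∈ range (m + 1) with c.L.Adj (p a) u, c.a s(p a, u)`. By the pattern of `u`: `T u = 0`;
`T u = c.a s(p b, u) + c.a s(p (b + 1), u)`; `T u = c.a s(p 0, u) + c.a s(p 2, u)`; `T u = c.a s(p m, u)`.
`pair_const`: if `u, u'` are both adjacent to `x` and `y` then
`c.a s(x, u) + c.a s(y, u) = c.a s(x, u') + c.a s(y, u')` (the closed walk `x u y u' x` of length 4 has class 0 by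
`c.null`; `z + z = 0` in `Q`, a module over `ZMod 2`; for `x = y` or `u = u'` trivial). So the sum over a group of even
size is 0. If the three groups `PatC 0`, `PatC 1`, `PatH` are odd, pick `u0, u1, uh` in them: their contributions are
`T u0 + T u1 + T uh`, the class of the closed walk `p 0, u0, p 1, u1, p 2, uh, p 0` of length 6, which is 0; if they
are even each contributes 0. What remains is `∑ u with PatM, c.a s(p m, u)`.
-/

set_option autoImplicit false

open Finset
open scoped Classical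

namespace Pool.Agent.BEO

variable {k : ℕ} {V Q : Type} [Fintype V] [AddCommGroup Q] [Module F2 Q] {c : Cfg k V Q}

private theorem Qadd (z : Q) : z + z = 0 := ZModModule.add_self z

theorem pair_const (x y u u' : V) (h1 : c.L.Adj x u) (h2 : c.L.Adj y u) (h3 : c.L.Adj x u') (h4 : c.L.Adj y u') :
    c.a s(x, u) + c.a s(y, u) = c.a s(x, u') + c.a s(y, u') := by
  have h := c.null x (SimpleGraph.Walk.cons h1 (SimpleGraph.Walk.cons h2.symm
    (SimpleGraph.Walk.cons h4 (SimpleGraph.Walk.cons h3.symm SimpleGraph.Walk.nil)))) (by simp)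
  simp only [SimpleGraph.Walk.edges_cons, SimpleGraph.Walk.edges_nil, List.map_cons, List.map_nil,
    List.sum_cons, List.sum_nil, add_zero] at h
  rw [Sym2.eq_swap (a := u) (b := y), Sym2.eq_swap (a := u') (b := x)] at h
  have e1 : c.a s(x, u) + c.a s(y, u) + (c.a s(x, u') + c.a s(y, u')) = 0 := by
    rw [← h]
    abel
  have e2 := Qadd (c.a s(x, u') + c.a s(y, u'))
  calc c.a s(x, u) + c.a s(y, u) = c.a s(x, u) + c.a s(y, u) + (c.a s(x, u') + c.a s(y, u'))
        + (c.a s(x, u') + c.a s(y, u')) := by rw [add_assoc _ (c.a s(x, u') + c.a s(y, u')), e2, add_zero]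
    _ = c.a s(x, u') + c.a s(y, u') := by rw [e1, zero_add]

omit [Fintype V] in
private theorem const_sum (U : Finset V) (f : V → Q) (h : ∀ u ∈ U, ∀ u' ∈ U, f u = f u') :
    (Even U.card → ∑ u ∈ U, f u = 0) ∧ (¬ Even U.card → ∀ u ∈ U, ∑ v ∈ U, f v = f u) := by
  have key : ∀ u ∈ U, ∑ v ∈ U, f v = U.card • f u := by
    intro u hu
    rw [sum_congr rfl (fun v hv => h v hv u hu), sum_const]
  constructor
  · intro he
    rcases U.eq_empty_or_nonempty with h0 | ⟨u, hu⟩
    · rw [h0, sum_empty]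
    · rw [key u hu]
      obtain ⟨r, hr⟩ := he
      rw [hr, add_smul, Qadd]
  · intro ho u hu
    rw [key u hu]
    rw [Nat.not_even_iff_odd] at ho
    obtain ⟨r, hr⟩ := ho
    rw [hr, two_mul, add_smul, add_smul, Qadd, zero_add, one_smul]

private theorem T_sum {p : ℕ → V} {m : ℕ} (h : Pats c p m) (u : V) :
    (∑ a ∈ range (m + 1), if c.L.Adj (p a) u then c.a s(p a, u) else 0) =
      (∑ b ∈ range m, if PatC c p m b u then c.a s(p b, u) + c.a s(p (b + 1), u) else 0) +
      (if PatH c p m u then c.a s(p 0, u) + c.a s(p 2, u) else 0) +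
      (if PatM c p m u then c.a s(p m, u) else 0) := by
  have hm := h.hm
  rcases h.pat u with h1 | ⟨b, hb, h1⟩ | h1 | h1
  · have e0 : ∀ a ∈ range (m + 1), (if c.L.Adj (p a) u then c.a s(p a, u) else 0) = 0 := by
      intro a ha
      rw [if_neg (h1 a (by have := mem_range.1 ha; omega))]
    have e1 : ∀ b ∈ range m,
        (if PatC c p m b u then c.a s(p b, u) + c.a s(p (b + 1), u) else 0) = 0 := by
      intro b hb
      have hb' := mem_range.1 hb
      have h2 : ¬ PatC c p m b u := fun h2 => h1 b hb'.le ((h2 b hb'.le).2 (Or.inl rfl))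
      rw [if_neg h2]
    have e2 : ¬ PatH c p m u := fun h2 => h1 0 (by omega) ((h2 0 (by omega)).2 (Or.inl rfl))
    have e3 : ¬ PatM c p m u := fun h2 => h1 m le_rfl ((h2 m le_rfl).2 rfl)
    rw [sum_eq_zero e0, sum_eq_zero e1, if_neg e2, if_neg e3, add_zero, add_zero]
  · have e2 : ¬ PatH c p m u := fun h' => by
      have h2 := (h1 0 (by omega)).1 ((h' 0 (by omega)).2 (Or.inl rfl))
      have h3 := (h1 2 (by omega)).1 ((h' 2 (by omega)).2 (Or.inr rfl))
      omega
    have e3 : ¬ PatM c p m u := fun h' => by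
      have h2 := (h' b hb.le).1 ((h1 b hb.le).2 (Or.inl rfl))
      omega
    have e4 : (∑ b ∈ range m, if PatC c p m b u then c.a s(p b, u) + c.a s(p (b + 1), u) else 0) =
        c.a s(p b, u) + c.a s(p (b + 1), u) := by
      rw [sum_eq_single b, if_pos h1]
      · intro b' hb' hne
        rw [if_neg]
        intro h2
        have hb'' := mem_range.1 hb'
        have h3 := (h2 b hb.le).1 ((h1 b hb.le).2 (Or.inl rfl))
        have h4 := (h1 b' hb''.le).1 ((h2 b' hb''.le).2 (Or.inl rfl))
        omega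
      · intro h2
        exact absurd (mem_range.2 hb) h2
    rw [if_neg e2, if_neg e3, add_zero, add_zero, e4,
      sum_eq_add_of_mem b (b + 1) (mem_range.2 (by omega)) (mem_range.2 (by omega)) (by omega),
      if_pos ((h1 b hb.le).2 (Or.inl rfl)), if_pos ((h1 (b + 1) hb).2 (Or.inr rfl))]
    intro a ha hne
    rw [if_neg]
    intro h2
    have h3 := (h1 a (by have := mem_range.1 ha; omega)).1 h2
    omega
  · have e1 : ∀ b ∈ range m,
        (if PatC c p m b u then c.a s(p b, u) + c.a s(p (b + 1), u) else 0) = 0 := by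
      intro b hb
      have hb' := mem_range.1 hb
      have h2 : ¬ PatC c p m b u := fun h2 => by
        have h3 := (h2 0 (by omega)).1 ((h1 0 (by omega)).2 (Or.inl rfl))
        have h4 := (h2 2 (by omega)).1 ((h1 2 (by omega)).2 (Or.inr rfl))
        omega
      rw [if_neg h2]
    have e3 : ¬ PatM c p m u := fun h2 => by
      have h3 := (h2 0 (by omega)).1 ((h1 0 (by omega)).2 (Or.inl rfl))
      omega
    rw [sum_eq_zero e1, if_pos h1, if_neg e3, add_zero, zero_add,
      sum_eq_add_of_mem 0 2 (mem_range.2 (by omega)) (mem_range.2 (by omega)) (by omega),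
      if_pos ((h1 0 (by omega)).2 (Or.inl rfl)), if_pos ((h1 2 (by omega)).2 (Or.inr rfl))]
    intro a ha hne
    rw [if_neg]
    intro h2
    have h3 := (h1 a (by have := mem_range.1 ha; omega)).1 h2
    omega
  · have e1 : ∀ b ∈ range m,
        (if PatC c p m b u then c.a s(p b, u) + c.a s(p (b + 1), u) else 0) = 0 := by
      intro b hb
      have hb' := mem_range.1 hb
      have h2 : ¬ PatC c p m b u := fun h2 => by
        have h3 := (h1 b hb'.le).1 ((h2 b hb'.le).2 (Or.inl rfl))
        omega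
      rw [if_neg h2]
    have e2 : ¬ PatH c p m u := fun h2 => by
      have h3 := (h1 0 (by omega)).1 ((h2 0 (by omega)).2 (Or.inl rfl))
      omega
    rw [sum_eq_zero e1, if_neg e2, if_pos h1, zero_add, zero_add,
      sum_eq_single m, if_pos ((h1 m le_rfl).2 rfl)]
    · intro a ha hne
      rw [if_neg]
      intro h2
      exact hne ((h1 a (by have := mem_range.1 ha; omega)).1 h2)
    · intro h2
      exact absurd (mem_range.2 (Nat.lt_succ_self m)) h2

private theorem total {p : ℕ → V} {m : ℕ} (h : Pats c p m) :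
    (∑ a ∈ range (m + 1), ∑ u ∈ nb c.L (p a), c.a s(p a, u)) =
      (∑ b ∈ range m, ∑ u ∈ univ.filter (fun u => PatC c p m b u),
        (c.a s(p b, u) + c.a s(p (b + 1), u))) +
      (∑ u ∈ univ.filter (fun u => PatH c p m u), (c.a s(p 0, u) + c.a s(p 2, u))) +
      (∑ u ∈ univ.filter (fun u => PatM c p m u), c.a s(p m, u)) := by
  have h1 : ∀ a ∈ range (m + 1), (∑ u ∈ nb c.L (p a), c.a s(p a, u)) =
      ∑ u : V, if c.L.Adj (p a) u then c.a s(p a, u) else 0 := by
    intro a _
    rw [nb, sum_filter]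
  rw [sum_congr rfl h1, sum_comm, sum_congr rfl (fun u _ => T_sum h u), sum_add_distrib,
    sum_add_distrib, sum_comm, sum_filter, sum_filter]
  congr 2
  exact sum_congr rfl fun b _ => (sum_filter _ _).symm

theorem grp_mem (p : ℕ → V) (m : ℕ) (h : Pats c p m) :
    ∑ u ∈ univ.filter (fun u => PatM c p m u), c.a s(p m, u) ∈ c.W := by
  have hm := h.hm
  obtain ⟨q1, q2, q3, q4⟩ := grp_parity p m h
  have hW : (∑ a ∈ range (m + 1), ∑ u ∈ nb c.L (p a), c.a s(p a, u)) ∈ c.W :=
    Submodule.sum_mem _ fun a _ => c.rho (p a)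
  have hC : ∀ b, b < m → (Even (univ.filter fun u => PatC c p m b u).card →
      ∑ u ∈ univ.filter (fun u => PatC c p m b u), (c.a s(p b, u) + c.a s(p (b + 1), u)) = 0) ∧
      (¬ Even (univ.filter fun u => PatC c p m b u).card →
        ∀ u ∈ univ.filter (fun u => PatC c p m b u),
        ∑ u ∈ univ.filter (fun u => PatC c p m b u), (c.a s(p b, u) + c.a s(p (b + 1), u)) =
          c.a s(p b, u) + c.a s(p (b + 1), u)) := by
    intro b hb
    refine const_sum _ (fun u => c.a s(p b, u) + c.a s(p (b + 1), u)) ?_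
    intro u hu u' hu'
    have hu1 := (mem_filter.1 hu).2
    have hu2 := (mem_filter.1 hu').2
    exact pair_const _ _ _ _ ((hu1 b hb.le).2 (Or.inl rfl)) ((hu1 (b + 1) hb).2 (Or.inr rfl))
      ((hu2 b hb.le).2 (Or.inl rfl)) ((hu2 (b + 1) hb).2 (Or.inr rfl))
  have hH : (Even (univ.filter fun u => PatH c p m u).card →
      ∑ u ∈ univ.filter (fun u => PatH c p m u), (c.a s(p 0, u) + c.a s(p 2, u)) = 0) ∧
      (¬ Even (univ.filter fun u => PatH c p m u).card →
        ∀ u ∈ univ.filter (fun u => PatH c p m u),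
        ∑ u ∈ univ.filter (fun u => PatH c p m u), (c.a s(p 0, u) + c.a s(p 2, u)) =
          c.a s(p 0, u) + c.a s(p 2, u)) := by
    refine const_sum _ (fun u => c.a s(p 0, u) + c.a s(p 2, u)) ?_
    intro u hu u' hu'
    have hu1 := (mem_filter.1 hu).2
    have hu2 := (mem_filter.1 hu').2
    exact pair_const _ _ _ _ ((hu1 0 (by omega)).2 (Or.inl rfl)) ((hu1 2 (by omega)).2 (Or.inr rfl))
      ((hu2 0 (by omega)).2 (Or.inl rfl)) ((hu2 2 (by omega)).2 (Or.inr rfl))
  rw [total h] at hW
  have hsum : (∑ b ∈ range m, ∑ u ∈ univ.filter (fun u => PatC c p m b u),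
        (c.a s(p b, u) + c.a s(p (b + 1), u))) =
      (∑ u ∈ univ.filter (fun u => PatC c p m 0 u), (c.a s(p 0, u) + c.a s(p (0 + 1), u))) +
      (∑ u ∈ univ.filter (fun u => PatC c p m 1 u), (c.a s(p 1, u) + c.a s(p (1 + 1), u))) := by
    refine sum_eq_add_of_mem 0 1 (mem_range.2 (by omega)) (mem_range.2 (by omega)) (by omega) ?_
    intro b hb hne
    have hb' := mem_range.1 hb
    exact (hC b hb').1 (q2 b (by omega) hb')
  have hz : (∑ b ∈ range m, ∑ u ∈ univ.filter (fun u => PatC c p m b u),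
        (c.a s(p b, u) + c.a s(p (b + 1), u))) +
      (∑ u ∈ univ.filter (fun u => PatH c p m u), (c.a s(p 0, u) + c.a s(p 2, u))) = 0 := by
    rw [hsum]
    by_cases h0 : Even (univ.filter fun u => PatC c p m 0 u).card
    · rw [(hC 0 (by omega)).1 h0, (hC 1 (by omega)).1 (q3.1 h0), hH.1 (q4.1 h0), add_zero, add_zero]
    · have h1 : ¬ Even (univ.filter fun u => PatC c p m 1 u).card := fun h2 => h0 (q3.2 h2)
      have hh : ¬ Even (univ.filter fun u => PatH c p m u).card := fun h2 => h0 (q4.2 h2)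
      have ne : ∀ s : Finset V, ¬ Even s.card → s.Nonempty := by
        intro s hs
        rcases s.eq_empty_or_nonempty with h5 | h5
        · exfalso
          apply hs
          rw [h5, card_empty]
          exact Even.zero
        · exact h5
      obtain ⟨u0, hu0⟩ := ne _ h0
      obtain ⟨u1, hu1⟩ := ne _ h1
      obtain ⟨uh, huh⟩ := ne _ hh
      rw [(hC 0 (by omega)).2 h0 u0 hu0, (hC 1 (by omega)).2 h1 u1 hu1, hH.2 hh uh huh]
      have g0 := (mem_filter.1 hu0).2
      have g1 := (mem_filter.1 hu1).2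
      have gh := (mem_filter.1 huh).2
      have a1 : c.L.Adj (p 0) u0 := (g0 0 (by omega)).2 (Or.inl rfl)
      have a2 : c.L.Adj (p 1) u0 := (g0 1 (by omega)).2 (Or.inr rfl)
      have a3 : c.L.Adj (p 1) u1 := (g1 1 (by omega)).2 (Or.inl rfl)
      have a4 : c.L.Adj (p 2) u1 := (g1 2 (by omega)).2 (Or.inr rfl)
      have a5 : c.L.Adj (p 2) uh := (gh 2 (by omega)).2 (Or.inr rfl)
      have a6 : c.L.Adj (p 0) uh := (gh 0 (by omega)).2 (Or.inl rfl)
      have hn := c.null (p 0) (SimpleGraph.Walk.cons a1 (SimpleGraph.Walk.cons a2.symm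
        (SimpleGraph.Walk.cons a3 (SimpleGraph.Walk.cons a4.symm (SimpleGraph.Walk.cons a5
        (SimpleGraph.Walk.cons a6.symm SimpleGraph.Walk.nil)))))) (by simp)
      simp only [SimpleGraph.Walk.edges_cons, SimpleGraph.Walk.edges_nil, List.map_cons,
        List.map_nil, List.sum_cons, List.sum_nil, add_zero] at hn
      rw [Sym2.eq_swap (a := u0) (b := p 1), Sym2.eq_swap (a := u1) (b := p 2),
        Sym2.eq_swap (a := uh) (b := p 0)] at hn
      have e01 : (0 + 1 : ℕ) = 1 := rfl
      have e11 : (1 + 1 : ℕ) = 2 := rfl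
      rw [e01, e11, ← hn]
      abel
  rw [hz, zero_add] at hW
  exact hW

/-- the contradiction: the last group cannot be nonempty and adjacent to one more vertex -/
theorem grp_false (p : ℕ → V) (m : ℕ) (h : Pats c p m) (v : V) (hv : v ≠ p m)
    (hU : ∀ u, PatM c p m u → c.L.Adj v u) (hne : ∃ u, PatM c p m u) : False := by
  refine c.tw (p m) v hv.symm (univ.filter fun u => PatM c p m u) ?_ ?_ (grp_parity p m h).1
    (grp_mem p m h)
  · intro u hu
    have h1 := (mem_filter.1 hu).2
    exact ⟨(h1 m le_rfl).2 rfl, hU u h1⟩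
  · obtain ⟨u, hu⟩ := hne
    exact ⟨u, mem_filter.2 ⟨mem_univ _, hu⟩⟩

end Pool.Agent.BEO
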