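import Pool.Agent.BEO.Nbr
import Pool.Agent.BEO.Grp2

/-!
# BEO-T1: type 0 (trace `{i}`)
-/

set_option autoImplicit false

open Finset
open scoped Classical

namespace Pool.Agent.BEO

variable {k C : ℕ} {V Q : Type} [Fintype V] [AddCommGroup Q] [Module F2 Q] {c : Cfg k V Q} (f : Frame C c)

private theorem ty0 (i l : ℕ) : Frame.Ty 0 i l ↔ l = i := by
  unfold Frame.Ty
  constructor
  · rintro (⟨_, h⟩ | ⟨h, _⟩ | ⟨h, _⟩ | ⟨h, _⟩)
    · exact h
    · exact absurd h (by decide)
    · exact absurd h (by decide)
    · exact absurd h (by decide)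
  · intro h
    exact Or.inl ⟨rfl, h⟩

private theorem rv0 (j : Fin f.m) (i : ℕ) (y u : V) : f.rv 0 j i y u = row c.L y u + f.alt j i u := by
  unfold Frame.rv
  rw [if_pos (Or.inl rfl), if_neg (by decide), if_neg (by decide)]
  simp

private theorem row_one (v u : V) : row c.L v u = 1 ↔ c.L.Adj v u := by
  unfold row
  split_ifs with h
  · simp [h]
  · simp [h]

private theorem row_zero (v u : V) : row c.L v u = 0 ↔ ¬ c.L.Adj v u := by
  unfold row
  split_ifs with h
  · simp [h]
  · simp [h]

private theorem alt_split (j : Fin f.m) (i i' : ℕ) (hi : i ≤ i') (hp : (i + i') % 2 = 0) (u : V) (h1 : 1 ≤ i) :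
    f.alt j i' u = f.alt j i u + ∑ l ∈ (Ico i i').filter (fun l => (l + i) % 2 = 1), row c.L (f.x j l) u := by
  unfold Frame.alt
  rw [← Finset.sum_union]
  · apply Finset.sum_congr _ (fun _ _ => rfl)
    ext l
    simp only [Finset.mem_filter, Finset.mem_range, Finset.mem_union, Finset.mem_Ico]
    omega
  · rw [Finset.disjoint_left]
    intro l hl hl'
    simp only [Finset.mem_filter, Finset.mem_range, Finset.mem_Ico] at hl hl'
    omega

private theorem rel0 (j : Fin f.m) (i i' : ℕ) (y y' : V) (hi : i ≤ i') (hp : (i + i') % 2 = 0) (h1 : 1 ≤ i)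
    (h : f.rv 0 j i y = f.rv 0 j i' y') (u : V) :
    row c.L y u + row c.L y' u + ∑ l ∈ (Ico i i').filter (fun l => (l + i) % 2 = 1), row c.L (f.x j l) u = 0 := by
  have h2 := congrFun h u
  rw [rv0, rv0, alt_split f j i i' hi hp u h1] at h2
  have h3 : ∀ a b s t : F2, a + s = b + (s + t) → a + b + t = 0 := by decide
  exact h3 _ _ _ _ h2

theorem ne_type0 (j : Fin f.m) (i i' : ℕ) (y y' : V) (h : f.Tr 0 j i y) (h' : f.Tr 0 j i' y') (hi : i + 40 ≤ i')
    (hp : (i + i') % 2 = 0) : f.rv 0 j i y ≠ f.rv 0 j i' y' := by
  intro he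
  obtain ⟨hyM, hi18, hin, hT⟩ := h
  obtain ⟨hyM', hi18', hin', hT'⟩ := h'
  have hrel := rel0 f j i i' y y' (by omega) hp (by omega) he
  have hyi : c.L.Adj y (f.x j i) := (hT j i (by omega) (by omega)).2 ⟨rfl, (ty0 i i).2 rfl⟩
  have hyi' : c.L.Adj y' (f.x j i') := (hT' j i' (by omega) (by omega)).2 ⟨rfl, (ty0 i' i').2 rfl⟩
  -- sums with two possible terms
  have hsum : ∀ (u : V) (l1 l2 : ℕ), l1 ≠ l2 → i ≤ l1 → l1 < i' → (l1 + i) % 2 = 1 → i ≤ l2 → l2 < i' →
      (l2 + i) % 2 = 1 → (∀ l, i ≤ l → l < i' → (l + i) % 2 = 1 → l ≠ l1 → l ≠ l2 → ¬ c.L.Adj (f.x j l) u) →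
      row c.L y u + row c.L y' u + (row c.L (f.x j l1) u + row c.L (f.x j l2) u) = 0 := by
    intro u l1 l2 hne a1 a2 a3 b1 b2 b3 hall
    have h2 := hrel u
    rw [Finset.sum_eq_add_of_mem l1 l2 (by simp only [Finset.mem_filter, Finset.mem_Ico]; exact ⟨⟨a1, a2⟩, a3⟩)
      (by simp only [Finset.mem_filter, Finset.mem_Ico]; exact ⟨⟨b1, b2⟩, b3⟩) hne] at h2
    · exact h2
    · intro l hl hl'
      simp only [Finset.mem_filter, Finset.mem_Ico] at hl
      exact (row_zero _ _).2 (hall l hl.1.1 hl.1.2 hl.2 hl'.1 hl'.2)
  -- case A: u adjacent to y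
  have caseA : ∀ u, c.L.Adj y u → ¬ c.L.Adj y' u ∧
      (∀ l, i ≤ l → l < i' → (l + i) % 2 = 1 → c.L.Adj (f.x j l) u → l = i + 1 ∨ l = i + 3) ∧
      ((c.L.Adj (f.x j (i + 1)) u ∧ ¬ c.L.Adj (f.x j (i + 3)) u) ∨
        (¬ c.L.Adj (f.x j (i + 1)) u ∧ c.L.Adj (f.x j (i + 3)) u)) := by
    intro u hu
    have h1 : ¬ c.L.Adj y' u := by
      intro hu'
      have := nbr_far f y y' u hyM hyM' j j i i' (by omega) (by omega) (by omega) (by omega) hyi hu hu'.symm hyi'
      omega
    have h2 : ∀ l, i ≤ l → l < i' → (l + i) % 2 = 1 → c.L.Adj (f.x j l) u → l = i + 1 ∨ l = i + 3 := by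
      intro l a1 a2 a3 a4
      have := nbr_mid f y u hyM j j i l (by omega) (by omega) (by omega) (by omega) hyi hu a4.symm
      omega
    refine ⟨h1, h2, ?_⟩
    have h3 := hsum u (i + 1) (i + 3) (by omega) (by omega) (by omega) (by omega) (by omega) (by omega) (by omega)
      (fun l a1 a2 a3 a4 a5 a6 => by
        have := h2 l a1 a2 a3 a6
        omega)
    rw [(row_one _ _).2 hu, (row_zero _ _).2 h1] at h3
    by_cases q1 : c.L.Adj (f.x j (i + 1)) u
    · by_cases q2 : c.L.Adj (f.x j (i + 3)) u
      · rw [(row_one _ _).2 q1, (row_one _ _).2 q2] at h3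
        exact absurd h3 (by decide)
      · exact Or.inl ⟨q1, q2⟩
    · by_cases q2 : c.L.Adj (f.x j (i + 3)) u
      · exact Or.inr ⟨q1, q2⟩
      · rw [(row_zero _ _).2 q1, (row_zero _ _).2 q2] at h3
        exact absurd h3 (by decide)
  -- case B
  have caseB1 : ∀ u l, c.L.Adj y' u → i ≤ l → l < i + 30 → ¬ c.L.Adj (f.x j l) u := by
    intro u l hu a1 a2 a3
    have := nbr_mid f y' u hyM' j j i' l (by omega) (by omega) (by omega) (by omega) hyi' hu a3.symm
    omega
  have caseB2 : ∀ u a, ¬ c.L.Adj y u → 1 ≤ a → a ≤ 10 → c.L.Adj (f.x j (i + 2 * a - 1)) u →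
      (∀ b, 1 ≤ b → b < a → ¬ c.L.Adj (f.x j (i + 2 * b - 1)) u) →
      c.L.Adj (f.x j (i + 2 * a + 1)) u ∧
      ∀ b, 1 ≤ b → b ≤ 10 → c.L.Adj (f.x j (i + 2 * b - 1)) u → b = a ∨ b = a + 1 := by
    intro u a hu ha ha' hau hmin
    have hu' : ¬ c.L.Adj y' u := by
      intro hu'
      exact caseB1 u (i + 2 * a - 1) hu' (by omega) (by omega) hau
    have h2 : ∀ l, i ≤ l → l < i' → (l + i) % 2 = 1 → c.L.Adj (f.x j l) u →
        l = i + 2 * a - 1 ∨ l = i + 2 * a + 1 := by
      intro l a1 a2 a3 a4
      have h3 := nbr_two f u j j (i + 2 * a - 1) l (by omega) (by omega) (by omega) (by omega) hau.symm a4.symm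
      by_contra hcon
      have h4 : l = i + 2 * (a - 1) - 1 := by omega
      exact hmin (a - 1) (by omega) (by omega) (h4 ▸ a4)
    have h3 := hsum u (i + 2 * a - 1) (i + 2 * a + 1) (by omega) (by omega) (by omega) (by omega) (by omega)
      (by omega) (by omega)
      (fun l a1 a2 a3 a4 a5 a6 => by
        have := h2 l a1 a2 a3 a6
        omega)
    rw [(row_zero _ _).2 hu, (row_zero _ _).2 hu', (row_one _ _).2 hau] at h3
    refine ⟨?_, ?_⟩
    · by_contra hcon
      rw [(row_zero _ _).2 hcon] at h3
      exact absurd h3 (by decide)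
    · intro b b1 b2 b3
      have := h2 (i + 2 * b - 1) (by omega) (by omega) (by omega) b3
      omega
  set p : ℕ → V := fun a => if a = 0 then y else f.x j (i + 2 * a - 1) with hpdef
  have p0 : p 0 = y := by simp [hpdef]
  have pa : ∀ a, 1 ≤ a → p a = f.x j (i + 2 * a - 1) := by
    intro a ha
    simp only [hpdef]
    rw [if_neg (by omega)]
  have hyx : ∀ l, 1 ≤ l → l ≤ f.n j → y ≠ f.x j l := by
    intro l a1 a2 a3
    exact hyM (a3 ▸ x_mem f j l a1 a2)
  have hPats : Pats c p 10 := by
    refine ⟨by omega, ?_, ?_⟩
    · intro a b ha hb hab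
      rcases Nat.eq_zero_or_pos a with ha0 | ha0
      · rcases Nat.eq_zero_or_pos b with hb0 | hb0
        · omega
        · rw [ha0, p0, pa b hb0] at hab
          exact absurd hab (hyx _ (by omega) (by omega))
      · rcases Nat.eq_zero_or_pos b with hb0 | hb0
        · rw [hb0, p0, pa a ha0] at hab
          exact absurd hab.symm (hyx _ (by omega) (by omega))
        · rw [pa a ha0, pa b hb0] at hab
          have := f.inj j _ j _ (by omega) (by omega) (by omega) (by omega) hab
          omega
    · intro u
      by_cases hu : c.L.Adj y u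
      · obtain ⟨h1, h2, h3⟩ := caseA u hu
        rcases h3 with ⟨h3, h4⟩ | ⟨h3, h4⟩
        · refine Or.inr (Or.inl ⟨0, by omega, ?_⟩)
          intro a ha
          rcases Nat.eq_zero_or_pos a with ha0 | ha0
          · rw [ha0, p0]
            exact ⟨fun _ => Or.inl rfl, fun _ => hu⟩
          · rw [pa a ha0]
            constructor
            · intro h5
              have h6 := h2 (i + 2 * a - 1) (by omega) (by omega) (by omega) h5
              rcases h6 with h6 | h6
              · omega
              · rw [h6] at h5
                exact absurd h5 h4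
            · intro h5
              have h6 : i + 2 * a - 1 = i + 1 := by omega
              rw [h6]
              exact h3
        · refine Or.inr (Or.inr (Or.inl ?_))
          intro a ha
          rcases Nat.eq_zero_or_pos a with ha0 | ha0
          · rw [ha0, p0]
            exact ⟨fun _ => Or.inl rfl, fun _ => hu⟩
          · rw [pa a ha0]
            constructor
            · intro h5
              have h6 := h2 (i + 2 * a - 1) (by omega) (by omega) (by omega) h5
              rcases h6 with h6 | h6
              · rw [h6] at h5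
                exact absurd h5 h3
              · omega
            · intro h5
              have h6 : i + 2 * a - 1 = i + 3 := by omega
              rw [h6]
              exact h4
      · by_cases hex : ∃ a, 1 ≤ a ∧ a ≤ 10 ∧ c.L.Adj (f.x j (i + 2 * a - 1)) u
        · have hm := Nat.find_spec hex
          have hmin : ∀ b, 1 ≤ b → b < Nat.find hex → ¬ c.L.Adj (f.x j (i + 2 * b - 1)) u := by
            intro b b1 b2 b3
            exact Nat.find_min hex b2 ⟨b1, by omega, b3⟩
          generalize Nat.find hex = a at hm hmin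
          obtain ⟨ha1, ha2, ha3⟩ := hm
          obtain ⟨h5, h6⟩ := caseB2 u a hu ha1 ha2 ha3 hmin
          rcases Nat.lt_or_ge a 10 with ha10 | ha10
          · refine Or.inr (Or.inl ⟨a, ha10, ?_⟩)
            intro b hb
            rcases Nat.eq_zero_or_pos b with hb0 | hb0
            · rw [hb0, p0]
              constructor
              · intro h7
                exact absurd h7 hu
              · intro h7
                omega
            · rw [pa b hb0]
              constructor
              · intro h7
                exact h6 b hb0 hb h7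
              · rintro (h7 | h7)
                · rw [h7]
                  exact ha3
                · have h8 : i + 2 * b - 1 = i + 2 * a + 1 := by omega
                  rw [h8]
                  exact h5
          · refine Or.inr (Or.inr (Or.inr ?_))
            intro b hb
            rcases Nat.eq_zero_or_pos b with hb0 | hb0
            · rw [hb0, p0]
              constructor
              · intro h7
                exact absurd h7 hu
              · intro h7
                omega
            · rw [pa b hb0]
              constructor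
              · intro h7
                have := h6 b hb0 hb h7
                omega
              · intro h7
                have h8 : a = b := by omega
                rw [← h8]
                exact ha3
        · refine Or.inl ?_
          intro a ha
          rcases Nat.eq_zero_or_pos a with ha0 | ha0
          · rw [ha0, p0]
            exact hu
          · rw [pa a ha0]
            intro h5
            exact hex ⟨a, ha0, ha, h5⟩
  apply grp_false p 10 hPats (f.x j (i + 21))
  · rw [pa 10 (by omega)]
    intro h5
    have := f.inj j _ j _ (by omega) (by omega) (by omega) (by omega) h5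
    omega
  · intro u hu
    have hu0 : ¬ c.L.Adj y u := by
      intro h5
      have := (hu 0 (by omega)).1 (by rw [p0]; exact h5)
      omega
    have hu10 : c.L.Adj (f.x j (i + 2 * 10 - 1)) u := by
      have := (hu 10 (by omega)).2 rfl
      rw [pa 10 (by omega)] at this
      exact this
    exact (caseB2 u 10 hu0 (by omega) (by omega) hu10 (fun b b1 b2 b3 => by
      have := (hu b (by omega)).1 (by rw [pa b b1]; exact b3)
      omega)).1
  · refine ⟨f.x j (i + 20), ?_⟩
    intro a ha
    rcases Nat.eq_zero_or_pos a with ha0 | ha0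
    · rw [ha0, p0, hT j (i + 20) (by omega) (by omega), ty0]
      constructor
      · intro h5
        omega
      · intro h5
        omega
    · rw [pa a ha0]
      constructor
      · intro h5
        have := adj_inner f j j (i + 2 * a - 1) (i + 20) (by omega) (by omega) (by omega) (by omega) h5
        omega
      · intro h5
        have h6 := adj_next f j (i + 19) (by omega) (by omega)
        have h7 : i + 2 * a - 1 = i + 19 := by omega
        rw [h7]
        exact h6

end Pool.Agent.BEO
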