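import Pool.Agent.BEO.Nbr
import Pool.Agent.BEO.Grp2

/-!
# BEO-T3: type 3 (trace `{i - 1, i, i + 1}`)

The vertices `y, x j i, x j (i + 1), x j (i + 3), ..., x j (i + 19)` have the patterns of `Pats`; apply `grp_false`.
-/

set_option autoImplicit false

open Finset
open scoped Classical

namespace Pool.Agent.BEO

variable {k C : ℕ} {V Q : Type} [Fintype V] [AddCommGroup Q] [Module F2 Q] {c : Cfg k V Q} (f : Frame C c)

private theorem alt_step (j : Fin f.m) (n : ℕ) (u : V) :
    f.alt j (n + 2) u = f.alt j n u + row c.L (f.x j (n + 1)) u := by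
  unfold Frame.alt
  rw [Finset.sum_filter, Finset.sum_filter, Finset.sum_range_succ, Finset.sum_range_succ,
    if_neg (by omega : ¬ (1 ≤ n ∧ (n + (n + 2)) % 2 = 1)),
    if_pos (by omega : 1 ≤ n + 1 ∧ (n + 1 + (n + 2)) % 2 = 1), add_zero]
  congr 1
  apply Finset.sum_congr rfl
  intro l _
  have h1 : (1 ≤ l ∧ (l + (n + 2)) % 2 = 1) ↔ (1 ≤ l ∧ (l + n) % 2 = 1) := by omega
  simp only [h1]

private theorem alt_add (j : Fin f.m) (n t : ℕ) (u : V) :
    f.alt j (n + 2 * t) u = f.alt j n u + ∑ k ∈ range t, row c.L (f.x j (n + 2 * k + 1)) u := by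
  induction t with
  | zero => simp
  | succ t ih =>
    have h1 : n + 2 * (t + 1) = n + 2 * t + 2 := by ring
    rw [h1, alt_step, ih, Finset.sum_range_succ, add_assoc]

theorem ne_type3 (j : Fin f.m) (i i' : ℕ) (y y' : V) (h : f.Tr 3 j i y) (h' : f.Tr 3 j i' y') (hi : i + 40 ≤ i')
    (hp : (i + i') % 2 = 0) : f.rv 3 j i y ≠ f.rv 3 j i' y' := by
  intro heq
  obtain ⟨hy, hi18, hin, hadj⟩ := h
  obtain ⟨hy', hi18', hin', hadj'⟩ := h'
  have two0 : (2 : F2) = 0 := by decide
  obtain ⟨t, ht⟩ : ∃ t, i' = i + 2 * t := ⟨(i' - i) / 2, by omega⟩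
  have ht20 : 20 ≤ t := by omega
  -- the neighbours of `y` and `y'`
  have ya : c.L.Adj y (f.x j i) := (hadj j i (by omega) (by omega)).2 ⟨rfl, by unfold Frame.Ty; simp⟩
  have yb : c.L.Adj y (f.x j (i - 1)) :=
    (hadj j (i - 1) (by omega) (by omega)).2 ⟨rfl, by unfold Frame.Ty; simp; omega⟩
  have ya' : c.L.Adj y' (f.x j i') := (hadj' j i' (by omega) (by omega)).2 ⟨rfl, by unfold Frame.Ty; simp⟩
  -- the relation
  have hrel : ∀ u, row c.L y u + row c.L (f.x j i) u + (∑ k ∈ range t, row c.L (f.x j (i + 2 * k + 1)) u) +
      row c.L y' u + row c.L (f.x j i') u = 0 := by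
    intro u
    have h1 := congrFun heq u
    unfold Frame.rv at h1
    rw [if_pos (Or.inr rfl), if_neg (by decide), if_pos (Or.inr rfl), if_pos (Or.inr rfl),
      if_neg (by decide), if_pos (Or.inr rfl)] at h1
    have h2 : f.alt j i' u = f.alt j i u + ∑ k ∈ range t, row c.L (f.x j (i + 2 * k + 1)) u := by
      rw [ht]
      exact alt_add f j i t u
    rw [h2] at h1
    linear_combination h1 + ((∑ k ∈ range t, row c.L (f.x j (i + 2 * k + 1)) u) + row c.L y' u +
      row c.L (f.x j i') u) * two0
  -- the sequence
  obtain ⟨q, hq⟩ : ∃ q : ℕ → ℕ, q = fun a => if a = 1 then i else i + 2 * a - 3 := ⟨_, rfl⟩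
  obtain ⟨p, hpd⟩ : ∃ p : ℕ → V, p = fun a => if a = 0 then y else f.x j (q a) := ⟨_, rfl⟩
  have hq1 : q 1 = i := by rw [hq]; rfl
  have hq2 : ∀ a, 2 ≤ a → q a + 3 = i + 2 * a := by
    intro a ha
    rw [hq]
    show (if a = 1 then i else i + 2 * a - 3) + 3 = i + 2 * a
    rw [if_neg (by omega)]
    omega
  have hp0 : p 0 = y := by rw [hpd]; rfl
  have hp1 : ∀ a, 1 ≤ a → p a = f.x j (q a) := by
    intro a ha
    rw [hpd]
    show (if a = 0 then y else f.x j (q a)) = f.x j (q a)
    rw [if_neg (by omega)]
  have hqb : ∀ a, 1 ≤ a → a ≤ 11 → i ≤ q a ∧ q a ≤ i + 19 := by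
    intro a h1 h2
    rcases Nat.lt_or_ge a 2 with h3 | h3
    · have : a = 1 := by omega
      rw [this, hq1]
      omega
    · have := hq2 a h3
      omega
  have hqinj : ∀ a b, 1 ≤ a → 1 ≤ b → q a = q b → a = b := by
    intro a b h1 h2 h3
    rcases Nat.lt_or_ge a 2 with h4 | h4
    · rcases Nat.lt_or_ge b 2 with h5 | h5
      · omega
      · have h6 := hq2 b h5
        have : a = 1 := by omega
        rw [this, hq1] at h3
        omega
    · have h6 := hq2 a h4
      rcases Nat.lt_or_ge b 2 with h5 | h5
      · have : b = 1 := by omega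
        rw [this, hq1] at h3
        omega
      · have h7 := hq2 b h5
        omega
  have hS : ∀ u, ∑ a ∈ range 12, row c.L (p a) u = row c.L y u + row c.L (f.x j i) u +
      ∑ k ∈ range 10, row c.L (f.x j (i + 2 * k + 1)) u := by
    intro u
    rw [Finset.sum_range_succ', Finset.sum_range_succ', hp0, hp1 (0 + 1) le_rfl, hq1]
    have h1 : ∀ k ∈ range 10, row c.L (p (k + 1 + 1)) u = row c.L (f.x j (i + 2 * k + 1)) u := by
      intro k _
      have h2 := hq2 (k + 1 + 1) (by omega)
      have h3 : q (k + 1 + 1) = i + 2 * k + 1 := by omega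
      rw [hp1 _ (by omega), h3]
    rw [Finset.sum_congr rfl h1]
    ring
  -- common neighbours
  have N2 : ∀ u a b, 1 ≤ a → a ≤ 11 → 1 ≤ b → b ≤ 11 → c.L.Adj (p a) u → c.L.Adj (p b) u → a ≤ b + 1 := by
    intro u a b ha1 ha2 hb1 hb2 ha hb
    have h1 := hqb a ha1 ha2
    have h2 := hqb b hb1 hb2
    rw [hp1 a ha1] at ha
    rw [hp1 b hb1] at hb
    have h3 := nbr_two f u j j (q b) (q a) (by omega) (by omega) (by omega) (by omega) hb.symm ha.symm
    rcases Nat.lt_or_ge a 2 with h4 | h4
    · omega
    · have h5 := hq2 a h4
      rcases Nat.lt_or_ge b 2 with h6 | h6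
      · have h7 : b = 1 := by omega
        have h8 := h3.2.1
        rw [h7, hq1] at h8
        omega
      · have h7 := hq2 b h6
        omega
  have N4 : ∀ u l, 2 ≤ l → l + 1 ≤ f.n j → c.L.Adj y u → c.L.Adj u (f.x j l) → l ≤ i + 2 := by
    intro u l h1 h2 h3 h4
    have h5 := nbr_mid f y u hy j j (i - 1) l (by omega) (by omega) h1 h2 yb h3 h4
    omega
  have N4' : ∀ u a, 1 ≤ a → a ≤ 11 → c.L.Adj (p 0) u → c.L.Adj (p a) u → a ≤ 2 := by
    intro u a h1 h2 h3 h4
    rw [hp0] at h3
    rw [hp1 a h1] at h4
    have h5 := hqb a h1 h2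
    have h6 := N4 u (q a) (by omega) (by omega) h3 h4.symm
    rcases Nat.lt_or_ge a 2 with h7 | h7
    · omega
    · have h8 := hq2 a h7
      omega
  -- the odd sets
  have hodd : ∀ u, ∑ a ∈ range 12, row c.L (p a) u ≠ 0 → ∀ a, a ≤ 11 → c.L.Adj (p a) u →
      a = 11 ∧ c.L.Adj (f.x j (i + 21)) u := by
    intro u hu
    have hex : c.L.Adj u y' ∨ ∃ l, i + 21 ≤ l ∧ l ≤ i' ∧ c.L.Adj u (f.x j l) := by
      by_contra hcon
      rw [not_or] at hcon
      obtain ⟨hc1, hc2⟩ := hcon
      apply hu
      have e1 : row c.L y' u = 0 := by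
        unfold row
        rw [if_neg fun hh => hc1 hh.symm]
      have e2 : row c.L (f.x j i') u = 0 := by
        unfold row
        rw [if_neg fun hh => hc2 ⟨i', by omega, le_rfl, hh.symm⟩]
      have e3 : ∑ k ∈ Ico 10 t, row c.L (f.x j (i + 2 * k + 1)) u = 0 := by
        refine Finset.sum_eq_zero fun k hk => ?_
        rw [Finset.mem_Ico] at hk
        unfold row
        rw [if_neg fun hh => hc2 ⟨i + 2 * k + 1, by omega, by omega, hh.symm⟩]
      have e4 := Finset.sum_range_add_sum_Ico (fun k => row c.L (f.x j (i + 2 * k + 1)) u)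
        (show 10 ≤ t by omega)
      have e5 := hrel u
      rw [← e4, e1, e2, e3] at e5
      rw [hS u]
      linear_combination e5
    intro a ha hadja
    rcases Nat.eq_zero_or_pos a with ha0 | ha0
    · exfalso
      rw [ha0, hp0] at hadja
      rcases hex with h1 | ⟨l, h1, h2, h3⟩
      · have h2 := nbr_far f y y' u hy hy' j j i i' (by omega) (by omega) (by omega) (by omega) ya hadja
          h1 ya'
        omega
      · have h4 := N4 u l (by omega) (by omega) hadja h3
        omega
    · have hqa := hqb a ha0 ha
      rw [hp1 a ha0] at hadja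
      rcases hex with h1 | ⟨l, h1, h2, h3⟩
      · exfalso
        have h2 := nbr_mid f y' u hy' j j i' (q a) (by omega) (by omega) (by omega) (by omega) ya'
          h1.symm hadja.symm
        omega
      · have h4 := nbr_two f u j j (q a) l (by omega) (by omega) (by omega) (by omega) hadja.symm h3
        have h5 : l = i + 21 := by omega
        have h6 : q a = i + 19 := by omega
        refine ⟨?_, by rw [← h5]; exact h3.symm⟩
        rcases Nat.lt_or_ge a 2 with h7 | h7
        · have h8 : a = 1 := by omega
          rw [h8, hq1] at h6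
          omega
        · have h8 := hq2 a h7
          omega
  have hsingle : ∀ u b, b ≤ 11 → c.L.Adj (p b) u → (∀ a, a ≤ 11 → c.L.Adj (p a) u → a = b) →
      ∑ a ∈ range 12, row c.L (p a) u ≠ 0 := by
    intro u b hb h1 h2
    rw [Finset.sum_eq_single b]
    · unfold row
      rw [if_pos h1]
      exact one_ne_zero
    · intro a ha hab
      rw [Finset.mem_range] at ha
      unfold row
      rw [if_neg fun hh => hab (h2 a (by omega) hh)]
    · intro hb'
      exact absurd (Finset.mem_range.2 (by omega)) hb'
  have hPats : Pats c p 11 := by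
    refine ⟨by norm_num, ?_, ?_⟩
    · intro a b ha hb hab
      rcases Nat.eq_zero_or_pos a with ha0 | ha0
      · rcases Nat.eq_zero_or_pos b with hb0 | hb0
        · omega
        · exfalso
          have h1 := hqb b hb0 hb
          rw [ha0, hp0, hp1 b hb0] at hab
          exact hy (hab ▸ x_mem f j (q b) (by omega) (by omega))
      · rcases Nat.eq_zero_or_pos b with hb0 | hb0
        · exfalso
          have h1 := hqb a ha0 ha
          rw [hb0, hp0, hp1 a ha0] at hab
          exact hy (hab ▸ x_mem f j (q a) (by omega) (by omega))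
        · have h1 := hqb a ha0 ha
          have h2 := hqb b hb0 hb
          rw [hp1 a ha0, hp1 b hb0] at hab
          exact hqinj a b ha0 hb0 (f.inj j (q a) j (q b) (by omega) (by omega) (by omega) (by omega) hab).2
    · intro u
      by_cases h0 : c.L.Adj (p 0) u
      · have hle : ∀ a, a ≤ 11 → c.L.Adj (p a) u → a ≤ 2 := by
          intro a ha h1
          rcases Nat.eq_zero_or_pos a with ha0 | ha0
          · omega
          · exact N4' u a ha0 ha h0 h1
        by_cases h1 : c.L.Adj (p 1) u
        · by_cases h2 : c.L.Adj (p 2) u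
          · exfalso
            have h3 : ∑ a ∈ range 12, row c.L (p a) u ≠ 0 := by
              have h4 : ∑ a ∈ range 3, row c.L (p a) u = ∑ a ∈ range 12, row c.L (p a) u := by
                refine Finset.sum_subset (fun a ha => ?_) (fun a ha ha' => ?_)
                · rw [Finset.mem_range] at ha ⊢
                  omega
                · rw [Finset.mem_range] at ha ha'
                  unfold row
                  rw [if_neg fun hh => by have := hle a (by omega) hh; omega]
              rw [← h4, Finset.sum_range_succ, Finset.sum_range_succ, Finset.sum_range_one]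
              unfold row
              rw [if_pos h0, if_pos h1, if_pos h2]
              decide
            have h4 := (hodd u h3 0 (by omega) h0).1
            omega
          · refine Or.inr (Or.inl ⟨0, by norm_num, ?_⟩)
            intro a ha
            constructor
            · intro h3
              have h4 := hle a ha h3
              have h5 : a ≠ 2 := fun hh => h2 (hh ▸ h3)
              omega
            · rintro (h3 | h3)
              · rw [h3]; exact h0
              · rw [h3]; exact h1
        · by_cases h2 : c.L.Adj (p 2) u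
          · refine Or.inr (Or.inr (Or.inl ?_))
            intro a ha
            constructor
            · intro h3
              have h4 := hle a ha h3
              have h5 : a ≠ 1 := fun hh => h1 (hh ▸ h3)
              omega
            · rintro (h3 | h3)
              · rw [h3]; exact h0
              · rw [h3]; exact h2
          · exfalso
            have h3 := hsingle u 0 (by omega) h0 (by
              intro a ha h3
              have h4 := hle a ha h3
              have h5 : a ≠ 1 := fun hh => h1 (hh ▸ h3)
              have h6 : a ≠ 2 := fun hh => h2 (hh ▸ h3)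
              omega)
            have h4 := (hodd u h3 0 (by omega) h0).1
            omega
      · by_cases hex : ∃ a, a ≤ 11 ∧ c.L.Adj (p a) u
        · obtain ⟨b, ⟨hb1, hb2⟩, hmin⟩ : ∃ b, (b ≤ 11 ∧ c.L.Adj (p b) u) ∧
              ∀ a, (a ≤ 11 ∧ c.L.Adj (p a) u) → b ≤ a :=
            ⟨Nat.find hex, Nat.find_spec hex, fun a ha => Nat.find_min' hex ha⟩
          have hb0 : 1 ≤ b := by
            rcases Nat.eq_zero_or_pos b with hb0 | hb0
            · exact absurd (hb0 ▸ hb2) h0
            · exact hb0
          have hle : ∀ a, a ≤ 11 → c.L.Adj (p a) u → b ≤ a ∧ a ≤ b + 1 := by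
            intro a ha h1
            have h2 := hmin a ⟨ha, h1⟩
            exact ⟨h2, N2 u a b (by omega) ha hb0 hb1 h1 hb2⟩
          by_cases h1 : b + 1 ≤ 11 ∧ c.L.Adj (p (b + 1)) u
          · refine Or.inr (Or.inl ⟨b, by omega, ?_⟩)
            intro a ha
            constructor
            · intro h3
              have h4 := hle a ha h3
              omega
            · rintro (h3 | h3)
              · rw [h3]; exact hb2
              · rw [h3]; exact h1.2
          · have honly : ∀ a, a ≤ 11 → c.L.Adj (p a) u → a = b := by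
              intro a ha h3
              have h4 := hle a ha h3
              have h5 : a ≠ b + 1 := fun hh => h1 ⟨by omega, hh ▸ h3⟩
              omega
            have h3 := hsingle u b hb1 hb2 honly
            have h4 := (hodd u h3 b hb1 hb2).1
            refine Or.inr (Or.inr (Or.inr ?_))
            intro a ha
            constructor
            · intro h5
              have h6 := honly a ha h5
              omega
            · intro h5
              rw [h5, ← h4]
              exact hb2
        · left
          intro a ha h1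
          exact hex ⟨a, ha, h1⟩
  refine grp_false p 11 hPats (f.x j (i + 21)) ?_ ?_ ?_
  · intro h1
    have h2 := hq2 11 (by omega)
    rw [hp1 11 (by omega)] at h1
    have h3 := (f.inj j (i + 21) j (q 11) (by omega) (by omega) (by omega) (by omega) h1).2
    omega
  · intro u hu
    have h1 : c.L.Adj (p 11) u := (hu 11 le_rfl).2 rfl
    have h2 := hsingle u 11 le_rfl h1 (fun a ha h3 => (hu a ha).1 h3)
    exact (hodd u h2 11 le_rfl h1).2
  · refine ⟨f.x j (i + 20), ?_⟩
    intro a ha
    constructor
    · intro h1
      rcases Nat.eq_zero_or_pos a with ha0 | ha0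
      · exfalso
        rw [ha0, hp0] at h1
        have h2 := ((hadj j (i + 20) (by omega) (by omega)).1 h1).2
        unfold Frame.Ty at h2
        rcases h2 with h2 | h2 | h2 | h2
        · exact absurd h2.1 (by decide)
        · exact absurd h2.1 (by decide)
        · exact absurd h2.1 (by decide)
        · omega
      · have h2 := hqb a ha0 ha
        rw [hp1 a ha0] at h1
        have h3 := (adj_inner f j j (q a) (i + 20) (by omega) (by omega) (by omega) (by omega) h1).2
        rcases Nat.lt_or_ge a 2 with h4 | h4
        · have h5 : a = 1 := by omega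
          rw [h5, hq1] at h3
          omega
        · have h5 := hq2 a h4
          omega
    · intro h1
      have h2 := hq2 11 (by omega)
      have h3 : q 11 = i + 19 := by omega
      rw [h1, hp1 11 (by omega), h3]
      exact adj_next f j (i + 19) (by omega) (by omega)

end Pool.Agent.BEO
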