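import Pool.Agent.BEO.Twin

/-!
# BEO-Trc: few vertices with the same trace

PLAN. If the set `Y` of these `y` is empty the claim is clear. Otherwise fix `y0 ∈ Y`; for `y ∈ Y` the vector
`row y - row y0` (= `row y + row y0`) is in `f.K`: it is in `rowSp` and vanishes at the inner vertices because `y` and
`y0` have the same neighbours there. The map `y ↦ row y - row y0` from `Y` to `f.K` is injective by `row_inj`
(`vs`: every `y ∈ Y` has a neighbour). `f.K` is finite (a submodule of the finite type `V → F2`), so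
`Y.card ≤ Nat.card f.K` (`Nat.card_le_card_of_injective`).
-/

set_option autoImplicit false

open Finset
open scoped Classical

namespace Pool.Agent.BEO

variable {k C : ℕ} {V Q : Type} [Fintype V] [AddCommGroup Q] [Module F2 Q] {c : Cfg k V Q} (f : Frame C c)

private theorem trc_aux (S : Fin f.m → ℕ → Prop) (Y : Finset V)
    (hY : ∀ y, y ∈ Y ↔ y ∈ vs c.L ∧ ∀ j l, 1 ≤ l → l ≤ f.n j → (c.L.Adj y (f.x j l) ↔ S j l)) :
    Y.card ≤ Nat.card f.K := by
  rcases Y.eq_empty_or_nonempty with h0 | ⟨y0, hy0⟩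
  · rw [h0, Finset.card_empty]
    exact Nat.zero_le _
  have hmem : ∀ y ∈ Y, row c.L y - row c.L y0 ∈ f.K := by
    intro y hy
    have h1 := ((hY y).1 hy).2
    have h2 := ((hY y0).1 hy0).2
    refine ⟨Submodule.sub_mem _ (Submodule.subset_span ⟨y, rfl⟩) (Submodule.subset_span ⟨y0, rfl⟩), ?_⟩
    intro j l hl hl'
    have h3 := h1 j l (by omega) hl'
    have h4 := h2 j l (by omega) hl'
    have h5 : row c.L y (f.x j l) = row c.L y0 (f.x j l) := by
      unfold row
      by_cases hS : S j l
      · rw [if_pos (h3.2 hS), if_pos (h4.2 hS)]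
      · rw [if_neg (fun h => hS (h3.1 h)), if_neg (fun h => hS (h4.1 h))]
    rw [Pi.sub_apply, h5, sub_self]
  have hfin : Finite f.K := inferInstance
  have h3 : Nat.card Y ≤ Nat.card f.K := by
    refine Nat.card_le_card_of_injective
      (fun y : Y => (⟨row c.L y.1 - row c.L y0, hmem y.1 y.2⟩ : f.K)) ?_
    intro y z hyz
    have h4 : row c.L y.1 - row c.L y0 = row c.L z.1 - row c.L y0 := congrArg Subtype.val hyz
    have h5 : row c.L y.1 = row c.L z.1 := sub_left_injective h4
    have h6 : y.1 ∈ vs c.L := ((hY y.1).1 y.2).1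
    have h7 : ∃ u, c.L.Adj y.1 u := by
      unfold vs at h6
      simpa using h6
    exact Subtype.ext (row_inj c h7 (fun u => congrFun h5 u))
  rw [Nat.card_eq_fintype_card, Fintype.card_coe] at h3
  exact h3

theorem card_trace (S : Fin f.m → ℕ → Prop) :
    (univ.filter fun y => y ∈ vs c.L ∧ ∀ j l, 1 ≤ l → l ≤ f.n j → (c.L.Adj y (f.x j l) ↔ S j l)).card ≤
      Nat.card f.K :=
  trc_aux f S _ fun y => (@Finset.mem_filter _ _ (_) _ y).trans
    ⟨fun h => h.2, fun h => ⟨Finset.mem_univ _, h⟩⟩

end Pool.Agent.BEO
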