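import Pool.Agent.BEO.RvK
import Pool.Agent.BEO.T02
import Pool.Agent.BEO.T01
import Pool.Agent.BEO.T1
import Pool.Agent.BEO.T3
import Pool.Agent.BEO.Trc
import Pool.Agent.BEO.CntG

/-!
# BEO-CntT: few vertices of a given type in a given segment

PLAN. `S := univ.filter (∃ i, f.Tr τ j i y)`. For `y ∈ S` let `ctr y` be a chosen `i` (`Classical.choose`), and
`key y := (⟨rv τ j (ctr y) y, rv_mem ..⟩ : f.K, ctr y % 2)` in `f.K × Fin 2` (for `y ∉ S` anything; or use
`S.attach`). `f.K` is finite: `Fintype.card (f.K × Fin 2) = Nat.card f.K * 2`. `h1`: equal keys and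
`ctr y + 40 ≤ ctr y'` contradict `ne_type0..3` (`fin_cases τ`). `h2`: the `y` with `ctr y = i` have all the same trace
`S j' l := (j' = j ∧ Ty τ i l)` and are in `vs c.L` (the trace is not empty), so `card_trace` gives `m := Nat.card f.K`.
-/

set_option autoImplicit false

open Finset
open scoped Classical

namespace Pool.Agent.BEO

variable {k C : ℕ} {V Q : Type} [Fintype V] [AddCommGroup Q] [Module F2 Q] {c : Cfg k V Q} (f : Frame C c)

/-- the position of a vertex -/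
private noncomputable def ctr (τ : Fin 4) (j : Fin f.m) (y : V) : ℕ :=
  if h : ∃ i, f.Tr τ j i y then h.choose else 0

private theorem ctr_spec {τ : Fin 4} {j : Fin f.m} {y : V} (h : ∃ i, f.Tr τ j i y) :
    f.Tr τ j (ctr f τ j y) y := by
  unfold ctr
  rw [dif_pos h]
  exact h.choose_spec

/-- the key of a vertex -/
private noncomputable def key (τ : Fin 4) (j : Fin f.m) (y : V) : f.K × Fin 2 :=
  if h : ∃ i, f.Tr τ j i y then
    (⟨f.rv τ j (ctr f τ j y) y, rv_mem f τ j (ctr f τ j y) y (ctr_spec f h)⟩,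
      ⟨ctr f τ j y % 2, Nat.mod_lt _ (by norm_num)⟩)
  else (0, 0)

private theorem mem_vs {τ : Fin 4} {j : Fin f.m} {y : V} {i : ℕ} (h : f.Tr τ j i y) : y ∈ vs c.L := by
  obtain ⟨_, h1, h2, h3⟩ := h
  have key : ∃ l, 1 ≤ l ∧ l ≤ f.n j ∧ Frame.Ty τ i l := by
    unfold Frame.Ty
    fin_cases τ
    · exact ⟨i, by omega, by omega, Or.inl ⟨rfl, rfl⟩⟩
    · exact ⟨i, by omega, by omega, Or.inr (Or.inl ⟨rfl, Or.inl rfl⟩)⟩
    · exact ⟨i + 1, by omega, by omega, Or.inr (Or.inr (Or.inl ⟨rfl, Or.inr rfl⟩))⟩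
    · exact ⟨i, by omega, by omega, Or.inr (Or.inr (Or.inr ⟨rfl, Or.inr (Or.inl rfl)⟩))⟩
  obtain ⟨l, hl1, hl2, hl3⟩ := key
  unfold vs
  exact Finset.mem_filter.2 ⟨Finset.mem_univ _, f.x j l, (h3 j l hl1 hl2).2 ⟨rfl, hl3⟩⟩

theorem card_type (τ : Fin 4) (j : Fin f.m) :
    (univ.filter fun y => ∃ i, f.Tr τ j i y).card ≤ 80 * (Nat.card f.K) ^ 2 := by
  have hfin : Finite f.K := inferInstance
  let _ : Fintype f.K := Fintype.ofFinite f.K
  have hmain := count_windows (univ.filter fun y => ∃ i, f.Tr τ j i y) (key f τ j) (ctr f τ j)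
    (Nat.card f.K) ?_ ?_
  · rw [Fintype.card_prod, Fintype.card_fin, ← Nat.card_eq_fintype_card] at hmain
    calc (univ.filter fun y => ∃ i, f.Tr τ j i y).card
        ≤ Nat.card f.K * 2 * (40 * Nat.card f.K) := hmain
      _ = 80 * (Nat.card f.K) ^ 2 := by ring
  · intro y hy y' hy' hk hc
    have h1 := (Finset.mem_filter.1 hy).2
    have h2 := (Finset.mem_filter.1 hy').2
    have t1 := ctr_spec f h1
    have t2 := ctr_spec f h2
    unfold key at hk
    rw [dif_pos h1, dif_pos h2, Prod.mk.injEq, Subtype.mk.injEq, Fin.mk.injEq] at hk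
    obtain ⟨e1, e2⟩ := hk
    have e3 : (ctr f τ j y + ctr f τ j y') % 2 = 0 := by omega
    fin_cases τ
    · exact ne_type0 f j _ _ y y' t1 t2 hc e3 e1
    · exact ne_type1 f j _ _ y y' t1 t2 hc e1
    · exact ne_type2 f j _ _ y y' t1 t2 hc e1
    · exact ne_type3 f j _ _ y y' t1 t2 hc e3 e1
  · intro i
    refine le_trans (Finset.card_le_card ?_) (card_trace f (fun j' l => j' = j ∧ Frame.Ty τ i l))
    intro y hy
    obtain ⟨hy1, hy2⟩ := Finset.mem_filter.1 hy
    have t1 := ctr_spec f (Finset.mem_filter.1 hy1).2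
    rw [hy2] at t1
    rw [@Finset.mem_filter]
    exact ⟨Finset.mem_univ _, mem_vs f t1, t1.2.2.2⟩

end Pool.Agent.BEO
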