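import Pool.Agent.BEO.LookS
import Pool.Agent.BEO.Twist

/-!
# BEO-CodS: codes of flags and edges

Injectivity of the codes, the input, the twisted map.
-/

set_option autoImplicit false

open Finset
open scoped Classical

namespace Pool.Agent.BEO

open Pool.Agent.Helper35.OG (Flag GMap across side across_across side_side across_ne side_ne side_fst across_fst vertex_const
  all_const exists_flag face_nxt face_across face_surj nxt_inj sum_inv eqvGen_eq IsBand)

variable {n : ℕ} {G : SimpleGraph (Fin n)}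

/-- the code of a flag -/
def cod (p : Flag G) : Pt := ((p.1.fst : ℕ), ((p.1.snd : ℕ), p.2))

/-- `l` codes the map `S` -/
def Codes (S : GMap G) (l : Inp) : Prop := ∀ x, x ∈ l ↔ ∃ p : Flag G, x = (cod p, cod (S.nxt p))

/-- the code of an edge -/
noncomputable def ec (e : G.edgeSet) : Ec := ek (cod (rp e))

/-- the edges occurring an odd number of times in a list of codes -/
noncomputable def lamOf (G : SimpleGraph (Fin n)) (c : List Ec) : Finset G.edgeSet :=
  univ.filter fun e => par c (ec e) = true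

theorem cod_inj {p q : Flag G} (h : cod p = cod q) : p = q := by
  unfold cod at h
  simp only [Prod.mk.injEq] at h
  obtain ⟨h1, h2, h3⟩ := h
  have h4 : p.1.fst = q.1.fst := Fin.ext h1
  have h5 : p.1.snd = q.1.snd := Fin.ext h2
  have h6 : p.1 = q.1 := SimpleGraph.Dart.ext _ _ (Prod.ext h4 h5)
  exact Prod.ext h6 h3

private theorem ne_ends (p : Flag G) : (p.1.fst : ℕ) ≠ (p.1.snd : ℕ) := fun h =>
  p.1.adj.ne (Fin.ext h)

private theorem ek_of (p : Flag G) : ek (cod p) =
    if (p.1.fst : ℕ) ≤ (p.1.snd : ℕ) then ((p.1.fst : ℕ), (p.1.snd : ℕ))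
      else ((p.1.snd : ℕ), (p.1.fst : ℕ)) := by
  unfold ek cod
  by_cases h : (p.1.fst : ℕ) ≤ (p.1.snd : ℕ)
  · simp [h]
  · simp [h]

theorem ek_cod (p : Flag G) : ek (cod p) = ec (ed p) := by
  unfold ec
  have h1 : ed (rp (ed p)) = ed p := ed_rp _
  generalize rp (ed p) = q at h1
  have h2 : q.1.edge = p.1.edge := congrArg Subtype.val h1
  rw [SimpleGraph.dart_edge_eq_iff] at h2
  rw [ek_of, ek_of]
  rcases h2 with h2 | h2
  · rw [h2]
  · have h3 : q.1.fst = p.1.snd := by rw [h2]; rfl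
    have h4 : q.1.snd = p.1.fst := by rw [h2]; rfl
    have h5 := ne_ends p
    rw [h3, h4]
    by_cases h6 : (p.1.fst : ℕ) ≤ (p.1.snd : ℕ)
    · rw [if_pos h6, if_neg (by omega)]
    · rw [if_neg h6, if_pos (by omega)]

private theorem ed_of_ek {p q : Flag G} (h : ek (cod p) = ek (cod q)) : ed p = ed q := by
  rw [ek_of, ek_of] at h
  apply Subtype.ext
  change s(p.1.fst, p.1.snd) = s(q.1.fst, q.1.snd)
  rw [Sym2.eq_iff]
  by_cases h1 : (p.1.fst : ℕ) ≤ (p.1.snd : ℕ)
  · rw [if_pos h1] at h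
    by_cases h2 : (q.1.fst : ℕ) ≤ (q.1.snd : ℕ)
    · rw [if_pos h2] at h
      simp only [Prod.mk.injEq] at h
      exact Or.inl ⟨Fin.ext h.1, Fin.ext h.2⟩
    · rw [if_neg h2] at h
      simp only [Prod.mk.injEq] at h
      exact Or.inr ⟨Fin.ext h.1, Fin.ext h.2⟩
  · rw [if_neg h1] at h
    by_cases h2 : (q.1.fst : ℕ) ≤ (q.1.snd : ℕ)
    · rw [if_pos h2] at h
      simp only [Prod.mk.injEq] at h
      exact Or.inr ⟨Fin.ext h.2, Fin.ext h.1⟩
    · rw [if_neg h2] at h
      simp only [Prod.mk.injEq] at h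
      exact Or.inl ⟨Fin.ext h.2, Fin.ext h.1⟩

theorem ec_inj {e e' : G.edgeSet} (h : ec e = ec e') : e = e' := by
  unfold ec at h
  have h1 := ed_of_ek h
  rwa [ed_rp, ed_rp] at h1

theorem sd_cod (p : Flag G) : sd (cod p) = cod (side p) := rfl

theorem ac_cod (p : Flag G) : ac (cod p) = cod (across p) := rfl

theorem cod_le (p : Flag G) : (cod p).1 ≤ (cod p).2.1 ↔ p.1.fst < p.1.snd := by
  have h := ne_ends p
  change (p.1.fst : ℕ) ≤ (p.1.snd : ℕ) ↔ p.1.fst < p.1.snd
  rw [Fin.lt_def]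
  omega

theorem mem_fl {S : GMap G} {l : Inp} (h : Codes S l) (x : Pt) : x ∈ fl l ↔ ∃ p : Flag G, x = cod p := by
  unfold fl
  rw [mem_ddp, List.mem_map]
  constructor
  · rintro ⟨y, hy, rfl⟩
    obtain ⟨p, hp⟩ := (h y).1 hy
    exact ⟨p, by rw [hp]⟩
  · rintro ⟨p, rfl⟩
    exact ⟨(cod p, cod (S.nxt p)), (h _).2 ⟨p, rfl⟩, rfl⟩

theorem look_cod {S : GMap G} {l : Inp} (h : Codes S l) (p : Flag G) (d : Pt) :
    look l (cod p) d = cod (S.nxt p) := by
  refine look_eq l (cod p) d _ ((h _).2 ⟨p, rfl⟩) ?_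
  intro y hy
  obtain ⟨q, hq⟩ := (h _).1 hy
  have h1 : cod p = cod q := congrArg Prod.fst hq
  have h2 : y = cod (S.nxt q) := congrArg Prod.snd hq
  rw [h2, cod_inj h1]

private theorem mem_lamOf (c : List Ec) (e : G.edgeSet) : e ∈ lamOf G c ↔ par c (ec e) = true := by
  unfold lamOf
  rw [mem_filter]
  exact ⟨fun h => h.2, fun h => ⟨mem_univ _, h⟩⟩

private theorem phi_cod (c : List Ec) (p : Flag G) : phi c (cod p) = cod (tph (lamOf G c) p) := by
  unfold phi tph
  rw [ek_cod]
  by_cases h1 : par c (ec (ed p)) = true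
  · by_cases h2 : p.1.fst < p.1.snd
    · have h3 := (cod_le p).2 h2
      rw [if_pos (by simp [h1, h3]), if_pos ⟨(mem_lamOf c _).2 h1, h2⟩]
      rfl
    · have h3 : ¬ (cod p).1 ≤ (cod p).2.1 := fun h => h2 ((cod_le p).1 h)
      rw [if_neg (by simp [h1]; omega), if_neg fun h => h2 h.2]
  · rw [if_neg (by simp [h1]), if_neg fun h => h1 ((mem_lamOf c _).1 h.1)]

/-- the twisted map is computed correctly -/
theorem nxc_cod {S : GMap G} {l : Inp} (h : Codes S l) (c : List Ec) (p : Flag G) :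
    nxc l c (cod p) = cod ((twist S (lamOf G c)).nxt p) := by
  unfold nxc
  rw [phi_cod, look_cod h, phi_cod, twist_nxt]

/-- the edges of a list of edges which occur an odd number of times -/
theorem lamOf_map (w : List G.edgeSet) : lamOf G (w.map ec) = oddE w := by
  ext e
  rw [mem_lamOf, par_iff]
  unfold oddE
  have h0 := @List.count_map_of_injective G.edgeSet Ec
    (@instBEqOfDecidableEq _ fun a b => Classical.propDecidable (a = b)) _
    (@instBEqOfDecidableEq Ec _) _ w ec (fun _ _ h => ec_inj h) e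
  rw [mem_filter, h0]
  exact ⟨fun h => ⟨mem_univ _, h⟩, fun h => h.2⟩

private theorem gmap_ext {S T : GMap G} (h : S.nxt = T.nxt) : S = T := by
  cases S
  cases T
  cases h
  rfl

/-- twisting nothing -/
theorem twist_nil (S : GMap G) : twist S (lamOf G []) = S := by
  have h1 : ∀ p : Flag G, tph (lamOf G []) p = p := by
    intro p
    unfold tph
    rw [if_neg]
    rintro ⟨h, _⟩
    rw [mem_lamOf] at h
    simp [par] at h
  apply gmap_ext
  funext p
  rw [twist_nxt, h1, h1]

end Pool.Agent.BEO
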