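import Pool.Agent.BEO.JDefs
import Pool.Agent.BEO.Deg

/-!
# BEO-Comb: a null-homologous combination of `k + 1` jumps and edges of `M`

A kernel element of the boundary map on the edges of `M` and the jumps, and the minimality of `M`.
-/

set_option autoImplicit false

open Finset
open scoped Classical

namespace Pool.Agent.BEO

variable {k : ℕ} {V Q : Type} [Fintype V] [AddCommGroup Q] [Module F2 Q] (c : Cfg k V Q)

private theorem comb_sum {A : Type} [AddCommMonoid A] (s : Finset (Sym2 V)) (g : {x // x ∈ s} → F2)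
    (F : F2 → Sym2 V → A) (h0 : ∀ e, F 0 e = 0) :
    ∑ e, F (if h : e ∈ s then g ⟨e, h⟩ else 0) e = ∑ x : {x // x ∈ s}, F (g x) x.1 := by
  have h1 : ∑ e ∈ s, F (if h : e ∈ s then g ⟨e, h⟩ else 0) e =
      ∑ e, F (if h : e ∈ s then g ⟨e, h⟩ else 0) e :=
    sum_subset (subset_univ s) fun e _ he => by rw [dif_neg he, h0]
  have h2 := sum_coe_sort s (fun e => F (if h : e ∈ s then g ⟨e, h⟩ else 0) e)
  rw [← h1, ← h2]
  refine sum_congr rfl fun x _ => ?_
  rw [dif_pos x.2]

/-- the coefficient of an edge -/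
private noncomputable def comb_co (J : Fin (k + 1) → Jmp c) (g : {e // e ∈ es c.M} ⊕ Fin (k + 1) → F2)
    (e : Sym2 V) : F2 :=
  (if h : e ∈ es c.M then g (Sum.inl ⟨e, h⟩) else 0) +
    ∑ i, g (Sum.inr i) * (((J i).w.edges.count e : ℕ) : F2)

private theorem comb_F1 (J : Fin (k + 1) → Jmp c) (g : {e // e ∈ es c.M} ⊕ Fin (k + 1) → F2) (v : V) :
    ∑ e, comb_co c J g e * (if v ∈ e then 1 else 0) =
      ∑ x : {e // e ∈ es c.M}, g (Sum.inl x) * (if v ∈ x.1 then 1 else 0) +
      ∑ i, g (Sum.inr i) * ((if v = (J i).p then 1 else 0) + (if v = (J i).q then 1 else 0)) := by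
  have h1 := comb_sum (es c.M) (fun x => g (Sum.inl x)) (fun t e => t * (if v ∈ e then (1 : F2) else 0))
    (fun e => zero_mul _)
  rw [← h1]
  have h2 : ∑ i, g (Sum.inr i) * ((if v = (J i).p then (1 : F2) else 0) + (if v = (J i).q then 1 else 0)) =
      ∑ e, (∑ i, g (Sum.inr i) * (((J i).w.edges.count e : ℕ) : F2)) * (if v ∈ e then 1 else 0) := by
    have h3 : ∀ e : Sym2 V, (∑ i, g (Sum.inr i) * (((J i).w.edges.count e : ℕ) : F2)) *
        (if v ∈ e then (1 : F2) else 0) =
        ∑ i, g (Sum.inr i) * ((((J i).w.edges.count e : ℕ) : F2) * (if v ∈ e then 1 else 0)) := by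
      intro e
      rw [sum_mul]
      exact sum_congr rfl fun i _ => mul_assoc _ _ _
    rw [sum_congr rfl fun e _ => h3 e, sum_comm]
    refine sum_congr rfl fun i _ => ?_
    rw [← mul_sum, walk_bd (J i).w v]
  rw [h2, ← sum_add_distrib]
  refine sum_congr rfl fun e _ => ?_
  unfold comb_co
  rw [add_mul]

private theorem comb_F2 (J : Fin (k + 1) → Jmp c) (g : {e // e ∈ es c.M} ⊕ Fin (k + 1) → F2) :
    ∑ e, comb_co c J g e • c.a e =
      ∑ x : {e // e ∈ es c.M}, g (Sum.inl x) • c.a x.1 +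
      ∑ i, g (Sum.inr i) • ((J i).w.edges.map c.a).sum := by
  have h1 := comb_sum (es c.M) (fun x => g (Sum.inl x)) (fun t e => t • c.a e) (fun e => zero_smul _ _)
  rw [← h1]
  have h2 : ∑ i, g (Sum.inr i) • ((J i).w.edges.map c.a).sum =
      ∑ e, (∑ i, g (Sum.inr i) * (((J i).w.edges.count e : ℕ) : F2)) • c.a e := by
    have h3 : ∀ e : Sym2 V, (∑ i, g (Sum.inr i) * (((J i).w.edges.count e : ℕ) : F2)) • c.a e =
        ∑ i, g (Sum.inr i) • ((((J i).w.edges.count e : ℕ) : F2) • c.a e) := by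
      intro e
      rw [sum_smul]
      exact sum_congr rfl fun i _ => mul_smul _ _ _
    rw [sum_congr rfl fun e _ => h3 e, sum_comm]
    refine sum_congr rfl fun i _ => ?_
    rw [← smul_sum, sum_list]
  rw [h2, ← sum_add_distrib]
  refine sum_congr rfl fun e _ => ?_
  unfold comb_co
  rw [add_smul]

theorem comb (J : Fin (k + 1) → Jmp c) : ∃ (Mp : Finset (Sym2 V)) (S : Finset (Fin (k + 1))),
    (∀ e ∈ Mp, e ∈ c.M.edgeSet) ∧ (Mp.Nonempty ∨ S.Nonempty) ∧
    (∀ v, ((dg Mp v : ℕ) : F2) = ∑ i ∈ S, ((if v = (J i).p then (1 : F2) else 0) + (if v = (J i).q then 1 else 0))) ∧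
    Mp.card ≤ ∑ i ∈ S, (J i).w.length := by
  obtain ⟨b, hb⟩ : ∃ b : {e // e ∈ es c.M} ⊕ Fin (k + 1) → {v // v ∈ vs c.M} → ZMod 2,
      b = fun p v => Sum.elim (fun e => if v.1 ∈ e.1 then 1 else 0)
        (fun i => (if v.1 = (J i).p then 1 else 0) + (if v.1 = (J i).q then 1 else 0)) p := ⟨_, rfl⟩
  obtain ⟨q, hqd⟩ : ∃ q : {e // e ∈ es c.M} ⊕ Fin (k + 1) → Q,
      q = fun p => Sum.elim (fun e => c.a e.1) (fun i => ((J i).w.edges.map c.a).sum) p := ⟨_, rfl⟩
  -- boundary of the coefficient function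
  have hbd : ∀ g : {e // e ∈ es c.M} ⊕ Fin (k + 1) → ZMod 2, (∀ t, ∑ p, g p * b p t = 0) →
      ∀ v, ∑ e, comb_co c J g e * (if v ∈ e then (1 : F2) else 0) = 0 := by
    intro g hg v
    rw [comb_F1]
    by_cases hv : v ∈ vs c.M
    · have h1 := hg ⟨v, hv⟩
      rw [Fintype.sum_sum_type, hb] at h1
      exact h1
    · have h1 : ∀ x : {e // e ∈ es c.M}, g (Sum.inl x) * (if v ∈ x.1 then (1 : F2) else 0) = 0 := by
        rintro ⟨e, he⟩
        rw [if_neg, mul_zero]
        intro hve
        apply hv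
        have he' : e ∈ c.M.edgeSet := (mem_filter.1 he).2
        obtain ⟨w, rfl⟩ := Sym2.mem_iff_exists.1 hve
        exact mem_filter.2 ⟨mem_univ _, w, he'⟩
      have h2 : ∀ i, g (Sum.inr i) *
          ((if v = (J i).p then (1 : F2) else 0) + (if v = (J i).q then 1 else 0)) = 0 := by
        intro i
        have h3 : v ≠ (J i).p := fun h => hv (h ▸ (J i).hp)
        have h4 : v ≠ (J i).q := fun h => hv (h ▸ (J i).hq)
        rw [if_neg h3, if_neg h4, add_zero, mul_zero]
      rw [sum_eq_zero fun x _ => h1 x, sum_eq_zero fun i _ => h2 i, add_zero]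
  have hcls : ∀ g : {e // e ∈ es c.M} ⊕ Fin (k + 1) → ZMod 2,
      ∑ p, g p • q p = ∑ e ∈ univ.filter (fun e => comb_co c J g e = 1), c.a e := by
    intro g
    rw [← sum_coef, comb_F2, Fintype.sum_sum_type, hqd]
    rfl
  have hcnt : ∀ (i : Fin (k + 1)) (e : Sym2 V), e ∉ (J i).w.edges → (J i).w.edges.count e = 0 :=
    fun i e he => List.count_eq_zero_of_not_mem he
  have hwe : ∀ (i : Fin (k + 1)) (e : Sym2 V), e ∈ (J i).w.edges → e ∈ c.L.edgeSet ∧ e ∉ c.M.edgeSet := by
    intro i e he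
    have h1 := (J i).w.edges_subset_edgeSet he
    rw [SimpleGraph.edgeSet_sdiff] at h1
    exact h1
  have hL : ∀ (g : {e // e ∈ es c.M} ⊕ Fin (k + 1) → ZMod 2), ∀ e ∈ univ.filter (fun e => comb_co c J g e = 1),
      e ∈ c.L.edgeSet := by
    intro g e he
    by_cases hM : e ∈ es c.M
    · exact SimpleGraph.edgeSet_mono c.le (mem_filter.1 hM).2
    · have h1 := (mem_filter.1 he).2
      unfold comb_co at h1
      rw [dif_neg hM, zero_add] at h1
      by_contra hcon
      have h2 : ∀ i, g (Sum.inr i) * (((J i).w.edges.count e : ℕ) : F2) = 0 := by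
        intro i
        rw [hcnt i e fun hm => hcon (hwe i e hm).1, Nat.cast_zero, mul_zero]
      rw [sum_eq_zero fun i _ => h2 i] at h1
      exact zero_ne_one h1
  have hev : ∀ g : {e // e ∈ es c.M} ⊕ Fin (k + 1) → ZMod 2, (∀ t, ∑ p, g p * b p t = 0) →
      ∀ v, Even (dg (univ.filter fun e => comb_co c J g e = 1) v) := by
    intro g hg v
    rw [even_cast, dg_coef]
    exact hbd g hg v
  have hcard : Fintype.card {v // v ∈ vs c.M} + k < Fintype.card ({e // e ∈ es c.M} ⊕ Fin (k + 1)) := by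
    have h1 := vs_le c
    rw [Fintype.card_sum, Fintype.card_coe, Fintype.card_coe, Fintype.card_fin]
    omega
  obtain ⟨g, hg0, hg1, hg2⟩ := exists_ker c.H c.finH k c.dimH b q hcard (by
    intro g hg
    rw [hcls g]
    exact c.cls _ (hL g) (hev g hg))
  rw [hcls g] at hg2
  have hmn := c.mn _ (hL g) (hev g hg1) hg2
  obtain ⟨cm, hcm⟩ : ∃ cm : Sym2 V → F2, cm = fun e => if h : e ∈ es c.M then g (Sum.inl ⟨e, h⟩) else 0 :=
    ⟨_, rfl⟩
  obtain ⟨S, hS⟩ : ∃ S : Finset (Fin (k + 1)), S = univ.filter fun i => g (Sum.inr i) = 1 := ⟨_, rfl⟩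
  have hMp : ∀ e, cm e = 1 → e ∈ c.M.edgeSet := by
    intro e he
    by_contra hcon
    have h1 : e ∉ es c.M := fun h => hcon (mem_filter.1 h).2
    rw [hcm] at he
    simp only [dif_neg h1] at he
    exact zero_ne_one he
  refine ⟨univ.filter fun e => cm e = 1, S, ?_, ?_, ?_, ?_⟩
  · intro e he
    exact hMp e (mem_filter.1 he).2
  · obtain ⟨p, hp⟩ := Function.ne_iff.1 hg0
    have hp1 : g p = 1 := (f2_cases (g p)).resolve_left hp
    rcases p with ⟨e, he⟩ | i
    · left
      refine ⟨e, mem_filter.2 ⟨mem_univ _, ?_⟩⟩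
      rw [hcm]
      simp only [dif_pos he]
      exact hp1
    · right
      refine ⟨i, ?_⟩
      rw [hS]
      exact mem_filter.2 ⟨mem_univ _, hp1⟩
  · intro v
    rw [dg_coef]
    have h1 := hbd g hg1 v
    rw [comb_F1] at h1
    have h2 := comb_sum (es c.M) (fun x => g (Sum.inl x)) (fun t e => t * (if v ∈ e then (1 : F2) else 0))
      (fun e => zero_mul _)
    have h3 : ∑ e, cm e * (if v ∈ e then (1 : F2) else 0) =
        ∑ x : {e // e ∈ es c.M}, g (Sum.inl x) * (if v ∈ x.1 then (1 : F2) else 0) := by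
      rw [hcm]
      exact h2
    have h4 : ∑ i ∈ S, ((if v = (J i).p then (1 : F2) else 0) + (if v = (J i).q then 1 else 0)) =
        ∑ i, g (Sum.inr i) * ((if v = (J i).p then (1 : F2) else 0) + (if v = (J i).q then 1 else 0)) := by
      rw [hS, sum_filter]
      refine sum_congr rfl fun i _ => ?_
      rcases f2_cases (g (Sum.inr i)) with h | h
      · rw [if_neg (by rw [h]; exact zero_ne_one), h, zero_mul]
      · rw [if_pos h, h, one_mul]
    rw [h3, h4]
    have h5 := add_eq_zero_iff_eq_neg.1 h1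
    rw [h5]
    exact (eq_neg_of_add_eq_zero_left (q_add_self _)).symm
  · have h1 : (univ.filter fun e => cm e = 1) ⊆
        (univ.filter fun e => comb_co c J g e = 1).filter fun e => e ∈ c.M.edgeSet := by
      intro e he
      have h2 := (mem_filter.1 he).2
      have h3 := hMp e h2
      refine mem_filter.2 ⟨mem_filter.2 ⟨mem_univ _, ?_⟩, h3⟩
      unfold comb_co
      have h4 : ∀ i, g (Sum.inr i) * (((J i).w.edges.count e : ℕ) : F2) = 0 := by
        intro i
        rw [hcnt i e fun hm => (hwe i e hm).2 h3, Nat.cast_zero, mul_zero]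
      rw [sum_eq_zero fun i _ => h4 i, add_zero]
      rw [hcm] at h2
      exact h2
    have h5 : ((univ.filter fun e => comb_co c J g e = 1).filter fun e => e ∉ c.M.edgeSet) ⊆
        S.biUnion fun i => (J i).w.edges.toFinset := by
      intro e he
      obtain ⟨h6, h7⟩ := mem_filter.1 he
      have h8 := (mem_filter.1 h6).2
      have h9 : e ∉ es c.M := fun h => h7 (mem_filter.1 h).2
      unfold comb_co at h8
      rw [dif_neg h9, zero_add] at h8
      by_contra hcon
      have h10 : ∀ i, g (Sum.inr i) * (((J i).w.edges.count e : ℕ) : F2) = 0 := by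
        intro i
        rcases f2_cases (g (Sum.inr i)) with h | h
        · rw [h, zero_mul]
        · rw [hcnt i e, Nat.cast_zero, mul_zero]
          intro hm
          apply hcon
          refine mem_biUnion.2 ⟨i, ?_, List.mem_toFinset.2 hm⟩
          rw [hS]
          exact mem_filter.2 ⟨mem_univ _, h⟩
      rw [sum_eq_zero fun i _ => h10 i] at h8
      exact zero_ne_one h8
    have h11 : (S.biUnion fun i => (J i).w.edges.toFinset).card ≤ ∑ i ∈ S, (J i).w.length := by
      refine card_biUnion_le.trans (sum_le_sum fun i _ => ?_)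
      refine (List.toFinset_card_le _).trans ?_
      rw [SimpleGraph.Walk.length_edges]
    exact (card_le_card h1).trans (hmn.trans ((card_le_card h5).trans h11))

end Pool.Agent.BEO
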