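import Pool.Agent.BEO.Base

/-!
# BEO-CycD: an even graph is an edge-disjoint union of cycles
-/

set_option autoImplicit false

open Finset
open scoped Classical

namespace Pool.Agent.BEO

private theorem cycd_es {V : Type} [Fintype V] (M : SimpleGraph V) (e : Sym2 V) :
    e ∈ es M ↔ e ∈ M.edgeSet := by
  rw [es, mem_filter]
  exact and_iff_right (mem_univ _)

/-- in an acyclic graph with even degrees there are arbitrarily long paths, once there is an edge -/
private theorem cycd_long {V : Type} [Fintype V] (M : SimpleGraph V) (h : ∀ v, Even (nb M v).card)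
    (ha : M.IsAcyclic) {x y : V} (hxy : M.Adj x y) (n : ℕ) :
    ∃ u v : V, ∃ p : M.Walk u v, p.IsPath ∧ p.length = n + 1 := by
  induction n with
  | zero =>
    refine ⟨x, y, SimpleGraph.Walk.cons hxy SimpleGraph.Walk.nil, ?_, rfl⟩
    rw [SimpleGraph.Walk.cons_isPath_iff]
    refine ⟨SimpleGraph.Walk.IsPath.nil, ?_⟩
    simp only [SimpleGraph.Walk.support_nil, List.mem_singleton]
    exact hxy.ne
  | succ n ih =>
    obtain ⟨u, v, p, hp, hl⟩ := ih
    have hnil : ¬ p.Nil := by
      rw [SimpleGraph.Walk.not_nil_iff_lt_length]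
      omega
    have hadj : M.Adj p.penultimate v := p.adj_penultimate hnil
    have h1 : p.penultimate ∈ nb M v := by
      rw [nb, mem_filter]
      exact ⟨mem_univ _, hadj.symm⟩
    have h2 : 1 < (nb M v).card := by
      have h3 : 0 < (nb M v).card := card_pos.2 ⟨_, h1⟩
      obtain ⟨k, hk⟩ := h v
      omega
    obtain ⟨w, hw, hwp⟩ := exists_mem_ne h2 p.penultimate
    rw [nb, mem_filter] at hw
    have h4 : w ∉ p.support := fun hs => hwp (ha.eq_penultimate_of_adj_end hp hw.2 hs)
    refine ⟨u, w, p.concat hw.2, hp.concat h4 hw.2, ?_⟩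
    rw [SimpleGraph.Walk.length_concat, hl]

private theorem cycd_exists {V : Type} [Fintype V] (M : SimpleGraph V) (h : ∀ v, Even (nb M v).card)
    {x y : V} (hxy : M.Adj x y) : ∃ v : V, ∃ c : M.Walk v v, c.IsCycle := by
  by_contra hno
  have ha : M.IsAcyclic := fun v c hc => hno ⟨v, c, hc⟩
  obtain ⟨u, v, p, hp, hl⟩ := cycd_long M h ha hxy (Fintype.card V)
  have := hp.length_lt
  omega

private theorem cycd_even {V : Type} [Fintype V] (M : SimpleGraph V) (h : ∀ v, Even (nb M v).card)
    {v : V} (c : M.Walk v v) (hc : c.IsCycle) (x : V) :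
    Even (nb (M.deleteEdges {e | e ∈ c.edges}) x).card := by
  have h1 : Even (c.edges.countP fun e => x ∈ e) := by
    rw [hc.isCircuit.isTrail.even_countP_edges_iff x]
    intro h
    exact absurd rfl h
  have h2 : (c.edges.countP fun e => x ∈ e) = (univ.filter fun u => s(x, u) ∈ c.edges).card := by
    have e1 : (c.edges.countP fun e => x ∈ e) = (c.edges.toFinset.filter fun e => x ∈ e).card := by
      rw [List.countP_eq_length_filter, ← List.toFinset_card_of_nodup
        (hc.isCircuit.isTrail.edges_nodup.filter _)]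
      congr 1
      ext e
      simp
    rw [e1]
    symm
    refine card_bij (fun u _ => s(x, u)) ?_ ?_ ?_
    · intro u hu
      rw [mem_filter] at hu ⊢
      exact ⟨List.mem_toFinset.2 hu.2, Sym2.mem_mk_left _ _⟩
    · intro u _ w _ huw
      exact Sym2.congr_right.1 huw
    · intro e he
      rw [mem_filter, List.mem_toFinset] at he
      obtain ⟨u, rfl⟩ := Sym2.mem_iff_exists.1 he.2
      exact ⟨u, by rw [mem_filter]; exact ⟨mem_univ _, he.1⟩, rfl⟩
  have h3 : (nb M x).card = (univ.filter fun u => s(x, u) ∈ c.edges).card +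
      (nb (M.deleteEdges {e | e ∈ c.edges}) x).card := by
    rw [← card_union_of_disjoint]
    · congr 1
      ext u
      simp only [nb, mem_filter, mem_union, mem_univ, true_and, SimpleGraph.deleteEdges_adj,
        Set.mem_ofPred_eq]
      constructor
      · intro hu
        by_cases hm : s(x, u) ∈ c.edges
        · exact Or.inl hm
        · exact Or.inr ⟨hu, hm⟩
      · rintro (hu | hu)
        · exact c.adj_of_mem_edges hu
        · exact hu.1
    · rw [Finset.disjoint_left]
      intro u hu hu2
      simp only [nb, mem_filter, mem_univ, true_and, SimpleGraph.deleteEdges_adj,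
        Set.mem_ofPred_eq] at hu hu2
      exact hu2.2 hu
  have h4 := h x
  rw [h3, Nat.even_add, ← h2] at h4
  exact h4.1 h1

private theorem cycd_aux {V : Type} [Fintype V] (n : ℕ) : ∀ (M : SimpleGraph V), (es M).card ≤ n →
    (∀ v, Even (nb M v).card) →
    ∃ l : List (Σ v : V, M.Walk v v), (∀ c ∈ l, c.2.IsCycle) ∧
      l.Pairwise (fun c d => ∀ e, e ∈ c.2.edges → e ∉ d.2.edges) ∧
      ∀ e ∈ M.edgeSet, ∃ c ∈ l, e ∈ c.2.edges := by
  induction n with
  | zero =>
    intro M hn _
    refine ⟨[], by simp, List.Pairwise.nil, ?_⟩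
    intro e he
    exfalso
    have h1 : e ∈ es M := by
      rw [es, mem_filter]
      exact ⟨mem_univ _, he⟩
    have := card_pos.2 ⟨e, h1⟩
    omega
  | succ n ih =>
    intro M hn h
    by_cases hM : ∃ x y, M.Adj x y
    · obtain ⟨x, y, hxy⟩ := hM
      obtain ⟨v, c, hc⟩ := cycd_exists M h hxy
      set M' := M.deleteEdges {e | e ∈ c.edges} with hM'
      have hle : M' ≤ M := SimpleGraph.deleteEdges_le _
      have hlt : (es M').card < (es M).card := by
        apply card_lt_card
        rw [Finset.ssubset_iff_of_subset]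
        · obtain ⟨e, he⟩ := c.edges.exists_mem_of_ne_nil (by simp [hc.not_nil])
          refine ⟨e, ?_, ?_⟩
          · rw [cycd_es]
            exact c.edges_subset_edgeSet he
          · rw [cycd_es, hM', SimpleGraph.edgeSet_deleteEdges]
            exact fun h => h.2 he
        · intro e he
          rw [cycd_es] at he ⊢
          exact SimpleGraph.edgeSet_mono hle he
      obtain ⟨l, h1, h2, h3⟩ := ih M' (by omega) (cycd_even M h c hc)
      refine ⟨⟨v, c⟩ :: l.map (fun d => ⟨d.1, d.2.mapLe hle⟩), ?_, ?_, ?_⟩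
      · intro d hd
        rw [List.mem_cons, List.mem_map] at hd
        rcases hd with rfl | ⟨d', hd', rfl⟩
        · exact hc
        · exact (SimpleGraph.Walk.isCycle_mapLe hle).2 (h1 d' hd')
      · rw [List.pairwise_cons, List.pairwise_map]
        refine ⟨?_, ?_⟩
        · intro d hd e he hed
          rw [List.mem_map] at hd
          obtain ⟨d', hd', rfl⟩ := hd
          simp only [SimpleGraph.Walk.edges_mapLe_eq_edges] at hed
          have h4 := d'.2.edges_subset_edgeSet hed
          rw [hM', SimpleGraph.edgeSet_deleteEdges] at h4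
          exact h4.2 he
        · refine h2.imp ?_
          intro a b hab e he
          simp only [SimpleGraph.Walk.edges_mapLe_eq_edges] at he ⊢
          exact hab e he
      · intro e he
        by_cases hec : e ∈ c.edges
        · exact ⟨⟨v, c⟩, List.mem_cons_self, hec⟩
        · have h4 : e ∈ M'.edgeSet := by
            rw [hM', SimpleGraph.edgeSet_deleteEdges]
            exact ⟨he, hec⟩
          obtain ⟨d, hd, hde⟩ := h3 e h4
          refine ⟨⟨d.1, d.2.mapLe hle⟩, List.mem_cons_of_mem _ (List.mem_map.2 ⟨d, hd, rfl⟩), ?_⟩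
          simp only [SimpleGraph.Walk.edges_mapLe_eq_edges]
          exact hde
    · refine ⟨[], by simp, List.Pairwise.nil, ?_⟩
      intro e he
      exfalso
      induction e with
      | _ x y => exact hM ⟨x, y, he⟩

theorem cycles {V : Type} [Fintype V] (M : SimpleGraph V) (h : ∀ v, Even (nb M v).card) :
    ∃ l : List (Σ v : V, M.Walk v v), (∀ c ∈ l, c.2.IsCycle) ∧
      l.Pairwise (fun c d => ∀ e, e ∈ c.2.edges → e ∉ d.2.edges) ∧
      ∀ e ∈ M.edgeSet, ∃ c ∈ l, e ∈ c.2.edges :=
  cycd_aux _ M le_rfl h

end Pool.Agent.BEO
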