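import Pool.Agent.BEO.Par
import Pool.Agent.BEO.LinK

/-!
# BEO-CycK: at most `k` edge-disjoint cycles in `M`
-/

set_option autoImplicit false

open Finset
open scoped Classical

namespace Pool.Agent.BEO

variable {k : ℕ} {V Q : Type} [Fintype V] [AddCommGroup Q] [Module F2 Q] (c : Cfg k V Q)

/-- the sum of the cycles with coefficients `g` -/
private noncomputable def cf (l : List (Σ v : V, c.M.Walk v v)) (g : Fin l.length → F2)
    (e : Sym2 V) : F2 :=
  ∑ p, g p * (((l.get p).2.edges.count e : ℕ) : F2)

private theorem cf_sum (l : List (Σ v : V, c.M.Walk v v)) (g : Fin l.length → F2) :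
    ∑ p, g p • ((l.get p).2.edges.map c.a).sum =
      ∑ e ∈ univ.filter (fun e => cf c l g e = 1), c.a e := by
  rw [← sum_coef]
  unfold cf
  simp only [Finset.sum_smul, sum_list, Finset.smul_sum, smul_smul]
  rw [Finset.sum_comm]

private theorem cf_even (l : List (Σ v : V, c.M.Walk v v)) (g : Fin l.length → F2) (v : V) :
    Even (dg (univ.filter fun e => cf c l g e = 1) v) := by
  rw [even_cast, dg_coef]
  unfold cf
  simp only [Finset.sum_mul]
  rw [Finset.sum_comm]
  refine Finset.sum_eq_zero fun p _ => ?_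
  simp only [mul_assoc]
  rw [← Finset.mul_sum, walk_bd]
  have h : ∀ x : F2, x + x = 0 := fun x => q_add_self x
  rw [h, mul_zero]

private theorem cf_mem (l : List (Σ v : V, c.M.Walk v v)) (g : Fin l.length → F2) (e : Sym2 V)
    (he : e ∈ univ.filter fun e => cf c l g e = 1) : e ∈ c.M.edgeSet := by
  rw [Finset.mem_filter] at he
  have h1 : cf c l g e ≠ 0 := by
    rw [he.2]
    exact one_ne_zero
  obtain ⟨p, -, hp⟩ := Finset.exists_ne_zero_of_sum_ne_zero h1
  have h2 : (l.get p).2.edges.count e ≠ 0 := by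
    intro h0
    apply hp
    rw [h0, Nat.cast_zero, mul_zero]
  have h3 : e ∈ (l.get p).2.edges := by
    by_contra h4
    exact h2 (List.count_eq_zero_of_not_mem h4)
  exact (l.get p).2.edges_subset_edgeSet h3

theorem cycles_le (l : List (Σ v : V, c.M.Walk v v)) (h1 : ∀ d ∈ l, d.2.IsCycle)
    (h2 : l.Pairwise (fun d d' => ∀ e, e ∈ d.2.edges → e ∉ d'.2.edges)) : l.length ≤ k := by
  by_contra hlt
  push Not at hlt
  have hML : ∀ e, e ∈ c.M.edgeSet → e ∈ c.L.edgeSet := fun e he =>
    SimpleGraph.edgeSet_mono c.le he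
  obtain ⟨g, hg0, -, hgs⟩ := exists_ker (P := Fin l.length) (T := Fin 0) c.H c.finH k c.dimH
    (fun _ _ => 0) (fun i => ((l.get i).2.edges.map c.a).sum)
    (by rw [Fintype.card_fin, Fintype.card_fin, zero_add]; exact hlt) (fun g _ => by
      rw [cf_sum c l g]
      exact c.cls _ (fun e he => hML e (cf_mem c l g e he)) (cf_even c l g))
  rw [cf_sum c l g] at hgs
  have hmn := c.mn _ (fun e he => hML e (cf_mem c l g e he)) (cf_even c l g) hgs
  have e1 : (univ.filter fun e => cf c l g e = 1).filter (fun e => e ∈ c.M.edgeSet) =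
      univ.filter fun e => cf c l g e = 1 :=
    Finset.filter_true_of_mem (fun e he => cf_mem c l g e he)
  have e2 : (univ.filter fun e => cf c l g e = 1).filter (fun e => e ∉ c.M.edgeSet) = ∅ := by
    refine Finset.filter_false_of_mem (fun e he h => ?_)
    exact h (cf_mem c l g e he)
  rw [e1, e2, Finset.card_empty, Nat.le_zero, Finset.card_eq_zero] at hmn
  obtain ⟨p0, hp0⟩ := Function.ne_iff.1 hg0
  have hg1 : g p0 = 1 := (f2_cases (g p0)).resolve_left hp0
  have hcyc := h1 (l.get p0) (List.get_mem l p0)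
  have hne : (l.get p0).2.edges ≠ [] := by
    intro h0
    have h3 := hcyc.three_le_length
    rw [← SimpleGraph.Walk.length_edges, h0] at h3
    simp at h3
  obtain ⟨e, he⟩ := List.exists_mem_of_ne_nil _ hne
  have hcount : (l.get p0).2.edges.count e = 1 :=
    List.count_eq_one_of_mem hcyc.isTrail.edges_nodup he
  have hother : ∀ p, p ≠ p0 → (l.get p).2.edges.count e = 0 := by
    intro p hp
    refine List.count_eq_zero_of_not_mem fun hmem => ?_
    rcases lt_or_gt_of_ne hp with h | h
    · exact (List.pairwise_iff_get.1 h2 p p0 h) e hmem he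
    · exact (List.pairwise_iff_get.1 h2 p0 p h) e he hmem
  have hmem : e ∈ univ.filter fun e => cf c l g e = 1 := by
    rw [Finset.mem_filter]
    refine ⟨Finset.mem_univ _, ?_⟩
    unfold cf
    rw [Finset.sum_eq_single p0]
    · rw [hcount, hg1, Nat.cast_one, mul_one]
    · intro p _ hp
      rw [hother p hp, Nat.cast_zero, mul_zero]
    · intro h
      exact absurd (Finset.mem_univ p0) h
  rw [hmn] at hmem
  exact absurd hmem (Finset.notMem_empty e)

end Pool.Agent.BEO
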