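import Pool.Agent.BEO.Base

/-!
# BEO-CycLoc: a cycle near a vertex of degree two
-/

set_option autoImplicit false

open Finset
open scoped Classical

namespace Pool.Agent.BEO

variable {V : Type} [Fintype V] {M : SimpleGraph V}

omit [Fintype V] in
private theorem cycloc_three {v : V} {c : M.Walk v v} (hc : c.IsCycle) : 3 ≤ c.length :=
  hc.isCircuit.three_le_length

theorem get_inj {v : V} {c : M.Walk v v} (hc : c.IsCycle) {i j : ℕ} (h0 : 0 < i) (h1 : i ≤ c.length) (h2 : 0 < j)
    (h3 : j ≤ c.length) (h : c.getVert i = c.getVert j) : i = j := by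
  refine hc.getVert_injOn ?_ ?_ h
  · exact ⟨h0, h1⟩
  · exact ⟨h2, h3⟩

theorem get_ne {v : V} {c : M.Walk v v} (hc : c.IsCycle) {i : ℕ} (h0 : 0 < i) (h1 : i < c.length) :
    c.getVert (i - 1) ≠ c.getVert (i + 1) := by
  intro h
  have h3 := cycloc_three hc
  by_cases hi : i = 1
  · subst hi
    have h4 : c.getVert (1 - 1) = c.getVert c.length := by
      rw [SimpleGraph.Walk.getVert_length]
      exact SimpleGraph.Walk.getVert_zero c
    rw [h4] at h
    have h5 := get_inj hc (by omega) le_rfl (by omega) (by omega) h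
    omega
  · have h5 := get_inj hc (by omega) (by omega) (by omega) (by omega) h
    omega

theorem get_adj {v : V} {c : M.Walk v v} (hc : c.IsCycle) {i : ℕ} (h0 : 0 < i) (h1 : i < c.length)
    (hd : (nb M (c.getVert i)).card = 2) (w : V) :
    M.Adj (c.getVert i) w ↔ (w = c.getVert (i - 1) ∨ w = c.getVert (i + 1)) := by
  have ha : M.Adj (c.getVert i) (c.getVert (i + 1)) := c.adj_getVert_succ h1
  have hb : M.Adj (c.getVert i) (c.getVert (i - 1)) := by
    have h2 := c.adj_getVert_succ (i := i - 1) (by omega)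
    rw [Nat.sub_add_cancel h0] at h2
    exact h2.symm
  have hne := get_ne hc h0 h1
  have hsub : ({c.getVert (i - 1), c.getVert (i + 1)} : Finset V) ⊆ nb M (c.getVert i) := by
    intro x hx
    rw [Finset.mem_insert, Finset.mem_singleton] at hx
    unfold nb
    rw [Finset.mem_filter]
    rcases hx with rfl | rfl
    · exact ⟨Finset.mem_univ _, hb⟩
    · exact ⟨Finset.mem_univ _, ha⟩
  have heq := Finset.eq_of_subset_of_card_le hsub (by rw [hd, Finset.card_pair hne])
  have h2 : M.Adj (c.getVert i) w ↔ w ∈ nb M (c.getVert i) := by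
    unfold nb
    rw [Finset.mem_filter]
    exact ⟨fun h => ⟨Finset.mem_univ _, h⟩, fun h => h.2⟩
  rw [h2, ← heq, Finset.mem_insert, Finset.mem_singleton]

/-- the edge from `getVert i` to `getVert (i + 1)` is an edge of the walk -/
theorem get_edge {u v : V} {c : M.Walk u v} {i : ℕ} (h1 : i < c.length) :
    s(c.getVert i, c.getVert (i + 1)) ∈ c.edges := by
  induction c generalizing i with
  | nil => simp at h1
  | cons h p ih =>
    rw [SimpleGraph.Walk.length_cons] at h1
    rw [SimpleGraph.Walk.edges_cons]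
    rcases i with _ | i
    · rw [SimpleGraph.Walk.getVert_cons_succ, SimpleGraph.Walk.getVert_zero,
        SimpleGraph.Walk.getVert_zero]
      exact List.mem_cons_self
    · rw [SimpleGraph.Walk.getVert_cons_succ, SimpleGraph.Walk.getVert_cons_succ]
      exact List.mem_cons_of_mem _ (ih (by omega))

theorem disj_two {v v' : V} {c : M.Walk v v} {c' : M.Walk v' v'} (hc : c.IsCycle) (hc' : c'.IsCycle)
    (hd : ∀ e, e ∈ c.edges → e ∉ c'.edges) {i i' : ℕ} (h0 : 0 < i) (h1 : i < c.length) (h0' : 0 < i')
    (h1' : i' < c'.length) (h : c.getVert i = c'.getVert i') (hd2 : (nb M (c.getVert i)).card = 2) : False := by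
  have ha : M.Adj (c.getVert i) (c.getVert (i + 1)) := c.adj_getVert_succ h1
  have he := get_edge h1
  have hd2' : (nb M (c'.getVert i')).card = 2 := by rw [← h]; exact hd2
  have ha' := ha
  rw [h, get_adj hc' h0' h1' hd2'] at ha'
  apply hd _ he
  rcases ha' with h2 | h2
  · rw [h, h2]
    have h3 := get_edge (c := c') (i := i' - 1) (by omega)
    rw [Nat.sub_add_cancel h0'] at h3
    rw [Sym2.eq_swap]
    exact h3
  · rw [h, h2]
    exact get_edge h1'

/-- an end of an edge of a closed walk is one of its vertices -/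
theorem mem_get {v x : V} {c : M.Walk v v} {e : Sym2 V} (he : e ∈ c.edges) (hx : x ∈ e) :
    ∃ i, i < c.length ∧ c.getVert i = x := by
  have hs : x ∈ c.support := by
    obtain ⟨y, rfl⟩ := hx
    exact c.fst_mem_support_of_mem_edges he
  have hpos : 0 < c.length := by
    rw [← SimpleGraph.Walk.length_edges]
    exact List.length_pos_of_mem he
  rw [SimpleGraph.Walk.mem_support_iff_exists_getVert] at hs
  obtain ⟨i, hi, hle⟩ := hs
  rcases hle.lt_or_eq with h | h
  · exact ⟨i, h, hi⟩
  · refine ⟨0, hpos, ?_⟩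
    rw [h, SimpleGraph.Walk.getVert_length] at hi
    rw [SimpleGraph.Walk.getVert_zero]
    exact hi

end Pool.Agent.BEO
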