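import Mathlib

/-!
# BEO-Gaps: consecutive elements of a finite set of numbers (Mathlib only)

PLAN. `nx d := ` the least element of `D` greater than `d` (`Nat.find`, or 0 if there is none). For the second claim
take the largest `d ∈ D` below `l` (`Finset.max'` of a filter containing 0); the next element is above `l`.
-/

set_option autoImplicit false

namespace Pool.Agent.BEO

theorem gaps (D : Finset ℕ) (N : ℕ) (h0 : 0 ∈ D) (hN : N ∈ D) : ∃ nx : ℕ → ℕ,
    (∀ d ∈ D, d < N → d < nx d ∧ nx d ∈ D ∧ nx d ≤ N ∧ ∀ l, d < l → l < nx d → l ∉ D) ∧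
    ∀ l, l < N → l ∉ D → ∃ d ∈ D, d < l ∧ l < nx d := by
  classical
  have ex : ∀ d, d < N → ∃ e, d < e ∧ e ∈ D := fun d hd => ⟨N, hd, hN⟩
  have main : ∀ d, ∃ m : ℕ, d < N → d < m ∧ m ∈ D ∧ m ≤ N ∧ ∀ l, d < l → l < m → l ∉ D := by
    intro d
    by_cases hd : d < N
    · refine ⟨Nat.find (ex d hd), fun _ => ⟨(Nat.find_spec (ex d hd)).1, (Nat.find_spec (ex d hd)).2,
        Nat.find_min' (ex d hd) ⟨hd, hN⟩, fun l h1 h2 h3 => Nat.find_min (ex d hd) h2 ⟨h1, h3⟩⟩⟩
    · exact ⟨0, fun h => absurd h hd⟩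
  choose nx hnx using main
  refine ⟨nx, fun d _ hd => hnx d hd, fun l hl hlD => ?_⟩
  have hl0 : 0 < l := by
    rcases Nat.eq_zero_or_pos l with h | h
    · rw [h] at hlD
      exact absurd h0 hlD
    · exact h
  have hne : (D.filter (fun d => d < l)).Nonempty := ⟨0, Finset.mem_filter.2 ⟨h0, hl0⟩⟩
  obtain ⟨hd1, hd2⟩ := Finset.mem_filter.1 (Finset.max'_mem _ hne)
  refine ⟨(D.filter (fun d => d < l)).max' hne, hd1, hd2, ?_⟩
  obtain ⟨h1, h2, h3, h4⟩ := hnx _ (hd2.trans hl)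
  by_contra hlt
  have h5 : nx ((D.filter (fun d => d < l)).max' hne) < l := by
    rcases Nat.lt_or_ge (nx ((D.filter (fun d => d < l)).max' hne)) l with h | h
    · exact h
    · have : nx ((D.filter (fun d => d < l)).max' hne) = l := by omega
      rw [this] at h2
      exact absurd h2 hlD
  have h6 := Finset.le_max' (D.filter (fun d => d < l)) _ (Finset.mem_filter.2 ⟨h2, h5⟩)
  omega

end Pool.Agent.BEO
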