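import Pool.Agent.BEO.BallB
import Pool.Agent.BEO.CycD
import Pool.Agent.BEO.CycK
import Pool.Agent.BEO.CycLoc
import Pool.Agent.BEO.Gaps

/-!
# BEO-FrameEx: every configuration has a frame of bounded size

Cut the cycles of `M` at the exceptional vertices.
-/

set_option autoImplicit false

open Finset
open scoped Classical

namespace Pool.Agent.BEO

private theorem core {k C0 : ℕ} {V Q : Type} [Fintype V] [AddCommGroup Q] [Module F2 Q]
    (c : Cfg k V Q) (n : ℕ) (hn : n ≤ k) (b : Fin n → V) (d : ∀ i, c.M.Walk (b i) (b i))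
    (hc : ∀ i, (d i).IsCycle) (hd : ∀ i i', i ≠ i' → ∀ e, e ∈ (d i).edges → e ∉ (d i').edges)
    (hcov : ∀ e ∈ c.M.edgeSet, ∃ i, e ∈ (d i).edges) (B1 : Finset V) (hB1 : B1.card ≤ C0)
    (hfar : ∀ u v, u ∈ vs c.M → v ∈ vs c.M → u ∉ B1 → v ∉ B1 →
      ∀ w : (c.L \ c.M).Walk u v, w.length ≤ 4 → Near c.M w.length u v) :
    Nonempty (Frame ((C0 + k + k) * (k + 1)) c) := by
  set B : Finset V := B1 ∪ (univ.filter fun v => 4 ≤ (nb c.M v).card) ∪ univ.image b with hB
  have hBcard : B.card ≤ C0 + k + k := by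
    have h1 := card_union_le (B1 ∪ (univ.filter fun v => 4 ≤ (nb c.M v).card)) (univ.image b)
    have h2 := card_union_le B1 (univ.filter fun v => 4 ≤ (nb c.M v).card)
    have h3 := deg_four c
    have h4 : (univ.image b).card ≤ n := card_image_le.trans (by simp)
    rw [hB]
    omega
  have hB1B : ∀ v, v ∉ B → v ∉ B1 := fun v hv h =>
    hv (mem_union_left _ (mem_union_left _ h))
  have hdeg : ∀ v, v ∈ vs c.M → v ∉ B → (nb c.M v).card = 2 := by
    intro v hv hvB
    have h2 := two_le_deg c hv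
    have h3 : ¬ 4 ≤ (nb c.M v).card := fun h =>
      hvB (mem_union_left _ (mem_union_right _ (mem_filter.2 ⟨mem_univ _, h⟩)))
    obtain ⟨r, hr⟩ := c.evM v
    omega
  have hb : ∀ i, b i ∈ B := fun i => mem_union_right _ (mem_image_of_mem _ (mem_univ _))
  have hvs : ∀ i t, t < (d i).length → (d i).getVert t ∈ vs c.M := by
    intro i t ht
    unfold vs
    rw [mem_filter]
    exact ⟨mem_univ _, _, (d i).adj_getVert_succ ht⟩
  let D : Fin n → Finset ℕ := fun i => (range ((d i).length + 1)).filter fun t => (d i).getVert t ∈ B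
  have hDm : ∀ i t, t ∈ D i ↔ t < (d i).length + 1 ∧ (d i).getVert t ∈ B := by
    intro i t
    show t ∈ (range ((d i).length + 1)).filter (fun t => (d i).getVert t ∈ B) ↔ _
    rw [mem_filter, mem_range]
  have hD0 : ∀ i, 0 ∈ D i := fun i => (hDm i 0).2 ⟨by omega, by
    rw [SimpleGraph.Walk.getVert_zero]; exact hb i⟩
  have hDN : ∀ i, (d i).length ∈ D i := fun i => (hDm i _).2 ⟨by omega, by
    rw [SimpleGraph.Walk.getVert_length]; exact hb i⟩
  choose nx hnx hgap using fun i => gaps (D i) (d i).length (hD0 i) (hDN i)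
  let S : Finset (Σ _ : Fin n, ℕ) := univ.sigma fun i => (D i).filter (fun t => t < (d i).length)
  have hS : ∀ p : (Σ _ : Fin n, ℕ), p ∈ S ↔ p.2 ∈ D p.1 ∧ p.2 < (d p.1).length := by
    intro p
    show p ∈ univ.sigma (fun i => (D i).filter (fun t => t < (d i).length)) ↔ _
    rw [mem_sigma, mem_filter]
    exact ⟨fun h => h.2, fun h => ⟨mem_univ _, h⟩⟩
  have hScard : S.card ≤ n * B.card := by
    show (univ.sigma fun i => (D i).filter (fun t => t < (d i).length)).card ≤ _
    rw [card_sigma]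
    calc ∑ i : Fin n, ((D i).filter (fun t => t < (d i).length)).card
        ≤ ∑ _i : Fin n, B.card := by
          refine sum_le_sum fun i _ => ?_
          refine card_le_card_of_injOn (fun t => (d i).getVert t) ?_ ?_
          · intro t ht
            have h1 := mem_filter.1 (mem_coe.1 ht)
            exact mem_coe.2 ((hDm i t).1 h1.1).2
          · intro t ht t' ht' h
            have h1 := (mem_filter.1 (mem_coe.1 ht)).2
            have h2 := (mem_filter.1 (mem_coe.1 ht')).2
            have h : (d i).getVert t = (d i).getVert t' := h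
            rcases Nat.eq_zero_or_pos t with h3 | h3
            · rcases Nat.eq_zero_or_pos t' with h4 | h4
              · rw [h3, h4]
              · exfalso
                rw [h3, SimpleGraph.Walk.getVert_zero] at h
                have h5 : (d i).getVert t' = (d i).getVert (d i).length := by
                  rw [SimpleGraph.Walk.getVert_length]; exact h.symm
                have h6 := get_inj (hc i) h4 h2.le (by omega) le_rfl h5
                omega
            · rcases Nat.eq_zero_or_pos t' with h4 | h4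
              · exfalso
                rw [h4, SimpleGraph.Walk.getVert_zero] at h
                have h5 : (d i).getVert t = (d i).getVert (d i).length := by
                  rw [SimpleGraph.Walk.getVert_length]; exact h
                have h6 := get_inj (hc i) h3 h1.le (by omega) le_rfl h5
                omega
              · exact get_inj (hc i) h3 h1.le h4 h2.le h
      _ = n * B.card := by rw [sum_const, card_univ, Fintype.card_fin, smul_eq_mul]
  let e : S ≃ Fin S.card := S.equivFin
  let ii : Fin S.card → Fin n := fun j => (e.symm j).1.1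
  let tt : Fin S.card → ℕ := fun j => (e.symm j).1.2
  have htt : ∀ j, tt j ∈ D (ii j) ∧ tt j < (d (ii j)).length := fun j =>
    (hS (e.symm j).1).1 (e.symm j).2
  have hP := fun j => hnx (ii j) (tt j) (htt j).1 (htt j).2
  have hin : ∀ j l, 1 ≤ l → l ≤ nx (ii j) (tt j) - tt j - 1 → tt j < tt j + l ∧
      tt j + l < nx (ii j) (tt j) ∧ tt j + l < (d (ii j)).length ∧ tt j + l ∉ D (ii j) ∧
      (d (ii j)).getVert (tt j + l) ∉ B := by
    intro j l h1 h2
    obtain ⟨p1, p2, p3, p4⟩ := hP j
    have h3 : tt j + l ∉ D (ii j) := p4 _ (by omega) (by omega)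
    refine ⟨by omega, by omega, by omega, h3, fun h4 => h3 ((hDm _ _).2 ⟨by omega, h4⟩)⟩
  refine ⟨{ m := S.card
            n := fun j => nx (ii j) (tt j) - tt j - 1
            x := fun j l => (d (ii j)).getVert (tt j + l)
            B := B
            hm := ?_
            hB := ?_
            e0 := ?_
            e1 := ?_
            notB := ?_
            inj := ?_
            cov := ?_
            adj := ?_
            ne := ?_
            far := ?_ }⟩
  · calc S.card ≤ n * B.card := hScard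
      _ ≤ (k + 1) * (C0 + k + k) := Nat.mul_le_mul (by omega) hBcard
      _ = (C0 + k + k) * (k + 1) := Nat.mul_comm _ _
  · calc B.card ≤ (C0 + k + k) * 1 := by rw [Nat.mul_one]; exact hBcard
      _ ≤ (C0 + k + k) * (k + 1) := Nat.mul_le_mul_left _ (by omega)
  · intro j
    exact ((hDm _ _).1 (htt j).1).2
  · intro j
    obtain ⟨p1, p2, p3, p4⟩ := hP j
    have h1 : tt j + (nx (ii j) (tt j) - tt j - 1 + 1) = nx (ii j) (tt j) := by omega
    show (d (ii j)).getVert (tt j + (nx (ii j) (tt j) - tt j - 1 + 1)) ∈ B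
    rw [h1]
    exact ((hDm _ _).1 p2).2
  · intro j l h1 h2
    exact (hin j l h1 h2).2.2.2.2
  · intro j l j' l' h1 h2 h1' h2' h
    obtain ⟨q1, q2, q3, q4, q5⟩ := hin j l h1 h2
    obtain ⟨r1, r2, r3, r4, r5⟩ := hin j' l' h1' h2'
    obtain ⟨p1, p2, p3, p4⟩ := hP j
    obtain ⟨s1, s2, s3, s4⟩ := hP j'
    have h : (d (ii j)).getVert (tt j + l) = (d (ii j')).getVert (tt j' + l') := h
    by_cases hij : ii j = ii j'
    · have key : ∀ (i i' : Fin n) (t t' l l' : ℕ), i = i' → 0 < t + l → t + l < (d i).length →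
          0 < t' + l' → t' + l' < (d i').length →
          (d i).getVert (t + l) = (d i').getVert (t' + l') → t + l = t' + l' := by
        rintro i i' t t' l l' rfl a1 a2 a3 a4 a5
        exact get_inj (hc i) a1 a2.le a3 a4.le a5
      have h5 := key _ _ _ _ _ _ hij (by omega) q3 (by omega) r3 h
      have h6 : tt j = tt j' := by
        rcases lt_trichotomy (tt j) (tt j') with h7 | h7 | h7
        · exfalso
          apply p4 (tt j') h7 (by omega)
          rw [hij]
          exact (htt j').1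
        · exact h7
        · exfalso
          apply s4 (tt j) h7 (by omega)
          rw [← hij]
          exact (htt j).1
      have h7 : (e.symm j).1 = (e.symm j').1 := by
        have h8 : (e.symm j).1.1 = (e.symm j').1.1 := hij
        have h9 : (e.symm j).1.2 = (e.symm j').1.2 := h6
        exact Sigma.ext h8 (heq_of_eq h9)
      exact ⟨e.symm.injective (Subtype.ext h7), by omega⟩
    · exfalso
      exact disj_two (hc _) (hc _) (hd _ _ hij) (by omega) q3 (by omega) r3 h
        (hdeg _ (hvs _ _ q3) q5)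
  · intro v hv
    by_cases hvB : v ∈ B
    · exact Or.inl hvB
    right
    have hv' := hv
    unfold vs at hv'
    obtain ⟨u, hu⟩ := (mem_filter.1 hv').2
    obtain ⟨i, hi⟩ := hcov s(v, u) ((SimpleGraph.mem_edgeSet _).2 hu)
    obtain ⟨q, hq, hqv⟩ := mem_get hi (Sym2.mem_mk_left v u)
    have hqD : q ∉ D i := fun h => hvB (by rw [← hqv]; exact ((hDm _ _).1 h).2)
    obtain ⟨t, ht, ht1, ht2⟩ := hgap i q hq hqD
    have hmem : (⟨i, t⟩ : Σ _ : Fin n, ℕ) ∈ S := (hS _).2 ⟨ht, by show t < (d i).length; omega⟩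
    have hsymm : e.symm (e ⟨⟨i, t⟩, hmem⟩) = ⟨⟨i, t⟩, hmem⟩ := e.symm_apply_apply _
    have hi1 : ii (e ⟨⟨i, t⟩, hmem⟩) = i := by
      show (e.symm (e ⟨⟨i, t⟩, hmem⟩)).1.1 = i
      rw [hsymm]
    have ht1' : tt (e ⟨⟨i, t⟩, hmem⟩) = t := by
      show (e.symm (e ⟨⟨i, t⟩, hmem⟩)).1.2 = t
      rw [hsymm]
    refine ⟨e ⟨⟨i, t⟩, hmem⟩, q - t, by omega, ?_, ?_⟩
    · show q - t ≤ nx (ii (e ⟨⟨i, t⟩, hmem⟩)) (tt (e ⟨⟨i, t⟩, hmem⟩)) -
        tt (e ⟨⟨i, t⟩, hmem⟩) - 1
      rw [hi1, ht1']
      omega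
    · show v = (d (ii (e ⟨⟨i, t⟩, hmem⟩))).getVert (tt (e ⟨⟨i, t⟩, hmem⟩) + (q - t))
      rw [hi1, ht1', ← hqv]
      congr 1
      omega
  · intro j l h1 h2 w
    obtain ⟨q1, q2, q3, q4, q5⟩ := hin j l h1 h2
    have h3 := get_adj (hc (ii j)) (by omega) q3 (hdeg _ (hvs _ _ q3) q5) w
    have h4 : tt j + l - 1 = tt j + (l - 1) := by omega
    rw [h4] at h3
    exact h3
  · intro j l h1 h2
    obtain ⟨q1, q2, q3, q4, q5⟩ := hin j l h1 h2
    have h3 := get_ne (hc (ii j)) (i := tt j + l) (by omega) q3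
    have h4 : tt j + l - 1 = tt j + (l - 1) := by omega
    rw [h4] at h3
    exact h3
  · intro j l j' l' h1 h2 h1' h2' w hw
    obtain ⟨q1, q2, q3, q4, q5⟩ := hin j l h1 h2
    obtain ⟨r1, r2, r3, r4, r5⟩ := hin j' l' h1' h2'
    exact hfar _ _ (hvs _ _ q3) (hvs _ _ r3) (hB1B _ q5) (hB1B _ r5) w hw

theorem exists_frame (k : ℕ) : ∃ C : ℕ, ∀ (V Q : Type) [Fintype V] [AddCommGroup Q] [Module F2 Q] (c : Cfg k V Q),
    Nonempty (Frame C c) := by
  obtain ⟨C0, hC0⟩ := exists_B k
  refine ⟨(C0 + k + k) * (k + 1), ?_⟩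
  intro V Q _ _ _ c
  obtain ⟨B1, hB1, hfar⟩ := hC0 V Q c
  obtain ⟨l, h1, h2, h3⟩ := cycles c.M c.evM
  refine core c l.length (cycles_le c l h1 h2) (fun i => (l.get i).1) (fun i => (l.get i).2)
    (fun i => h1 _ (l.get_mem i)) ?_ ?_ B1 hB1 hfar
  · intro i i' hii
    rw [List.pairwise_iff_get] at h2
    rcases lt_or_gt_of_ne hii with h | h
    · exact h2 i i' h
    · exact fun e he he' => h2 i' i h e he' he
  · intro e he
    obtain ⟨d, hd, hed⟩ := h3 e he
    obtain ⟨i, hi⟩ := List.get_of_mem hd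
    refine ⟨i, ?_⟩
    show e ∈ (l.get i).2.edges
    rw [hi]
    exact hed

end Pool.Agent.BEO
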