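import Pool.Agent.BEO.Eb
import Pool.Agent.BEO.FrameEx

/-!
# BEO-Core: a bounded number of even sets of edges

PLAN. `C` from `exists_frame k`, `C2` from `card_edges_out k C`; the bound is `2 ^ (k + C2)`. Map an even
`χ ⊆ es L` to `χ \ M` (a subset of a set of at most `C2` elements: at most `2 ^ C2` values). Two even `χ, χ'` with the
same value differ by the even set `symmDiff χ χ' ⊆ es M`; so a fibre injects into the even subsets of `es M`, and these
are at most `2 ^ k`: by `c.mn` the map `χ ↦ ∑ e ∈ χ, a e ∈ H` is injective on even subsets of `es M` (the symmetric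
difference of two with the same sum has sum 0 and is even, so it is empty) and `Nat.card H ≤ 2 ^ k` (`c.dimH`,
`card_eq_pow_finrank`). Parities: `dg (symmDiff χ χ') v ≡ dg χ v + dg χ' v` modulo 2.
-/

set_option autoImplicit false

open Finset
open scoped Classical

namespace Pool.Agent.BEO

private theorem co_sd {E Q : Type} [DecidableEq E] [AddCommGroup Q] [Module F2 Q] (ν χ : Finset E) (a : E → Q) :
    ∑ e ∈ symmDiff ν χ, a e = ∑ e ∈ ν, a e + ∑ e ∈ χ, a e := by
  have h2 : ∀ x : Q, x + x = 0 := fun x => by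
    have h : (2 : F2) = 0 := by decide
    rw [← two_smul F2 x, h, zero_smul]
  have hd : Disjoint (ν \ χ) (χ \ ν) := by
    rw [Finset.disjoint_left]
    intro e he he'
    exact (Finset.mem_sdiff.1 he).2 (Finset.mem_sdiff.1 he').1
  have h3 : ∑ e ∈ symmDiff ν χ, a e = ∑ e ∈ ν \ χ, a e + ∑ e ∈ χ \ ν, a e := by
    rw [symmDiff_def]
    exact Finset.sum_union hd
  have h45 : ∀ ν χ : Finset E, ∑ e ∈ ν, a e = ∑ e ∈ ν \ χ, a e + ∑ e ∈ ν ∩ χ, a e := by
    intro ν χ
    rw [← Finset.sum_sdiff (Finset.sdiff_subset : ν \ χ ⊆ ν), add_comm]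
    congr 2
    rw [sdiff_sdiff_right_self]
    rfl
  have h4 := h45 ν χ
  have h5 := h45 χ ν
  rw [h3, h4, h5, Finset.inter_comm χ ν]
  have h6 := h2 (∑ e ∈ ν ∩ χ, a e)
  calc ∑ e ∈ ν \ χ, a e + ∑ e ∈ χ \ ν, a e
      = ∑ e ∈ ν \ χ, a e + ∑ e ∈ χ \ ν, a e + (∑ e ∈ ν ∩ χ, a e + ∑ e ∈ ν ∩ χ, a e) := by
        rw [h6, add_zero]
    _ = _ := by abel

private theorem co_ev {V : Type} (χ : Finset (Sym2 V)) (v : V) :
    Even (dg χ v) ↔ ∑ e ∈ χ, (if v ∈ e then (1 : F2) else 0) = 0 := by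
  rw [← ZMod.natCast_eq_zero_iff_even]
  unfold dg
  rw [Finset.card_filter, Nat.cast_sum]
  have h : ∀ e ∈ χ, (((if v ∈ e then 1 else 0 : ℕ)) : F2) = if v ∈ e then (1 : F2) else 0 := by
    intro e _
    split_ifs
    · exact Nat.cast_one
    · exact Nat.cast_zero
  rw [Finset.sum_congr rfl h]

private theorem co_evsd {V : Type} {χ χ' : Finset (Sym2 V)} (h : ∀ v, Even (dg χ v))
    (h' : ∀ v, Even (dg χ' v)) (v : V) : Even (dg (symmDiff χ χ') v) := by
  rw [co_ev, co_sd, (co_ev χ v).1 (h v), (co_ev χ' v).1 (h' v), add_zero]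

private theorem co_M {k : ℕ} {V Q : Type} [Fintype V] [AddCommGroup Q] [Module F2 Q] (c : Cfg k V Q) :
    (((es c.M).powerset).filter fun χ => ∀ v, Even (dg χ v)).card ≤ 2 ^ k := by
  have := c.finH
  have : Finite c.H := Module.finite_of_finite F2
  let : Fintype c.H := Fintype.ofFinite _
  have hcard : Fintype.card c.H ≤ 2 ^ k := by
    rw [Module.card_eq_pow_finrank (K := F2), ZMod.card]
    exact Nat.pow_le_pow_right (by norm_num) c.dimH
  have hM : ∀ χ ∈ ((es c.M).powerset).filter (fun χ => ∀ v, Even (dg χ v)),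
      (∀ e ∈ χ, e ∈ c.M.edgeSet) ∧ ∀ v, Even (dg χ v) := by
    intro χ hχ
    rw [Finset.mem_filter, Finset.mem_powerset] at hχ
    exact ⟨fun e he => (Finset.mem_filter.1 (hχ.1 he)).2, hχ.2⟩
  have hML : ∀ e, e ∈ c.M.edgeSet → e ∈ c.L.edgeSet := fun e he =>
    SimpleGraph.edgeSet_mono c.le he
  refine le_trans ?_ hcard
  rw [← Finset.card_univ]
  refine Finset.card_le_card_of_injOn
    (fun χ => if h : (∀ e ∈ χ, e ∈ c.M.edgeSet) ∧ ∀ v, Even (dg χ v) then
      (⟨∑ e ∈ χ, c.a e, c.cls χ (fun e he => hML e (h.1 e he)) h.2⟩ : c.H) else 0)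
    (fun _ _ => Finset.mem_coe.2 (Finset.mem_univ _)) ?_
  intro χ hχ χ' hχ' hh
  have h1 := hM χ (Finset.mem_coe.1 hχ)
  have h1' := hM χ' (Finset.mem_coe.1 hχ')
  simp only [dif_pos h1, dif_pos h1'] at hh
  have h2 : ∑ e ∈ χ, c.a e = ∑ e ∈ χ', c.a e := congrArg Subtype.val hh
  have h3 : ∑ e ∈ symmDiff χ χ', c.a e = 0 := by
    rw [co_sd, h2]
    have h : (2 : F2) = 0 := by decide
    rw [← two_smul F2, h, zero_smul]
  have h4 : ∀ e ∈ symmDiff χ χ', e ∈ c.M.edgeSet := by
    intro e he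
    rcases Finset.mem_symmDiff.1 he with h | h
    · exact h1.1 e h.1
    · exact h1'.1 e h.1
  have h5 := c.mn (symmDiff χ χ') (fun e he => hML e (h4 e he)) (co_evsd h1.2 h1'.2) h3
  have h6 : (symmDiff χ χ').filter (fun e => e ∉ c.M.edgeSet) = ∅ := by
    rw [Finset.filter_eq_empty_iff]
    intro e he hn
    exact hn (h4 e he)
  rw [h6, Finset.card_empty, Nat.le_zero, Finset.card_eq_zero, Finset.filter_eq_empty_iff] at h5
  have h7 : symmDiff χ χ' = ∅ := by
    rw [Finset.eq_empty_iff_forall_notMem]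
    intro e he
    exact h5 he (h4 e he)
  exact symmDiff_eq_bot.1 h7

theorem core (k : ℕ) : ∃ C : ℕ, ∀ (V Q : Type) [Fintype V] [AddCommGroup Q] [Module F2 Q] (c : Cfg k V Q),
    (((es c.L).powerset).filter fun χ => ∀ v, Even (dg χ v)).card ≤ 2 ^ C := by
  obtain ⟨C, hC⟩ := exists_frame k
  obtain ⟨C2, hC2⟩ := card_edges_out k C
  refine ⟨k + C2, ?_⟩
  intro V Q _ _ _ c
  obtain ⟨f⟩ := hC V Q c
  have h2 := hC2 V Q c f
  set S := ((es c.L).powerset).filter (fun χ => ∀ v, Even (dg χ v)) with hS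
  set g : Finset (Sym2 V) → Finset (Sym2 V) := fun χ => χ.filter fun e => e ∉ c.M.edgeSet with hg
  have himg : (S.image g).card ≤ 2 ^ C2 := by
    have h3 : S.image g ⊆ ((es c.L).filter fun e => e ∉ c.M.edgeSet).powerset := by
      intro ψ hψ
      obtain ⟨χ, hχ, rfl⟩ := Finset.mem_image.1 hψ
      rw [hS, Finset.mem_filter, Finset.mem_powerset] at hχ
      rw [Finset.mem_powerset]
      exact Finset.filter_subset_filter _ hχ.1
    refine (Finset.card_le_card h3).trans ?_
    rw [Finset.card_powerset]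
    exact Nat.pow_le_pow_right (by norm_num) h2
  have hfib : ∀ b ∈ S.image g, (S.filter fun χ => g χ = b).card ≤ 2 ^ k := by
    intro b hb
    obtain ⟨χ0, hχ0, hb0⟩ := Finset.mem_image.1 hb
    refine le_trans ?_ (co_M c)
    refine Finset.card_le_card_of_injOn (fun χ => symmDiff χ χ0) ?_ ?_
    · intro χ hχ
      have hχ1 := Finset.mem_filter.1 (Finset.mem_coe.1 hχ)
      have hχ2 := hχ1.1
      rw [hS, Finset.mem_filter, Finset.mem_powerset] at hχ2 hχ0
      apply Finset.mem_coe.2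
      rw [Finset.mem_filter, Finset.mem_powerset]
      refine ⟨?_, co_evsd hχ2.2 hχ0.2⟩
      intro e he
      have hgg : g χ = g χ0 := hχ1.2.trans hb0.symm
      have key : e ∈ c.M.edgeSet := by
        by_contra hn
        rcases Finset.mem_symmDiff.1 he with h | h
        · have h4 : e ∈ g χ := Finset.mem_filter.2 ⟨h.1, hn⟩
          rw [hgg] at h4
          exact h.2 (Finset.mem_filter.1 h4).1
        · have h4 : e ∈ g χ0 := Finset.mem_filter.2 ⟨h.1, hn⟩
          rw [← hgg] at h4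
          exact h.2 (Finset.mem_filter.1 h4).1
      unfold es
      rw [Finset.mem_filter]
      exact ⟨Finset.mem_univ _, key⟩
    · intro χ _ χ' _ hh
      exact symmDiff_left_injective χ0 hh
  have h5 := Finset.card_le_mul_card_image S (2 ^ k) hfib
  calc S.card ≤ 2 ^ k * (S.image g).card := h5
    _ ≤ 2 ^ k * 2 ^ C2 := Nat.mul_le_mul_left _ himg
    _ = 2 ^ (k + C2) := (pow_add 2 k C2).symm

end Pool.Agent.BEO
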