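import Pool.Agent.BEO.CutEx

/-!
# BEO-CycDim: the dimension of the cycle space

PLAN. `cyc G` is the kernel of the linear map `(G.edgeSet → F2) → (V → F2)`, `z ↦ (v ↦ ∑ d at v, z (ed (d, true)))`;
its rank is the rank of the transposed map `B : (V → F2) → (G.edgeSet → F2)`, `c ↦ (e ↦ c u + c v)`
(`Matrix.rank_transpose`, the entries are `[v is an end of e]`), whose kernel consists of the constant functions (`G`
connected), of dimension 1. Compare `finrank_orth_le` in `Pool/Agent/Helper35/OG/Rank.lean`.
-/

set_option autoImplicit false

open Finset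
open scoped Classical

namespace Pool.Agent.BEO

open Pool.Agent.Helper35.OG (Flag GMap across side across_across side_side across_ne side_ne side_fst across_fst vertex_const
  all_const exists_flag face_nxt face_across face_surj nxt_inj sum_inv eqvGen_eq IsBand)

variable {V : Type} {G : SimpleGraph V}

private theorem finrank_ker_eq {X Y : Type} [Fintype X] [Fintype Y] [Nonempty Y] (m : X → Y → F2)
    (hconn : ∀ w : Y → F2, (∀ x, ∑ y, m x y * w y = 0) ↔ ∀ y y', w y = w y')
    (K : Submodule F2 (X → F2)) (hK : ∀ z, z ∈ K ↔ ∀ y, ∑ x, z x * m x y = 0) :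
    Module.finrank F2 K + Fintype.card Y = Fintype.card X + 1 := by
  let A : Matrix Y X F2 := fun y x => m x y
  have h1 := LinearMap.finrank_range_add_finrank_ker A.mulVecLin
  rw [Module.finrank_fintype_fun_eq_card] at h1
  have h2 := LinearMap.finrank_range_add_finrank_ker A.transpose.mulVecLin
  rw [Module.finrank_fintype_fun_eq_card] at h2
  have h3 : Module.finrank F2 (LinearMap.range A.mulVecLin) =
      Module.finrank F2 (LinearMap.range A.transpose.mulVecLin) := (Matrix.rank_transpose A).symm
  have h4 : LinearMap.ker A.transpose.mulVecLin = Submodule.span F2 {(fun _ => 1 : Y → F2)} := by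
    ext w
    rw [LinearMap.mem_ker, Submodule.mem_span_singleton]
    constructor
    · intro hw
      have h : ∀ x, ∑ y, m x y * w y = 0 := fun x => congrFun hw x
      rw [hconn] at h
      obtain ⟨y0⟩ := (inferInstance : Nonempty Y)
      refine ⟨w y0, ?_⟩
      funext y
      rw [Pi.smul_apply, smul_eq_mul, mul_one]
      exact h _ _
    · rintro ⟨r, rfl⟩
      have h : ∀ x, ∑ y, m x y * (r • (fun _ => 1 : Y → F2)) y = 0 := by
        rw [hconn]
        intro y y'
        simp
      funext x
      exact h x
  have h4' : Module.finrank F2 (LinearMap.ker A.transpose.mulVecLin) = 1 := by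
    rw [h4]
    apply finrank_span_singleton
    intro h
    obtain ⟨y0⟩ := (inferInstance : Nonempty Y)
    have := congrFun h y0
    simp at this
  have h5 : LinearMap.ker A.mulVecLin = K := by
    ext z
    rw [LinearMap.mem_ker, hK]
    constructor
    · intro h y
      have h' : ∑ x, m x y * z x = 0 := congrFun h y
      rw [← h']
      exact Finset.sum_congr rfl fun x _ => mul_comm _ _
    · intro h
      funext y
      have h' := h y
      show ∑ x, m x y * z x = 0
      rw [← h']
      exact Finset.sum_congr rfl fun x _ => mul_comm _ _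
  rw [h5] at h1
  omega

private theorem f2_add_eq_zero (x y : F2) : x + y = 0 ↔ x = y := by
  revert x y
  decide

theorem finrank_cyc [Fintype V] (hG : G.Connected) :
    Module.finrank F2 (cyc G) + Nat.card V = Nat.card G.edgeSet + 1 := by
  have : Nonempty V := hG.nonempty
  rw [Nat.card_eq_fintype_card, Nat.card_eq_fintype_card]
  have key : ∀ (e : G.edgeSet) (w : V → F2),
      ∑ y, ((if (rp e).1.fst = y then (1 : F2) else 0) + (if (rp e).1.snd = y then 1 else 0)) * w y =
        w (rp e).1.fst + w (rp e).1.snd := by
    intro e w
    simp only [add_mul, Finset.sum_add_distrib, ite_mul, one_mul, zero_mul, Finset.sum_ite_eq, Finset.mem_univ,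
      if_true]
  apply finrank_ker_eq (fun (e : G.edgeSet) (v : V) =>
    (if (rp e).1.fst = v then (1 : F2) else 0) + (if (rp e).1.snd = v then 1 else 0))
  · intro w
    constructor
    · intro h
      have hadj : ∀ u v, G.Adj u v → w u = w v := by
        intro u v huv
        have h1 := h ⟨s(u, v), huv⟩
        rw [key, f2_add_eq_zero] at h1
        have h2 : (rp ⟨s(u, v), huv⟩ : Flag G).1.edge = s(u, v) := congrArg Subtype.val (ed_rp ⟨s(u, v), huv⟩)
        have h3 : s((rp ⟨s(u, v), huv⟩ : Flag G).1.fst, (rp ⟨s(u, v), huv⟩ : Flag G).1.snd) = s(u, v) := h2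
        rw [Sym2.eq_iff] at h3
        rcases h3 with ⟨h4, h5⟩ | ⟨h4, h5⟩
        · exact (congrArg w h4).symm.trans (h1.trans (congrArg w h5))
        · exact (congrArg w h5).symm.trans (h1.symm.trans (congrArg w h4))
      intro y y'
      obtain ⟨p⟩ := hG.preconnected y y'
      induction p with
      | nil => rfl
      | cons hh _ ih => exact (hadj _ _ hh).trans ih
    · intro h e
      rw [key, f2_add_eq_zero]
      exact h _ _
  · intro z
    show (∀ v, ∑ d ∈ univ.filter (fun d : G.Dart => d.fst = v), z (ed (d, true)) = 0) ↔ _
    apply forall_congr'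
    intro v
    rw [Finset.sum_filter, sum_edges]
    apply Eq.congr _ rfl
    apply Finset.sum_congr rfl
    intro e _
    have h1 : ed ((rp e).1, true) = e := by
      conv_rhs => rw [← ed_rp e]
      rfl
    have h2 : ed ((rp e).1.symm, true) = e := by
      conv_rhs => rw [← ed_rp e]
      apply Subtype.ext
      exact (rp e).1.edge_symm
    rw [h1, h2]
    show (if (rp e).1.fst = v then z e else 0) + (if (rp e).1.snd = v then z e else 0) = _
    rw [mul_add, mul_ite, mul_ite, mul_one, mul_zero]

end Pool.Agent.BEO
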