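import Pool.Agent.BEO.Base

/-!
# BEO: the linear data of an embedding

`Φ` faces, `E` edges (each with its two faces `s e`, `t e`), `Z` the cycle space, `z F` the boundary of the face `F`,
`a e` the coordinate at the edge `e`, `J` the form of the embedding.
-/

set_option autoImplicit false

open Finset
open scoped Classical

namespace Pool.Agent.BEO

/-- walks in the dual graph, as lists of edges -/
inductive DW {Φ E : Type} (s t : E → Φ) : Φ → Φ → List E → Prop
  | nil (F : Φ) : DW s t F F []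
  | cons (F G H : Φ) (e : E) (l : List E) :
      ((s e = F ∧ t e = G) ∨ (s e = G ∧ t e = F)) → DW s t G H l → DW s t F H (e :: l)

/-- even sets of edges of the dual graph -/
def Ev {Φ E : Type} (s t : E → Φ) (ν : Finset E) : Prop :=
  ∀ F, ∑ e ∈ ν, ((if s e = F then (1 : F2) else 0) + (if t e = F then 1 else 0)) = 0

/-- the elements which occur an odd number of times -/
noncomputable def oddE {E : Type} [Fintype E] (l : List E) : Finset E := univ.filter fun e => l.count e % 2 = 1

/-- The linear data. -/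
structure Dat (k : ℕ) (Φ E Z : Type) [Fintype Φ] [Fintype E] [AddCommGroup Z] [Module F2 Z] where
  /-- one face of an edge -/
  s : E → Φ
  /-- the other face of an edge -/
  t : E → Φ
  /-- boundary of a face -/
  z : Φ → Z
  /-- coordinate -/
  a : E → Z →ₗ[F2] F2
  /-- the form -/
  J : Z →ₗ[F2] Z →ₗ[F2] F2
  symm : ∀ x y, J x y = J y x
  inc : ∀ e F, a e (z F) = (if s e = F then 1 else 0) + (if t e = F then 1 else 0)
  rad : ∀ x, (∀ y, J x y = 0) ↔ x ∈ Submodule.span F2 (Set.range z)
  sep : ∀ x, (∀ e, a e x = 0) → x = 0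
  rk : Module.finrank F2 (LinearMap.range J) = k
  wide : ∀ (F : Φ) (l : List E), DW s t F F l → l.length ≤ 6 → (l.map a).sum = 0

namespace Dat

variable {k : ℕ} {Φ E Z : Type} [Fintype Φ] [Fintype E] [AddCommGroup Z] [Module F2 Z] (D : Dat k Φ E Z)

/-- the form of the twist along `lam` -/
noncomputable def N (lam : Finset E) : Z →ₗ[F2] Z →ₗ[F2] F2 := D.J + ∑ e ∈ lam, (D.a e).smulRight (D.a e)

/-- the twist is orientable -/
def Adm (lam : Finset E) : Prop := ∀ x, D.N lam x x = 0

/-- its Euler genus -/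
noncomputable def rkN (lam : Finset E) : ℕ := Module.finrank F2 (LinearMap.range (D.N lam))

/-- `lam` is admissible of least rank, then of least size; `mu ⊆ lam` is admissible of least size. -/
structure Min (lam mu : Finset E) : Prop where
  adm : D.Adm lam
  opt : ∀ lam', D.Adm lam' → D.rkN lam ≤ D.rkN lam'
  small : ∀ lam', D.Adm lam' → D.rkN lam' ≤ D.rkN lam → lam.card ≤ lam'.card
  sub : mu ⊆ lam
  admM : D.Adm mu
  smallM : ∀ mu', mu' ⊆ lam → D.Adm mu' → mu.card ≤ mu'.card

/-- the graph of a set of edges of the dual graph -/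
def gr (lam : Finset E) : SimpleGraph Φ where
  Adj F G := F ≠ G ∧ ∃ e ∈ lam, (D.s e = F ∧ D.t e = G) ∨ (D.s e = G ∧ D.t e = F)
  symm := ⟨by
    rintro F G ⟨h, e, he, h1 | h1⟩
    · exact ⟨h.symm, e, he, Or.inr h1⟩
    · exact ⟨h.symm, e, he, Or.inl h1⟩⟩
  loopless := ⟨fun F h => h.1 rfl⟩

end Dat

/-- A decomposition of `lam` into `m` walks such that every even subset is a union of some of them. -/
structure LegSys {Φ E : Type} (s t : E → Φ) (lam : Finset E) (m : ℕ) where
  /-- start -/
  src : Fin m → Φ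
  /-- end -/
  tgt : Fin m → Φ
  /-- the walk -/
  w : Fin m → List E
  dw : ∀ i, DW s t (src i) (tgt i) (w i)
  ne : ∀ i, w i ≠ []
  nd : ∀ i, (w i).Nodup
  dj : ∀ i j, i ≠ j → ∀ e, e ∈ w i → e ∉ w j
  cov : ∀ e, e ∈ lam ↔ ∃ i, e ∈ w i
  un : ∀ ν, ν ⊆ lam → Ev s t ν → ∀ i, (∀ e ∈ w i, e ∈ ν) ∨ (∀ e ∈ w i, e ∉ ν)

end Pool.Agent.BEO
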