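import Pool.Agent.BEO.Alg
import Pool.Agent.Helper47.TR.FPx

/-!
# BEO-FpB: association lists in polynomial time

PLAN. `fp_eq`: `bitEncode` is injective (the `Encoding` has a decoder), `FP.recode`
(`Pool/Agent/Helper6/WB/Arith.lean`) turns a function into the function giving the code as a `List Bool` (see
`FP.bits`: `PT.quote`), and `FP.bitsEq` compares. `fp_filter_ctx`: `FP.flatMap_ctx` with `if h then [b] else []`.
`fp_look`: filter with the context `x`, then `isEmpty`, `headD`. `fp_memb`: `FP.any_ctx`. `fp_par`: filter, `length`,
parity of the length (fold of `not`, or `FP.odd` in `FPx.lean`). `fp_ddp`: `FP.foldl`; the accumulator is a list of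
elements of `l`, its size is at most the size of `l` plus the initial one. `fp_mapc`, `fp_flat`: convenient forms of
`FP.map_ctx`, `FP.flatMap_ctx`.
-/

set_option autoImplicit false

namespace Pool.Agent.BEO

open Turing Function N487b59b3 N68a2faeb Pool.Agent.Helper22 Pool.Agent.Helper6.WB Pool.Agent.Helper47.TR Computability

section

variable {α β γ δ : Type} [N487b59b3 α] [N487b59b3 β] [N487b59b3 γ] [N487b59b3 δ]

private theorem fpb_enc {f : α → β} (hf : FP f) : FP fun a => bitEncode (f a) := by
  have h : FP fun b : β => bitEncode b := PT.quote.mono (by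
    rintro x z ⟨a, rfl, rfl⟩
    exact enc_bits _)
  exact h.comp hf

theorem fp_eq [DecidableEq β] {f g : α → β} (hf : FP f) (hg : FP g) : FP fun a => decide (f a = g a) := by
  have h := FP.bitsEq (fpb_enc hf) (fpb_enc hg)
  refine (congrArg FP (funext fun a => ?_)).mp h
  exact decide_eq_decide.mpr ⟨fun h => bitEncode_injective h, fun h => by rw [h]⟩

theorem fp_mapc [Inhabited β] {h : α × β → γ} (hh : FP h) {l : α → List β} (hl : FP l) :
    FP fun a => (l a).map fun b => h (a, b) :=
  (FP.map_ctx hh).comp (FP.pair FP.id hl)

theorem fp_flat [Inhabited β] {h : α × β → List γ} (hh : FP h) {l : α → List β} (hl : FP l) :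
    FP fun a => (l a).flatMap fun b => h (a, b) :=
  (FP.flatMap_ctx hh).comp (FP.pair FP.id hl)

theorem fp_filt [Inhabited β] {h : α × β → Bool} (hh : FP h) {l : α → List β} (hl : FP l) :
    FP fun a => (l a).filter fun b => h (a, b) := by
  have h1 : FP fun q : α × β => if h q then [q.2] else [] :=
    FP.ite hh (FP.cons FP.snd (FP.const [])) (FP.const [])
  have h2 := fp_flat h1 hl
  refine (congrArg FP (funext fun a => ?_)).mp h2
  simp only
  induction (l a) with
  | nil => rfl
  | cons b l ih =>
    rw [List.flatMap_cons, ih, List.filter_cons]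
    split_ifs <;> simp

theorem fp_look [DecidableEq β] [Inhabited β] [Inhabited γ] {l : α → List (β × γ)} {x : α → β} {d : α → γ} (hl : FP l)
    (hx : FP x) (hd : FP d) : FP fun a => look (l a) (x a) (d a) := by
  have h1 : FP fun q : α × (β × γ) => decide (q.2.1 = x q.1) :=
    fp_eq (FP.fst.comp FP.snd) (hx.comp FP.fst)
  have h2 := fp_filt h1 hl
  have h3 := FP.ite (FP.isEmpty h2) hd (FP.snd' (FP.headD h2 default))
  refine (congrArg FP (funext fun a => ?_)).mp h3
  unfold look
  simp only
  cases (l a).filter fun b => decide (b.1 = x a) with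
  | nil => simp
  | cons b m => simp

theorem fp_memb [DecidableEq β] [Inhabited β] {l : α → List β} {x : α → β} (hl : FP l) (hx : FP x) :
    FP fun a => memb (l a) (x a) := by
  have h1 : FP fun q : β × β => decide (q.2 = q.1) := fp_eq FP.snd FP.fst
  exact (FP.any_ctx h1).comp (FP.pair hx hl)

theorem fp_par [DecidableEq β] [Inhabited β] {l : α → List β} {x : α → β} (hl : FP l) (hx : FP x) :
    FP fun a => par (l a) (x a) := by
  have h1 : FP fun q : α × β => decide (q.2 = x q.1) := fp_eq FP.snd (hx.comp FP.fst)
  exact FP.odd (fp_filt h1 hl)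

theorem fp_ddp [DecidableEq β] [Inhabited β] {l : α → List β} (hl : FP l) : FP fun a => ddp (l a) := by
  have h1 : FP fun p : List β × List β =>
      p.1.foldl (fun acc x => if memb acc x then acc else x :: acc) p.2 := by
    refine FP.foldl (g := fun (acc : List β) (x : β) => if memb acc x then acc else x :: acc)
      (FP.ite (fp_memb FP.fst FP.snd) FP.fst (FP.cons FP.snd FP.fst)) (B := fun n => n) (by fun_prop) ?_
    intro l a
    induction l generalizing a with
    | nil => simp
    | cons b l ih =>
      rw [List.foldl_cons]
      refine (ih _).trans ?_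
      rw [sz_cons]
      split_ifs
      · omega
      · rw [sz_cons]
        omega
  exact h1.comp (FP.pair hl (FP.const []))

end

end Pool.Agent.BEO
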