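import Pool.Agent.BEO.FpB

/-!
# BEO-FpC: classes in polynomial time
-/

set_option autoImplicit false

namespace Pool.Agent.BEO

open Turing Function N487b59b3 N68a2faeb Pool.Agent.Helper22 Pool.Agent.Helper6.WB Pool.Agent.Helper47.TR Computability

section

variable {α β γ δ : Type} [N487b59b3 α] [N487b59b3 β] [N487b59b3 γ] [N487b59b3 δ]

private theorem sz_list_le (l : List β) (C : ℕ) (h : ∀ b ∈ l, sz b ≤ C) :
    sz l ≤ l.length * (2 * C + 1) := by
  have h1 := sz_map_le (fun b : β => b) l C h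
  rwa [List.map_id'] at h1

private theorem look_sz [DecidableEq β] (lab : List (β × β)) (x d : β) (C : ℕ)
    (h : ∀ q ∈ lab, sz q.2 ≤ C) (hd : sz d ≤ C) : sz (look lab x d) ≤ C := by
  unfold look
  rcases hl : lab.filter fun p => decide (p.1 = x) with _ | ⟨q, l⟩
  · rw [hl]
    exact hd
  · have h1 : q ∈ lab.filter fun p => decide (p.1 = x) := by
      rw [hl]
      exact List.mem_cons_self
    rw [hl]
    exact h q (List.mem_of_mem_filter h1)

private theorem mrg_sz [DecidableEq β] (lab : List (β × β)) (r : β × β) (C D : ℕ)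
    (h : ∀ q ∈ lab, sz q.1 ≤ D ∧ sz q.2 ≤ C) (hr : sz r.2 ≤ C) :
    ∀ q ∈ mrg lab r, sz q.1 ≤ D ∧ sz q.2 ≤ C := by
  intro q hq
  unfold mrg at hq
  obtain ⟨p, hp, rfl⟩ := List.mem_map.1 hq
  refine ⟨(h p hp).1, ?_⟩
  change sz (if decide (p.2 = look lab r.1 r.1) then look lab r.2 r.2 else p.2) ≤ C
  split_ifs
  · exact look_sz lab r.2 r.2 C (fun q hq => (h q hq).2) hr
  · exact (h p hp).2

private theorem foldl_mrg [DecidableEq β] (l lab : List (β × β)) (C D : ℕ)
    (h : ∀ q ∈ lab, sz q.1 ≤ D ∧ sz q.2 ≤ C) (hr : ∀ r ∈ l, sz r.2 ≤ C) :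
    (l.foldl mrg lab).length = lab.length ∧ ∀ q ∈ l.foldl mrg lab, sz q.1 ≤ D ∧ sz q.2 ≤ C := by
  induction l generalizing lab with
  | nil => exact ⟨rfl, h⟩
  | cons r l ih =>
    have h1 := mrg_sz lab r C D h (hr r List.mem_cons_self)
    obtain ⟨h2, h3⟩ := ih (mrg lab r) h1 (fun r' hr' => hr r' (List.mem_cons_of_mem _ hr'))
    refine ⟨?_, h3⟩
    rw [List.foldl_cons, h2]
    unfold mrg
    exact List.length_map _

private theorem fp_mrg [DecidableEq β] [Inhabited β] :
    FP fun p : List (β × β) × (β × β) => mrg p.1 p.2 := by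
  have h1 : FP fun w : (List (β × β) × (β × β)) × (β × β) => look w.1.1 w.1.2.1 w.1.2.1 :=
    fp_look (by fun_prop) (by fun_prop) (by fun_prop)
  have h2 : FP fun w : (List (β × β) × (β × β)) × (β × β) => look w.1.1 w.1.2.2 w.1.2.2 :=
    fp_look (by fun_prop) (by fun_prop) (by fun_prop)
  have h3 : FP fun w : (List (β × β) × (β × β)) × (β × β) =>
      decide (w.2.2 = look w.1.1 w.1.2.1 w.1.2.1) := fp_eq (by fun_prop) h1
  have h4 : FP fun w : (List (β × β) × (β × β)) × (β × β) =>
      (w.2.1, if decide (w.2.2 = look w.1.1 w.1.2.1 w.1.2.1) then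
        look w.1.1 w.1.2.2 w.1.2.2 else w.2.2) :=
    FP.pair (by fun_prop) (FP.ite h3 h2 (by fun_prop))
  exact fp_mapc (h := fun w : (List (β × β) × (β × β)) × (β × β) =>
      (w.2.1, if decide (w.2.2 = look w.1.1 w.1.2.1 w.1.2.1) then
        look w.1.1 w.1.2.2 w.1.2.2 else w.2.2)) h4
    (l := fun p : List (β × β) × (β × β) => p.1) (by fun_prop)

theorem fp_comp [DecidableEq β] [Inhabited β] {pts : α → List β} {rel : α → List (β × β)} (hp : FP pts)
    (hr : FP rel) : FP fun a => comp (pts a) (rel a) := by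
  have h1 : FP fun p : List (β × β) × List (β × β) => p.1.foldl mrg p.2 := by
    refine FP.foldl (g := mrg) fp_mrg (B := fun n => n * (2 * (2 * n + 1 + n) + 1)) (by fun_prop) ?_
    intro l lab
    have h2 : ∀ q ∈ lab, sz q.1 ≤ sz l + sz lab ∧ sz q.2 ≤ sz l + sz lab := by
      intro q hq
      have h3 := sz_mem_le hq
      obtain ⟨u, v⟩ := q
      rw [sz_pair] at h3
      constructor <;> simp only <;> omega
    have h3 : ∀ r ∈ l, sz r.2 ≤ sz l + sz lab := by
      intro r hr
      have h4 := sz_mem_le hr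
      obtain ⟨u, v⟩ := r
      rw [sz_pair] at h4
      simp only
      omega
    obtain ⟨h4, h5⟩ := foldl_mrg l lab (sz l + sz lab) (sz l + sz lab) h2 h3
    have h6 := sz_list_le (l.foldl mrg lab) (2 * (sz l + sz lab) + 1 + (sz l + sz lab))
      (by
        rintro ⟨u, v⟩ hq
        obtain ⟨h7, h8⟩ := h5 _ hq
        simp only at h7 h8
        rw [sz_pair]
        omega)
    rw [h4] at h6
    refine h6.trans (Nat.mul_le_mul_right _ ?_)
    have h7 := length_le_sz lab
    omega
  have h2 : FP fun a => (pts a).map fun x => (x, x) := FP.map (by fun_prop) hp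
  exact h1.comp (hr.pair h2)

end

end Pool.Agent.BEO
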