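import Pool.Agent.BEO.FpC

/-!
# BEO-FpG: the faces in polynomial time
-/

set_option autoImplicit false

namespace Pool.Agent.BEO

open Turing Function N487b59b3 N68a2faeb Pool.Agent.Helper22 Pool.Agent.Helper6.WB Pool.Agent.Helper47.TR Computability

section

variable {α β γ δ : Type} [N487b59b3 α] [N487b59b3 β] [N487b59b3 γ] [N487b59b3 δ]

theorem fp_sd {f : α → Pt} (hf : FP f) : FP fun a => sd (f a) :=
  FP.pair hf.fst' (FP.pair hf.snd'.fst' hf.snd'.snd'.not)

theorem fp_ac {f : α → Pt} (hf : FP f) : FP fun a => ac (f a) :=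
  FP.pair hf.snd'.fst' (FP.pair hf.fst' hf.snd'.snd'.not)

theorem fp_ek {f : α → Pt} (hf : FP f) : FP fun a => ek (f a) :=
  FP.ite (FP.natLe hf.fst' hf.snd'.fst') (FP.pair hf.fst' hf.snd'.fst') (FP.pair hf.snd'.fst' hf.fst')

theorem fp_fl {f : α → Inp} (hf : FP f) : FP fun a => fl (f a) :=
  fp_ddp (FP.map FP.fst hf)

private theorem fp_phi {c : α → List Ec} {p : α → Pt} (hc : FP c) (hp : FP p) : FP fun a => phi (c a) (p a) :=
  FP.ite (FP.and (fp_par hc (fp_ek hp)) (FP.natLe hp.fst' hp.snd'.fst')) (fp_sd hp) hp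

theorem fp_nxc {f : α → Inp} {c : α → List Ec} {p : α → Pt} (hf : FP f) (hc : FP c) (hp : FP p) :
    FP fun a => nxc (f a) (c a) (p a) :=
  fp_phi hc (fp_look hf (fp_phi hc hp) hp)

private theorem fp_relF {f : α → Inp} {c : α → List Ec} (hf : FP f) (hc : FP c) : FP fun a => relF (f a) (c a) := by
  have h : FP fun q : α × Pt => [(q.2, nxc (f q.1) (c q.1) q.2), (q.2, ac q.2)] :=
    FP.cons (FP.pair FP.snd (fp_nxc (hf.comp FP.fst) (hc.comp FP.fst) FP.snd))
      (FP.cons (FP.pair FP.snd (fp_ac FP.snd)) (FP.const []))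
  exact fp_flat h (fp_fl hf)

theorem fp_fcs {f : α → Inp} {c : α → List Ec} (hf : FP f) (hc : FP c) : FP fun a => fcs (f a) (c a) :=
  fp_comp (fp_fl hf) (fp_relF hf hc)

theorem fp_nF {f : α → Inp} {c : α → List Ec} (hf : FP f) (hc : FP c) : FP fun a => nF (f a) (c a) :=
  FP.length (fp_ddp (FP.map FP.snd (fp_fcs hf hc)))

end

end Pool.Agent.BEO
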