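import Pool.Agent.BEO.ExL
import Pool.Agent.BEO.DLf

/-!
# BEO-Frm: the form of a map
-/

set_option autoImplicit false

open Finset
open scoped Classical

namespace Pool.Agent.BEO

open Pool.Agent.Helper35.OG (Flag GMap across side across_across side_side across_ne side_ne side_fst across_fst vertex_const
  all_const exists_flag face_nxt face_across face_surj nxt_inj sum_inv eqvGen_eq IsBand)

variable {V : Type} {G : SimpleGraph V}

private theorem dL_add (L L' : Flag G → F2) (e : G.edgeSet) : dL (L + L') e = dL L e + dL L' e := by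
  unfold dL
  simp only [Pi.add_apply]
  ring

private theorem dL_smul (a : F2) (L : Flag G → F2) (e : G.edgeSet) : dL (a • L) e = a * dL L e := by
  unfold dL
  simp only [Pi.smul_apply, smul_eq_mul]
  ring

private theorem isL_smul {M : GMap G} (a : F2) {z : G.edgeSet → F2} {L : Flag G → F2} (h : IsL M z L) :
    IsL M (a • z) (a • L) := by
  refine ⟨fun p => ?_, fun p => ?_⟩
  · simp only [Pi.smul_apply, h.1 p]
  · simp only [Pi.smul_apply, smul_eq_mul, ← h.2 p]
    ring

private theorem pot_eq [Fintype V] (M : GMap G) (z z' : cyc G) {L L' : Flag G → F2}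
    (h : IsL M z.1 L) (h' : IsL M z.1 L') :
    ∑ e, dL L e * z'.1 e = ∑ e, dL L' e * z'.1 e := by
  obtain ⟨cv, hcv⟩ : ∃ cv : V → F2, ∀ p : Flag G, L p + L' p = cv p.1.fst := by
    refine ⟨fun v => if hv : ∃ p : Flag G, p.1.fst = v then
      L (Classical.choose hv) + L' (Classical.choose hv) else 0, fun p => ?_⟩
    have hv : ∃ q : Flag G, q.1.fst = p.1.fst := ⟨p, rfl⟩
    beta_reduce
    rw [dif_pos hv]
    exact isL_vert h h' (Classical.choose_spec hv).symm
  have h1 : (fun p : Flag G => cv p.1.fst) = L + L' := by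
    funext p
    exact (hcv p).symm
  have h2 := dL_orth cv z'.1 z'.2
  rw [h1] at h2
  have h3 : ∑ e, dL L e * z'.1 e + ∑ e, dL L' e * z'.1 e = 0 := by
    rw [← Finset.sum_add_distrib, ← h2]
    refine Finset.sum_congr rfl fun e _ => ?_
    rw [dL_add, add_mul]
  exact CharTwo.add_eq_zero.1 h3

theorem frm_exists [Fintype V] (M : GMap G) : ∃ J : cyc G →ₗ[F2] cyc G →ₗ[F2] F2,
    ∀ (z z' : cyc G) (L : Flag G → F2), IsL M z.1 L → J z z' = ∑ e, dL L e * z'.1 e := by
  have hex : ∀ z : cyc G, ∃ L, IsL M z.1 L := fun z => exists_L M z.1 z.2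
  choose P hP using hex
  refine ⟨LinearMap.mk₂ F2 (fun z z' => ∑ e, dL (P z) e * z'.1 e) ?_ ?_ ?_ ?_, ?_⟩
  · intro z w z'
    rw [pot_eq M (z + w) z' (hP (z + w)) (isL_add (hP z) (hP w)), ← Finset.sum_add_distrib]
    refine Finset.sum_congr rfl fun e _ => ?_
    rw [dL_add, add_mul]
  · intro a z z'
    rw [pot_eq M (a • z) z' (hP (a • z)) (isL_smul a (hP z)), smul_eq_mul, Finset.mul_sum]
    refine Finset.sum_congr rfl fun e _ => ?_
    rw [dL_smul, mul_assoc]
  · intro z z' w'
    rw [← Finset.sum_add_distrib]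
    refine Finset.sum_congr rfl fun e _ => ?_
    rw [← mul_add]
    rfl
  · intro a z z'
    rw [smul_eq_mul, Finset.mul_sum]
    refine Finset.sum_congr rfl fun e _ => ?_
    have : (a • z').1 e = a * z'.1 e := rfl
    rw [this]
    ring
  · intro z z' L hL
    rw [LinearMap.mk₂_apply]
    exact pot_eq M z z' (hP z) hL

/-- the form of a map -/
noncomputable def frm [Fintype V] (M : GMap G) : cyc G →ₗ[F2] cyc G →ₗ[F2] F2 := Classical.choose (frm_exists M)

theorem frm_eq [Fintype V] (M : GMap G) (z z' : cyc G) {L : Flag G → F2} (h : IsL M z.1 L) :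
    frm M z z' = ∑ e, dL L e * z'.1 e := Classical.choose_spec (frm_exists M) z z' L h

end Pool.Agent.BEO
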