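import Pool.Agent.BEO.Frm

/-!
# BEO-FrmSym: the form is symmetric
-/

set_option autoImplicit false

open Finset
open scoped Classical

namespace Pool.Agent.BEO

open Pool.Agent.Helper35.OG (Flag GMap across side across_across side_side across_ne side_ne side_fst across_fst vertex_const
  all_const exists_flag face_nxt face_across face_surj nxt_inj sum_inv eqvGen_eq IsBand)

variable {V : Type} {G : SimpleGraph V}

private theorem sum_flags [Fintype V] (f : Flag G → F2) :
    ∑ p, f p = ∑ e : G.edgeSet, ((f (rp e) + f (side (rp e))) +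
      (f (across (rp e)) + f (side (across (rp e))))) := by
  have h1 : ∑ p, f p = ∑ d : G.Dart, (f (d, true) + f (d, false)) := by
    rw [Fintype.sum_prod_type]
    refine Finset.sum_congr rfl fun d _ => ?_
    rw [Fintype.sum_bool]
  rw [h1, sum_edges]
  refine Finset.sum_congr rfl fun e _ => ?_
  obtain ⟨d, b⟩ := rp e
  cases b
  · show (f (d, true) + f (d, false)) + (f (d.symm, true) + f (d.symm, false)) =
      (f (d, false) + f (d, true)) + (f (d.symm, true) + f (d.symm, false))
    ring
  · show (f (d, true) + f (d, false)) + (f (d.symm, true) + f (d.symm, false)) =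
      (f (d, true) + f (d, false)) + (f (d.symm, false) + f (d.symm, true))
    ring

theorem frm_symm [Fintype V] (M : GMap G) (z z' : cyc G) : frm M z z' = frm M z' z := by
  obtain ⟨L, hL⟩ := exists_L M z.1 z.2
  obtain ⟨L', hL'⟩ := exists_L M z'.1 z'.2
  rw [frm_eq M z z' hL, frm_eq M z' z hL']
  have h2 : (2 : F2) = 0 := rfl
  have h0 : ∑ p, L p * L' p = 0 := by
    refine sum_inv M.nxt M.nxt_nxt M.nxt_ne (fun p => L p * L' p) fun p => ?_
    show L (M.nxt p) * L' (M.nxt p) = L p * L' p
    rw [hL.1, hL'.1]
  rw [sum_flags] at h0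
  have h3 : ∑ e : G.edgeSet, (dL L e * z'.1 e + dL L' e * z.1 e) = 0 := by
    rw [← h0]
    refine Finset.sum_congr rfl fun e _ => ?_
    have a1 := hL.2 (rp e)
    have a2 := hL'.2 (rp e)
    have a3 := hL.2 (across (rp e))
    have a4 := hL'.2 (across (rp e))
    rw [ed_rp] at a1 a2
    rw [ed_across, ed_rp] at a3 a4
    have b1 : L (side (rp e)) = z.1 e - L (rp e) := by linear_combination a1
    have b2 : L' (side (rp e)) = z'.1 e - L' (rp e) := by linear_combination a2
    have b3 : L (side (across (rp e))) = z.1 e - L (across (rp e)) := by linear_combination a3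
    have b4 : L' (side (across (rp e))) = z'.1 e - L' (across (rp e)) := by
      linear_combination a4
    rw [b1, b2, b3, b4]
    unfold dL
    linear_combination (-(L (rp e) * L' (rp e)) - L (across (rp e)) * L' (across (rp e))
      - z.1 e * z'.1 e + L (rp e) * z'.1 e + L (across (rp e)) * z'.1 e + L' (rp e) * z.1 e
      + L' (across (rp e)) * z.1 e) * h2
  rw [Finset.sum_add_distrib] at h3
  linear_combination h3 - (∑ e, dL L' e * z.1 e) * h2

end Pool.Agent.BEO
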