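import Pool.Agent.BEO.Frm
import Pool.Agent.BEO.FrmSym
import Pool.Agent.BEO.BdF
import Pool.Agent.BEO.CutEx

/-!
# BEO-FrmRad: the radical of the form is spanned by the boundaries of the faces

PLAN. `→`: let `L` be a potential of `z`. `horth` for `h e := dL L e` gives `cv` with
`L p + L (across p) = cv p.1.fst + cv p.1.snd` (`dL_eq`); replace `L` by `L' p := L p + cv p.1.fst`, still a potential
(`nxt` and `side` preserve the vertex) and now invariant under `across`: `L'` is invariant under `nxt` and `across`,
so it factors through `M.face`: `L' p = φ (M.face p)`. Then `z (ed p) = φ (face p) + φ (face (side p)) =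
∑ F, φ F * (bdF M F) (ed p)`. `←`: for `z = bdF M F` take the potential `L p := [face p = F]`: `dL L = 0`
(`face_across`), so `frm M z z' = 0`; extend to the span by linearity (`Submodule.span_induction`).
-/

set_option autoImplicit false

open Finset
open scoped Classical

namespace Pool.Agent.BEO

open Pool.Agent.Helper35.OG (Flag GMap across side across_across side_side across_ne side_ne side_fst across_fst vertex_const
  all_const exists_flag face_nxt face_across face_surj nxt_inj sum_inv eqvGen_eq IsBand)

variable {V : Type} {G : SimpleGraph V}

theorem frm_rad [Fintype V] (M : GMap G) (z : cyc G) :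
    (∀ z', frm M z z' = 0) ↔ z ∈ Submodule.span F2 (Set.range (bdF M)) := by
  obtain ⟨L, hL⟩ := exists_L M z.1 z.2
  constructor
  · intro h
    obtain ⟨cv, hcv⟩ := cut_exists (dL L) (fun z' hz' => by
      have h1 := h ⟨z', hz'⟩
      rw [frm_eq M z ⟨z', hz'⟩ hL] at h1
      exact h1)
    have h2 : ∀ p : Flag G, L p + L (across p) = cv p.1.fst + cv p.1.snd := by
      intro p
      rw [← dL_eq hL p]
      exact hcv p
    let L' : Flag G → F2 := fun p => L p + cv p.1.fst
    have h3 : ∀ p, L' (across p) = L' p := by
      intro p
      show L (across p) + cv p.1.snd = L p + cv p.1.fst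
      have h4 := h2 p
      have h5 : ∀ a b c d : F2, a + b = c + d → b + d = a + c := by decide
      exact h5 _ _ _ _ h4
    have h6 : ∀ p, L' (M.nxt p) = L' p := by
      intro p
      show L (M.nxt p) + cv (M.nxt p).1.fst = L p + cv p.1.fst
      rw [hL.1 p, M.nxt_fst p]
    let φ : M.Face → F2 := Quot.lift L' (by
      rintro p q (h7 | h7)
      · rw [h7, h6]
      · rw [h7, h3])
    have h8 : z = ∑ F : M.Face, φ F • bdF M F := by
      apply Subtype.ext
      funext e
      rw [← ed_rp e]
      have h9 : (∑ F : M.Face, φ F • bdF M F : cyc G).1 (ed (rp e)) = ∑ F : M.Face, φ F * (bdF M F).1 (ed (rp e)) := by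
        rw [Submodule.coe_sum]
        rw [Finset.sum_apply]
        rfl
      rw [h9]
      simp only [bdF_eq, mul_add, Finset.sum_add_distrib]
      simp only [mul_ite, mul_one, mul_zero, Finset.sum_ite_eq, Finset.mem_univ, if_true]
      have h10 := hL.2 (rp e)
      rw [← h10]
      show L (rp e) + L (side (rp e)) = (L (rp e) + cv (rp e).1.fst) + (L (side (rp e)) + cv (rp e).1.fst)
      have h11 : ∀ a b c : F2, a + b = (a + c) + (b + c) := by decide
      exact h11 _ _ _
    rw [h8]
    apply Submodule.sum_mem
    intro F _
    exact Submodule.smul_mem _ _ (Submodule.subset_span ⟨F, rfl⟩)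
  · intro h
    have hker : Submodule.span F2 (Set.range (bdF M)) ≤ LinearMap.ker (frm M) := by
      rw [Submodule.span_le]
      rintro _ ⟨F, rfl⟩
      show frm M (bdF M F) = 0
      apply LinearMap.ext
      intro z'
      have hI : IsL M (bdF M F).1 (fun p => if M.face p = F then 1 else 0) := by
        constructor
        · intro p
          show (if M.face (M.nxt p) = F then (1 : F2) else 0) = if M.face p = F then 1 else 0
          rw [face_nxt]
        · intro p
          rw [bdF_eq]
      rw [frm_eq M _ z' hI, LinearMap.zero_apply]
      apply Finset.sum_eq_zero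
      intro e _
      have h12 : dL (fun p : Flag G => if M.face p = F then (1 : F2) else 0) e = 0 := by
        show (if M.face (rp e) = F then (1 : F2) else 0) + (if M.face (across (rp e)) = F then 1 else 0) = 0
        rw [face_across]
        have h13 : ∀ a : F2, a + a = 0 := by decide
        exact h13 _
      rw [h12, zero_mul]
    have h14 := hker h
    rw [LinearMap.mem_ker] at h14
    intro z'
    rw [h14, LinearMap.zero_apply]


end Pool.Agent.BEO
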