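import Pool.Agent.BEO.FrmRad
import Pool.Agent.BEO.CycDim
import Pool.Agent.BEO.BdDim

/-!
# BEO-FrmRank: the rank of the form is the Euler genus

PLAN. `finrank (range) = finrank (cyc G) - finrank (ker)`, the kernel is the span of the boundaries (`frm_rad`), and
`finrank_cyc`, `finrank_bd`: `(E + 1 - V) - (F - 1) = 2 - V + E - F`.
-/

set_option autoImplicit false

open Finset
open scoped Classical

namespace Pool.Agent.BEO

open Pool.Agent.Helper35.OG (Flag GMap across side across_across side_side across_ne side_ne side_fst across_fst vertex_const
  all_const exists_flag face_nxt face_across face_surj nxt_inj sum_inv eqvGen_eq IsBand)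

variable {V : Type} {G : SimpleGraph V}

theorem frm_rank [Fintype V] [Nontrivial V] (hG : G.Connected) (M : GMap G) :
    ((Module.finrank F2 (LinearMap.range (frm M)) : ℕ) : ℤ) = M.eg := by
  have h1 := LinearMap.finrank_range_add_finrank_ker (frm M)
  have h2 := finrank_cyc hG
  have h3 := finrank_bd hG M
  have h4 : LinearMap.ker (frm M) = Submodule.span F2 (Set.range (bdF M)) := by
    ext z
    rw [LinearMap.mem_ker, ← frm_rad M z]
    constructor
    · intro h z'
      rw [h, LinearMap.zero_apply]
    · intro h
      exact LinearMap.ext h
  rw [h4] at h1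
  unfold Pool.Agent.Helper35.OG.GMap.eg
  omega


end Pool.Agent.BEO
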