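import Pool.Agent.BEO.Base

/-!
# BEO: the four patterns of adjacency to a sequence `p 0, ..., p m`
-/

set_option autoImplicit false

open Finset
open scoped Classical

namespace Pool.Agent.BEO

variable {k : ℕ} {V Q : Type} [Fintype V] [AddCommGroup Q] [Module F2 Q]

/-- `u` is adjacent exactly to `p b` and `p (b + 1)` -/
def PatC (c : Cfg k V Q) (p : ℕ → V) (m b : ℕ) (u : V) : Prop := ∀ a, a ≤ m → (c.L.Adj (p a) u ↔ (a = b ∨ a = b + 1))

/-- `u` is adjacent exactly to `p 0` and `p 2` -/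
def PatH (c : Cfg k V Q) (p : ℕ → V) (m : ℕ) (u : V) : Prop := ∀ a, a ≤ m → (c.L.Adj (p a) u ↔ (a = 0 ∨ a = 2))

/-- `u` is adjacent exactly to `p m` -/
def PatM (c : Cfg k V Q) (p : ℕ → V) (m : ℕ) (u : V) : Prop := ∀ a, a ≤ m → (c.L.Adj (p a) u ↔ a = m)

/-- Every vertex has one of the patterns. -/
structure Pats (c : Cfg k V Q) (p : ℕ → V) (m : ℕ) : Prop where
  hm : 3 ≤ m
  inj : ∀ a b, a ≤ m → b ≤ m → p a = p b → a = b
  pat : ∀ u, (∀ a, a ≤ m → ¬ c.L.Adj (p a) u) ∨ (∃ b, b < m ∧ PatC c p m b u) ∨ PatH c p m u ∨ PatM c p m u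

end Pool.Agent.BEO
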