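import Pool.Agent.BEO.MkD

/-!
# BEO-GenA: twists and the linear data

PLAN. `rkN_twist`: `D.N lam = frm (twist S lam)` (`LinearMap.ext`, `Dat.N_apply`, `twist_frm`; `D.a e z = z.1 e`), then
`frm_rank`. `adm_twist`: `frm_alt`. `exists_lam`: `all_twist` gives `lam` with `D.N lam = frm M`.
-/

set_option autoImplicit false

open Finset
open scoped Classical

namespace Pool.Agent.BEO

open Pool.Agent.Helper35.OG (Flag GMap across side across_across side_side across_ne side_ne side_fst across_fst vertex_const
  all_const exists_flag face_nxt face_across face_surj nxt_inj sum_inv eqvGen_eq IsBand)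

variable {V : Type} {G : SimpleGraph V}

theorem rkN_twist [Fintype V] [LinearOrder V] [Nontrivial V] (S : GMap G) (hG : G.Connected) (k : ℕ)
    (hk : S.eg = k) (hw : Wide S) (lam : Finset G.edgeSet) :
    (((mkDat S hG k hk hw).rkN lam : ℕ) : ℤ) = (twist S lam).eg := by
  have h : (mkDat S hG k hk hw).N lam = frm (twist S lam) := by
    apply LinearMap.ext
    intro x
    apply LinearMap.ext
    intro y
    rw [Dat.N_apply, twist_frm]
    rfl
  unfold Dat.rkN
  rw [h]
  exact frm_rank hG _


theorem adm_twist [Fintype V] [LinearOrder V] [Nontrivial V] (S : GMap G) (hG : G.Connected) (k : ℕ)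
    (hk : S.eg = k) (hw : Wide S) (lam : Finset G.edgeSet) :
    (mkDat S hG k hk hw).Adm lam ↔ (twist S lam).Orientable := by
  rw [frm_alt]
  unfold Dat.Adm
  apply forall_congr'
  intro x
  rw [Dat.N_apply, twist_frm]
  rfl


theorem exists_lam [Fintype V] [Nontrivial V] (S : GMap G) (hG : G.Connected) (k : ℕ) (hk : S.eg = k)
    (hw : Wide S) (h3 : ∀ v, (nb G v).card ≤ 3) (M : GMap G) : ∃ lam : Finset G.edgeSet,
    (((mkDat S hG k hk hw).rkN lam : ℕ) : ℤ) = M.eg ∧ ((mkDat S hG k hk hw).Adm lam ↔ M.Orientable) := by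
  obtain ⟨lam, hlam⟩ := all_twist h3 S M
  have h : (mkDat S hG k hk hw).N lam = frm M := by
    apply LinearMap.ext
    intro x
    apply LinearMap.ext
    intro y
    rw [Dat.N_apply, hlam]
    rfl
  refine ⟨lam, ?_, ?_⟩
  · unfold Dat.rkN
    rw [h]
    exact frm_rank hG _
  · rw [frm_alt]
    unfold Dat.Adm
    rw [h]


end Pool.Agent.BEO
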