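import Pool.Agent.BEO.GDefs

/-!
# BEO-Grp1: parities of the groups
-/

set_option autoImplicit false

open Finset
open scoped Classical

namespace Pool.Agent.BEO

variable {k : ℕ} {V Q : Type} [Fintype V] [AddCommGroup Q] [Module F2 Q] {c : Cfg k V Q}

private theorem CC {p : ℕ → V} {m b b' : ℕ} {u : V} (hb : b < m) (hb' : b' < m)
    (h : PatC c p m b u) (h' : PatC c p m b' u) : b' = b := by
  have h1 := (h' b hb.le).1 ((h b hb.le).2 (Or.inl rfl))
  have h2 := (h b' hb'.le).1 ((h' b' hb'.le).2 (Or.inl rfl))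
  omega

private theorem CH {p : ℕ → V} {m b : ℕ} {u : V} (hm : 3 ≤ m)
    (h : PatC c p m b u) (h' : PatH c p m u) : False := by
  have h1 := (h 0 (by omega)).1 ((h' 0 (by omega)).2 (Or.inl rfl))
  have h2 := (h 2 (by omega)).1 ((h' 2 (by omega)).2 (Or.inr rfl))
  omega

private theorem CM {p : ℕ → V} {m b : ℕ} {u : V} (hb : b < m)
    (h : PatC c p m b u) (h' : PatM c p m u) : False := by
  have h1 := (h' b hb.le).1 ((h b hb.le).2 (Or.inl rfl))
  omega

private theorem HM {p : ℕ → V} {m : ℕ} {u : V} (hm : 3 ≤ m)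
    (h : PatH c p m u) (h' : PatM c p m u) : False := by
  have h1 := (h' 0 (by omega)).1 ((h 0 (by omega)).2 (Or.inl rfl))
  omega

private theorem pt_eq {p : ℕ → V} {m : ℕ} (h : Pats c p m) (a : ℕ) (ha : a ≤ m) (u : V) :
    (if c.L.Adj (p a) u then 1 else 0) =
      (∑ b ∈ range m, if (a = b ∨ a = b + 1) then (if PatC c p m b u then 1 else 0) else 0) +
      (if (a = 0 ∨ a = 2) then (if PatH c p m u then 1 else 0) else 0) +
      (if a = m then (if PatM c p m u then 1 else 0) else 0) := by
  have hm := h.hm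
  rcases h.pat u with h1 | ⟨b, hb, h1⟩ | h1 | h1
  · have e1 : ∀ b ∈ range m,
        (if (a = b ∨ a = b + 1) then (if PatC c p m b u then 1 else 0) else 0) = 0 := by
      intro b hb
      have hb' := mem_range.1 hb
      have h2 : ¬ PatC c p m b u := fun h2 => h1 b hb'.le ((h2 b hb'.le).2 (Or.inl rfl))
      rw [if_neg h2, ite_self]
    have e2 : ¬ PatH c p m u := fun h2 => h1 0 (by omega) ((h2 0 (by omega)).2 (Or.inl rfl))
    have e3 : ¬ PatM c p m u := fun h2 => h1 m le_rfl ((h2 m le_rfl).2 rfl)
    rw [sum_eq_zero e1, if_neg e2, if_neg e3, if_neg (h1 a ha), ite_self, ite_self]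
  · have e2 : ¬ PatH c p m u := fun h2 => CH hm h1 h2
    have e3 : ¬ PatM c p m u := fun h2 => CM hb h1 h2
    rw [sum_eq_single b, if_pos h1, if_neg e2, if_neg e3, ite_self, ite_self, add_zero, add_zero]
    · by_cases h4 : a = b ∨ a = b + 1
      · rw [if_pos h4, if_pos ((h1 a ha).2 h4)]
      · rw [if_neg h4, if_neg (fun h5 => h4 ((h1 a ha).1 h5))]
    · intro b' hb' hne
      have h2 : ¬ PatC c p m b' u := fun h2 => hne (CC hb (mem_range.1 hb') h1 h2)
      rw [if_neg h2, ite_self]
    · intro h2
      exact absurd (mem_range.2 hb) h2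
  · have e1 : ∀ b ∈ range m,
        (if (a = b ∨ a = b + 1) then (if PatC c p m b u then 1 else 0) else 0) = 0 := by
      intro b _
      have h2 : ¬ PatC c p m b u := fun h2 => CH hm h2 h1
      rw [if_neg h2, ite_self]
    have e3 : ¬ PatM c p m u := fun h2 => HM hm h1 h2
    rw [sum_eq_zero e1, if_pos h1, if_neg e3, ite_self, add_zero, zero_add]
    by_cases h4 : a = 0 ∨ a = 2
    · rw [if_pos h4, if_pos ((h1 a ha).2 h4)]
    · rw [if_neg h4, if_neg (fun h5 => h4 ((h1 a ha).1 h5))]
  · have e1 : ∀ b ∈ range m,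
        (if (a = b ∨ a = b + 1) then (if PatC c p m b u then 1 else 0) else 0) = 0 := by
      intro b hb
      have h2 : ¬ PatC c p m b u := fun h2 => CM (mem_range.1 hb) h2 h1
      rw [if_neg h2, ite_self]
    have e2 : ¬ PatH c p m u := fun h2 => HM hm h2 h1
    rw [sum_eq_zero e1, if_pos h1, if_neg e2, ite_self, add_zero, zero_add]
    by_cases h4 : a = m
    · rw [if_pos h4, if_pos ((h1 a ha).2 h4)]
    · rw [if_neg h4, if_neg (fun h5 => h4 ((h1 a ha).1 h5))]

private theorem deg_eq {p : ℕ → V} {m : ℕ} (h : Pats c p m) (a : ℕ) (ha : a ≤ m) :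
    (nb c.L (p a)).card =
      (∑ b ∈ range m, if (a = b ∨ a = b + 1) then (univ.filter fun u => PatC c p m b u).card else 0) +
      (if (a = 0 ∨ a = 2) then (univ.filter fun u => PatH c p m u).card else 0) +
      (if a = m then (univ.filter fun u => PatM c p m u).card else 0) := by
  have h1 : (nb c.L (p a)).card = ∑ u : V, (if c.L.Adj (p a) u then 1 else 0) := by
    rw [nb, card_filter]
  have h2 : ∀ b ∈ range m,
      (if (a = b ∨ a = b + 1) then (univ.filter fun u => PatC c p m b u).card else 0) =
      ∑ u : V, (if (a = b ∨ a = b + 1) then (if PatC c p m b u then 1 else 0) else 0) := by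
    intro b _
    split_ifs
    · rw [card_filter]
    · rw [sum_const_zero]
  have h3 : (if (a = 0 ∨ a = 2) then (univ.filter fun u => PatH c p m u).card else 0) =
      ∑ u : V, (if (a = 0 ∨ a = 2) then (if PatH c p m u then 1 else 0) else 0) := by
    split_ifs
    · rw [card_filter]
    · rw [sum_const_zero]
  have h4 : (if a = m then (univ.filter fun u => PatM c p m u).card else 0) =
      ∑ u : V, (if a = m then (if PatM c p m u then 1 else 0) else 0) := by
    split_ifs
    · rw [card_filter]
    · rw [sum_const_zero]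
  rw [h1, sum_congr rfl h2, h3, h4, sum_comm, ← sum_add_distrib, ← sum_add_distrib]
  exact sum_congr rfl fun u _ => pt_eq h a ha u

private theorem two_sum (g : ℕ → ℕ) {a m : ℕ} (h1 : 1 ≤ a) (h2 : a < m) :
    (∑ b ∈ range m, if (a = b ∨ a = b + 1) then g b else 0) = g (a - 1) + g a := by
  have h3 : ∀ b ∈ range m, (if (a = b ∨ a = b + 1) then g b else 0) =
      (if b = a - 1 then g b else 0) + (if b = a then g b else 0) := by
    intro b _
    by_cases h4 : b = a
    · rw [if_pos (Or.inl h4.symm), if_neg (by omega), if_pos h4, zero_add]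
    · by_cases h5 : b = a - 1
      · rw [if_pos (Or.inr (by omega)), if_pos h5, if_neg h4, add_zero]
      · rw [if_neg (by omega), if_neg h5, if_neg h4]
  rw [sum_congr rfl h3, sum_add_distrib, sum_ite_eq', sum_ite_eq', if_pos (mem_range.2 (by omega)),
    if_pos (mem_range.2 h2)]

private theorem zero_sum (g : ℕ → ℕ) {m : ℕ} (h2 : 0 < m) :
    (∑ b ∈ range m, if (0 = b ∨ 0 = b + 1) then g b else 0) = g 0 := by
  have h3 : ∀ b ∈ range m, (if (0 = b ∨ 0 = b + 1) then g b else 0) = (if b = 0 then g b else 0) := by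
    intro b _
    by_cases h4 : b = 0
    · rw [if_pos (Or.inl h4.symm), if_pos h4]
    · rw [if_neg (by omega), if_neg h4]
  rw [sum_congr rfl h3, sum_ite_eq', if_pos (mem_range.2 h2)]

private theorem top_sum (g : ℕ → ℕ) {m : ℕ} (h2 : 0 < m) :
    (∑ b ∈ range m, if (m = b ∨ m = b + 1) then g b else 0) = g (m - 1) := by
  have h3 : ∀ b ∈ range m, (if (m = b ∨ m = b + 1) then g b else 0) =
      (if b = m - 1 then g b else 0) := by
    intro b hb
    have hb' := mem_range.1 hb
    by_cases h4 : b = m - 1
    · rw [if_pos (Or.inr (by omega)), if_pos h4]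
    · rw [if_neg (by omega), if_neg h4]
  rw [sum_congr rfl h3, sum_ite_eq', if_pos (mem_range.2 (by omega))]

theorem grp_parity (p : ℕ → V) (m : ℕ) (h : Pats c p m) :
    Even (univ.filter fun u => PatM c p m u).card ∧
    (∀ b, 2 ≤ b → b < m → Even (univ.filter fun u => PatC c p m b u).card) ∧
    (Even (univ.filter fun u => PatC c p m 0 u).card ↔ Even (univ.filter fun u => PatC c p m 1 u).card) ∧
    (Even (univ.filter fun u => PatC c p m 0 u).card ↔ Even (univ.filter fun u => PatH c p m u).card) := by
  have hm := h.hm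
  set g : ℕ → ℕ := fun b => (univ.filter fun u => PatC c p m b u).card with hg
  set hh : ℕ := (univ.filter fun u => PatH c p m u).card with hhh
  set w : ℕ := (univ.filter fun u => PatM c p m u).card with hw
  have hdeg : ∀ a, a ≤ m → Even ((∑ b ∈ range m, if (a = b ∨ a = b + 1) then g b else 0) +
      (if (a = 0 ∨ a = 2) then hh else 0) + (if a = m then w else 0)) := by
    intro a ha
    have h1 := c.evL (p a)
    rw [deg_eq h a ha] at h1
    exact h1
  have d0 : Even (g 0 + hh) := by
    have h1 := hdeg 0 (by omega)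
    rwa [zero_sum g (by omega), if_pos (Or.inl rfl), if_neg (by omega), add_zero] at h1
  have d1 : Even (g 0 + g 1) := by
    have h1 := hdeg 1 (by omega)
    rwa [two_sum g (by omega) (by omega), if_neg (by omega), if_neg (by omega), add_zero,
      add_zero] at h1
  have d2 : Even (g 1 + g 2 + hh) := by
    have h1 := hdeg 2 (by omega)
    rwa [two_sum g (by omega) (by omega), if_pos (Or.inr rfl), if_neg (by omega), add_zero] at h1
  have d3 : ∀ a, 3 ≤ a → a < m → Even (g (a - 1) + g a) := by
    intro a h3 h4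
    have h1 := hdeg a (by omega)
    rwa [two_sum g (by omega) h4, if_neg (by omega), if_neg (by omega), add_zero, add_zero] at h1
  have d4 : Even (g (m - 1) + w) := by
    have h1 := hdeg m le_rfl
    rwa [top_sum g (by omega), if_neg (by omega), if_pos rfl, add_zero] at h1
  rw [Nat.even_add] at d0 d1 d4
  rw [Nat.even_add, Nat.even_add] at d2
  have e2 : Even (g 2) := by tauto
  have eb : ∀ b, 2 ≤ b → b < m → Even (g b) := by
    intro b hb
    induction b, hb using Nat.le_induction with
    | base => exact fun _ => e2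
    | succ b hb ih =>
      intro hbm
      have h1 := d3 (b + 1) (by omega) hbm
      rw [Nat.even_add, Nat.add_sub_cancel] at h1
      exact h1.1 (ih (by omega))
  refine ⟨d4.1 (eb (m - 1) (by omega) (by omega)), eb, d1, d0⟩

end Pool.Agent.BEO
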