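import Pool.Agent.BEO.Base

/-!
# BEO-Par: chains modulo 2

A chain is a function `c : Sym2 V → F2`; its support is the set of edges with coefficient 1.
PLAN. Elements of `ZMod 2` are 0 or 1 (`decide` / `fin_cases`). `sum_coef`, `dg_coef`, `card_cast`: split the sums over
`univ` by the value of `c e`. `walk_bd`: induction on the walk (`cons h w`: the edge `s(u, v)` contributes
`[x = u] + [x = v]` because `u ≠ v`; `1 + 1 = 0` in `F2`). `sum_list`: induction on the list, `count_cons`.
`sum_nb_dg`: the edges at `v` are the `s(v, u)`, `u ∈ nb L v` (bijection `Sym2.other`).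
-/

set_option autoImplicit false

open Finset
open scoped Classical

namespace Pool.Agent.BEO

variable {V : Type} [Fintype V] {Q : Type} [AddCommGroup Q] [Module F2 Q]

theorem f2_cases (x : F2) : x = 0 ∨ x = 1 := by
  revert x
  decide

theorem q_add_self (x : Q) : x + x = 0 := by
  have h : (2 : F2) = 0 := by decide
  rw [← two_smul F2 x, h, zero_smul]

theorem sum_coef (c : Sym2 V → F2) (a : Sym2 V → Q) :
    ∑ e, c e • a e = ∑ e ∈ univ.filter (fun e => c e = 1), a e := by
  rw [Finset.sum_filter]
  refine Finset.sum_congr rfl fun e _ => ?_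
  rcases f2_cases (c e) with h | h
  · rw [h, zero_smul, if_neg (by decide)]
  · rw [h, one_smul, if_pos rfl]

theorem dg_coef (c : Sym2 V → F2) (v : V) :
    ((dg (univ.filter fun e => c e = 1) v : ℕ) : F2) = ∑ e, c e * (if v ∈ e then 1 else 0) := by
  unfold dg
  rw [Finset.filter_filter, Finset.card_filter, Nat.cast_sum]
  refine Finset.sum_congr rfl fun e _ => ?_
  rcases f2_cases (c e) with h | h
  · rw [h, zero_mul, if_neg (fun h' => by exact absurd h'.1 (by decide)), Nat.cast_zero]
  · by_cases hv : v ∈ e
    · rw [h, if_pos ⟨rfl, hv⟩, if_pos hv, one_mul, Nat.cast_one]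
    · rw [h, if_neg (fun h' => hv h'.2), if_neg hv, mul_zero, Nat.cast_zero]

/-- the class of a list of edges, by coefficients -/
theorem sum_list (l : List (Sym2 V)) (a : Sym2 V → Q) :
    (l.map a).sum = ∑ e, ((l.count e : ℕ) : F2) • a e := by
  induction l with
  | nil => simp
  | cons b l ih =>
    rw [List.map_cons, List.sum_cons, ih]
    have h1 : ∀ e : Sym2 V, (((b :: l).count e : ℕ) : F2) • a e =
        ((l.count e : ℕ) : F2) • a e + if b = e then a e else 0 := by
      intro e
      rw [List.count_cons, Nat.cast_add, add_smul]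
      congr 1
      by_cases h : b = e
      · simp [h]
      · simp [h]
    rw [Finset.sum_congr rfl fun e _ => h1 e, Finset.sum_add_distrib, Finset.sum_ite_eq,
      if_pos (Finset.mem_univ b), add_comm]

/-- the boundary of a walk -/
theorem walk_bd {G : SimpleGraph V} {u v : V} (w : G.Walk u v) (x : V) :
    ∑ e, ((w.edges.count e : ℕ) : F2) * (if x ∈ e then 1 else 0) =
      (if x = u then 1 else 0) + (if x = v then 1 else 0) := by
  induction w with
  | nil =>
    rw [SimpleGraph.Walk.edges_nil]
    have h2 : ∀ y : F2, y + y = 0 := by decide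
    rw [h2]
    refine Finset.sum_eq_zero fun e _ => ?_
    rw [List.count_nil, Nat.cast_zero, zero_mul]
  | @cons u v w' h p ih =>
    rw [SimpleGraph.Walk.edges_cons]
    have h1 : ∀ e : Sym2 V, (((s(u, v) :: p.edges).count e : ℕ) : F2) * (if x ∈ e then 1 else 0) =
        ((p.edges.count e : ℕ) : F2) * (if x ∈ e then 1 else 0) +
          if s(u, v) = e then (if x ∈ e then 1 else 0) else 0 := by
      intro e
      rw [List.count_cons, Nat.cast_add, add_mul]
      congr 1
      by_cases h : s(u, v) = e
      · simp [h]
      · simp [h]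
    rw [Finset.sum_congr rfl fun e _ => h1 e, Finset.sum_add_distrib, Finset.sum_ite_eq,
      if_pos (Finset.mem_univ _), ih]
    have hne : u ≠ v := h.ne
    have h2 : ((if x ∈ s(u, v) then 1 else 0 : F2)) = (if x = u then 1 else 0) + (if x = v then 1 else 0) := by
      by_cases hu : x = u
      · have hv : x ≠ v := fun hv => hne (hu.symm.trans hv)
        simp [hu, hne]
      · by_cases hv : x = v
        · simp [hv, hne.symm]
        · simp [hu, hv]
    rw [h2]
    have h3 : ∀ y : F2, y + y = 0 := by decide
    linear_combination h3 (if x = v then 1 else 0)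

/-- the degree in the edge set of a graph -/
theorem dg_es (L : SimpleGraph V) (v : V) : dg (es L) v = (nb L v).card := by
  have h : (es L).filter (fun e => v ∈ e) = (nb L v).image (fun u => s(v, u)) := by
    ext e
    rw [Finset.mem_filter, Finset.mem_image]
    unfold es nb
    constructor
    · rintro ⟨h1, h2⟩
      have h3 := (Finset.mem_filter.1 h1).2
      obtain ⟨u, rfl⟩ := Sym2.mem_iff_exists.1 h2
      exact ⟨u, Finset.mem_filter.2 ⟨Finset.mem_univ _, h3⟩, rfl⟩
    · rintro ⟨u, hu, rfl⟩
      have h3 := (Finset.mem_filter.1 hu).2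
      exact ⟨Finset.mem_filter.2 ⟨Finset.mem_univ _, h3⟩, Sym2.mem_mk_left v u⟩
  unfold dg
  rw [h, Finset.card_image_of_injective]
  intro u u' huu
  exact Sym2.congr_right.1 huu

/-- handshake: the sum of the degrees is twice the number of edges -/
theorem sum_dg (χ : Finset (Sym2 V)) (hχ : ∀ e ∈ χ, ¬ e.IsDiag) : ∑ v, dg χ v = 2 * χ.card := by
  unfold dg
  simp_rw [Finset.card_filter]
  rw [Finset.sum_comm, mul_comm, ← smul_eq_mul, ← Finset.sum_const]
  refine Finset.sum_congr rfl fun e he => ?_
  rw [← Finset.card_filter]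
  have hd := hχ e he
  induction e using Sym2.ind with
  | _ a b =>
    have hab : a ≠ b := by
      intro h
      exact hd (by simp [h])
    have h1 : (univ.filter fun v => v ∈ s(a, b)) = {a, b} := by
      ext v
      simp
    rw [h1, Finset.card_pair hab]

theorem even_cast (n : ℕ) : Even n ↔ ((n : ℕ) : F2) = 0 :=
  ZMod.natCast_eq_zero_iff_even.symm

end Pool.Agent.BEO
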