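import Pool.Agent.BEO.NearB
import Pool.Agent.BEO.Par

/-!
# BEO-TJ: a lower bound for the size of a join

PLAN. For a centre `i` and `r < ρ i` let `Bl = {v | Near M r (cc i) v}` and let `cut` be the set of the edges of `χ`
with exactly one end in `Bl`. Modulo 2, `cut.card = ∑ v ∈ Bl, dg χ v` (every edge of `χ` has two distinct ends), and
this is the number of odd vertices in `Bl`, which is 1: `cc i ∈ Bl`, and `cc j ∉ Bl` for `j ≠ i` because
`Near M r (cc i) (cc j)` with `r ≤ ρ i - 1 ≤ ρ i + ρ j - 1` contradicts `hsep`; also `cc i ≠ cc j`. So `cut` is not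
empty: choose an edge `E i r` of `cut`, `E i r = s(x, y)` with `Near M r (cc i) x`, not `Near M r (cc i) y`,
`M.Adj x y`. The map `(i, r) ↦ E i r` is injective: for the same `i` and `r < r'`: `y` is at distance exactly `r + 1`
and `x` at distance exactly `r` from `cc i` (if `Near M (r - 1) (cc i) x` then `Near M r (cc i) y`), so both ends of
`E i r` are in the ball of radius `r' ≥ r + 1`, so `E i r` is not in the cut of `r'`. For `i ≠ j`: an end of the edge is
within `r` of `cc i` and an end within `s` of `cc j`, so `Near M (r + s + 1) (cc i) (cc j)`, `r + s + 1 ≤ ρ i + ρ j - 1`,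
contradiction. So `∑ i, ρ i ≤ χ.card` (`Finset.card_le_card_of_injOn` from the sigma type `Σ i, Fin (ρ i)`).
-/

set_option autoImplicit false

open Finset
open scoped Classical

namespace Pool.Agent.BEO

private theorem cut_edge {V : Type} [Fintype V] (M : SimpleGraph V) (χ : Finset (Sym2 V))
    (hχ : ∀ e ∈ χ, e ∈ M.edgeSet) (Bl : Finset V) (c : V) (hc : (Bl.filter fun v => Odd (dg χ v)) = {c}) :
    ∃ x y, s(x, y) ∈ χ ∧ x ∈ Bl ∧ y ∉ Bl := by
  by_contra hcon
  push Not at hcon
  have h1 : Odd (∑ v ∈ Bl, dg χ v) := by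
    rw [Finset.odd_sum_iff_odd_card_odd, hc, Finset.card_singleton]
    exact odd_one
  rw [← Nat.not_even_iff_odd] at h1
  apply h1
  have h2 : ∑ v ∈ Bl, dg χ v = ∑ e ∈ χ, (Bl.filter fun v => v ∈ e).card := by
    simp only [dg, Finset.card_filter]
    exact Finset.sum_comm
  rw [h2]
  apply Finset.even_sum
  intro e he
  induction e using Sym2.ind with
  | _ x y =>
    have hadj : M.Adj x y := hχ _ he
    by_cases hx : x ∈ Bl
    · have hy : y ∈ Bl := hcon x y he hx
      have h3 : (Bl.filter fun v => v ∈ s(x, y)) = {x, y} := by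
        ext v
        simp only [Finset.mem_filter, Sym2.mem_iff, Finset.mem_insert, Finset.mem_singleton]
        constructor
        · exact fun h => h.2
        · rintro (rfl | rfl)
          · exact ⟨hx, Or.inl rfl⟩
          · exact ⟨hy, Or.inr rfl⟩
      rw [h3, Finset.card_pair hadj.ne]
      exact even_two
    · have hy : y ∉ Bl := fun hy => hx (hcon y x (by rw [Sym2.eq_swap]; exact he) hy)
      have h3 : (Bl.filter fun v => v ∈ s(x, y)) = ∅ := by
        rw [Finset.filter_eq_empty_iff]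
        intro v hv hve
        rw [Sym2.mem_iff] at hve
        rcases hve with rfl | rfl
        · exact hx hv
        · exact hy hv
      rw [h3, Finset.card_empty]
      exact Even.zero

theorem join_bound {V ι : Type} [Fintype V] [Fintype ι] (M : SimpleGraph V) (χ : Finset (Sym2 V))
    (hχ : ∀ e ∈ χ, e ∈ M.edgeSet) (cc : ι → V) (ρ : ι → ℕ) (hρ : ∀ i, 1 ≤ ρ i)
    (hsep : ∀ i j, i ≠ j → ¬ Near M (ρ i + ρ j - 1) (cc i) (cc j))
    (hodd : ∀ v, Odd (dg χ v) ↔ ∃ i, v = cc i) : ∑ i, ρ i ≤ χ.card := by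
  have hcut : ∀ p : (Σ i, Fin (ρ i)), ∃ q : V × V, s(q.1, q.2) ∈ χ ∧ Near M p.2.1 (cc p.1) q.1 ∧
      ¬ Near M p.2.1 (cc p.1) q.2 := by
    rintro ⟨i, r, hr⟩
    have h1 : ((univ.filter fun v => Near M r (cc i) v).filter fun v => Odd (dg χ v)) = {cc i} := by
      ext v
      simp only [Finset.mem_filter, Finset.mem_univ, true_and, Finset.mem_singleton, hodd]
      constructor
      · rintro ⟨h, j, rfl⟩
        by_contra hne
        have hij : i ≠ j := fun h' => hne (by rw [h'])
        apply hsep i j hij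
        apply Near.mono _ h
        have := hρ j
        omega
      · rintro rfl
        exact ⟨Near.refl _ _, i, rfl⟩
    obtain ⟨x, y, h2, h3, h4⟩ := cut_edge M χ hχ _ (cc i) h1
    exact ⟨(x, y), h2, (Finset.mem_filter.1 h3).2, fun h => h4 (Finset.mem_filter.2 ⟨Finset.mem_univ _, h⟩)⟩
  choose E hE1 hE2 hE3 using hcut
  have key : ∀ p q : (Σ i, Fin (ρ i)), s((E p).1, (E p).2) = s((E q).1, (E q).2) →
      Near M (p.2.1 + 1) (cc p.1) (E q).1 ∧ Near M (p.2.1 + 1) (cc p.1) (E q).2 := by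
    intro p q h
    have hadj : M.Adj (E p).1 (E p).2 := hχ _ (hE1 p)
    have h1 : Near M (p.2.1 + 1) (cc p.1) (E p).1 := Near.mono (Nat.le_succ _) (hE2 p)
    have h2 : Near M (p.2.1 + 1) (cc p.1) (E p).2 := (hE2 p).trans (Near.of_adj hadj)
    rw [Sym2.eq_iff] at h
    rcases h with ⟨h3, h4⟩ | ⟨h3, h4⟩
    · rw [← h3, ← h4]
      exact ⟨h1, h2⟩
    · rw [← h3, ← h4]
      exact ⟨h2, h1⟩
  have hlt : ∀ i (r r' : Fin (ρ i)), s((E ⟨i, r⟩).1, (E ⟨i, r⟩).2) = s((E ⟨i, r'⟩).1, (E ⟨i, r'⟩).2) →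
      ¬ r.1 < r'.1 := by
    intro i r r' h hr
    apply hE3 ⟨i, r'⟩
    exact Near.mono hr (key ⟨i, r⟩ ⟨i, r'⟩ h).2
  have hinj : Function.Injective fun p : (Σ i, Fin (ρ i)) => s((E p).1, (E p).2) := by
    rintro ⟨i, r⟩ ⟨j, r'⟩ h
    have h' : s((E ⟨i, r⟩).1, (E ⟨i, r⟩).2) = s((E ⟨j, r'⟩).1, (E ⟨j, r'⟩).2) := h
    by_cases hij : i = j
    · subst hij
      have h1 := hlt i r r' h'
      have h2 := hlt i r' r h'.symm
      have : r = r' := Fin.ext (by omega)
      rw [this]
    · exfalso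
      apply hsep i j hij
      have h1 := (key _ _ h').1
      have h2 : Near M (r.1 + 1 + r'.1) (cc i) (cc j) := h1.trans (hE2 ⟨j, r'⟩).symm
      apply Near.mono _ h2
      have := r.2
      have := r'.2
      omega
  have h1 : (univ : Finset (Σ i, Fin (ρ i))).card ≤ χ.card :=
    Finset.card_le_card_of_injOn (fun p => s((E p).1, (E p).2)) (fun p _ => hE1 p) (fun p _ q _ h => hinj h)
  rw [Finset.card_univ, Fintype.card_sigma] at h1
  simpa only [Fintype.card_fin] using h1

end Pool.Agent.BEO
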