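import Pool.Agent.BEO.Comb
import Pool.Agent.BEO.TJ

/-!
# BEO-Jump: no `k + 1` jumps far from each other

The combination of `comb` and the lower bound `join_bound` for the balls around the ends of the jumps.
-/

set_option autoImplicit false

open Finset
open scoped Classical

namespace Pool.Agent.BEO

variable {k : ℕ} {V Q : Type} [Fintype V] [AddCommGroup Q] [Module F2 Q] (c : Cfg k V Q)

/-- the ends of the jumps -/
private def cen {n : ℕ} (J : Fin n → Jmp c) (x : Fin n × Bool) : V :=
  match x.2 with
  | true => (J x.1).p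
  | false => (J x.1).q

/-- the radii -/
private def rad {n : ℕ} (J : Fin n → Jmp c) (x : Fin n × Bool) : ℕ :=
  match x.2 with
  | true => ((J x.1).w.length + 2) / 2
  | false => ((J x.1).w.length + 1) / 2

private theorem len_pos (J : Jmp c) : 1 ≤ J.w.length := by
  by_contra h
  have h0 : J.w.length = 0 := by omega
  apply J.far
  rw [h0]
  exact near_zero.2 (SimpleGraph.Walk.eq_of_length_eq_zero h0)

private theorem rad_pos {n : ℕ} (J : Fin n → Jmp c) (x : Fin n × Bool) : 1 ≤ rad c J x := by
  obtain ⟨i, b⟩ := x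
  have h := len_pos c (J i)
  cases b
  · show 1 ≤ ((J i).w.length + 1) / 2
    omega
  · show 1 ≤ ((J i).w.length + 2) / 2
    omega

private theorem rad_le {n : ℕ} (J : Fin n → Jmp c) (x : Fin n × Bool) : rad c J x ≤ 3 := by
  obtain ⟨i, b⟩ := x
  have h := (J i).len
  cases b
  · show ((J i).w.length + 1) / 2 ≤ 3
    omega
  · show ((J i).w.length + 2) / 2 ≤ 3
    omega

private theorem sep_all {n : ℕ} (J : Fin n → Jmp c) (hsep : ∀ i j, i ≠ j → (J i).Sep (J j))
    {x y : Fin n × Bool} (hxy : x ≠ y) :
    ¬ Near c.M (rad c J x + rad c J y - 1) (cen c J x) (cen c J y) := by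
  intro hN
  by_cases hij : x.1 = y.1
  · obtain ⟨i, b⟩ := x
    obtain ⟨j, b'⟩ := y
    simp only at hij
    subst hij
    cases b <;> cases b'
    · exact hxy rfl
    · have h1 : Near c.M (((J i).w.length + 1) / 2 + ((J i).w.length + 2) / 2 - 1) (J i).q (J i).p := hN
      have h2 : ((J i).w.length + 1) / 2 + ((J i).w.length + 2) / 2 - 1 = (J i).w.length := by omega
      rw [h2] at h1
      exact (J i).far h1.symm
    · have h1 : Near c.M (((J i).w.length + 2) / 2 + ((J i).w.length + 1) / 2 - 1) (J i).p (J i).q := hN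
      have h2 : ((J i).w.length + 2) / 2 + ((J i).w.length + 1) / 2 - 1 = (J i).w.length := by omega
      rw [h2] at h1
      exact (J i).far h1
    · exact hxy rfl
  · have h1 := rad_le c J x
    have h2 := rad_le c J y
    have h3 : Near c.M 5 (cen c J x) (cen c J y) := Near.mono (by omega) hN
    obtain ⟨i, b⟩ := x
    obtain ⟨j, b'⟩ := y
    obtain ⟨s1, s2, s3, s4⟩ := hsep i j hij
    cases b <;> cases b'
    · exact s4 h3
    · exact s3 h3
    · exact s2 h3
    · exact s1 h3

theorem no_family (J : Fin (k + 1) → Jmp c) (hsep : ∀ i j, i ≠ j → (J i).Sep (J j)) : False := by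
  obtain ⟨Mp, S, hMp, hne, hdg, hcard⟩ := comb c J
  rcases S.eq_empty_or_nonempty with hS | hS
  · rw [hS, Finset.sum_empty] at hcard
    rcases hne with h | h
    · have := Finset.card_pos.2 h
      omega
    · rw [hS] at h
      exact absurd h (by simp)
  have hinj : ∀ x y : Fin (k + 1) × Bool, cen c J x = cen c J y → x = y := by
    intro x y hxy
    by_contra hne
    apply sep_all c J hsep hne
    rw [hxy]
    exact Near.refl _ _
  have hsum : ∀ v, ∑ i ∈ S, ((if v = (J i).p then (1 : F2) else 0) + (if v = (J i).q then 1 else 0)) =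
      if ∃ x : {i // i ∈ S} × Bool, v = cen c J (x.1.1, x.2) then 1 else 0 := by
    intro v
    have e1 : ∀ i, ((if v = (J i).p then (1 : F2) else 0) + (if v = (J i).q then 1 else 0)) =
        ∑ b : Bool, if v = cen c J (i, b) then (1 : F2) else 0 := by
      intro i
      rw [Fintype.sum_bool]
      rfl
    by_cases h : ∃ x : {i // i ∈ S} × Bool, v = cen c J (x.1.1, x.2)
    · rw [if_pos h]
      obtain ⟨⟨⟨i0, hi0⟩, b0⟩, hv⟩ := h
      simp only at hv
      rw [Finset.sum_congr rfl fun i _ => e1 i, Finset.sum_eq_single i0, Finset.sum_eq_single b0,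
        if_pos hv]
      · intro b _ hb
        refine if_neg fun h2 => hb ?_
        have h3 := hinj (i0, b) (i0, b0) (h2.symm.trans hv)
        exact (Prod.ext_iff.1 h3).2
      · intro hb
        exact absurd (Finset.mem_univ b0) hb
      · intro i _ hi
        refine Finset.sum_eq_zero fun b _ => if_neg fun h2 => hi ?_
        have h3 := hinj (i, b) (i0, b0) (h2.symm.trans hv)
        exact (Prod.ext_iff.1 h3).1
      · intro hi
        exact absurd hi0 hi
    · rw [if_neg h, Finset.sum_congr rfl fun i _ => e1 i]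
      refine Finset.sum_eq_zero fun i hi => Finset.sum_eq_zero fun b _ => if_neg fun h2 => h ?_
      exact ⟨(⟨i, hi⟩, b), h2⟩
  have hb := join_bound c.M Mp hMp (fun x : {i // i ∈ S} × Bool => cen c J (x.1.1, x.2))
    (fun x => rad c J (x.1.1, x.2)) (fun x => rad_pos c J _)
    (fun x y hxy => sep_all c J hsep (fun h => hxy (by
      obtain ⟨⟨i, hi⟩, b⟩ := x
      obtain ⟨⟨j, hj⟩, b'⟩ := y
      simp only [Prod.mk.injEq] at h
      obtain ⟨h1, h2⟩ := h
      subst h1
      subst h2
      rfl)))
    (fun v => by
      have h1 := hdg v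
      rw [hsum v] at h1
      rw [← Nat.not_even_iff_odd, even_cast, h1]
      constructor
      · intro h2
        by_contra h3
        exact h2 (if_neg h3)
      · intro h2
        rw [if_pos h2]
        decide)
  have hb2 : ∑ x : {i // i ∈ S} × Bool, rad c J (x.1.1, x.2) = ∑ i ∈ S, ((J i).w.length + 1) := by
    rw [Fintype.sum_prod_type]
    rw [← Finset.sum_coe_sort S (fun i => (J i).w.length + 1)]
    refine Finset.sum_congr rfl fun i _ => ?_
    rw [Fintype.sum_bool]
    show ((J i).w.length + 2) / 2 + ((J i).w.length + 1) / 2 = (J i).w.length + 1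
    omega
  rw [hb2, Finset.sum_add_distrib, Finset.sum_const, smul_eq_mul, mul_one] at hb
  have := Finset.card_pos.2 hS
  omega

end Pool.Agent.BEO
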