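import Pool.Agent.BEO.DWB

/-!
# BEO-LegA: single edges, and merging two legs

Every edge is a leg; two legs with a common end are merged.
-/

set_option autoImplicit false

open Finset
open scoped Classical

namespace Pool.Agent.BEO

variable {Φ E : Type} {s t : E → Φ} {lam : Finset E}

theorem leg_one : Nonempty (LegSys s t lam lam.card) := by
  let e : Fin lam.card ≃ lam := lam.equivFin.symm
  refine ⟨{ src := fun i => s (e i).1
            tgt := fun i => t (e i).1
            w := fun i => [(e i).1]
            dw := fun i => DW.single _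
            ne := fun i => List.cons_ne_nil _ _
            nd := fun i => List.nodup_singleton _
            dj := ?_
            cov := ?_
            un := ?_ }⟩
  · intro i j hij x hx hx'
    rw [List.mem_singleton] at hx hx'
    exact hij (e.injective (Subtype.ext (hx.symm.trans hx')))
  · intro x
    constructor
    · intro hx
      refine ⟨e.symm ⟨x, hx⟩, ?_⟩
      rw [List.mem_singleton, Equiv.apply_symm_apply]
    · rintro ⟨i, hi⟩
      rw [List.mem_singleton] at hi
      rw [hi]
      exact (e i).2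
  · intro ν _ _ i
    by_cases h : (e i).1 ∈ ν
    · left
      intro x hx
      rw [List.mem_singleton] at hx
      rw [hx]
      exact h
    · right
      intro x hx
      rw [List.mem_singleton] at hx
      rw [hx]
      exact h

/-- the number of leg ends at a vertex -/
noncomputable def LegSys.ends {m : ℕ} (L : LegSys s t lam m) (v : Φ) : ℕ :=
  ∑ i, ((if L.src i = v then 1 else 0) + (if L.tgt i = v then 1 else 0))

private theorem two_of_sum {n : ℕ} (f : Fin n → ℕ) (h1 : ∀ i, f i ≤ 1) (h2 : ∑ i, f i = 2) :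
    ∃ i j, i ≠ j ∧ f i = 1 ∧ f j = 1 ∧ ∀ k, k ≠ i → k ≠ j → f k = 0 := by
  have h3 : ∃ i ∈ (univ : Finset (Fin n)), f i ≠ 0 := by
    apply exists_ne_zero_of_sum_ne_zero
    rw [h2]
    norm_num
  obtain ⟨i, _, hi⟩ := h3
  have hi1 : f i = 1 := by have := h1 i; omega
  have h4 : f i + ∑ k ∈ univ.erase i, f k = 2 := by
    rw [add_sum_erase _ _ (mem_univ i), h2]
  have h5 : ∃ j ∈ univ.erase i, f j ≠ 0 := by
    apply exists_ne_zero_of_sum_ne_zero
    omega
  obtain ⟨j, hj, hj0⟩ := h5
  have hj1 : f j = 1 := by have := h1 j; omega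
  have h6 : f j + ∑ k ∈ (univ.erase i).erase j, f k = ∑ k ∈ univ.erase i, f k :=
    add_sum_erase _ _ hj
  have h7 : ∑ k ∈ (univ.erase i).erase j, f k = 0 := by omega
  refine ⟨i, j, (ne_of_mem_erase hj).symm, hi1, hj1, fun k hki hkj => ?_⟩
  exact (sum_eq_zero_iff.1 h7) k (mem_erase.2 ⟨hkj, mem_erase.2 ⟨hki, mem_univ _⟩⟩)

private theorem leg_to {A B v : Φ} {l : List E} (h : DW s t A B l) (hv : A = v ∨ B = v)
    (hnd : l.Nodup) (hne : l ≠ []) :
    ∃ (C : Φ) (p : List E), DW s t C v p ∧ (∀ e, e ∈ p ↔ e ∈ l) ∧ p.Nodup ∧ p ≠ [] := by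
  rcases hv with rfl | rfl
  · exact ⟨B, l.reverse, h.reverse, fun e => List.mem_reverse, List.nodup_reverse.2 hnd,
      fun h1 => hne (List.reverse_eq_nil_iff.1 h1)⟩
  · exact ⟨A, l, h, fun e => Iff.rfl, hnd, hne⟩

private theorem un_two {m : ℕ} (L : LegSys s t lam m) (v : Φ) {i j : Fin m} (hij : i ≠ j)
    (hi : ((if L.src i = v then 1 else 0) + (if L.tgt i = v then 1 else 0) : ℕ) = 1)
    (hj : ((if L.src j = v then 1 else 0) + (if L.tgt j = v then 1 else 0) : ℕ) = 1)
    (hk : ∀ k, k ≠ i → k ≠ j →
      ((if L.src k = v then 1 else 0) + (if L.tgt k = v then 1 else 0) : ℕ) = 0)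
    {ν : Finset E} (hν : ν ⊆ lam) (hev : Ev s t ν) :
    (∀ e ∈ L.w i, e ∈ ν) ↔ (∀ e ∈ L.w j, e ∈ ν) := by
  let S : Finset (Fin m) := univ.filter fun k => ∀ e ∈ L.w k, e ∈ ν
  have hS : ∀ k, k ∈ S ↔ ∀ e ∈ L.w k, e ∈ ν := fun k => by
    show k ∈ univ.filter (fun k => ∀ e ∈ L.w k, e ∈ ν) ↔ _
    rw [mem_filter]
    exact ⟨fun h => h.2, fun h => ⟨mem_univ _, h⟩⟩
  have hU : ν = S.biUnion fun k => (L.w k).toFinset := by
    ext e
    rw [mem_biUnion]
    constructor
    · intro he
      obtain ⟨k, hk⟩ := (L.cov e).1 (hν he)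
      refine ⟨k, ?_, List.mem_toFinset.2 hk⟩
      rw [hS]
      rcases L.un ν hν hev k with h | h
      · exact h
      · exact absurd he (h e hk)
    · rintro ⟨k, hk, he⟩
      exact (hS k).1 hk e (List.mem_toFinset.1 he)
  have h1 := hev v
  have hdis : ∀ k ∈ S, ∀ k' ∈ S, k ≠ k' → Disjoint (L.w k).toFinset (L.w k').toFinset := by
    intro k _ k' _ hkk
    rw [disjoint_left]
    intro e he he'
    exact L.dj k k' hkk e (List.mem_toFinset.1 he) (List.mem_toFinset.1 he')
  have hcast : ∀ k, ((if L.src k = v then (1 : F2) else 0) + (if L.tgt k = v then 1 else 0)) =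
      (((if L.src k = v then 1 else 0) + (if L.tgt k = v then 1 else 0) : ℕ) : F2) := by
    intro k
    push_cast
    rfl
  have h2 : ∑ e ∈ ν, ((if s e = v then (1 : F2) else 0) + (if t e = v then 1 else 0)) =
      ∑ k ∈ S, ((if k = i then (1 : F2) else 0) + (if k = j then 1 else 0)) := by
    conv_lhs => rw [hU]
    rw [sum_biUnion hdis]
    refine sum_congr rfl fun k _ => ?_
    rw [List.sum_toFinset _ (L.nd k), (L.dw k).bd v, hcast k]
    by_cases hki : k = i
    · subst hki
      rw [hi, if_pos rfl, if_neg hij]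
      simp
    by_cases hkj : k = j
    · subst hkj
      rw [hj, if_pos rfl, if_neg (Ne.symm hij)]
      simp
    · rw [hk k hki hkj, if_neg hki, if_neg hkj]
      simp
  rw [h2, sum_add_distrib, sum_ite_eq', sum_ite_eq'] at h1
  rw [← hS, ← hS]
  constructor
  · intro ha
    by_contra hb
    rw [if_pos ha, if_neg hb] at h1
    simp at h1
  · intro ha
    by_contra hb
    rw [if_pos ha, if_neg hb] at h1
    simp at h1

theorem leg_merge {m : ℕ} (L : LegSys s t lam (m + 1)) (v : Φ) (h2 : L.ends v = 2)
    (hl : ∀ i, ¬ (L.src i = v ∧ L.tgt i = v)) : Nonempty (LegSys s t lam m) := by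
  obtain ⟨i, j, hij, hi, hj, hk⟩ := two_of_sum
    (fun k => (if L.src k = v then 1 else 0) + (if L.tgt k = v then 1 else 0)) (by
      intro k
      have h := hl k
      by_cases h1 : L.src k = v
      · have h2 : ¬ L.tgt k = v := fun h2 => h ⟨h1, h2⟩
        simp [h1, h2]
      · by_cases h2 : L.tgt k = v
        · simp [h1, h2]
        · simp [h1, h2]) h2
  have end_of : ∀ k, ((if L.src k = v then 1 else 0) + (if L.tgt k = v then 1 else 0) : ℕ) = 1 →
      L.src k = v ∨ L.tgt k = v := by
    intro k h
    by_contra h3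
    push Not at h3
    rw [if_neg h3.1, if_neg h3.2] at h
    omega
  have hun : ∀ ν, ν ⊆ lam → Ev s t ν → ((∀ e ∈ L.w i, e ∈ ν) ↔ (∀ e ∈ L.w j, e ∈ ν)) :=
    fun ν hν hev => un_two L v hij hi hj hk hν hev
  obtain ⟨A, p, hp1, hp2, hp3, hp4⟩ := leg_to (L.dw i) (end_of i hi) (L.nd i) (L.ne i)
  obtain ⟨B, q, hq1, hq2, hq3, hq4⟩ := leg_to (L.dw j) (end_of j hj) (L.nd j) (L.ne j)
  have hq1' := hq1.reverse
  let σ : Fin m → Fin (m + 1) := fun r => j.succAbove r
  have hσ : ∀ r, σ r ≠ j := fun r => Fin.succAbove_ne j r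
  have hσi : Function.Injective σ := Fin.succAbove_right_injective
  have hσs : ∀ k, k ≠ j → ∃ r, σ r = k := fun k hk => Fin.exists_succAbove_eq hk
  let w' : Fin m → List E := fun r => if σ r = i then p ++ q.reverse else L.w (σ r)
  have hw1 : ∀ r, σ r = i → w' r = p ++ q.reverse := fun r hr => if_pos hr
  have hw2 : ∀ r, σ r ≠ i → w' r = L.w (σ r) := fun r hr => if_neg hr
  have hmem : ∀ r, σ r = i → ∀ e, e ∈ w' r ↔ (e ∈ L.w i ∨ e ∈ L.w j) := by
    intro r hr e
    rw [hw1 r hr, List.mem_append, List.mem_reverse, hp2, hq2]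
  refine ⟨{ src := fun r => if σ r = i then A else L.src (σ r)
            tgt := fun r => if σ r = i then B else L.tgt (σ r)
            w := w'
            dw := ?_
            ne := ?_
            nd := ?_
            dj := ?_
            cov := ?_
            un := ?_ }⟩
  · intro r
    by_cases hr : σ r = i
    · rw [if_pos hr, if_pos hr, hw1 r hr]
      exact hp1.append hq1'
    · rw [if_neg hr, if_neg hr, hw2 r hr]
      exact L.dw _
  · intro r
    by_cases hr : σ r = i
    · rw [hw1 r hr]
      exact fun h => hp4 (List.append_eq_nil_iff.1 h).1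
    · rw [hw2 r hr]
      exact L.ne _
  · intro r
    by_cases hr : σ r = i
    · rw [hw1 r hr, List.nodup_append]
      refine ⟨hp3, List.nodup_reverse.2 hq3, ?_⟩
      intro a ha b hb hab
      subst hab
      exact L.dj i j hij a ((hp2 a).1 ha) ((hq2 a).1 (List.mem_reverse.1 hb))
    · rw [hw2 r hr]
      exact L.nd _
  · intro r r' hrr e he he'
    have hne : σ r ≠ σ r' := fun h => hrr (hσi h)
    by_cases hr : σ r = i
    · by_cases hr' : σ r' = i
      · exact hne (hr.trans hr'.symm)
      · rw [hmem r hr] at he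
        rw [hw2 r' hr'] at he'
        rcases he with he | he
        · exact L.dj i (σ r') (fun h => hr' h.symm) e he he'
        · exact L.dj j (σ r') (fun h => hσ r' h.symm) e he he'
    · rw [hw2 r hr] at he
      by_cases hr' : σ r' = i
      · rw [hmem r' hr'] at he'
        rcases he' with he' | he'
        · exact L.dj (σ r) i hr e he he'
        · exact L.dj (σ r) j (hσ r) e he he'
      · rw [hw2 r' hr'] at he'
        exact L.dj _ _ hne e he he'
  · intro e
    rw [L.cov]
    constructor
    · rintro ⟨k, hk⟩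
      by_cases hkj : k = j
      · obtain ⟨r, hr⟩ := hσs i hij
        refine ⟨r, (hmem r hr e).2 (Or.inr ?_)⟩
        rw [← hkj]
        exact hk
      · obtain ⟨r, hr⟩ := hσs k hkj
        refine ⟨r, ?_⟩
        by_cases hki : σ r = i
        · refine (hmem r hki e).2 (Or.inl ?_)
          rw [← hki, hr]
          exact hk
        · rw [hw2 r hki, hr]
          exact hk
    · rintro ⟨r, hr⟩
      by_cases hki : σ r = i
      · rcases (hmem r hki e).1 hr with h | h
        · exact ⟨i, h⟩
        · exact ⟨j, h⟩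
      · rw [hw2 r hki] at hr
        exact ⟨σ r, hr⟩
  · intro ν hν hev r
    by_cases hr : σ r = i
    · rcases L.un ν hν hev i with h | h
      · left
        have h' := (hun ν hν hev).1 h
        intro e he
        rcases (hmem r hr e).1 he with h3 | h3
        · exact h e h3
        · exact h' e h3
      · rcases L.un ν hν hev j with h' | h'
        · exfalso
          have h3 := (hun ν hν hev).2 h'
          obtain ⟨e, he⟩ := List.exists_mem_of_ne_nil _ (L.ne i)
          exact h e he (h3 e he)
        · right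
          intro e he
          rcases (hmem r hr e).1 he with h3 | h3
          · exact h e h3
          · exact h' e h3
    · rw [hw2 r hr]
      exact L.un ν hν hev _

end Pool.Agent.BEO
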