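import Pool.Agent.BEO.AlgS
import Pool.Agent.BEO.FpA

/-!
# BEO: the main theorem

PLAN. `alg k T` with `T` from `alg_correct`; `fp_alg`.
-/

set_option autoImplicit false

open Finset
open scoped Classical

namespace Pool.Agent.BEO

open Pool.Agent.Helper35.OG (Flag GMap orientableGenus)
open N68a2faeb

theorem main (k : ℕ) : ∃ f : Inp → ℕ, IsPolyTime f ∧ ∀ (n : ℕ) (G : SimpleGraph (Fin n)), G.Connected → 2 ≤ n →
    (∀ v, (nb G v).card ≤ 3) → ∀ S : GMap G, S.eg = k → Wide S → ∀ l : Inp, Codes S l →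
      f l = orientableGenus G := by
  obtain ⟨T, hT⟩ := alg_correct k
  exact ⟨alg k T, fp_alg k T, hT⟩

end Pool.Agent.BEO
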