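import Pool.Agent.BEO.DatB

/-!
# BEO-RkAdd: `rank N(lam) ≤ k + card lam`, and the Gram matrix of the faces
-/

set_option autoImplicit false

open Finset
open scoped Classical

namespace Pool.Agent.BEO

namespace Dat

variable {k : ℕ} {Φ E Z : Type} [Fintype Φ] [Fintype E] [AddCommGroup Z] [Module F2 Z] [Module.Finite F2 Z]
  (D : Dat k Φ E Z)

theorem rkN_le (lam : Finset E) : D.rkN lam ≤ k + lam.card := by
  have hN : ∀ x, D.N lam x = D.J x + ∑ e ∈ lam, D.a e x • D.a e := by
    intro x
    ext y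
    rw [N_apply, LinearMap.add_apply, LinearMap.sum_apply]
    rfl
  have h1 : LinearMap.range (D.N lam) ≤
      LinearMap.range D.J ⊔ Submodule.span F2 ((lam.image D.a : Finset (Z →ₗ[F2] F2)) : Set (Z →ₗ[F2] F2)) := by
    rintro _ ⟨x, rfl⟩
    rw [hN x]
    refine Submodule.add_mem_sup ⟨x, rfl⟩ (Submodule.sum_mem _ fun e he => ?_)
    refine Submodule.smul_mem _ _ (Submodule.subset_span ?_)
    rw [Finset.mem_coe]
    exact Finset.mem_image_of_mem _ he
  unfold rkN
  calc Module.finrank F2 (LinearMap.range (D.N lam))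
      ≤ Module.finrank F2 ((LinearMap.range D.J ⊔
        Submodule.span F2 ((lam.image D.a : Finset (Z →ₗ[F2] F2)) : Set (Z →ₗ[F2] F2)) :
          Submodule F2 (Z →ₗ[F2] F2))) := Submodule.finrank_mono h1
    _ ≤ Module.finrank F2 (LinearMap.range D.J) +
        Module.finrank F2 (Submodule.span F2 ((lam.image D.a : Finset (Z →ₗ[F2] F2)) : Set (Z →ₗ[F2] F2))) :=
        Submodule.finrank_add_le_finrank_add_finrank _ _
    _ ≤ k + (lam.image D.a).card := by
        rw [D.rk]
        exact Nat.add_le_add_left (finrank_span_finset_le_card _) _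
    _ ≤ k + lam.card := Nat.add_le_add_left Finset.card_image_le _

theorem gram_le (lam : Finset E) :
    Module.finrank F2 (Submodule.span F2 (Set.range fun (F G : Φ) => D.N lam (D.z F) (D.z G))) ≤ D.rkN lam := by
  obtain ⟨ev, hev⟩ : ∃ ev : (Z →ₗ[F2] F2) →ₗ[F2] (Φ → F2), ∀ φ G, ev φ G = φ (D.z G) :=
    ⟨{ toFun := fun φ G => φ (D.z G)
       map_add' := fun _ _ => rfl
       map_smul' := fun _ _ => rfl }, fun _ _ => rfl⟩
  have h1 : Submodule.span F2 (Set.range fun (F G : Φ) => D.N lam (D.z F) (D.z G)) ≤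
      (LinearMap.range (D.N lam)).map ev := by
    rw [Submodule.span_le]
    rintro _ ⟨F, rfl⟩
    refine ⟨D.N lam (D.z F), ⟨_, rfl⟩, ?_⟩
    funext G
    exact hev _ _
  unfold rkN
  exact (Submodule.finrank_mono h1).trans (Submodule.finrank_map_le ev _)

end Dat

end Pool.Agent.BEO
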