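import Pool.Agent.BEO.K2U
import Pool.Agent.BEO.RkAdd
import Pool.Agent.BEO.Par

/-!
# BEO-MkC: the edges of the graph of an optimal set
-/

set_option autoImplicit false

open Finset
open scoped Classical

namespace Pool.Agent.BEO

namespace Dat

variable {k : ℕ} {Φ E Z : Type} [Fintype Φ] [Fintype E] [AddCommGroup Z] [Module F2 Z] [Module.Finite F2 Z]
  (D : Dat k Φ E Z) {lam mu : Finset E}

private theorem gr_edge_aux {nu : Finset E} (h : ∀ e ∈ nu, D.s e ≠ D.t e) (e' : Sym2 Φ) :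
    e' ∈ (D.gr nu).edgeSet ↔ ∃ e ∈ nu, s(D.s e, D.t e) = e' := by
  induction e' using Sym2.ind with
  | _ F G =>
    rw [SimpleGraph.mem_edgeSet]
    constructor
    · rintro ⟨_, e, he, h1⟩
      exact ⟨e, he, Sym2.eq_iff.2 h1⟩
    · rintro ⟨e, he, h1⟩
      have h2 := Sym2.eq_iff.1 h1
      refine ⟨?_, e, he, h2⟩
      intro hFG
      apply h e he
      rcases h2 with ⟨a1, a2⟩ | ⟨a1, a2⟩
      · rw [a1, a2, hFG]
      · rw [a1, a2, hFG]

/-- the pairs of faces of the edges of `lam` are the edges of the graph, without repetition -/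
theorem gr_edge (h : D.Min lam mu) (e' : Sym2 Φ) : e' ∈ (D.gr lam).edgeSet ↔ ∃ e ∈ lam, s(D.s e, D.t e) = e' :=
  gr_edge_aux D (fun e he => D.no_loop h e he) e'

theorem gr_edge_mu (h : D.Min lam mu) (e' : Sym2 Φ) : e' ∈ (D.gr mu).edgeSet ↔ ∃ e ∈ mu, s(D.s e, D.t e) = e' :=
  gr_edge_aux D (fun e he => D.no_loop h e (h.sub he)) e'

end Dat

end Pool.Agent.BEO
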