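import Pool.Agent.BEO.MkC

/-!
# BEO-MkC2: the configuration of an optimal set
-/

set_option autoImplicit false

open Finset
open scoped Classical

namespace Pool.Agent.BEO

namespace Dat

variable {k : ℕ} {Φ E Z : Type} [Fintype Φ] [Fintype E] [AddCommGroup Z] [Module F2 Z] [Module.Finite F2 Z]
  (D : Dat k Φ E Z) {lam mu : Finset E}

/-- the pair of faces of an edge -/
private def qq (D : Dat k Φ E Z) (e : E) : Sym2 Φ := s(D.s e, D.t e)

/-- the class of a pair of faces -/
private noncomputable def aa (D : Dat k Φ E Z) (lam : Finset E) (e' : Sym2 Φ) : Z →ₗ[F2] F2 :=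
  ∑ e ∈ lam.filter (fun e => D.qq e = e'), D.a e

private theorem qinj (h : D.Min lam mu) {e e' : E} (he : e ∈ lam) (he' : e' ∈ lam)
    (hh : D.qq e = D.qq e') : e = e' := D.no_digon h e e' he he' hh

private theorem aa_qq (h : D.Min lam mu) {e : E} (he : e ∈ lam) : D.aa lam (D.qq e) = D.a e := by
  have h1 : lam.filter (fun e' => D.qq e' = D.qq e) = {e} := by
    ext e'
    rw [mem_filter, mem_singleton]
    constructor
    · rintro ⟨h1, h2⟩
      exact qinj D h h1 he h2
    · rintro rfl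
      exact ⟨he, rfl⟩
  unfold aa
  rw [h1, sum_singleton]

private theorem a_z (h : D.Min lam mu) {e : E} (he : e ∈ lam) (F : Φ) :
    D.a e (D.z F) = if F ∈ D.qq e then 1 else 0 := by
  have hn := D.no_loop h e he
  rw [D.inc]
  have hm : F ∈ D.qq e ↔ F = D.s e ∨ F = D.t e := Sym2.mem_iff
  by_cases h1 : D.s e = F
  · have h2 : D.t e ≠ F := fun h2 => hn (h1.trans h2.symm)
    rw [if_pos h1, if_neg h2, if_pos (hm.2 (Or.inl h1.symm)), add_zero]
  · by_cases h2 : D.t e = F
    · rw [if_neg h1, if_pos h2, if_pos (hm.2 (Or.inr h2.symm)), zero_add]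
    · rw [if_neg h1, if_neg h2, if_neg, add_zero]
      intro h3
      rcases hm.1 h3 with h4 | h4
      · exact h1 h4.symm
      · exact h2 h4.symm

private theorem es_L (h : D.Min lam mu) : es (D.gr lam) = lam.image D.qq := by
  ext e'
  unfold es
  rw [mem_filter, mem_image, D.gr_edge h]
  exact ⟨fun h => h.2, fun h => ⟨mem_univ _, h⟩⟩

private theorem es_M (h : D.Min lam mu) : es (D.gr mu) = mu.image D.qq := by
  ext e'
  unfold es
  rw [mem_filter, mem_image, D.gr_edge_mu h]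
  exact ⟨fun h => h.2, fun h => ⟨mem_univ _, h⟩⟩

private theorem dg_image (h : D.Min lam mu) {ν : Finset E} (hν : ν ⊆ lam) (F : Φ) :
    ((dg (ν.image D.qq) F : ℕ) : F2) = ∑ e ∈ ν, D.a e (D.z F) := by
  unfold dg
  rw [filter_image, card_image_of_injOn (fun e he e' he' hh => qinj D h
    (hν (mem_filter.1 he).1) (hν (mem_filter.1 he').1) hh), ← sum_boole]
  exact sum_congr rfl fun e he => (a_z D h (hν he) F).symm

private theorem sum_aa (h : D.Min lam mu) {ν : Finset E} (hν : ν ⊆ lam) :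
    ∑ e' ∈ ν.image D.qq, D.aa lam e' = ∑ e ∈ ν, D.a e := by
  rw [sum_image (fun e he e' he' hh => qinj D h (hν he) (hν he') hh)]
  exact sum_congr rfl fun e he => aa_qq D h (hν he)

private theorem chi_image (h : D.Min lam mu) {χ : Finset (Sym2 Φ)} (hχ : ∀ e ∈ χ, e ∈ (D.gr lam).edgeSet) :
    (lam.filter (fun e => D.qq e ∈ χ)).image D.qq = χ := by
  ext e'
  rw [mem_image]
  constructor
  · rintro ⟨e, he, rfl⟩
    exact (mem_filter.1 he).2
  · intro he'
    obtain ⟨e, he, rfl⟩ := (D.gr_edge h e').1 (hχ e' he')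
    exact ⟨e, mem_filter.2 ⟨he, he'⟩, rfl⟩

private theorem adj_edge (h : D.Min lam mu) {F G : Φ} (hFG : (D.gr lam).Adj F G) :
    ∃ e ∈ lam, D.qq e = s(F, G) := (D.gr_edge h s(F, G)).1 hFG

private theorem walk_dw (h : D.Min lam mu) {u v : Φ} (w : (D.gr lam).Walk u v) :
    ∃ l, DW D.s D.t u v l ∧ l.length = w.length ∧ l.map D.a = w.edges.map (D.aa lam) := by
  induction w with
  | nil => exact ⟨[], DW.nil _, rfl, rfl⟩
  | @cons u v' v huv p ih =>
    obtain ⟨l, hl1, hl2, hl3⟩ := ih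
    obtain ⟨e, he, hq⟩ := adj_edge D h huv
    refine ⟨e :: l, DW.cons u v' v e l ?_ hl1, ?_, ?_⟩
    · rcases Sym2.eq_iff.1 hq with h1 | h1
      · exact Or.inl h1
      · exact Or.inr h1
    · rw [List.length_cons, SimpleGraph.Walk.length_cons, hl2]
    · rw [List.map_cons, SimpleGraph.Walk.edges_cons, List.map_cons, hl3, ← hq, aa_qq D h he]

private theorem even_nb (h : D.Min lam mu) {ν : Finset E} (hν : ν ⊆ lam) (ha : D.Adm ν)
    (he : es (D.gr ν) = ν.image D.qq) (v : Φ) : Even (nb (D.gr ν) v).card := by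
  rw [← dg_es, he, even_cast, dg_image D h hν]
  exact (D.ev_iff ν).1 (D.ev_of_adm ν ha) v

private theorem N_z (h : D.Min lam mu) (F : Φ) (y : Z) :
    D.N lam (D.z F) y = ∑ e ∈ lam, (if F ∈ D.qq e then 1 else 0) * D.a e y := by
  rw [D.N_apply, D.symm, D.J_z, zero_add]
  exact sum_congr rfl fun e he => by rw [a_z D h he]

private theorem rho_aux (h : D.Min lam mu) (v : Φ) :
    ∑ u ∈ nb (D.gr lam) v, D.aa lam s(v, u) = D.N lam (D.z v) := by
  have h1 : D.N lam (D.z v) = ∑ e ∈ lam.filter (fun e => v ∈ D.qq e), D.a e := by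
    refine LinearMap.ext fun y => ?_
    rw [N_z D h, LinearMap.sum_apply, sum_filter]
    refine sum_congr rfl fun e _ => ?_
    by_cases hv : v ∈ D.qq e
    · rw [if_pos hv, if_pos hv, one_mul]
    · rw [if_neg hv, if_neg hv, zero_mul]
  rw [h1]
  symm
  refine sum_bij (fun e he => Sym2.Mem.other (mem_filter.1 he).2) ?_ ?_ ?_ ?_
  · intro e he
    have h2 := Sym2.other_spec (mem_filter.1 he).2
    unfold nb
    rw [mem_filter]
    refine ⟨mem_univ _, ?_⟩
    rw [← SimpleGraph.mem_edgeSet, D.gr_edge h]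
    exact ⟨e, (mem_filter.1 he).1, h2.symm⟩
  · intro e he e' he' hh
    have h2 := Sym2.other_spec (mem_filter.1 he).2
    have h3 := Sym2.other_spec (mem_filter.1 he').2
    rw [hh, h3] at h2
    exact qinj D h (mem_filter.1 he).1 (mem_filter.1 he').1 h2.symm
  · intro u hu
    unfold nb at hu
    obtain ⟨e, he, hq⟩ := adj_edge D h (mem_filter.1 hu).2
    have hv : v ∈ D.qq e := by rw [hq]; exact Sym2.mem_mk_left v u
    refine ⟨e, mem_filter.2 ⟨he, hv⟩, ?_⟩
    have h2 := Sym2.other_spec hv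
    exact Sym2.congr_right.1 (h2.trans hq)
  · intro e he
    have h2 := Sym2.other_spec (mem_filter.1 he).2
    rw [h2, aa_qq D h (mem_filter.1 he).1]

private theorem gram (h : D.Min lam mu) (F G : Φ) :
    row (D.gr lam) F G = D.N lam (D.z F) (D.z G) := by
  have h1 : D.N lam (D.z F) (D.z G) =
      ((lam.filter (fun e => F ∈ D.qq e ∧ G ∈ D.qq e)).card : F2) := by
    rw [N_z D h, ← sum_boole]
    refine sum_congr rfl fun e he => ?_
    rw [a_z D h he]
    by_cases h1 : F ∈ D.qq e <;> by_cases h2 : G ∈ D.qq e <;> simp [h1, h2]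
  by_cases hFG : F = G
  · subst hFG
    have h2 : D.N lam (D.z F) (D.z F) = 0 := h.adm (D.z F)
    rw [h2]
    unfold row
    rw [if_neg (D.gr lam).irrefl]
  · rw [h1]
    unfold row
    by_cases ha : (D.gr lam).Adj F G
    · obtain ⟨e, he, hq⟩ := adj_edge D h ha
      have h2 : lam.filter (fun e => F ∈ D.qq e ∧ G ∈ D.qq e) = {e} := by
        ext e'
        rw [mem_filter, mem_singleton]
        constructor
        · rintro ⟨h3, h4⟩
          refine qinj D h h3 he ?_
          rw [hq]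
          exact (Sym2.mem_and_mem_iff hFG).1 h4
        · rintro rfl
          refine ⟨he, ?_⟩
          rw [hq]
          exact ⟨Sym2.mem_mk_left _ _, Sym2.mem_mk_right _ _⟩
      rw [if_pos ha, h2, card_singleton, Nat.cast_one]
    · have h2 : lam.filter (fun e => F ∈ D.qq e ∧ G ∈ D.qq e) = ∅ := by
        refine filter_eq_empty_iff.2 fun e he h4 => ha ?_
        rw [← SimpleGraph.mem_edgeSet, D.gr_edge h]
        exact ⟨e, he, (Sym2.mem_and_mem_iff hFG).1 h4⟩
      rw [if_neg ha, h2, card_empty, Nat.cast_zero]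

private theorem add_self' (φ : Z →ₗ[F2] F2) : φ + φ = 0 := by
  refine LinearMap.ext fun y => ?_
  show φ y + φ y = 0
  exact q_add_self _

private theorem sum_symm (ν χ : Finset E) :
    ∑ e ∈ symmDiff ν χ, D.a e = ∑ e ∈ ν, D.a e + ∑ e ∈ χ, D.a e := by
  have h1 : ∑ e ∈ ν, D.a e = ∑ e ∈ ν \ χ, D.a e + ∑ e ∈ ν ∩ χ, D.a e := by
    rw [← sum_sdiff (sdiff_subset : ν \ χ ⊆ ν), add_comm]
    congr 2
    rw [sdiff_sdiff_right_self]
    rfl
  have h2 : ∑ e ∈ χ, D.a e = ∑ e ∈ χ \ ν, D.a e + ∑ e ∈ ν ∩ χ, D.a e := by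
    rw [← sum_sdiff (sdiff_subset : χ \ ν ⊆ χ), add_comm]
    congr 2
    rw [sdiff_sdiff_right_self, inf_comm]
    rfl
  have h3 : ∑ e ∈ symmDiff ν χ, D.a e = ∑ e ∈ ν \ χ, D.a e + ∑ e ∈ χ \ ν, D.a e := by
    rw [symmDiff_def]
    refine sum_union ?_
    rw [disjoint_left]
    intro e h4 h5
    exact (mem_sdiff.1 h4).2 (mem_sdiff.1 h5).1
  rw [h3, h1, h2]
  have h4 := add_self' (∑ e ∈ ν ∩ χ, D.a e)
  calc _ = ∑ e ∈ ν \ χ, D.a e + ∑ e ∈ χ \ ν, D.a e + 0 := (add_zero _).symm
    _ = _ := by rw [← h4]; abel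

private theorem mn_aux (h : D.Min lam mu) (χ : Finset (Sym2 Φ)) (hχ : ∀ e ∈ χ, e ∈ (D.gr lam).edgeSet)
    (h0 : ∑ e ∈ χ, D.aa lam e = 0) :
    (χ.filter fun e => e ∈ (D.gr mu).edgeSet).card ≤ (χ.filter fun e => e ∉ (D.gr mu).edgeSet).card := by
  obtain ⟨χ', hχ'⟩ : ∃ χ', χ' = lam.filter (fun e => D.qq e ∈ χ) := ⟨_, rfl⟩
  have hsub : χ' ⊆ lam := by rw [hχ']; exact filter_subset _ _
  have him : χ'.image D.qq = χ := by rw [hχ']; exact chi_image D h hχ
  have h1 : ∑ e ∈ χ', D.a e = 0 := by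
    rw [← sum_aa D h hsub, him]
    exact h0
  have hadm : D.Adm (symmDiff mu χ') := by
    refine (D.adm_iff mu _ ?_).1 h.admM
    rw [sum_symm, h1, add_zero]
  have hsub2 : symmDiff mu χ' ⊆ lam := by
    intro e he
    rcases mem_symmDiff.1 he with h2 | h2
    · exact h.sub h2.1
    · exact hsub h2.1
  have h2 := h.smallM _ hsub2 hadm
  have h3 : (symmDiff mu χ').card = (mu \ χ').card + (χ' \ mu).card := by
    rw [symmDiff_def]
    refine card_union_of_disjoint ?_
    rw [disjoint_left]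
    intro e h4 h5
    exact (mem_sdiff.1 h4).2 (mem_sdiff.1 h5).1
  have h4 : (mu \ χ').card + (mu ∩ χ').card = mu.card := card_sdiff_add_card_inter _ _
  have hM : ∀ e ∈ lam, (D.qq e ∈ (D.gr mu).edgeSet ↔ e ∈ mu) := by
    intro e he
    rw [D.gr_edge_mu h]
    constructor
    · rintro ⟨e', he', hq⟩
      rwa [← qinj D h (h.sub he') he hq]
    · intro h5
      exact ⟨e, h5, rfl⟩
  have h5 : (χ.filter fun e => e ∈ (D.gr mu).edgeSet).card = (mu ∩ χ').card := by
    rw [← him, filter_image, card_image_of_injOn (fun e he e' he' hh => qinj D h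
      (hsub (mem_filter.1 he).1) (hsub (mem_filter.1 he').1) hh)]
    congr 1
    ext e
    rw [mem_filter, mem_inter]
    constructor
    · rintro ⟨h6, h7⟩
      exact ⟨(hM e (hsub h6)).1 h7, h6⟩
    · rintro ⟨h6, h7⟩
      exact ⟨h7, (hM e (hsub h7)).2 h6⟩
  have h6 : (χ.filter fun e => e ∉ (D.gr mu).edgeSet).card = (χ' \ mu).card := by
    rw [← him, filter_image, card_image_of_injOn (fun e he e' he' hh => qinj D h
      (hsub (mem_filter.1 he).1) (hsub (mem_filter.1 he').1) hh)]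
    congr 1
    ext e
    rw [mem_filter, mem_sdiff]
    constructor
    · rintro ⟨h6, h7⟩
      exact ⟨h6, fun h8 => h7 ((hM e (hsub h6)).2 h8)⟩
    · rintro ⟨h6, h7⟩
      exact ⟨h6, fun h8 => h7 ((hM e (hsub h6)).1 h8)⟩
  rw [h5, h6]
  omega

theorem exists_cfg (h : D.Min lam mu) : ∃ c : Cfg k Φ (Z →ₗ[F2] F2), c.L = D.gr lam := by
  refine ⟨{
    L := D.gr lam
    M := D.gr mu
    le := ?_
    a := D.aa lam
    W := LinearMap.range (D.N lam)
    H := D.H
    evL := even_nb D h subset_rfl h.adm (es_L D h)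
    evM := even_nb D h h.sub h.admM (es_M D h)
    null := ?_
    rho := fun v => ⟨D.z v, (rho_aux D h v).symm⟩
    tw := ?_
    cls := ?_
    finH := inferInstance
    dimH := D.finrank_H.le
    mn := fun χ h1 _ h3 => mn_aux D h χ h1 h3
    rk := ?_ }, rfl⟩
  · rintro F G ⟨h1, e, he, h2⟩
    exact ⟨h1, e, h.sub he, h2⟩
  · intro v w hw
    obtain ⟨l, hl1, hl2, hl3⟩ := walk_dw D h w
    rw [← hl3]
    exact D.wide v l hl1 (by rw [hl2]; exact hw)
  · intro u v huv U hU hne hev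
    have h1 : ∀ x ∈ U, ∃ e, e ∈ lam ∧ D.qq e = s(u, x) := fun x hx => by
      obtain ⟨e, he, hq⟩ := adj_edge D h (hU x hx).1
      exact ⟨e, he, hq⟩
    have h2 : ∀ x ∈ U, ∃ e, e ∈ lam ∧ D.qq e = s(v, x) := fun x hx => by
      obtain ⟨e, he, hq⟩ := adj_edge D h (hU x hx).2
      exact ⟨e, he, hq⟩
    have hE : Nonempty E := by
      obtain ⟨x, hx⟩ := hne
      obtain ⟨e, -⟩ := h1 x hx
      exact ⟨e⟩
    choose! eF hF using h1
    choose! eG hG using h2
    have h3 := D.k2u h u v huv U hne hev eF eG hF hG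
    have h4 : ∑ x ∈ U, D.aa lam s(u, x) = ∑ x ∈ U, D.a (eF x) := by
      refine sum_congr rfl fun x hx => ?_
      rw [← (hF x hx).2, aa_qq D h (hF x hx).1]
    rw [h4]
    exact h3
  · intro χ hχ hev F
    have hsub : lam.filter (fun e => D.qq e ∈ χ) ⊆ lam := filter_subset _ _
    have h1 := (even_cast _).1 (hev F)
    rw [← chi_image D h hχ, dg_image D h hsub] at h1
    rw [← chi_image D h hχ, sum_aa D h hsub, LinearMap.sum_apply]
    exact h1
  · have h1 : rowSp (D.gr lam) =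
        Submodule.span F2 (Set.range fun (F G : Φ) => D.N lam (D.z F) (D.z G)) := by
      unfold rowSp
      congr 2
      funext F G
      exact gram D h F G
    have h2 : (es (D.gr mu)).card = mu.card := by
      rw [es_M D h, card_image_of_injOn (fun e he e' he' hh => qinj D h (h.sub he) (h.sub he') hh)]
    rw [h1, h2]
    exact ((D.gram_le lam).trans (h.opt mu h.admM)).trans (D.rkN_le mu)

end Dat

end Pool.Agent.BEO
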