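import Pool.Agent.BEO.Topo

/-!
# The width condition in terms of sets of edges
-/

set_option autoImplicit false

open Finset
open scoped Classical

namespace Pool.Agent.BEO

open Pool.Agent.Helper35.OG (Flag GMap across side)

variable {V : Type} {G : SimpleGraph V}

theorem f2_one_of_ne (x : F2) (h : x ≠ 0) : x = 1 := by
  fin_cases x
  · exact absurd rfl h
  · rfl

theorem f2_sum_card {ι : Type} (s : Finset ι) (f : ι → F2) : ∑ i ∈ s, f i = (((s.filter fun i => f i = 1).card : ℕ) : F2) := by
  rw [Finset.card_filter, Nat.cast_sum]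
  apply Finset.sum_congr rfl
  intro i _
  by_cases h : f i = 1
  · rw [if_pos h, h, Nat.cast_one]
  · rw [if_neg h, Nat.cast_zero]
    by_contra h2
    exact h (f2_one_of_ne _ h2)

/-- the support of an element of the cycle space is an even set of edges -/
theorem even_of_cyc [Fintype V] {z : G.edgeSet → F2} (hz : z ∈ cyc G) (v : V) :
    Even {e : Sym2 V | (∃ h : e ∈ G.edgeSet, z ⟨e, h⟩ = 1) ∧ v ∈ e}.ncard := by
  have h1 := hz v
  rw [f2_sum_card] at h1
  have h2 : Even ((univ.filter (fun d : G.Dart => d.fst = v)).filter fun d => z (ed (d, true)) = 1).card := by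
    rw [← ZMod.natCast_eq_zero_iff_even]
    exact h1
  have h3 : {e : Sym2 V | (∃ h : e ∈ G.edgeSet, z ⟨e, h⟩ = 1) ∧ v ∈ e}.ncard =
      ((univ.filter (fun d : G.Dart => d.fst = v)).filter fun d => z (ed (d, true)) = 1).card := by
    symm
    rw [← Set.ncard_coe_finset]
    apply Set.ncard_congr (fun (d : G.Dart) _ => d.edge)
    · intro d hd
      simp only [coe_filter, mem_filter, mem_univ, true_and, Set.mem_ofPred_eq] at hd
      refine ⟨⟨d.edge_mem, hd.2⟩, ?_⟩
      rw [← hd.1]
      exact Sym2.mem_mk_left _ _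
    · intro d d' hd hd' he
      simp only [coe_filter, mem_filter, mem_univ, true_and, Set.mem_ofPred_eq] at hd hd'
      rcases SimpleGraph.dart_edge_eq_iff _ _ |>.1 he with h | h
      · exact h
      · exfalso
        have h4 : d.fst = d'.snd := by rw [h]; rfl
        have h5 := d'.adj.ne
        exact h5 (by rw [hd'.1, ← hd.1, h4])
    · intro e he
      obtain ⟨⟨h, hz1⟩, hv⟩ := he
      obtain ⟨u, rfl⟩ := hv
      refine ⟨⟨(v, u), h⟩, ?_, rfl⟩
      simp only [coe_filter, mem_filter, mem_univ, true_and, Set.mem_ofPred_eq]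
      exact hz1
  rw [h3]
  exact h2

theorem wide_of_sets [Fintype V] (S : GMap G)
    (h : ∀ (r : ℕ) [NeZero r], r ≤ 6 → ∀ p : Fin r → Flag G, (∀ i, S.face (side (p i)) = S.face (p (i + 1))) →
      ∀ C : Set (Sym2 V), C ⊆ G.edgeSet → (∀ v, Even {e | e ∈ C ∧ v ∈ e}.ncard) →
        Even {i | (p i).1.edge ∈ C}.ncard) : Wide S := by
  intro l hl hc z hz
  rcases Nat.eq_zero_or_pos l.length with h0 | h0
  · rw [List.length_eq_zero_iff] at h0
    subst h0
    simp
  · have : NeZero l.length := ⟨by omega⟩
    have h1 := h l.length hl (fun i => l.get i) (by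
      intro i
      have h2 := hc i.1 i.2
      have h3 : ((i + 1 : Fin l.length) : ℕ) = (i.1 + 1) % l.length := by
        rw [Fin.val_add, Fin.val_one', Nat.add_mod_mod]
      simp only [List.get_eq_getElem]
      rw [h2]
      congr 1
      simp only [h3]) {e | ∃ h : e ∈ G.edgeSet, z ⟨e, h⟩ = 1} (by
        rintro e ⟨he, _⟩
        exact he) (fun v => even_of_cyc hz v)
    have h5 : (l.map fun p => z (ed p)).sum = ∑ i : Fin l.length, z (ed (l.get i)) := by
      rw [← List.sum_ofFn]
      congr 1
      apply List.ext_getElem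
      · simp
      · intro i h1 h2
        simp
    rw [h5, f2_sum_card, ZMod.natCast_eq_zero_iff_even]
    convert h1 using 1
    rw [← Set.ncard_coe_finset]
    congr 1
    ext i
    simp only [coe_filter, mem_univ, true_and, Set.mem_ofPred_eq]
    constructor
    · intro h6
      exact ⟨(l.get i).1.edge_mem, h6⟩
    · rintro ⟨h6, h7⟩
      exact h7

end Pool.Agent.BEO
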