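import Pool.Agent.BEO.Base

/-!
# BEO-NearB: elementary facts about `Near` and the size of balls

PLAN. Walks: `nil`, `cons`, `reverse`, `append`. `near_succ`: split off the first edge. Ball: induction on `r` with
`near_succ`: the ball of radius `r + 1` around `u` is the union of the balls of radius `r` around `u` and around its
at most `d` neighbours (`Finset.card_biUnion_le`).
-/

set_option autoImplicit false

open Finset
open scoped Classical

namespace Pool.Agent.BEO

variable {V : Type} {M : SimpleGraph V}

theorem Near.refl (r : ℕ) (u : V) : Near M r u u := by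
  exact ⟨SimpleGraph.Walk.nil, by simp⟩

theorem Near.symm {r : ℕ} {u v : V} (h : Near M r u v) : Near M r v u := by
  obtain ⟨w, hw⟩ := h
  exact ⟨w.reverse, by simpa using hw⟩

theorem Near.trans {r s : ℕ} {u v w : V} (h : Near M r u v) (h' : Near M s v w) : Near M (r + s) u w := by
  obtain ⟨p, hp⟩ := h
  obtain ⟨q, hq⟩ := h'
  exact ⟨p.append q, by rw [SimpleGraph.Walk.length_append]; omega⟩

theorem Near.mono {r s : ℕ} (hrs : r ≤ s) {u v : V} (h : Near M r u v) : Near M s u v := by
  obtain ⟨p, hp⟩ := h
  exact ⟨p, hp.trans hrs⟩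

theorem Near.of_adj {u v : V} (h : M.Adj u v) : Near M 1 u v := by
  exact ⟨SimpleGraph.Walk.cons h SimpleGraph.Walk.nil, by simp⟩

theorem near_zero {u v : V} : Near M 0 u v ↔ u = v := by
  constructor
  · rintro ⟨p, hp⟩
    exact SimpleGraph.Walk.eq_of_length_eq_zero (Nat.le_zero.mp hp)
  · rintro rfl
    exact Near.refl 0 _

theorem near_succ {r : ℕ} {u v : V} : Near M (r + 1) u v ↔ (Near M r u v ∨ ∃ w, M.Adj u w ∧ Near M r w v) := by
  constructor
  · rintro ⟨p, hp⟩
    cases p with
    | nil => exact Or.inl (Near.refl r _)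
    | cons h q =>
      right
      refine ⟨_, h, q, ?_⟩
      rw [SimpleGraph.Walk.length_cons] at hp
      omega
  · rintro (h | ⟨w, h1, h2⟩)
    · exact h.mono (Nat.le_succ r)
    · have := (Near.of_adj h1).trans h2
      rwa [Nat.add_comm] at this

theorem near_one {u v : V} : Near M 1 u v ↔ u = v ∨ M.Adj u v := by
  have h := near_succ (M := M) (r := 0) (u := u) (v := v)
  rw [Nat.zero_add] at h
  rw [h]
  constructor
  · rintro (h | ⟨w, h1, h2⟩)
    · exact Or.inl (near_zero.mp h)
    · rw [near_zero] at h2
      subst h2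
      exact Or.inr h1
  · rintro (h | h)
    · exact Or.inl (near_zero.mpr h)
    · exact Or.inr ⟨v, h, near_zero.mpr rfl⟩

theorem card_ball [Fintype V] {d : ℕ} (hd : ∀ v, (nb M v).card ≤ d) (r : ℕ) (u : V) :
    (univ.filter fun v => Near M r u v).card ≤ (d + 1) ^ r := by
  induction r generalizing u with
  | zero =>
    rw [pow_zero]
    refine Finset.card_le_one.mpr ?_
    intro a ha b hb
    rw [Finset.mem_filter] at ha hb
    rw [← near_zero.mp ha.2, ← near_zero.mp hb.2]
  | succ r ih =>
    have hsub : (univ.filter fun v => Near M (r + 1) u v) ⊆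
        (univ.filter fun v => Near M r u v) ∪ (nb M u).biUnion (fun w => univ.filter fun v => Near M r w v) := by
      intro v hv
      rw [Finset.mem_filter] at hv
      rw [Finset.mem_union, Finset.mem_filter, Finset.mem_biUnion]
      rcases near_succ.mp hv.2 with h | ⟨w, h1, h2⟩
      · exact Or.inl ⟨Finset.mem_univ _, h⟩
      · refine Or.inr ⟨w, ?_, ?_⟩
        · rw [nb, Finset.mem_filter]
          exact ⟨Finset.mem_univ _, h1⟩
        · rw [Finset.mem_filter]
          exact ⟨Finset.mem_univ _, h2⟩
    refine (Finset.card_le_card hsub).trans ?_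
    refine (Finset.card_union_le _ _).trans ?_
    have h1 : ((nb M u).biUnion (fun w => univ.filter fun v => Near M r w v)).card ≤ (nb M u).card * (d + 1) ^ r :=
      Finset.card_biUnion_le_card_mul _ _ _ fun w _ => ih w
    have h2 : (nb M u).card * (d + 1) ^ r ≤ d * (d + 1) ^ r := Nat.mul_le_mul_right _ (hd u)
    have h3 := ih u
    rw [pow_succ]
    nlinarith [h1, h2, h3]

end Pool.Agent.BEO
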