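import Mathlib

/-!
# BEO-Pull: a rank inequality for alternating forms over `F2` (Mathlib only)

PLAN. Let `P : Z →ₗ Z`, `P u = u + y u • z0`. Then for all `u, v`
`N (P u) (P v) = N u v + y v * N u z0 + y u * N z0 v + y u * y v * N z0 z0`, and `N z0 z0 = 0`, `N u z0 = N z0 u`
(an alternating form over `F2` is symmetric: expand `N (u + v) (u + v) = 0`), so this is
`(N + (N z0) ⊗ y + y ⊗ (N z0)) u v`. Hence the new form is `Pᵗ ∘ N ∘ P` (`Pᵗ φ = φ ∘ P`, `LinearMap.dualMap` or
`LinearMap.lcomp`) and the range of a composition has dimension at most that of the range of `N`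
(`LinearMap.finrank_range_le`-type lemmas: `range (g ∘ N ∘ P) ≤ map g (range N)`, `Submodule.finrank_map_le`).
-/

set_option autoImplicit false

namespace Pool.Agent.BEO

theorem rank_pull {Z : Type} [AddCommGroup Z] [Module (ZMod 2) Z] [Module.Finite (ZMod 2) Z]
    (N : Z →ₗ[ZMod 2] Z →ₗ[ZMod 2] ZMod 2) (halt : ∀ x, N x x = 0) (z0 : Z) (y : Z →ₗ[ZMod 2] ZMod 2)
    (N' : Z →ₗ[ZMod 2] Z →ₗ[ZMod 2] ZMod 2) (h : ∀ u v, N' u v = N u v + N z0 u * y v + y u * N z0 v) :
    Module.finrank (ZMod 2) (LinearMap.range N') ≤ Module.finrank (ZMod 2) (LinearMap.range N) := by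
  have h2 : ∀ t : ZMod 2, t + t = 0 := fun t => CharTwo.add_self_eq_zero t
  have hsym : ∀ u v, N u v = N v u := by
    intro u v
    have h1 := halt (u + v)
    have h0 : N (u + v) (u + v) = N u u + N u v + (N v u + N v v) := by
      rw [map_add N u v, LinearMap.add_apply, map_add (N u), map_add (N v)]
    rw [h0, halt u, halt v, zero_add, add_zero] at h1
    have h3 := h2 (N v u)
    calc N u v = N u v + (N v u + N v u) := by rw [h3, add_zero]
      _ = (N u v + N v u) + N v u := by rw [add_assoc]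
      _ = N v u := by rw [h1, zero_add]
  let P : Z →ₗ[ZMod 2] Z := LinearMap.id + y.smulRight z0
  let g : (Z →ₗ[ZMod 2] ZMod 2) →ₗ[ZMod 2] (Z →ₗ[ZMod 2] ZMod 2) := LinearMap.lcomp (ZMod 2) (ZMod 2) P
  have hP : ∀ u, P u = u + y u • z0 := fun u => rfl
  have hN' : N' = g ∘ₗ N ∘ₗ P := by
    ext u v
    have e1 : (g ∘ₗ N ∘ₗ P) u v = N (P u) (P v) := rfl
    have e2 : N (u + y u • z0) (v + y v • z0) = N u v + y v * N u z0 + (y u * N z0 v + y u * (y v * N z0 z0)) := by
      rw [map_add N u _, LinearMap.add_apply, map_add (N u), map_smul N (y u) z0, LinearMap.smul_apply,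
        map_add (N z0), map_smul (N u), map_smul (N z0), smul_eq_mul, smul_eq_mul, smul_eq_mul, mul_add]
    rw [e1, hP, hP, h, e2, halt z0, hsym u z0]
    ring
  rw [hN', LinearMap.range_comp]
  refine (Submodule.finrank_map_le g _).trans ?_
  exact Submodule.finrank_mono (LinearMap.range_comp_le_range P N)

end Pool.Agent.BEO
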