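import Mathlib

/-!
# BEO-RcA: radicals of restrictions of a symmetric bilinear form (Mathlib only)
-/

set_option autoImplicit false

namespace Pool.Agent.BEO

variable {W : Type} [AddCommGroup W] [Module (ZMod 2) W]

/-- the radical of the restriction of `Q` to `Y` -/
def radOn (Q : W →ₗ[ZMod 2] W →ₗ[ZMod 2] ZMod 2) (Y : Submodule (ZMod 2) W) : Submodule (ZMod 2) W where
  carrier := {w | w ∈ Y ∧ ∀ y ∈ Y, Q w y = 0}
  add_mem' := by
    rintro v w ⟨h1, h2⟩ ⟨h3, h4⟩
    refine ⟨Y.add_mem h1 h3, fun y hy => ?_⟩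
    rw [map_add, LinearMap.add_apply, h2 y hy, h4 y hy, add_zero]
  zero_mem' := ⟨Y.zero_mem, fun y _ => by rw [map_zero, LinearMap.zero_apply]⟩
  smul_mem' := by
    rintro r w ⟨h1, h2⟩
    refine ⟨Y.smul_mem r h1, fun y hy => ?_⟩
    rw [map_smul, LinearMap.smul_apply, h2 y hy, smul_zero]

variable [Module.Finite (ZMod 2) W] (Q : W →ₗ[ZMod 2] W →ₗ[ZMod 2] ZMod 2) (hs : ∀ v w, Q v w = Q w v)

include hs

omit [Module.Finite (ZMod 2) W] in
private theorem isRefl_of_symm : LinearMap.IsRefl Q := fun v w h => by rw [hs w v]; exact h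

omit [Module.Finite (ZMod 2) W] in
private theorem radOn_eq (Y : Submodule (ZMod 2) W) :
    radOn Q Y = Y ⊓ LinearMap.BilinForm.orthogonal Q Y := by
  ext w
  rw [Submodule.mem_inf, LinearMap.BilinForm.mem_orthogonal_iff]
  constructor
  · rintro ⟨h1, h2⟩
    exact ⟨h1, fun y hy => by
      show Q y w = 0
      rw [hs y w]
      exact h2 y hy⟩
  · rintro ⟨h1, h2⟩
    exact ⟨h1, fun y hy => by
      have h3 : Q y w = 0 := h2 y hy
      rw [hs w y]
      exact h3⟩

omit [Module.Finite (ZMod 2) W] in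
private theorem radOn_top : radOn Q ⊤ = LinearMap.BilinForm.orthogonal Q ⊤ := by
  rw [radOn_eq Q hs, top_inf_eq]

theorem rad_le (Y : Submodule (ZMod 2) W) :
    Module.finrank (ZMod 2) (radOn Q Y) + Module.finrank (ZMod 2) Y ≤
      Module.finrank (ZMod 2) (radOn Q ⊤) + Module.finrank (ZMod 2) W := by
  have : Fact (Nat.Prime 2) := ⟨Nat.prime_two⟩
  have h1 := LinearMap.BilinForm.finrank_add_finrank_orthogonal (isRefl_of_symm Q hs) Y
  have h2 : Module.finrank (ZMod 2) (radOn Q Y) ≤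
      Module.finrank (ZMod 2) (LinearMap.BilinForm.orthogonal Q Y) := by
    apply Submodule.finrank_mono
    rw [radOn_eq Q hs]
    exact inf_le_right
  have h3 : Module.finrank (ZMod 2) (Y ⊓ LinearMap.BilinForm.orthogonal Q ⊤ : Submodule (ZMod 2) W) ≤
      Module.finrank (ZMod 2) (radOn Q ⊤) := by
    apply Submodule.finrank_mono
    rw [radOn_top Q hs]
    exact inf_le_right
  omega

theorem rad_eq (U Y : Submodule (ZMod 2) W) (hY : ∀ w, w ∈ Y ↔ ∀ u ∈ U, Q u w = 0) (hU : U ≤ Y) :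
    Module.finrank (ZMod 2) (radOn Q Y) + Module.finrank (ZMod 2) (U ⊓ radOn Q ⊤ : Submodule (ZMod 2) W) =
      Module.finrank (ZMod 2) U + Module.finrank (ZMod 2) (radOn Q ⊤) := by
  have : Fact (Nat.Prime 2) := ⟨Nat.prime_two⟩
  have hYo : Y = LinearMap.BilinForm.orthogonal Q U := by
    ext w
    rw [hY, LinearMap.BilinForm.mem_orthogonal_iff]
  have h1 := LinearMap.BilinForm.finrank_add_finrank_orthogonal (isRefl_of_symm Q hs) U
  rw [← hYo] at h1
  have h2 := LinearMap.BilinForm.finrank_add_finrank_orthogonal (isRefl_of_symm Q hs) Y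
  rw [radOn_top Q hs]
  have hRY : LinearMap.BilinForm.orthogonal Q ⊤ ≤ Y := by
    intro w hw
    rw [LinearMap.BilinForm.mem_orthogonal_iff] at hw
    exact (hY w).2 fun u _ => hw u Submodule.mem_top
  rw [inf_eq_right.2 hRY] at h2
  have hle : U ⊔ LinearMap.BilinForm.orthogonal Q ⊤ ≤ LinearMap.BilinForm.orthogonal Q Y := by
    refine sup_le (fun u hu => ?_) (fun w hw => ?_)
    · rw [LinearMap.BilinForm.mem_orthogonal_iff]
      intro y hy
      show Q y u = 0
      rw [hs y u]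
      exact (hY y).1 hy u hu
    · rw [LinearMap.BilinForm.mem_orthogonal_iff] at hw ⊢
      exact fun y _ => hw y Submodule.mem_top
  have h3 := Submodule.finrank_sup_add_finrank_inf_eq U (LinearMap.BilinForm.orthogonal Q ⊤)
  have h4 : U ⊔ LinearMap.BilinForm.orthogonal Q ⊤ = LinearMap.BilinForm.orthogonal Q Y :=
    Submodule.eq_of_le_of_finrank_eq hle (by omega)
  have h5 : radOn Q Y = LinearMap.BilinForm.orthogonal Q Y := by
    rw [radOn_eq Q hs]
    refine inf_eq_right.2 ?_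
    rw [← h4]
    exact sup_le hU hRY
  rw [h5]
  omega

end Pool.Agent.BEO
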