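import Pool.Agent.BEO.Seg

/-!
# BEO-RvK: the vector of a vertex of one of the four types is in `K`
-/

set_option autoImplicit false

open Finset
open scoped Classical

namespace Pool.Agent.BEO

variable {k C : ℕ} {V Q : Type} [Fintype V] [AddCommGroup Q] [Module F2 Q] {c : Cfg k V Q} (f : Frame C c)

private theorem two_pt (S : Finset ℕ) (t : ℕ) (ht : 1 ≤ t) :
    ∑ l ∈ S, (if t = l + 1 ∨ l = t + 1 then (1 : F2) else 0) =
      (if t - 1 ∈ S then 1 else 0) + (if t + 1 ∈ S then 1 else 0) := by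
  have h : ∀ l ∈ S, (if t = l + 1 ∨ l = t + 1 then (1 : F2) else 0) =
      (if l = t - 1 then 1 else 0) + (if l = t + 1 then 1 else 0) := by
    intro l _
    by_cases h1 : l = t - 1
    · have h2 : l ≠ t + 1 := by omega
      have h3 : t = l + 1 ∨ l = t + 1 := by omega
      rw [if_pos h3, if_pos h1, if_neg h2, add_zero]
    · by_cases h2 : l = t + 1
      · rw [if_pos (Or.inr h2), if_neg h1, if_pos h2, zero_add]
      · have h3 : ¬ (t = l + 1 ∨ l = t + 1) := by omega
        rw [if_neg h3, if_neg h1, if_neg h2, add_zero]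
  rw [sum_congr rfl h, sum_add_distrib, sum_ite_eq', sum_ite_eq']

private theorem row_val (j j' : Fin f.m) (l t : ℕ) (h1 : 1 ≤ l) (h2 : l ≤ f.n j) (h3 : 1 ≤ t)
    (h4 : t ≤ f.n j') : row c.L (f.x j l) (f.x j' t) =
      if j' = j then (if t = l + 1 ∨ l = t + 1 then 1 else 0) else 0 := by
  unfold row
  by_cases hj : j' = j
  · subst hj
    rw [if_pos rfl]
    by_cases ht : t = l + 1 ∨ l = t + 1
    · rw [if_pos ht, if_pos]
      rcases ht with ht | ht
      · rw [ht]
        exact adj_next f j' l h1 (by omega)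
      · rw [ht]
        exact (adj_next f j' t h3 (by omega)).symm
    · rw [if_neg ht, if_neg]
      intro hadj
      exact ht (adj_inner f j' j' l t h1 h2 h3 h4 hadj).2
  · rw [if_neg hj, if_neg]
    intro hadj
    exact hj (adj_inner f j j' l t h1 h2 h3 h4 hadj).1

private theorem alt_val (j : Fin f.m) (i t : ℕ) (hi : i ≤ f.n j) (h3 : 2 ≤ t)
    (h4 : t ≤ f.n j) : f.alt j i (f.x j t) = if t = i then 1 else 0 := by
  unfold Frame.alt
  have h : ∀ l ∈ (range i).filter (fun l => 1 ≤ l ∧ (l + i) % 2 = 1),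
      row c.L (f.x j l) (f.x j t) = if t = l + 1 ∨ l = t + 1 then 1 else 0 := by
    intro l hl
    rw [mem_filter, mem_range] at hl
    rw [row_val f j j l t hl.2.1 (by omega) (by omega) h4, if_pos rfl]
  rw [sum_congr rfl h, two_pt _ t (by omega)]
  simp only [mem_filter, mem_range]
  by_cases c1 : t - 1 < i ∧ 1 ≤ t - 1 ∧ (t - 1 + i) % 2 = 1
  · rw [if_pos c1]
    by_cases c2 : t + 1 < i ∧ 1 ≤ t + 1 ∧ (t + 1 + i) % 2 = 1
    · have c3 : ¬ t = i := by omega
      rw [if_pos c2, if_neg c3]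
      decide
    · have c3 : t = i := by omega
      rw [if_neg c2, if_pos c3, add_zero]
  · rw [if_neg c1]
    have c2 : ¬ (t + 1 < i ∧ 1 ≤ t + 1 ∧ (t + 1 + i) % 2 = 1) := by omega
    have c3 : ¬ t = i := by omega
    rw [if_neg c2, if_neg c3, add_zero]

private theorem icc_val (j : Fin f.m) (i t : ℕ) (hi : i ≤ f.n j) (h3 : 2 ≤ t)
    (h4 : t ≤ f.n j) : ∑ l ∈ Icc 1 i, row c.L (f.x j l) (f.x j t) =
      if t = i ∨ t = i + 1 then 1 else 0 := by
  have h : ∀ l ∈ Icc 1 i,
      row c.L (f.x j l) (f.x j t) = if t = l + 1 ∨ l = t + 1 then 1 else 0 := by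
    intro l hl
    rw [mem_Icc] at hl
    rw [row_val f j j l t hl.1 (by omega) (by omega) h4, if_pos rfl]
  rw [sum_congr rfl h, two_pt _ t (by omega)]
  simp only [mem_Icc]
  by_cases c1 : 1 ≤ t - 1 ∧ t - 1 ≤ i
  · rw [if_pos c1]
    by_cases c2 : 1 ≤ t + 1 ∧ t + 1 ≤ i
    · have c3 : ¬ (t = i ∨ t = i + 1) := by omega
      rw [if_pos c2, if_neg c3]
      decide
    · have c3 : t = i ∨ t = i + 1 := by omega
      rw [if_neg c2, if_pos c3, add_zero]
  · rw [if_neg c1]
    have c2 : ¬ (1 ≤ t + 1 ∧ t + 1 ≤ i) := by omega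
    have c3 : ¬ (t = i ∨ t = i + 1) := by omega
    rw [if_neg c2, if_neg c3, add_zero]

private theorem rv_span (τ : Fin 4) (j : Fin f.m) (i : ℕ) (y : V) : f.rv τ j i y ∈ rowSp c.L := by
  have hrow : ∀ v, row c.L v ∈ rowSp c.L := fun v => Submodule.subset_span ⟨v, rfl⟩
  have e1 : f.rv τ j i y = row c.L y +
      (if τ = 0 ∨ τ = 3 then ∑ l ∈ (range i).filter (fun l => 1 ≤ l ∧ (l + i) % 2 = 1),
        row c.L (f.x j l) else 0) +
      (if τ = 1 then ∑ l ∈ Icc 1 i, row c.L (f.x j l) else 0) +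
      (if τ = 2 ∨ τ = 3 then row c.L (f.x j i) else 0) := by
    funext u
    unfold Frame.rv Frame.alt
    split_ifs <;> simp [Finset.sum_apply]
  rw [e1]
  refine Submodule.add_mem _ (Submodule.add_mem _ (Submodule.add_mem _ (hrow y) ?_) ?_) ?_
  · split_ifs
    · exact Submodule.sum_mem _ fun l _ => hrow _
    · exact Submodule.zero_mem _
  · split_ifs
    · exact Submodule.sum_mem _ fun l _ => hrow _
    · exact Submodule.zero_mem _
  · split_ifs
    · exact hrow _
    · exact Submodule.zero_mem _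

private theorem fin_val (τ : Fin 4) (i t : ℕ) :
    (if Frame.Ty τ i t then (1 : F2) else 0) + (if τ = 0 ∨ τ = 3 then (if t = i then 1 else 0) else 0) +
      (if τ = 1 then (if t = i ∨ t = i + 1 then 1 else 0) else 0) +
      (if τ = 2 ∨ τ = 3 then (if t = i + 1 ∨ i = t + 1 then 1 else 0) else 0) = 0 := by
  have e : (1 : F2) + 1 = 0 := by decide
  rcases (by omega : t = i ∨ t = i + 1 ∨ i = t + 1 ∨ (t ≠ i ∧ t ≠ i + 1 ∧ i ≠ t + 1)) with
    rfl | rfl | rfl | ⟨h1, h2, h3⟩
  · fin_cases τ <;> simp [Frame.Ty, e]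
  · fin_cases τ <;> simp [Frame.Ty, e]
  · have h5 : ¬ t = t + 1 + 1 := by omega
    fin_cases τ <;> simp [Frame.Ty, e, h5]
  · have h4 : ¬ (t + 1 = i) := fun h => h3 h.symm
    fin_cases τ <;> simp [Frame.Ty, h1, h2, h3, h4]

private theorem rv_val (τ : Fin 4) (j : Fin f.m) (i : ℕ) (y : V) (h : f.Tr τ j i y) (j' : Fin f.m)
    (t : ℕ) (h3 : 2 ≤ t) (h4 : t ≤ f.n j') : f.rv τ j i y (f.x j' t) = 0 := by
  obtain ⟨_, hi1, hi2, hadj⟩ := h
  have hy := hadj j' t (by omega) h4
  by_cases hj : j' = j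
  · subst hj
    have hy' : row c.L y (f.x j' t) = if Frame.Ty τ i t then 1 else 0 := by
      unfold row
      by_cases hT : Frame.Ty τ i t
      · rw [if_pos hT, if_pos (hy.2 ⟨rfl, hT⟩)]
      · rw [if_neg hT, if_neg (fun hh => hT (hy.1 hh).2)]
    unfold Frame.rv
    rw [hy', alt_val f j' i t (by omega) h3 h4, icc_val f j' i t (by omega) h3 h4,
      row_val f j' j' i t (by omega) (by omega) (by omega) h4, if_pos rfl]
    exact fin_val τ i t
  · have hy' : row c.L y (f.x j' t) = 0 := by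
      unfold row
      rw [if_neg (fun hh => hj (hy.1 hh).1)]
    have hr : ∀ l, 1 ≤ l → l ≤ f.n j → row c.L (f.x j l) (f.x j' t) = 0 := by
      intro l h1 h2
      rw [row_val f j j' l t h1 h2 (by omega) h4, if_neg hj]
    have ha : f.alt j i (f.x j' t) = 0 := by
      unfold Frame.alt
      refine sum_eq_zero fun l hl => ?_
      rw [mem_filter, mem_range] at hl
      exact hr l hl.2.1 (by omega)
    have hs : ∑ l ∈ Icc 1 i, row c.L (f.x j l) (f.x j' t) = 0 := by
      refine sum_eq_zero fun l hl => ?_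
      rw [mem_Icc] at hl
      exact hr l hl.1 (by omega)
    unfold Frame.rv
    rw [hy', ha, hs, hr i (by omega) (by omega)]
    simp

theorem rv_mem (τ : Fin 4) (j : Fin f.m) (i : ℕ) (y : V) (h : f.Tr τ j i y) : f.rv τ j i y ∈ f.K :=
  ⟨rv_span f τ j i y, fun j' t h3 h4 => rv_val f τ j i y h j' t h3 h4⟩

end Pool.Agent.BEO
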