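import Pool.Agent.BEO.DatB
import Pool.Agent.BEO.Pull

/-!
# BEO-Smp: an optimal set is simple

Edges with equal faces, and pairs of parallel edges, can be deleted without changing the form.
-/

set_option autoImplicit false

open Finset
open scoped Classical

namespace Pool.Agent.BEO

private theorem smp_f2 (y : F2) : y + y = 0 := by
  revert y
  decide

private theorem smp_f2_eq (x y : F2) (h : x + y = 0) : x = y := by
  revert x y
  decide

namespace Dat

variable {k : ℕ} {Φ E Z : Type} [Fintype Φ] [Fintype E] [AddCommGroup Z] [Module F2 Z] [Module.Finite F2 Z]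
  (D : Dat k Φ E Z) {lam mu : Finset E}

omit [Module.Finite F2 Z] in
private theorem smp_small (h : D.Min lam mu) (lam' : Finset E) (hN : D.N lam' = D.N lam) :
    lam.card ≤ lam'.card := by
  refine h.small lam' ?_ ?_
  · intro x
    rw [hN]
    exact h.adm x
  · unfold rkN
    rw [hN]

theorem no_loop (h : D.Min lam mu) (e : E) (he : e ∈ lam) : D.s e ≠ D.t e := by
  intro hst
  have hw : DW D.s D.t (D.s e) (D.s e) [e] :=
    DW.cons (D.s e) (D.s e) (D.s e) e [] (Or.inl ⟨rfl, hst.symm⟩) (DW.nil _)
  have ha := D.wide _ _ hw (by simp)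
  rw [List.map_cons, List.map_nil, List.sum_cons, List.sum_nil, add_zero] at ha
  have hN : D.N (lam.erase e) = D.N lam := by
    unfold N
    rw [Finset.sum_erase]
    rw [ha]
    ext x y
    simp
  have h1 := D.smp_small h _ hN
  have h2 := Finset.card_erase_lt_of_mem he
  omega

theorem no_digon (h : D.Min lam mu) (e e' : E) (he : e ∈ lam) (he' : e' ∈ lam)
    (hh : s(D.s e, D.t e) = s(D.s e', D.t e')) : e = e' := by
  by_contra hne
  have hst : (D.s e' = D.t e ∧ D.t e' = D.s e) ∨ (D.s e' = D.s e ∧ D.t e' = D.t e) := by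
    rw [Sym2.eq_iff] at hh
    rcases hh with ⟨h1, h2⟩ | ⟨h1, h2⟩
    · exact Or.inr ⟨h1.symm, h2.symm⟩
    · exact Or.inl ⟨h2.symm, h1.symm⟩
  have hw : DW D.s D.t (D.s e) (D.s e) [e, e'] := by
    refine DW.cons (D.s e) (D.t e) (D.s e) e [e'] (Or.inl ⟨rfl, rfl⟩) ?_
    refine DW.cons (D.t e) (D.s e) (D.s e) e' [] ?_ (DW.nil _)
    rcases hst with h1 | h1
    · exact Or.inl h1
    · exact Or.inr h1
  have ha := D.wide _ _ hw (by simp)
  rw [List.map_cons, List.map_cons, List.map_nil, List.sum_cons, List.sum_cons, List.sum_nil,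
    add_zero] at ha
  have haa : D.a e = D.a e' := by
    ext x
    exact smp_f2_eq _ _ (LinearMap.congr_fun ha x)
  have he'' : e' ∈ lam.erase e := Finset.mem_erase.mpr ⟨Ne.symm hne, he'⟩
  have hN : D.N ((lam.erase e).erase e') = D.N lam := by
    unfold N
    rw [← Finset.add_sum_erase lam _ he, ← Finset.add_sum_erase (lam.erase e) _ he'', haa]
    ext x y
    simp only [LinearMap.add_apply]
    have h1 := smp_f2 (((D.a e').smulRight (D.a e') x) y)
    linear_combination (-1) * h1
  have h1 := D.smp_small h _ hN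
  have h2 := Finset.card_erase_lt_of_mem he
  have h3 := Finset.card_erase_lt_of_mem he''
  omega

end Dat

end Pool.Agent.BEO
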