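import Pool.Agent.BEO.Dat
import Pool.Agent.Helper35.OG.Basic

/-!
# BEO: the cycle space and the form of a map
-/

set_option autoImplicit false

open Finset
open scoped Classical

namespace Pool.Agent.BEO

open Pool.Agent.Helper35.OG (Flag GMap across side across_across side_side across_ne side_ne side_fst across_fst vertex_const
  all_const exists_flag face_nxt face_across face_surj nxt_inj sum_inv eqvGen_eq IsBand)

variable {V : Type} {G : SimpleGraph V}

/-- the edge of a flag -/
def ed (p : Flag G) : G.edgeSet := ⟨p.1.edge, p.1.edge_mem⟩

theorem ed_side (p : Flag G) : ed (side p) = ed p := rfl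

theorem ed_across (p : Flag G) : ed (across p) = ed p := by
  apply Subtype.ext
  exact p.1.edge_symm

theorem ed_surj (e : G.edgeSet) : ∃ p : Flag G, ed p = e := by
  obtain ⟨e, he⟩ := e
  induction e using Sym2.ind with
  | _ u v => exact ⟨(⟨(u, v), he⟩, true), rfl⟩

/-- a flag of an edge -/
noncomputable def rp (e : G.edgeSet) : Flag G := Classical.choose (ed_surj e)

theorem ed_rp (e : G.edgeSet) : ed (rp e) = e := Classical.choose_spec (ed_surj e)

/-- the cycle space: functions on the edges with sum 0 at every vertex -/
noncomputable def cyc [Fintype V] (G : SimpleGraph V) : Submodule F2 (G.edgeSet → F2) where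
  carrier := {z | ∀ v, ∑ d ∈ univ.filter (fun d : G.Dart => d.fst = v), z (ed (d, true)) = 0}
  add_mem' := by
    intro z z' h h' v
    simp only [Pi.add_apply, Finset.sum_add_distrib]
    rw [h v, h' v, add_zero]
  zero_mem' := by intro v; simp
  smul_mem' := by
    intro r z h v
    simp only [Pi.smul_apply]
    rw [← Finset.smul_sum, h v, smul_zero]

/-- `L` is constant on the corners and changes across the edges of `z`. -/
def IsL (M : GMap G) (z : G.edgeSet → F2) (L : Flag G → F2) : Prop :=
  (∀ p, L (M.nxt p) = L p) ∧ ∀ p, L p + L (side p) = z (ed p)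

/-- the difference of `L` along an edge -/
noncomputable def dL (L : Flag G → F2) (e : G.edgeSet) : F2 := L (rp e) + L (across (rp e))

/-- the coordinate at an edge -/
noncomputable def ev [Fintype V] (e : G.edgeSet) : cyc G →ₗ[F2] F2 where
  toFun z := z.1 e
  map_add' _ _ := rfl
  map_smul' _ _ := rfl

/-- Every closed walk of length at most 6 of the dual graph (given by flags `p` which are crossed from the face of `p` to
the face of `side p`) crosses every cycle of the graph an even number of times. -/
def Wide [Fintype V] (S : GMap G) : Prop :=
  ∀ l : List (Flag G), l.length ≤ 6 → (∀ i (h : i < l.length),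
    S.face (side l[i]) = S.face (l[(i + 1) % l.length]'(Nat.mod_lt _ (Nat.zero_lt_of_lt h)))) →
    ∀ z ∈ cyc G, (l.map fun p => z (ed p)).sum = 0

end Pool.Agent.BEO
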