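import Pool.Agent.BEO.FacS
import Pool.Agent.BEO.BfsS
import Pool.Agent.BEO.DWB

/-!
# BEO-WlkS: the canonical walks

`es` is any list of `k` codes. `lbs` is the sum of the labels of a list of codes.
By `bfs_complete`, `bfs_sound` and the dictionary between walks of `arD` and walks in the dual graph.
-/

set_option autoImplicit false

open Finset
open scoped Classical

namespace Pool.Agent.BEO

open Pool.Agent.Helper35.OG (Flag GMap across side across_across side_side across_ne side_ne side_fst across_fst vertex_const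
  all_const exists_flag face_nxt face_across face_surj nxt_inj sum_inv eqvGen_eq IsBand)

variable {n : ℕ} {G : SimpleGraph (Fin n)}

/-- the sum of the labels of a list of codes -/
def lbs (l : Inp) (es : List Ec) (w : List Ec) : List Bool := es.map fun e => (w.map fun a => par (zl l e) a).foldl xor false

private theorem wk_faces (S : GMap G) (p : Flag G) :
    (S.face (rp (ed p)) = S.face p ∧ S.face (side (rp (ed p))) = S.face (side p)) ∨
      (S.face (rp (ed p)) = S.face (side p) ∧ S.face (side (rp (ed p))) = S.face p) := by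
  obtain ⟨r, hr⟩ : ∃ r, r = rp (ed p) := ⟨_, rfl⟩
  have h1 : ed r = ed p := by
    rw [hr]
    exact ed_rp _
  rw [← hr]
  have h2 : r.1.edge = p.1.edge := congrArg Subtype.val h1
  obtain ⟨rd, rb⟩ := r
  obtain ⟨pd, pb⟩ := p
  have hac : S.face (side (across (pd, pb))) = S.face (side (pd, pb)) := by
    have h3 : side (across (pd, pb)) = across (side (pd, pb)) := rfl
    rw [h3, face_across]
  rcases SimpleGraph.dart_edge_eq_iff rd pd |>.1 h2 with h3 | h3
  · subst h3
    by_cases hb : rb = pb
    · subst hb
      exact Or.inl ⟨rfl, rfl⟩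
    · have h4 : rb = !pb := by
        revert hb
        cases rb <;> cases pb <;> decide
      right
      have h5 : ((rd, rb) : Flag G) = side (rd, pb) := by
        rw [h4]
        rfl
      rw [h5, side_side]
      exact ⟨rfl, rfl⟩
  · by_cases hb : rb = pb
    · right
      have h5 : ((rd, rb) : Flag G) = side (across (pd, pb)) := by
        rw [h3, hb]
        change (pd.symm, pb) = (pd.symm, !(!pb))
        rw [Bool.not_not]
      rw [h5, side_side, hac, face_across]
      exact ⟨rfl, rfl⟩
    · have h4 : rb = !pb := by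
        revert hb
        cases rb <;> cases pb <;> decide
      left
      have h5 : ((rd, rb) : Flag G) = across (pd, pb) := by
        rw [h3, h4]
        rfl
      rw [h5, hac, face_across]
      exact ⟨rfl, rfl⟩

/-- the edge of `p` joins the faces of `p` and `side p` -/
private theorem wk_join (S : GMap G) (p : Flag G) :
    (S.face (rp (ed p)) = S.face p ∧ S.face (side (rp (ed p))) = S.face (side p)) ∨
      (S.face (rp (ed p)) = S.face (side p) ∧ S.face (side (rp (ed p))) = S.face p) :=
  wk_faces S p

/-- a flag over `e` with prescribed order of the faces -/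
private theorem wk_flag (S : GMap G) (e : G.edgeSet) (F H : S.Face)
    (h : (S.face (rp e) = F ∧ S.face (side (rp e)) = H) ∨
      (S.face (rp e) = H ∧ S.face (side (rp e)) = F)) :
    ∃ p : Flag G, ed p = e ∧ S.face p = F ∧ S.face (side p) = H := by
  rcases h with ⟨h1, h2⟩ | ⟨h1, h2⟩
  · exact ⟨rp e, ed_rp e, h1, h2⟩
  · refine ⟨side (rp e), ?_, h2, ?_⟩
    · rw [ed_side, ed_rp]
    · rw [side_side]
      exact h1

/-- the state of a walk -/
private noncomputable def stt (l : Inp) (es : List Ec) (q : Flag G) (u : List G.edgeSet) : Stt :=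
  (fcl l (cod q), (lbs l es (u.map ec), decide (u.length % 2 = 1)))

private theorem lbs_single (l : Inp) (es : List Ec) (a : Ec) : lbs l es [a] = lb l es a := by
  unfold lbs lb
  refine List.map_congr_left fun e _ => ?_
  change xor false (par (zl l e) a) = _
  rw [Bool.false_xor]

private theorem lbs_snoc (l : Inp) (es : List Ec) (w : List Ec) (a : Ec) :
    lbs l es (w ++ [a]) = xo (lbs l es w) (lb l es a) := by
  unfold lbs lb xo
  rw [List.zipWith_map, List.zipWith_self]
  refine List.map_congr_left fun e _ => ?_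
  rw [List.map_append, List.foldl_append]
  rfl

private theorem lbs_mem (l : Inp) (es : List Ec) (k : ℕ) (hes : es.length = k) (w : List Ec) :
    lbs l es w ∈ bvs k := by
  unfold bvs
  rw [mem_tup]
  refine ⟨?_, fun x _ => ?_⟩
  · unfold lbs
    rw [List.length_map, hes]
  · cases x <;> simp

private theorem stt_snoc (l : Inp) (es : List Ec) (q : Flag G) (u : List G.edgeSet)
    (e : G.edgeSet) : stt l es q (u ++ [e]) =
      (fcl l (cod q), (xo (lbs l es (u.map ec)) (lb l es (ec e)), !decide (u.length % 2 = 1))) := by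
  unfold stt
  rw [List.map_append]
  change (_, (lbs l es (u.map ec ++ [ec e]), _)) = _
  rw [lbs_snoc, List.length_append, List.length_singleton]
  have h : decide ((u.length + 1) % 2 = 1) = !decide (u.length % 2 = 1) := by
    by_cases h1 : u.length % 2 = 1
    · have h2 : ¬ (u.length + 1) % 2 = 1 := by omega
      rw [decide_eq_true h1, decide_eq_false h2]
      rfl
    · have h2 : (u.length + 1) % 2 = 1 := by omega
      rw [decide_eq_false h1, decide_eq_true h2]
      rfl
  rw [h]

/-- an arc -/
private theorem wk_arc {S : GMap G} {l : Inp} (h : Codes S l) (k : ℕ) (es : List Ec)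
    (hes : es.length = k) (p q : Flag G) (u : List G.edgeSet) (hpq : S.face p = S.face q) :
    ((stt l es q u, stt l es (side p) (u ++ [ed p])), ec (ed p)) ∈ arD k l es := by
  unfold arD
  rw [List.mem_flatMap]
  refine ⟨cod p, (mem_fl h _).2 ⟨p, rfl⟩, ?_⟩
  rw [List.mem_flatMap]
  refine ⟨lbs l es (u.map ec), lbs_mem l es k hes _, ?_⟩
  rw [List.mem_map]
  refine ⟨decide (u.length % 2 = 1), ?_, ?_⟩
  · cases decide (u.length % 2 = 1) <;> simp
  · rw [stt_snoc, ek_cod, sd_cod, (fcl_iff h p q).2 hpq]
    rfl

/-- walks in the dual graph are walks of `arD` -/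
private theorem wk_aw {S : GMap G} {l : Inp} (h : Codes S l) (k : ℕ) (es : List Ec)
    (hes : es.length = k) {F F' : S.Face} {w : List G.edgeSet}
    (hw : DW (fun e => S.face (rp e)) (fun e => S.face (side (rp e))) F F' w) :
    ∀ (u : List G.edgeSet) (q : Flag G) (x0 : Stt) (l0 : List Ec), S.face q = F →
      AW (arD k l es) x0 (stt l es q u) l0 →
      ∃ q', S.face q' = F' ∧ AW (arD k l es) x0 (stt l es q' (u ++ w)) (l0 ++ w.map ec) := by
  induction hw with
  | nil F =>
    intro u q x0 l0 hq hA
    refine ⟨q, hq, ?_⟩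
    rw [List.append_nil, List.map_nil, List.append_nil]
    exact hA
  | cons F G1 H e w1 he _ ih =>
    intro u q x0 l0 hq hA
    obtain ⟨p, hp1, hp2, hp3⟩ := wk_flag S e F G1 he
    have h1 := wk_arc h k es hes p q u (hp2.trans hq.symm)
    rw [hp1] at h1
    have h2 := AW.snoc _ _ _ _ _ hA h1
    obtain ⟨q', hq', hA'⟩ := ih (u ++ [e]) (side p) x0 (l0 ++ [ec e]) hp3 h2
    refine ⟨q', hq', ?_⟩
    rw [List.append_assoc, List.append_assoc] at hA'
    exact hA'

/-- walks of `arD` are walks in the dual graph -/
private theorem wk_dw {S : GMap G} {l : Inp} (h : Codes S l) (k : ℕ) (es : List Ec) (r : Flag G)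
    {x y : Stt} {l1 : List Ec} (hA : AW (arD k l es) x y l1) :
    x = stt l es (side r) [ed r] → ∃ (w1 : List G.edgeSet) (q1 : Flag G), l1 = w1.map ec ∧
      DW (fun e => S.face (rp e)) (fun e => S.face (side (rp e))) (S.face r) (S.face q1)
        (ed r :: w1) ∧ y = stt l es q1 (ed r :: w1) := by
  induction hA with
  | nil =>
    intro hx
    refine ⟨[], side r, rfl, ?_, hx⟩
    exact DW.cons _ (S.face (side r)) _ _ _ (wk_join S r) (DW.nil _)
  | snoc y z i l0 _ hi ih =>
    intro hx
    obtain ⟨w1, q1, e1, hD, hy⟩ := ih hx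
    unfold arD at hi
    rw [List.mem_flatMap] at hi
    obtain ⟨c, hc, hi⟩ := hi
    rw [List.mem_flatMap] at hi
    obtain ⟨v, -, hi⟩ := hi
    rw [List.mem_map] at hi
    obtain ⟨b, -, hi⟩ := hi
    obtain ⟨r', rfl⟩ := (mem_fl h c).1 hc
    rw [ek_cod, sd_cod] at hi
    have h1 : (fcl l (cod r'), (v, b)) = y := congrArg (fun t => t.1.1) hi
    have h2 : (fcl l (cod (side r')), (xo v (lb l es (ec (ed r'))), !b)) = z :=
      congrArg (fun t => t.1.2) hi
    have h3 : ec (ed r') = i := congrArg (fun t => t.2) hi
    rw [hy] at h1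
    have h4 : fcl l (cod r') = fcl l (cod q1) := congrArg (fun t => t.1) h1
    have h5 : v = lbs l es ((ed r :: w1).map ec) := congrArg (fun t => t.2.1) h1
    have h6 : b = decide ((ed r :: w1).length % 2 = 1) := congrArg (fun t => t.2.2) h1
    have h7 := (fcl_iff h r' q1).1 h4
    refine ⟨w1 ++ [ed r'], side r', ?_, ?_, ?_⟩
    · rw [List.map_append, ← e1, ← h3]
      rfl
    · rw [← List.cons_append]
      refine DW.snoc hD ?_
      rw [← h7]
      exact wk_join S r'
    · rw [← List.cons_append, stt_snoc, ← h5, ← h6, h2]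

theorem wlk_complete {S : GMap G} {l : Inp} (h : Codes S l) (k : ℕ) (es : List Ec) (hes : es.length = k)
    (F F' : S.Face) (w : List G.edgeSet) (hw : DW (fun e => S.face (rp e)) (fun e => S.face (side (rp e))) F F' w)
    (hne : w ≠ []) : ∃ w' : List G.edgeSet, w'.map ec ∈ wlk k l es ∧ w' ≠ [] ∧ w'.length ≤ w.length ∧
      (w'.length + w.length) % 2 = 0 ∧
      DW (fun e => S.face (rp e)) (fun e => S.face (side (rp e))) F F' w' ∧
      lbs l es (w'.map ec) = lbs l es (w.map ec) := by
  cases hw with
  | nil => exact absurd rfl hne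
  | cons _ G1 _ e rest he hrest =>
    obtain ⟨p, hp1, hp2, hp3⟩ := wk_flag S e F G1 he
    have hx0 : stt l es (side p) [e] = (fcl l (sd (cod p)), (lb l es (ek (cod p)), true)) := by
      unfold stt
      change (fcl l (cod (side p)), (lbs l es [ec e], decide (1 % 2 = 1))) = _
      rw [lbs_single, ek_cod, sd_cod, hp1]
      rfl
    obtain ⟨q', hq', hA⟩ := wk_aw h k es hes hrest [e] (side p) (stt l es (side p) [e]) [] hp3
      (AW.nil _)
    rw [List.nil_append] at hA
    have hini : (stt l es (side p) [e], [ec e]) ∈ ini l es (cod p) := by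
      unfold ini
      rw [List.mem_map]
      refine ⟨cod p, ?_, ?_⟩
      · rw [List.mem_filter]
        exact ⟨(mem_fl h _).2 ⟨p, rfl⟩, decide_eq_true rfl⟩
      · rw [hx0, ek_cod, hp1]
    have hL : ∀ t ∈ ini l es (cod p), t.2.length = 1 := by
      intro t ht
      unfold ini at ht
      rw [List.mem_map] at ht
      obtain ⟨c, -, hc⟩ := ht
      rw [← hc]
      rfl
    obtain ⟨l', hl', hlen⟩ := bfs_complete (arD k l es) (ini l es (cod p)) 1 hL _ _ _ _ hini hA
    obtain ⟨x, l0', l1', hx, hA1, hl1⟩ := bfs_sound _ _ _ _ hl'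
    unfold ini at hx
    rw [List.mem_map] at hx
    obtain ⟨c, hc, hcx⟩ := hx
    rw [List.mem_filter] at hc
    obtain ⟨r, rfl⟩ := (mem_fl h c).1 hc.1
    have hr : S.face r = S.face p := (fcl_iff h r p).1 (of_decide_eq_true hc.2)
    rw [ek_cod, sd_cod] at hcx
    have hx1 : x = stt l es (side r) [ed r] := by
      have h1 : (fcl l (cod (side r)), (lb l es (ec (ed r)), true)) = x := congrArg Prod.fst hcx
      rw [← h1]
      unfold stt
      change _ = (fcl l (cod (side r)), (lbs l es [ec (ed r)], decide (1 % 2 = 1)))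
      rw [lbs_single]
      rfl
    have hl0 : [ec (ed r)] = l0' := congrArg Prod.snd hcx
    obtain ⟨w1, q1, e1, hD, hy⟩ := wk_dw h k es r hA1 hx1
    have hmap : (ed r :: w1).map ec = l' := by
      rw [hl1, ← hl0, e1]
      rfl
    have h4 : fcl l (cod q') = fcl l (cod q1) := congrArg (fun t => t.1) hy
    have h5 : lbs l es (([e] ++ rest).map ec) = lbs l es ((ed r :: w1).map ec) :=
      congrArg (fun t => t.2.1) hy
    have h6 : decide (([e] ++ rest).length % 2 = 1) = decide ((ed r :: w1).length % 2 = 1) :=
      congrArg (fun t => t.2.2) hy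
    have h7 : S.face q1 = F' := ((fcl_iff h q' q1).1 h4).symm.trans hq'
    refine ⟨ed r :: w1, ?_, List.cons_ne_nil _ _, ?_, ?_, ?_, ?_⟩
    · rw [hmap]
      unfold wlk
      rw [List.mem_flatMap]
      refine ⟨cod p, (mem_fl h _).2 ⟨p, rfl⟩, ?_⟩
      rw [List.mem_map]
      exact ⟨_, hl', rfl⟩
    · have h8 : (ed r :: w1).length = l'.length := by
        rw [← hmap, List.length_map]
      rw [h8, List.length_cons]
      rw [List.length_map] at hlen
      omega
    · have h8 : ([e] ++ rest).length % 2 = 1 ↔ (ed r :: w1).length % 2 = 1 := by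
        rw [← decide_eq_true_iff (p := ([e] ++ rest).length % 2 = 1), h6, decide_eq_true_iff]
      have h9 : ([e] ++ rest).length = (e :: rest).length := rfl
      rw [h9] at h8
      omega
    · rw [← h7]
      rw [hr, hp2] at hD
      exact hD
    · exact h5.symm

end Pool.Agent.BEO
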