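import Pool.Agent.BEO.CntT
import Pool.Agent.BEO.Typ
import Pool.Agent.BEO.KB

/-!
# BEO-Yb: a bounded number of vertices outside `M`

Types (`card_type`) and traces near the ends of the segments (`card_trace`).
-/

set_option autoImplicit false

open Finset
open scoped Classical

namespace Pool.Agent.BEO

private theorem yb_mem {α : Type} {p : α → Prop} (i : DecidablePred p) {s : Finset α} {a : α} :
    a ∈ @Finset.filter α p i s ↔ a ∈ s ∧ p a := @Finset.mem_filter α p i s a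

private theorem yb_ends {k C : ℕ} {V Q : Type} [Fintype V] [AddCommGroup Q] [Module F2 Q] {c : Cfg k V Q}
    (f : Frame C c) : (univ.filter fun y => y ∈ vs c.L ∧ ∀ j l, 1 ≤ l → l ≤ f.n j →
      c.L.Adj y (f.x j l) → l < 20 ∨ f.n j < l + 20).card ≤ Nat.card f.K * 2 ^ (40 * f.m) := by
  set Y2 : Finset V := univ.filter fun y => y ∈ vs c.L ∧ ∀ j l, 1 ≤ l → l ≤ f.n j →
      c.L.Adj y (f.x j l) → l < 20 ∨ f.n j < l + 20 with hY2
  obtain ⟨idx, hidx⟩ : ∃ idx : Fin f.m → Fin 40 → ℕ, ∀ j t, idx j t =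
      if (t : ℕ) < 20 then (t : ℕ) else f.n j - ((t : ℕ) - 20) := ⟨_, fun _ _ => rfl⟩
  obtain ⟨T, hT⟩ : ∃ T : V → Finset (Fin f.m × Fin 40), ∀ y p,
      p ∈ T y ↔ c.L.Adj y (f.x p.1 (idx p.1 p.2)) :=
    ⟨fun y => univ.filter fun p => c.L.Adj y (f.x p.1 (idx p.1 p.2)), fun y p => by
      rw [mem_filter]
      exact ⟨fun h => h.2, fun h => ⟨mem_univ _, h⟩⟩⟩
  have h1 : Y2.card ≤ Nat.card f.K * (Y2.image T).card := by
    refine card_le_mul_card_image Y2 (Nat.card f.K) ?_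
    intro a _
    refine le_trans (card_le_card ?_) (card_trace f (fun j l => ∃ t : Fin 40, (j, t) ∈ a ∧ idx j t = l))
    intro y hy
    obtain ⟨hy1, hya⟩ := (yb_mem _).mp hy
    rw [hY2] at hy1
    obtain ⟨_, hyL, hyE⟩ := (yb_mem _).mp hy1
    refine (yb_mem _).mpr ⟨mem_univ _, hyL, ?_⟩
    intro j l hl1 hl2
    constructor
    · intro hadj
      rcases hyE j l hl1 hl2 hadj with h | h
      · refine ⟨⟨l, by omega⟩, ?_, ?_⟩
        · rw [← hya, hT]
          have : idx j ⟨l, by omega⟩ = l := by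
            rw [hidx, if_pos h]
          show c.L.Adj y (f.x j (idx j ⟨l, _⟩))
          rw [this]
          exact hadj
        · rw [hidx, if_pos h]
      · have h40 : 20 + (f.n j - l) < 40 := by omega
        have hi : idx j ⟨20 + (f.n j - l), h40⟩ = l := by
          rw [hidx, if_neg (by show ¬ (20 + (f.n j - l) < 20); omega)]
          show f.n j - (20 + (f.n j - l) - 20) = l
          omega
        refine ⟨⟨20 + (f.n j - l), h40⟩, ?_, hi⟩
        rw [← hya, hT]
        show c.L.Adj y (f.x j (idx j ⟨20 + (f.n j - l), h40⟩))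
        rw [hi]
        exact hadj
    · rintro ⟨t, ht, hil⟩
      rw [← hya, hT] at ht
      have h3 : c.L.Adj y (f.x j (idx j t)) := ht
      rw [hil] at h3
      exact h3
  have h2 : (Y2.image T).card ≤ 2 ^ (40 * f.m) := by
    refine le_trans (card_le_univ _) ?_
    rw [Fintype.card_finset, Fintype.card_prod, Fintype.card_fin, Fintype.card_fin, mul_comm f.m 40]
  exact h1.trans (Nat.mul_le_mul_left _ h2)

private theorem yb_deep {k C : ℕ} {V Q : Type} [Fintype V] [AddCommGroup Q] [Module F2 Q] {c : Cfg k V Q}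
    (f : Frame C c) : ((univ : Finset (Fin 4 × Fin f.m)).biUnion fun p =>
      univ.filter fun y => ∃ i, f.Tr p.1 p.2 i y).card ≤ 4 * f.m * (80 * (Nat.card f.K) ^ 2) := by
  refine le_trans (card_biUnion_le_card_mul _ _ (80 * (Nat.card f.K) ^ 2) ?_) ?_
  · intro p _
    exact card_type f p.1 p.2
  · rw [card_univ, Fintype.card_prod, Fintype.card_fin, Fintype.card_fin]

theorem card_out (k C : ℕ) : ∃ C1 : ℕ, ∀ (V Q : Type) [Fintype V] [AddCommGroup Q] [Module F2 Q] (c : Cfg k V Q)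
    (_ : Frame C c), (univ.filter fun y => y ∈ vs c.L ∧ y ∉ vs c.M).card ≤ C1 := by
  refine ⟨4 * C * (80 * (2 ^ (2 * k + 2 * C)) ^ 2) + 2 ^ (2 * k + 2 * C) * 2 ^ (40 * C), ?_⟩
  intro V Q _ _ _ c f
  have hκ : Nat.card f.K ≤ 2 ^ (2 * k + 2 * C) := card_K f
  have hm := f.hm
  have hsub : (univ.filter fun y => y ∈ vs c.L ∧ y ∉ vs c.M) ⊆
      ((univ : Finset (Fin 4 × Fin f.m)).biUnion fun p =>
        univ.filter fun y => ∃ i, f.Tr p.1 p.2 i y) ∪
      (univ.filter fun y => y ∈ vs c.L ∧ ∀ j l, 1 ≤ l → l ≤ f.n j →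
        c.L.Adj y (f.x j l) → l < 20 ∨ f.n j < l + 20) := by
    intro y hy
    rw [mem_filter] at hy
    rw [mem_union]
    by_cases h : ∃ j l, 20 ≤ l ∧ l + 20 ≤ f.n j ∧ c.L.Adj y (f.x j l)
    · left
      obtain ⟨j, l, h1, h2, h3⟩ := h
      obtain ⟨τ, i, hTr⟩ := exists_type f y hy.2.2 j l h1 h2 h3
      rw [mem_biUnion]
      exact ⟨(τ, j), mem_univ _, by rw [mem_filter]; exact ⟨mem_univ _, i, hTr⟩⟩
    · right
      refine (yb_mem _).mpr ⟨mem_univ _, hy.2.1, ?_⟩
      intro j l h1 h2 h3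
      by_contra hcon
      push Not at hcon
      exact h ⟨j, l, hcon.1, hcon.2, h3⟩
  calc (univ.filter fun y => y ∈ vs c.L ∧ y ∉ vs c.M).card
      ≤ _ := card_le_card hsub
    _ ≤ _ := card_union_le _ _
    _ ≤ 4 * f.m * (80 * (Nat.card f.K) ^ 2) + Nat.card f.K * 2 ^ (40 * f.m) :=
        Nat.add_le_add (yb_deep f) (yb_ends f)
    _ ≤ 4 * C * (80 * (2 ^ (2 * k + 2 * C)) ^ 2) + 2 ^ (2 * k + 2 * C) * 2 ^ (40 * C) := by
        refine Nat.add_le_add ?_ ?_
        · exact Nat.mul_le_mul (Nat.mul_le_mul_left _ hm)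
            (Nat.mul_le_mul_left _ (Nat.pow_le_pow_left hκ 2))
        · exact Nat.mul_le_mul hκ (Nat.pow_le_pow_right (by norm_num) (Nat.mul_le_mul_left _ hm))

end Pool.Agent.BEO
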